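import Pool.Agent.Lib.MP_892d22_co.Defs

namespace Pool.Agent.Lib.MP_892d22_co

open Matrix

/-- A description of a reflexive polytope by vertices and facets, with a face equivalent to `P`. -/
def Cert {κ : Type} (P : Set (κ → ℝ)) (ι : Type) [Fintype ι] : Prop :=
  ∃ V H : Set (ι → ℝ), V.Finite ∧ V ⊆ intPts ι ∧ H.Finite ∧ H ⊆ intPts ι ∧
    convexHull ℝ V = {x | ∀ η ∈ H, -1 ≤ x ⬝ᵥ η} ∧
    ∃ (l : (ι → ℝ) →ₗ[ℝ] ℝ) (c : ℝ) (A : (κ → ℝ) →ₗ[ℝ] (ι → ℝ)) (b : ι → ℝ),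
      (∀ x ∈ convexHull ℝ V, l x ≤ c) ∧ Function.Injective A ∧
      (fun x => A x + b) '' P = {x ∈ convexHull ℝ V | l x = c} ∧
      ∀ x, x ∈ intPts κ ↔ A x + b ∈ intPts ι

lemma exists_sep {ι : Type} [Fintype ι] {S : Set (ι → ℝ)} (hS : S.Finite)
    (h0 : (0 : ι → ℝ) ∈ convexHull ℝ S) {y : ι → ℝ} (hy : y ∉ convexHull ℝ S) :
    ∃ x : ι → ℝ, y ⬝ᵥ x < -1 ∧ ∀ z ∈ convexHull ℝ S, -1 ≤ z ⬝ᵥ x := by
  classical
  obtain ⟨f, u, hfy, hf⟩ := geometric_hahn_banach_point_closed (convex_convexHull ℝ S)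
    (hS.isCompact_convexHull ℝ).isClosed hy
  have hu : u < 0 := by simpa using hf 0 h0
  have hrep : ∀ z : ι → ℝ, z ⬝ᵥ (fun i => f (Pi.single i 1) / (-u)) = f z / (-u) := by
    intro z
    conv_rhs => rw [← Finset.univ_sum_single z, map_sum, Finset.sum_div]
    refine Finset.sum_congr rfl fun i _ => ?_
    have : (Pi.single i (z i) : ι → ℝ) = z i • (Pi.single i 1 : ι → ℝ) := by
      rw [← Pi.single_smul, smul_eq_mul, mul_one]
    rw [this, map_smul, smul_eq_mul, mul_div_assoc]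
  refine ⟨fun i => f (Pi.single i 1) / (-u), ?_, fun z hz => ?_⟩
  · rw [hrep, div_lt_iff₀ (by linarith)]; linarith
  · rw [hrep, le_div_iff₀ (by linarith)]; linarith [hf z hz]

lemma convex_halfspaces {ι : Type} [Fintype ι] (H : Set (ι → ℝ)) :
    Convex ℝ {x : ι → ℝ | ∀ η ∈ H, -1 ≤ x ⬝ᵥ η} := by
  intro x hx y hy a b ha hb hab η hη
  rw [add_dotProduct, smul_dotProduct, smul_dotProduct, smul_eq_mul, smul_eq_mul]
  nlinarith [hx η hη, hy η hη]

lemma Cert.isReflexiveFace {n m : ℕ} {P : Set (Fin n → ℝ)} (h : Cert P (Fin m)) :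
    IsReflexiveFace P m := by
  obtain ⟨V, H, hV, hVi, hH, hHi, hVH, l, c, A, b, hl, hA, hF, hint⟩ := h
  refine ⟨convexHull ℝ V, {x ∈ convexHull ℝ V | l x = c}, ⟨⟨V, hV, hVi, rfl⟩, ?_, ?_⟩, ?_, ?_⟩
  · rw [hVH, mem_interior_iff_mem_nhds]
    have h1 : ∀ η ∈ H, {x : Fin m → ℝ | -1 ≤ x ⬝ᵥ η} ∈ nhds (0 : Fin m → ℝ) := by
      intro η _
      have h2 : IsOpen {x : Fin m → ℝ | -1 < x ⬝ᵥ η} :=
        isOpen_lt continuous_const (by unfold dotProduct; fun_prop)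
      exact Filter.mem_of_superset (h2.mem_nhds (by simp)) fun x (hx : -1 < x ⬝ᵥ η) => hx.le
    have h3 := (Filter.biInter_mem hH).2 h1
    refine Filter.mem_of_superset h3 fun x hx η hη => ?_
    exact Set.mem_iInter₂.1 hx η hη
  · refine ⟨insert 0 H, hH.insert 0, Set.insert_subset (fun i => ⟨0, by simp⟩) hHi, ?_⟩
    apply Set.Subset.antisymm
    · intro y hy
      by_contra hy'
      obtain ⟨x, hx1, hx2⟩ := exists_sep (hH.insert 0)
        (subset_convexHull ℝ _ (Set.mem_insert _ _)) hy'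
      have hx : x ∈ convexHull ℝ V := by
        rw [hVH]
        intro η hη
        rw [dotProduct_comm]
        exact hx2 η (subset_convexHull ℝ _ (Set.mem_insert_of_mem _ hη))
      have h4 : -1 ≤ x ⬝ᵥ y := hy x hx
      rw [dotProduct_comm] at h4
      linarith
    · have h5 : dualBody (convexHull ℝ V) = {y | ∀ η ∈ convexHull ℝ V, -1 ≤ y ⬝ᵥ η} := by
        ext y
        simp only [dualBody, Set.mem_ofPred_eq, dotProduct_comm y]
        rfl
      rw [h5]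
      refine convexHull_min ?_ (convex_halfspaces _)
      rintro y (rfl | hy) x hx
      · simp
      · rw [hVH] at hx
        rw [dotProduct_comm]
        exact hx y hy
  · rintro ⟨x₀, hx₀, hx₀c⟩
    refine ⟨LinearMap.toContinuousLinearMap l, ?_⟩
    ext x
    simp only [Set.mem_ofPred_eq, LinearMap.coe_toContinuousLinearMap']
    refine and_congr_right fun hx => ⟨fun h y hy => h ▸ hl y hy, fun h => ?_⟩
    exact le_antisymm (hl x hx) (hx₀c ▸ h x₀ hx₀)
  · refine ⟨A.toAffineMap + AffineMap.const ℝ _ b, fun x y hxy => hA ?_, hF, ?_⟩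
    · exact add_right_cancel hxy
    · ext y
      constructor
      · rintro ⟨x, hx, rfl⟩
        exact ⟨(hint x).1 hx, x, rfl⟩
      · rintro ⟨hy, x, rfl⟩
        exact ⟨x, (hint x).2 hy, rfl⟩

lemma IsReflexiveFace.cert {n m : ℕ} {P : Set (Fin n → ℝ)} (hP : P.Nonempty)
    (h : IsReflexiveFace P m) : Cert P (Fin m) := by
  obtain ⟨Q, F, ⟨⟨V, hV, hVi, rfl⟩, h0, H, hH, hHi, hD⟩, hexp, φ, hφ, hF, hint⟩ := h
  have hFne : F.Nonempty := hF ▸ hP.image φ
  obtain ⟨l, hl⟩ := hexp hFne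
  obtain ⟨x₀, hx₀⟩ := hFne
  have hx₀' := hx₀
  rw [hl] at hx₀'
  have hdec : ∀ x, φ x = φ.linear x + φ 0 := fun x => by
    have := φ.map_vadd 0 x
    simpa using this
  refine ⟨V, H, hV, hVi, hH, hHi, ?_, l, l x₀, φ.linear, φ 0, hx₀'.2, ?_, ?_, ?_⟩
  · apply Set.Subset.antisymm
    · intro x hx η hη
      have h1 : η ∈ dualBody (convexHull ℝ V) := hD ▸ subset_convexHull ℝ _ hη
      exact h1 x hx
    · intro x hx
      by_contra hx'
      obtain ⟨y, hy1, hy2⟩ := exists_sep hV (interior_subset h0) hx'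
      have h1 : y ∈ convexHull ℝ H := by rw [← hD]; exact hy2
      have h2 : convexHull ℝ H ⊆ {y | ∀ η ∈ ({x} : Set (Fin m → ℝ)), -1 ≤ y ⬝ᵥ η} := by
        refine convexHull_min ?_ (convex_halfspaces _)
        rintro η hη _ rfl
        rw [dotProduct_comm]
        exact hx η hη
      have h3 := h2 h1 x rfl
      rw [dotProduct_comm] at h3
      linarith
  · intro x y hxy
    apply hφ
    rw [hdec x, hdec y, hxy]
  · have h1 : (fun x => φ.linear x + φ 0) = φ := funext fun x => (hdec x).symm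
    rw [h1, hF, hl]
    ext x
    refine and_congr_right fun hx => ⟨fun h => le_antisymm (hx₀'.2 x hx) (h x₀ hx₀'.1), ?_⟩
    intro h y hy
    have h2 : l x = l x₀ := h
    rw [h2]
    exact hx₀'.2 y hy
  · intro x
    rw [← hdec]
    constructor
    · intro hx
      have : φ x ∈ intPts (Fin m) ∩ Set.range φ := hint ▸ ⟨x, hx, rfl⟩
      exact this.1
    · intro hx
      have : φ x ∈ φ '' intPts (Fin n) := hint ▸ ⟨hx, x, rfl⟩
      obtain ⟨y, hy, hyx⟩ := this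
      exact hφ hyx ▸ hy

lemma Cert.reindex {κ ι ι' : Type} [Fintype ι] [Fintype ι'] {P : Set (κ → ℝ)} (h : Cert P ι)
    (e : ι' ≃ ι) : Cert P ι' := by
  obtain ⟨V, H, hV, hVi, hH, hHi, hVH, l, c, A, b, hl, hA, hF, hint⟩ := h
  let T : (ι → ℝ) ≃ₗ[ℝ] (ι' → ℝ) := LinearEquiv.funCongrLeft ℝ ℝ e
  have hT : ∀ x i, T x i = x (e i) := fun _ _ => rfl
  have hTi : ∀ x, T x ∈ intPts ι' ↔ x ∈ intPts ι := fun x =>
    ⟨fun h i => by simpa [hT] using h (e.symm i), fun h i => h (e i)⟩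
  have hTd : ∀ x y, T x ⬝ᵥ T y = x ⬝ᵥ y := fun x y => e.sum_comp fun i => x i * y i
  have hc : convexHull ℝ (T '' V) = T '' convexHull ℝ V :=
    (T.toLinearMap.image_convexHull V).symm
  refine ⟨T '' V, T '' H, hV.image _, ?_, hH.image _, ?_, ?_, l ∘ₗ T.symm.toLinearMap, c,
    T.toLinearMap ∘ₗ A, T b, ?_, T.injective.comp hA, ?_, fun x => ?_⟩
  · rintro _ ⟨x, hx, rfl⟩; exact (hTi x).2 (hVi hx)
  · rintro _ ⟨x, hx, rfl⟩; exact (hTi x).2 (hHi hx)
  · rw [hc, hVH]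
    ext x
    obtain ⟨x, rfl⟩ := T.surjective x
    simp [hTd]
  · rw [hc]
    rintro _ ⟨x, hx, rfl⟩
    simpa using hl x hx
  · have h1 : (fun x => (T.toLinearMap ∘ₗ A) x + T b) = T ∘ fun x => A x + b := by
      funext x; simp
    rw [h1, Set.image_comp, hF, hc]
    ext x
    obtain ⟨x, rfl⟩ := T.surjective x
    simp
  · rw [hint x, ← hTi]
    simp

end Pool.Agent.Lib.MP_892d22_co
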