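import Mathlib

namespace Pool.Agent.Lib.MP_892d22_co

/-- The integer points of `ℝ^ι`. -/
def intPts (ι : Type) : Set (ι → ℝ) := {x | ∀ i, ∃ z : ℤ, x i = z}

/-- A lattice polytope: the convex hull of finitely many integer points. -/
def IsLatticePolytope {ι : Type} (Q : Set (ι → ℝ)) : Prop :=
  ∃ V : Set (ι → ℝ), V.Finite ∧ V ⊆ intPts ι ∧ Q = convexHull ℝ V

/-- The dual body. -/
def dualBody {ι : Type} [Fintype ι] (Q : Set (ι → ℝ)) : Set (ι → ℝ) :=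
  {y | ∀ x ∈ Q, -1 ≤ ∑ i, x i * y i}

/-- A reflexive polytope. -/
def IsReflexive {ι : Type} [Fintype ι] (Q : Set (ι → ℝ)) : Prop :=
  IsLatticePolytope Q ∧ 0 ∈ interior Q ∧ IsLatticePolytope (dualBody Q)

/-- Lattice equivalence of `P` with `F`. -/
def LatticeEquiv {κ ι : Type} (P : Set (κ → ℝ)) (F : Set (ι → ℝ)) : Prop :=
  ∃ φ : (κ → ℝ) →ᵃ[ℝ] (ι → ℝ), Function.Injective φ ∧ φ '' P = F ∧
    φ '' intPts κ = intPts ι ∩ Set.range φ

/-- `P` is lattice equivalent to a face of an `m`-dimensional reflexive polytope. -/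
def IsReflexiveFace {n : ℕ} (P : Set (Fin n → ℝ)) (m : ℕ) : Prop :=
  ∃ Q F : Set (Fin m → ℝ), IsReflexive Q ∧ IsExposed ℝ Q F ∧ LatticeEquiv P F

/-- The lecture hall simplex of the sequence `s` of length `n + 1`. -/
def lectureHall {n : ℕ} (s : Fin (n + 1) → ℕ) : Set (Fin (n + 1) → ℝ) :=
  {x | 0 ≤ x 0 / s 0 ∧ (∀ i : Fin n, x i.castSucc / s i.castSucc ≤ x i.succ / s i.succ) ∧
    x (Fin.last n) / s (Fin.last n) ≤ 1}

end Pool.Agent.Lib.MP_892d22_co
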