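import Pool.Agent.Lib.MP_892d22_co.Main

namespace Pool.Agent.Lib.MP_892d22_co.DilationKept

open Pool.Agent.Lib.MP_892d22_co

theorem result (n m k e : ℕ) (P : Set (Fin n → ℝ)) (hP : P.Nonempty) (h : IsReflexiveFace P m)
    (hk0 : 0 < k) (hk : k ≤ 2 ^ (2 ^ e + 1)) :
    IsReflexiveFace ((fun x => (k : ℝ) • x) '' P) (m + e + 2) :=
  dilation hP h hk0 hk

end Pool.Agent.Lib.MP_892d22_co.DilationKept
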