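import Pool.Agent.Lib.MP_892d22_co.Cert

namespace Pool.Agent.Lib.MP_892d22_co

open Matrix

lemma int_dot {ι : Type} [Fintype ι] {x y : ι → ℝ} (hx : x ∈ intPts ι) (hy : y ∈ intPts ι) :
    ∃ z : ℤ, x ⬝ᵥ y = z := by
  choose a ha using hx
  choose b hb using hy
  exact ⟨∑ i, a i * b i, by simp [dotProduct, ha, hb]⟩

lemma int_elim {δ ι : Type} {y : δ → ℝ} {x : ι → ℝ} :
    Sum.elim y x ∈ intPts (δ ⊕ ι) ↔ y ∈ intPts δ ∧ x ∈ intPts ι :=
  ⟨fun h => ⟨fun i => h (.inl i), fun i => h (.inr i)⟩, fun h i => by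
    cases i with
    | inl i => exact h.1 i
    | inr i => exact h.2 i⟩

lemma int_smul {ι : Type} {x : ι → ℝ} (z : ℤ) (hx : x ∈ intPts ι) : (z : ℝ) • x ∈ intPts ι :=
  fun i => by
    obtain ⟨a, ha⟩ := hx i
    exact ⟨z * a, by simp [ha]⟩

lemma int_add {ι : Type} {x y : ι → ℝ} (hx : x ∈ intPts ι) (hy : y ∈ intPts ι) :
    x + y ∈ intPts ι := fun i => by
  obtain ⟨a, ha⟩ := hx i
  obtain ⟨b, hb⟩ := hy i
  exact ⟨a + b, by simp [ha, hb]⟩

lemma int_zero {ι : Type} : (0 : ι → ℝ) ∈ intPts ι := fun _ => ⟨0, by simp⟩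

lemma eq_zero_of_cone {ι : Type} [Fintype ι] {V H : Set (ι → ℝ)} (hV : V.Finite)
    (hVH : convexHull ℝ V = {x | ∀ η ∈ H, -1 ≤ x ⬝ᵥ η}) {x : ι → ℝ}
    (hx : ∀ η ∈ H, 0 ≤ x ⬝ᵥ η) : x = 0 := by
  obtain ⟨R, hR⟩ := (hV.isCompact_convexHull ℝ).isBounded.exists_norm_le
  by_contra h0
  have hpos : 0 < ‖x‖ := norm_pos_iff.2 h0
  have h1 : ((|R| + 1) / ‖x‖) • x ∈ convexHull ℝ V := by
    rw [hVH]
    intro η hη
    rw [smul_dotProduct, smul_eq_mul]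
    have : 0 ≤ (|R| + 1) / ‖x‖ * x ⬝ᵥ η := mul_nonneg (by positivity) (hx η hη)
    linarith
  have h2 := hR _ h1
  rw [norm_smul, Real.norm_of_nonneg (by positivity), div_mul_cancel₀ _ hpos.ne'] at h2
  linarith [le_abs_self R]

lemma Cert.fib {κ ι δ : Type} [Fintype ι] [Fintype δ] {P : Set (κ → ℝ)} (h : Cert P ι)
    {VB HB : Set (δ → ℝ)} (hVB : VB.Finite) (hVBi : VB ⊆ intPts δ) (hHB : HB.Finite)
    (hHBi : HB ⊆ intPts δ) (hB : convexHull ℝ VB = {y | ∀ η ∈ HB, -1 ≤ y ⬝ᵥ η})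
    {u v₀ : δ → ℝ} (hu : u ∈ intPts δ) (hu1 : ∀ y ∈ VB, -1 ≤ y ⬝ᵥ u) (hv₀ : v₀ ∈ VB)
    (l₀ : (δ → ℝ) →ₗ[ℝ] ℝ)
    (hl₀ : ∀ y ∈ convexHull ℝ VB, l₀ y ≤ l₀ v₀ ∧ (l₀ y = l₀ v₀ → y = v₀))
    {k : ℕ} (hk0 : 0 < k) (hk : v₀ ⬝ᵥ u + 1 = k) :
    Cert ((fun x => (k : ℝ) • x) '' P) (δ ⊕ ι) := by
  obtain ⟨V, H, hV, hVi, hH, hHi, hVH, l, c, A, b, hl, hA, hF, hint⟩ := h
  have hkR : (0 : ℝ) < k := by exact_mod_cast hk0
  have hu2 : ∀ y ∈ convexHull ℝ VB, -1 ≤ y ⬝ᵥ u := fun y hy =>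
    convexHull_min (t := {y | ∀ η ∈ ({u} : Set (δ → ℝ)), -1 ≤ y ⬝ᵥ η})
      (fun y hy η hη => by rw [hη]; exact hu1 y hy) (convex_halfspaces _) hy u rfl
  have h0V : (0 : ι → ℝ) ∈ convexHull ℝ V := by rw [hVH]; intro η _; simp
  let g : (δ → ℝ) → (ι → ℝ) → (δ ⊕ ι → ℝ) := fun y x => Sum.elim y ((y ⬝ᵥ u + 1) • x)
  let V' := Set.image2 g VB V
  let H' := (fun η => Sum.elim η (0 : ι → ℝ)) '' HB ∪ (fun η => Sum.elim u η) '' H
  have hg : ∀ y ∈ convexHull ℝ VB, ∀ x ∈ convexHull ℝ V, g y x ∈ convexHull ℝ V' := by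
    intro y hy x hx
    refine convexHull_min (t := {y | g y x ∈ convexHull ℝ V'}) (fun y hy => ?_) ?_ hy
    · refine convexHull_min (t := {x | g y x ∈ convexHull ℝ V'})
        (fun x hx => subset_convexHull ℝ _ (Set.mem_image2_of_mem hy hx)) ?_ hx
      intro x₁ h₁ x₂ h₂ s t hs ht hst
      have h3 : g y (s • x₁ + t • x₂) = s • g y x₁ + t • g y x₂ := by
        funext i
        cases i with
        | inl i => simp [g, ← add_mul, hst]
        | inr i => simp [g]; ring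
      show g y (s • x₁ + t • x₂) ∈ convexHull ℝ V'
      rw [h3]
      exact convex_convexHull ℝ _ h₁ h₂ hs ht hst
    · intro y₁ h₁ y₂ h₂ s t hs ht hst
      have h3 : g (s • y₁ + t • y₂) x = s • g y₁ x + t • g y₂ x := by
        funext i
        cases i with
        | inl i => simp [g]
        | inr i =>
          simp only [g, add_dotProduct, smul_dotProduct, smul_eq_mul, Sum.elim_inr, Pi.smul_apply,
            Pi.add_apply]
          linear_combination (-(x i)) * hst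
      show g (s • y₁ + t • y₂) x ∈ convexHull ℝ V'
      rw [h3]
      exact convex_convexHull ℝ _ h₁ h₂ hs ht hst
  have hgH : ∀ y ∈ convexHull ℝ VB, ∀ x ∈ convexHull ℝ V, ∀ η ∈ H', -1 ≤ g y x ⬝ᵥ η := by
    rintro y hy x hx _ (⟨η, hη, rfl⟩ | ⟨η, hη, rfl⟩)
    · rw [hB] at hy
      simpa [g] using hy η hη
    · rw [hVH] at hx
      have h1 := hx η hη
      have h2 := hu2 y hy
      simp only [g, sumElim_dotProduct_sumElim, smul_dotProduct, smul_eq_mul]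
      nlinarith
  have hsurj : ∀ p : δ ⊕ ι → ℝ, (∀ η ∈ H', -1 ≤ p ⬝ᵥ η) →
      ∃ y ∈ convexHull ℝ VB, ∃ x ∈ convexHull ℝ V, p = g y x := by
    intro p hp
    obtain ⟨y, x, rfl⟩ : ∃ y x, p = Sum.elim y x :=
      ⟨p ∘ .inl, p ∘ .inr, (Sum.elim_comp_inl_inr p).symm⟩
    have hy : y ∈ convexHull ℝ VB := by
      rw [hB]
      intro η hη
      simpa using hp _ (Or.inl ⟨η, hη, rfl⟩)
    have hx : ∀ η ∈ H, -(y ⬝ᵥ u + 1) ≤ x ⬝ᵥ η := by
      intro η hη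
      have := hp _ (Or.inr ⟨η, hη, rfl⟩)
      rw [sumElim_dotProduct_sumElim] at this
      linarith
    refine ⟨y, hy, ?_⟩
    rcases (show 0 ≤ y ⬝ᵥ u + 1 by linarith [hu2 y hy]).lt_or_eq with hpos | h0
    · refine ⟨(y ⬝ᵥ u + 1)⁻¹ • x, ?_, by simp [g, smul_smul, mul_inv_cancel₀ hpos.ne']⟩
      rw [hVH]
      intro η hη
      rw [smul_dotProduct, smul_eq_mul, ← div_eq_inv_mul, le_div_iff₀ hpos]
      linarith [hx η hη]
    · have h1 : x = 0 := eq_zero_of_cone hV hVH fun η hη => by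
        have := hx η hη
        rw [← h0] at this
        simpa using this
      exact ⟨0, h0V, by simp [g, h1]⟩
  have hV'H' : convexHull ℝ V' = {p | ∀ η ∈ H', -1 ≤ p ⬝ᵥ η} := by
    apply Set.Subset.antisymm
    · refine convexHull_min ?_ (convex_halfspaces _)
      rintro _ ⟨y, hy, x, hx, rfl⟩
      exact hgH y (subset_convexHull ℝ _ hy) x (subset_convexHull ℝ _ hx)
    · intro p hp
      obtain ⟨y, hy, x, hx, rfl⟩ := hsurj p hp
      exact hg y hy x hx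
  let L : (δ ⊕ ι → ℝ) →ₗ[ℝ] ℝ :=
    { toFun := fun p => l (p ∘ .inr) - c * ((p ∘ .inl) ⬝ᵥ u) + l₀ (p ∘ .inl)
      map_add' := fun p q => by
        simp only [Pi.add_comp, map_add, add_dotProduct]; ring
      map_smul' := fun t p => by
        simp only [Pi.smul_comp, map_smul, smul_dotProduct, smul_eq_mul, RingHom.id_apply]; ring }
  have hL : ∀ y x, L (g y x) = (y ⬝ᵥ u + 1) * (l x - c) + c + l₀ y := by
    intro y x
    simp only [L, g, LinearMap.coe_mk, AddHom.coe_mk, Sum.elim_comp_inl, Sum.elim_comp_inr,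
      map_smul, smul_eq_mul]
    ring
  let A' : (κ → ℝ) →ₗ[ℝ] (δ ⊕ ι → ℝ) :=
    { toFun := fun x => Sum.elim 0 (A x)
      map_add' := fun x y => by funext i; cases i <;> simp
      map_smul' := fun t x => by funext i; cases i <;> simp }
  have hA' : ∀ x, A' x + Sum.elim v₀ ((k : ℝ) • b) = Sum.elim v₀ (A x + (k : ℝ) • b) := by
    intro x; funext i; cases i <;> simp [A']
  have hb : b ∈ intPts ι := by simpa using (hint 0).1 int_zero
  refine ⟨V', H', hVB.image2 _ hV, ?_, (hHB.image _).union (hH.image _), ?_, hV'H', L, c + l₀ v₀,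
    A', Sum.elim v₀ ((k : ℝ) • b), ?_, ?_, ?_, fun x => ?_⟩
  · rintro _ ⟨y, hy, x, hx, rfl⟩
    obtain ⟨z, hz⟩ := int_dot (hVBi hy) hu
    refine int_elim.2 ⟨hVBi hy, ?_⟩
    have := int_smul (z + 1) (hVi hx)
    rwa [Int.cast_add, Int.cast_one, ← hz] at this
  · rintro _ (⟨η, hη, rfl⟩ | ⟨η, hη, rfl⟩)
    · exact int_elim.2 ⟨hHBi hη, int_zero⟩
    · exact int_elim.2 ⟨hu, hHi hη⟩
  · intro p hp
    rw [hV'H'] at hp
    obtain ⟨y, hy, x, hx, rfl⟩ := hsurj p hp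
    rw [hL]
    nlinarith [hl x hx, hu2 y hy, (hl₀ y hy).1]
  · intro x y hxy
    exact hA (funext fun i => congrFun hxy (.inr i))
  · ext p
    constructor
    · rintro ⟨_, ⟨x, hx, rfl⟩, rfl⟩
      have h1 : A x + b ∈ {x ∈ convexHull ℝ V | l x = c} := hF ▸ ⟨x, hx, rfl⟩
      have h2 : A' ((k : ℝ) • x) + Sum.elim v₀ ((k : ℝ) • b) = g v₀ (A x + b) := by
        rw [hA']; simp [g, hk]
      show _ ∧ _
      simp only [h2]
      refine ⟨hg _ (subset_convexHull ℝ _ hv₀) _ h1.1, ?_⟩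
      rw [hL, h1.2]; ring
    · rintro ⟨hp, hpL⟩
      rw [hV'H'] at hp
      obtain ⟨y, hy, x, hx, rfl⟩ := hsurj p hp
      rw [hL] at hpL
      have h1 : (y ⬝ᵥ u + 1) * (l x - c) ≤ 0 := by nlinarith [hl x hx, hu2 y hy]
      have h2 : y = v₀ := (hl₀ y hy).2 (by linarith [(hl₀ y hy).1])
      subst h2
      have h3 : l x = c := by
        rw [hk] at hpL
        have : (k : ℝ) * (l x - c) = 0 := by linarith
        linarith [(mul_eq_zero.1 this).resolve_left hkR.ne']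
      have h4 : x ∈ (fun x => A x + b) '' P := hF ▸ ⟨hx, h3⟩
      obtain ⟨x', hx', rfl⟩ := h4
      refine ⟨(k : ℝ) • x', ⟨x', hx', rfl⟩, ?_⟩
      show A' _ + _ = _
      rw [hA']; simp [g, hk]
  · rw [hA', int_elim, hint x]
    have h1 : A x + (k : ℝ) • b = (A x + b) + (((k : ℤ) - 1 : ℤ) : ℝ) • b := by
      funext i; simp; ring
    have h2 : A x + b = (A x + (k : ℝ) • b) + ((1 - (k : ℤ) : ℤ) : ℝ) • b := by
      funext i; simp; ring
    refine ⟨fun h => ⟨hVBi hv₀, h1 ▸ int_add h (int_smul _ hb)⟩, fun h => ?_⟩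
    rw [h2]
    exact int_add h.2 (int_smul _ hb)

end Pool.Agent.Lib.MP_892d22_co
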