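import Pool.Agent.Lib.MP_892d22_co.Main

namespace Pool.Agent.Lib.MP_892d22_co.GeneralBoundKept

open Pool.Agent.Lib.MP_892d22_co

theorem result (n : ℕ) (t : Fin (n + 1) → ℕ) (g N m e : ℕ) (ht : ∀ i, 0 < t i) (hN0 : 0 < N)
    (htN : ∀ i, t i ∣ N) (hN : N ≤ m.factorial) (hn : n + 3 ≤ m.factorial * N) (hg0 : 0 < g)
    (hg : g ≤ 2 ^ (2 ^ e + 1)) :
    ∃ D ≤ (n + 1) + 2 * m + e + 5, IsReflexiveFace (lectureHall fun i => g * t i) D :=
  general_bound t ht hN0 htN hN hn hg0 hg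

end Pool.Agent.Lib.MP_892d22_co.GeneralBoundKept
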