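import Pool.Agent.Lib.MP_892d22_co.Fib

namespace Pool.Agent.Lib.MP_892d22_co

open Matrix

lemma simplex_hull {ι J : Type} [Fintype ι] [Fintype J] (v η : J → ι → ℝ) (k : J → ℝ)
    (hk : ∀ j, 0 < k j) (h1 : ∀ i j, -1 ≤ v i ⬝ᵥ η j)
    (h2 : ∀ x : ι → ℝ, ∑ j, (x ⬝ᵥ η j + 1) / k j = 1)
    (h3 : ∀ x : ι → ℝ, ∑ j, ((x ⬝ᵥ η j + 1) / k j) • v j = x) :
    convexHull ℝ (Set.range v) = {x | ∀ η' ∈ Set.range η, -1 ≤ x ⬝ᵥ η'} := by
  apply Set.Subset.antisymm
  · refine convexHull_min ?_ (convex_halfspaces _)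
    rintro _ ⟨i, rfl⟩ _ ⟨j, rfl⟩
    exact h1 i j
  · intro x hx
    rw [← h3 x]
    refine (convex_convexHull ℝ _).sum_mem (fun j _ => ?_) (h2 x)
      fun j _ => subset_convexHull ℝ _ ⟨j, rfl⟩
    exact div_nonneg (by linarith [hx _ ⟨j, rfl⟩]) (hk j).le

lemma int_nat {ι : Type} (w : ι → ℕ) : (fun i => (w i : ℝ)) ∈ intPts ι :=
  fun i => ⟨w i, by simp⟩

lemma int_neg {ι : Type} {x : ι → ℝ} (hx : x ∈ intPts ι) : -x ∈ intPts ι := by
  simpa using int_smul (-1) hx

lemma int_one {ι : Type} : (1 : ι → ℝ) ∈ intPts ι := fun _ => ⟨1, by simp⟩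

lemma int_single {ι : Type} [DecidableEq ι] (i : ι) (a : ℕ) :
    (Pi.single i (a : ℝ) : ι → ℝ) ∈ intPts ι := fun j => by
  by_cases h : j = i
  · subst h; exact ⟨a, by simp⟩
  · exact ⟨0, by simp [h]⟩

lemma int_sum {ι J : Type} [Fintype J] {p : J → ι → ℝ} (hp : ∀ j, p j ∈ intPts ι) :
    ∑ j, p j ∈ intPts ι := fun i => by
  choose z hz using fun j => hp j i
  exact ⟨∑ j, z j, by simp [Finset.sum_apply, hz]⟩

/-- Dilation by `k ≤ W` costs one dimension for each weight. -/
lemma Cert.dilate {κ ι δ : Type} [Fintype ι] [Fintype δ] {P : Set (κ → ℝ)} (h : Cert P ι)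
    (w q : δ → ℕ) {W : ℕ} (hW : W = ∑ i, w i + 1) (hq : ∀ i, w i * q i = W) (i₀ : δ)
    (hw₀ : w i₀ = 1) {k : ℕ} (hk0 : 0 < k) (hk : k ≤ W) :
    Cert ((fun x => (k : ℝ) • x) '' P) (δ ⊕ ι) := by
  classical
  have hWR : (W : ℝ) = ∑ i, (w i : ℝ) + 1 := by exact_mod_cast hW
  have hqR : ∀ i, (w i : ℝ) * q i = W := fun i => by exact_mod_cast hq i
  have hW0 : (0 : ℝ) < W := by exact_mod_cast (show 0 < W by omega)
  have hq0 : ∀ i, (0 : ℝ) < q i := fun i => by
    have := hqR i
    rcases (Nat.cast_nonneg (α := ℝ) (q i)).lt_or_eq with h | h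
    · exact h
    · rw [← h, mul_zero] at this; linarith
  have hkR : (k : ℝ) ≤ W := by exact_mod_cast hk
  let v : Option δ → δ → ℝ := fun o => o.elim (-fun i => (w i : ℝ)) fun i => Pi.single i ((1 : ℕ) : ℝ)
  let η : Option δ → δ → ℝ := fun o => o.elim (-1) fun i => -1 + Pi.single i (q i : ℝ)
  let kk : Option δ → ℝ := fun o => o.elim (W : ℝ) fun i => (q i : ℝ)
  have hd : ∀ (x : δ → ℝ) (i : δ), (x ⬝ᵥ η (some i) + 1) / q i =
      x i + w i * ((1 - ∑ j, x j) / W) := by
    intro x i
    simp only [η, Option.elim_some, dotProduct_add, dotProduct_neg, dotProduct_one,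
      dotProduct_single]
    have := hq0 i
    rw [← hqR i]
    have hw : (w i : ℝ) ≠ 0 := fun h => by have := hqR i; rw [h, zero_mul] at this; linarith
    field_simp
    ring
  have hn : ∀ x : δ → ℝ, (x ⬝ᵥ η none + 1) / W = (1 - ∑ j, x j) / W := by
    intro x
    simp only [η, Option.elim_none, dotProduct_neg, dotProduct_one]
    ring
  have hB := simplex_hull v η kk (by rintro (_ | i); exacts [hW0, hq0 i]) ?_ ?_ ?_
  rotate_left
  · rintro (_ | i) (_ | j)
    · simp only [v, η, Option.elim_none, neg_dotProduct_neg, dotProduct_one]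
      linarith
    · simp only [v, η, Option.elim_none, Option.elim_some, dotProduct_add, neg_dotProduct_neg,
        dotProduct_one, dotProduct_single, Pi.neg_apply]
      linarith [hqR j]
    · simp [v, η]
    · simp only [v, η, Option.elim_some, single_dotProduct, Pi.add_apply, Pi.neg_apply,
        Pi.one_apply, Nat.cast_one, one_mul, Pi.single_apply]
      split_ifs
      · linarith [hq0 j]
      · linarith
  · intro x
    rw [Fintype.sum_option]
    simp only [kk, Option.elim_none, Option.elim_some, hd, hn, Finset.sum_add_distrib,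
      ← Finset.sum_mul]
    rw [show ∑ i, (w i : ℝ) = W - 1 by linarith]
    field_simp
    ring
  · intro x
    rw [Fintype.sum_option]
    simp only [kk, Option.elim_none, Option.elim_some, hd, hn, v]
    funext j
    simp [Finset.sum_apply, Pi.single_apply]
    ring
  refine h.fib (Set.finite_range v) ?_ (Set.finite_range η) ?_ hB
    (u := -1 + Pi.single i₀ ((W - k : ℕ) : ℝ)) (v₀ := v none)
    (int_add (int_neg int_one) (int_single _ _)) ?_ ⟨none, rfl⟩
    (-∑ j, LinearMap.proj j) ?_ hk0 ?_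
  · rintro _ ⟨_ | i, rfl⟩
    exacts [int_neg (int_nat w), int_single i 1]
  · rintro _ ⟨_ | i, rfl⟩
    exacts [int_neg int_one, int_add (int_neg int_one) (int_single _ _)]
  · rintro _ ⟨_ | i, rfl⟩
    · simp only [v, Option.elim_none, dotProduct_add, neg_dotProduct_neg, dotProduct_one,
        dotProduct_single, Pi.neg_apply, hw₀, Nat.cast_sub hk]
      have : (0 : ℝ) ≤ k := Nat.cast_nonneg k
      push_cast
      linarith
    · simp only [v, Option.elim_some, single_dotProduct, Pi.add_apply, Pi.neg_apply,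
        Pi.one_apply, Nat.cast_one, one_mul, Pi.single_apply, Nat.cast_sub hk]
      split_ifs <;> linarith
  · intro y hy
    rw [hB] at hy
    have h1 : ∀ i, 0 ≤ y i + w i * ((1 - ∑ j, y j) / W) := fun i => by
      rw [← hd]
      exact div_nonneg (by linarith [hy _ ⟨some i, rfl⟩]) (hq0 i).le
    have h2 := Finset.sum_nonneg fun i (_ : i ∈ Finset.univ) => h1 i
    rw [Finset.sum_add_distrib, ← Finset.sum_mul, show ∑ i, (w i : ℝ) = W - 1 by linarith] at h2
    have h3 : 0 ≤ (∑ j, y j + W - 1) / W := by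
      refine h2.trans_eq ?_
      field_simp
      ring
    have h4 : 0 ≤ ∑ j, y j + W - 1 := by
      by_contra h
      exact absurd h3 (not_le.2 (div_neg_of_neg_of_pos (not_le.1 h) hW0))
    simp only [LinearMap.neg_apply, LinearMap.sum_apply, LinearMap.proj_apply, v,
      Option.elim_none, Pi.neg_apply, Finset.sum_neg_distrib, neg_neg]
    refine ⟨by linarith, fun h5 => ?_⟩
    have h6 : (1 - ∑ j, y j) / W = 1 := by
      rw [div_eq_one_iff_eq hW0.ne']; linarith
    simp only [h6, mul_one] at h1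
    have h7 : ∑ i, (y i + w i) = 0 := by rw [Finset.sum_add_distrib]; linarith
    funext i
    have := (Finset.sum_eq_zero_iff_of_nonneg fun i _ => h1 i).1 h7 i (Finset.mem_univ i)
    simp only [Pi.neg_apply]
    linarith
  · simp only [v, Option.elim_none, dotProduct_add, neg_dotProduct_neg, dotProduct_one,
      dotProduct_single, Pi.neg_apply, hw₀, Nat.cast_sub hk]
    push_cast
    linarith

/-- A lattice simplex is a face of a reflexive simplex given by weights. -/
lemma cert_simplex {κ T : Type} [Fintype κ] [DecidableEq κ] [Fintype T] (p a : κ → κ → ℝ)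
    (hp : ∀ i, p i ∈ intPts κ) (ha : ∀ i, a i ∈ intPts κ) (w q : T → ℕ) {W : ℕ}
    (hW : W = ∑ j, w j + Fintype.card κ + 2) (hq : ∀ j, w j * q j = W)
    (hpa : ∀ i j, p i ⬝ᵥ a j = if i = j then (W : ℝ) else 0) :
    Cert {x : κ → ℝ | (∀ i, 0 ≤ x ⬝ᵥ a i) ∧ ∑ i, x ⬝ᵥ a i ≤ W} (κ ⊕ Option T) := by
  classical
  have hWR : (W : ℝ) = ∑ j, (w j : ℝ) + Fintype.card κ + 2 := by exact_mod_cast hW
  have hqR : ∀ j, (w j : ℝ) * q j = W := fun j => by exact_mod_cast hq j
  have hW0 : (0 : ℝ) < W := by exact_mod_cast (show 0 < W by omega)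
  have hq0 : ∀ j, (0 : ℝ) < q j := fun j => by
    have := hqR j
    rcases (Nat.cast_nonneg (α := ℝ) (q j)).lt_or_eq with h | h
    · exact h
    · rw [← h, mul_zero] at this; linarith
  have hinv : ∀ (x : κ → ℝ) (j : κ), ∑ i, (x ⬝ᵥ a i) / W * p i j = x j := by
    intro x j
    have h1 : Matrix.of p * ((W : ℝ)⁻¹ • (Matrix.of a)ᵀ) = 1 := by
      ext i l
      have := hpa i l
      simp only [dotProduct] at this
      rw [Matrix.mul_smul, Matrix.smul_apply, Matrix.mul_apply]
      simp only [of_apply, transpose_apply, this, smul_eq_mul, Matrix.one_apply]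
      split_ifs
      · exact inv_mul_cancel₀ hW0.ne'
      · exact mul_zero _
    have h2 := congrFun (congrArg (fun M => x ᵥ* M) (mul_eq_one_comm.1 h1)) j
    simp only [vecMul_one, ← vecMul_vecMul] at h2
    rw [← h2]
    simp only [vecMul, dotProduct, Matrix.smul_apply, transpose_apply, of_apply, smul_eq_mul]
    refine Finset.sum_congr rfl fun i _ => ?_
    congr 1
    rw [Finset.sum_div]
    exact Finset.sum_congr rfl fun l _ => by ring
  let ww : Option T → ℕ := fun o => o.elim (Fintype.card κ + 1) w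
  let qq : Option T → ℕ := fun o => o.elim W q
  let v : κ ⊕ Option (Option T) → κ ⊕ Option T → ℝ := Sum.elim (fun i => Sum.elim (p i) (-1))
    fun o => o.elim (Sum.elim 0 (-1)) fun τ =>
      Sum.elim (τ.elim (-∑ i, p i) fun _ => 0) (-1 + Pi.single τ (qq τ : ℝ))
  let η : κ ⊕ Option (Option T) → κ ⊕ Option T → ℝ :=
    Sum.elim (fun i => Sum.elim (a i) (Pi.single none ((1 : ℕ) : ℝ)))
      fun o => o.elim (Sum.elim (-∑ i, a i) (-fun τ => (ww τ : ℝ))) fun τ =>
        Sum.elim 0 (Pi.single τ ((1 : ℕ) : ℝ))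
  let kk : κ ⊕ Option (Option T) → ℝ := Sum.elim (fun _ => W) fun o => o.elim W fun τ => qq τ
  have e1 : ∀ (x : κ → ℝ) (z : Option T → ℝ) (i : κ),
      Sum.elim x z ⬝ᵥ η (.inl i) = x ⬝ᵥ a i + z none := by
    intro x z i; simp [η]
  have e2 : ∀ (x : κ → ℝ) (z : Option T → ℝ), Sum.elim x z ⬝ᵥ η (.inr none) =
      -∑ i, x ⬝ᵥ a i - (Fintype.card κ + 1) * z none - ∑ j, w j * z (some j) := by
    intro x z
    simp only [η, Sum.elim_inr, Option.elim_none, sumElim_dotProduct_sumElim, dotProduct_neg,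
      dotProduct_sum]
    simp only [dotProduct, Fintype.sum_option, ww, Option.elim_none, Option.elim_some, mul_comm]
    push_cast
    ring
  have e3 : ∀ (x : κ → ℝ) (z : Option T → ℝ) (τ : Option T),
      Sum.elim x z ⬝ᵥ η (.inr (some τ)) = z τ := by
    intro x z τ; simp [η]
  have hs1 : ∀ i, ∑ j, p i ⬝ᵥ a j = W := fun i => by simp [hpa]
  have hs2 : ∀ j, (∑ i, p i) ⬝ᵥ a j = W := fun j => by simp [sum_dotProduct, hpa]
  have hQ := simplex_hull v η kk ?_ ?_ ?_ ?_
  rotate_left
  · rintro (i | _ | _ | j)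
    exacts [hW0, hW0, hW0, hq0 j]
  · rintro (i | _ | τ) (j | _ | σ) <;>
      simp only [v, Sum.elim_inl, Sum.elim_inr, Option.elim_none, Option.elim_some, e1, e2, e3,
        Pi.neg_apply, Pi.one_apply, Pi.add_apply, zero_dotProduct, hs1, le_refl]
    · rw [hpa]; split_ifs <;> linarith
    · simp only [mul_neg, mul_one, Finset.sum_neg_distrib]; linarith
    · linarith
    · simp only [mul_neg, mul_one, Finset.sum_neg_distrib, Finset.sum_const_zero]; linarith
    · cases τ with
      | none => simp [qq, hs2]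
      | some l => simp
    · cases τ with
      | none =>
        simp only [Option.elim_none, neg_dotProduct, hs2, qq, Pi.single_eq_same, ne_eq,
          reduceCtorEq, not_false_eq_true, Pi.single_eq_of_ne, add_zero, mul_neg, mul_one,
          Finset.sum_neg_distrib, Finset.sum_const, Finset.card_univ, nsmul_eq_mul]
        nlinarith
      | some l =>
        simp only [Option.elim_some, zero_dotProduct, qq, ne_eq, reduceCtorEq,
          not_false_eq_true, Pi.single_eq_of_ne, add_zero, mul_neg, mul_one, mul_add,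
          Finset.sum_add_distrib, Finset.sum_neg_distrib, Finset.sum_const_zero, Pi.single_apply,
          Option.some.injEq, mul_ite, mul_zero, Finset.sum_ite_eq', Finset.mem_univ, if_true,
          hqR]
        linarith
    · rw [Pi.single_apply]
      split_ifs
      · linarith [Nat.cast_nonneg (α := ℝ) (qq τ)]
      · linarith
  · intro y
    obtain ⟨x, z, rfl⟩ : ∃ x z, y = Sum.elim x z :=
      ⟨y ∘ .inl, y ∘ .inr, (Sum.elim_comp_inl_inr y).symm⟩
    simp only [Fintype.sum_sum_type, Fintype.sum_option, e1, e2, e3, kk, qq, Sum.elim_inl,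
      Sum.elim_inr, Option.elim_none, Option.elim_some]
    have h1 : ∀ j, (z (some j) + 1) / q j = (w j * z (some j) + w j) / W := fun j => by
      rw [div_eq_div_iff (hq0 j).ne' hW0.ne', ← hqR j]; ring
    simp only [h1, ← Finset.sum_div, Finset.sum_add_distrib, Finset.sum_const, Finset.card_univ,
      nsmul_eq_mul]
    field_simp
    linarith
  · intro y
    have hsum : ∀ y : κ ⊕ Option T → ℝ, ∑ j, (y ⬝ᵥ η j + 1) / kk j = 1 := by
      intro y
      obtain ⟨x, z, rfl⟩ : ∃ x z, y = Sum.elim x z :=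
        ⟨y ∘ .inl, y ∘ .inr, (Sum.elim_comp_inl_inr y).symm⟩
      simp only [Fintype.sum_sum_type, Fintype.sum_option, e1, e2, e3, kk, qq, Sum.elim_inl,
        Sum.elim_inr, Option.elim_none, Option.elim_some]
      have h1 : ∀ j, (z (some j) + 1) / q j = (w j * z (some j) + w j) / W := fun j => by
        rw [div_eq_div_iff (hq0 j).ne' hW0.ne', ← hqR j]; ring
      simp only [h1, ← Finset.sum_div, Finset.sum_add_distrib, Finset.sum_const, Finset.card_univ,
        nsmul_eq_mul]
      field_simp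
      linarith
    have h0 := hsum y
    obtain ⟨x, z, rfl⟩ : ∃ x z, y = Sum.elim x z :=
      ⟨y ∘ .inl, y ∘ .inr, (Sum.elim_comp_inl_inr y).symm⟩
    funext l
    rw [Finset.sum_apply]
    cases l with
    | inl l =>
      simp only [Fintype.sum_sum_type, Fintype.sum_option, e1, e3, kk, qq, v, Sum.elim_inl,
        Sum.elim_inr, Option.elim_none, Option.elim_some, Pi.smul_apply, smul_eq_mul,
        Pi.zero_apply, mul_zero, Finset.sum_const_zero, Pi.neg_apply, Finset.sum_apply]
      rw [← hinv x l]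
      simp only [add_assoc, add_div, add_mul, Finset.sum_add_distrib, ← Finset.mul_sum]
      ring
    | inr τ =>
      have h2 : ∀ j, v j (.inr τ) = -1 + if j = .inr (some τ) then kk j else 0 := by
        rintro (i | _ | σ)
        · simp [v]
        · simp [v]
        · simp only [v, kk, Sum.elim_inr, Option.elim_some, Pi.add_apply, Pi.neg_apply,
            Pi.one_apply, Pi.single_apply, Sum.inr.injEq, Option.some.injEq, eq_comm]
      have h3 : (0 : ℝ) < kk (.inr (some τ)) := by
        cases τ with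
        | none => exact hW0
        | some j => exact hq0 j
      simp only [Pi.smul_apply, smul_eq_mul, h2, mul_add, Finset.sum_add_distrib, mul_neg, mul_one,
        Finset.sum_neg_distrib, h0, mul_ite, mul_zero, Finset.sum_ite_eq', Finset.mem_univ,
        if_true, e3, Sum.elim_inr]
      rw [div_mul_cancel₀ _ h3.ne']
      ring
  let A : (κ → ℝ) →ₗ[ℝ] (κ ⊕ Option T → ℝ) :=
    { toFun := fun x => Sum.elim x 0
      map_add' := fun x y => by funext i; cases i <;> simp
      map_smul' := fun t x => by funext i; cases i <;> simp }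
  have hA : ∀ x, A x + Sum.elim (0 : κ → ℝ) (-1 : Option T → ℝ) = Sum.elim x (-1) := by
    intro x; funext i; cases i <;> simp [A]
  refine ⟨Set.range v, Set.range η, Set.finite_range _, ?_, Set.finite_range _, ?_, hQ,
    -∑ τ : Option T, LinearMap.proj (Sum.inr τ), Fintype.card (Option T), A, Sum.elim 0 (-1),
    ?_, ?_, ?_, fun x => ?_⟩
  · rintro _ ⟨i | _ | τ, rfl⟩
    · exact int_elim.2 ⟨hp i, int_neg int_one⟩
    · exact int_elim.2 ⟨int_zero, int_neg int_one⟩
    · refine int_elim.2 ⟨?_, int_add (int_neg int_one) (int_single _ _)⟩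
      cases τ with
      | none => exact int_neg (int_sum hp)
      | some j => exact int_zero
  · rintro _ ⟨i | _ | τ, rfl⟩
    · exact int_elim.2 ⟨ha i, int_single _ _⟩
    · exact int_elim.2 ⟨int_neg (int_sum ha), int_neg (int_nat ww)⟩
    · exact int_elim.2 ⟨int_zero, int_single _ _⟩
  · intro y hy
    rw [hQ] at hy
    obtain ⟨x, z, rfl⟩ : ∃ x z, y = Sum.elim x z :=
      ⟨y ∘ .inl, y ∘ .inr, (Sum.elim_comp_inl_inr y).symm⟩
    have h1 : ∀ τ, -z τ ≤ 1 := fun τ => by
      have := hy _ ⟨.inr (some τ), rfl⟩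
      rw [e3] at this
      linarith
    have h2 := Finset.sum_le_sum fun τ (_ : τ ∈ Finset.univ) => h1 τ
    simpa using h2
  · intro x y hxy
    exact funext fun i => congrFun hxy (.inl i)
  · ext y
    rw [hQ]
    constructor
    · rintro ⟨x, ⟨hx1, hx2⟩, rfl⟩
      show _ ∧ _
      simp only [hA]
      refine ⟨?_, by simp⟩
      rintro _ ⟨i | _ | τ, rfl⟩
      · rw [e1]; simp [hx1 i]
      · rw [e2]
        simp only [Pi.neg_apply, Pi.one_apply, mul_neg, mul_one, Finset.sum_neg_distrib]
        linarith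
      · rw [e3]; simp
    · rintro ⟨hy, hyl⟩
      obtain ⟨x, z, rfl⟩ : ∃ x z, y = Sum.elim x z :=
        ⟨y ∘ .inl, y ∘ .inr, (Sum.elim_comp_inl_inr y).symm⟩
      have h1 : ∀ τ, 0 ≤ z τ + 1 := fun τ => by
        have := hy _ ⟨.inr (some τ), rfl⟩
        rw [e3] at this
        linarith
      have h2 : ∑ τ, (z τ + 1) = 0 := by
        simp only [LinearMap.neg_apply, LinearMap.sum_apply, LinearMap.proj_apply,
          Sum.elim_inr] at hyl
        rw [Finset.sum_add_distrib, Finset.sum_const, Finset.card_univ, nsmul_eq_mul, mul_one]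
        linarith
      have h3 : z = -1 := funext fun τ => by
        have := (Finset.sum_eq_zero_iff_of_nonneg fun τ _ => h1 τ).1 h2 τ (Finset.mem_univ τ)
        simp only [Pi.neg_apply, Pi.one_apply]
        linarith
      subst h3
      refine ⟨x, ⟨fun i => ?_, ?_⟩, hA x⟩
      · have := hy _ ⟨.inl i, rfl⟩
        rw [e1] at this
        simpa using this
      · have := hy _ ⟨.inr none, rfl⟩
        rw [e2] at this
        simp only [Pi.neg_apply, Pi.one_apply, mul_neg, mul_one, Finset.sum_neg_distrib] at this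
        linarith
  · rw [hA, int_elim]
    exact ⟨fun h => ⟨h, int_neg int_one⟩, fun h => h.1⟩

end Pool.Agent.Lib.MP_892d22_co
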