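import Pool.Agent.Lib.MP_892d22_co.H24Stage
import Pool.Agent.Lib.MP_892d22_co.Simp

namespace Pool.Agent.Lib.MP_892d22_co

open Matrix

variable {ι : Type} [Fintype ι]

lemma finite_bdd (n : ℕ) (c : ℝ) : {x : ι → ℝ | ∀ i, x i ∈ InG n ∧ |x i| ≤ c}.Finite := by
  have h : {r : ℝ | r ∈ InG n ∧ |r| ≤ c}.Finite := by
    refine ((Set.finite_Icc (-⌈c * 2 ^ n⌉) ⌈c * 2 ^ n⌉).image fun z : ℤ => (z : ℝ) / 2 ^ n).subset ?_
    rintro r ⟨⟨z, hz⟩, hr⟩
    refine ⟨z, abs_le.1 ?_, by simp only [← hz]; field_simp⟩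
    have h1 : |(z : ℝ)| ≤ c * 2 ^ n := by
      rw [← hz, abs_mul, abs_of_pos (by positivity : (0 : ℝ) < 2 ^ n)]
      exact mul_le_mul_of_nonneg_right hr (by positivity)
    exact_mod_cast h1.trans (Int.le_ceil _)
  exact (Set.Finite.pi' fun _ => h).subset fun x hx => hx

lemma mem_hull_of_forall {S : Set (ι → ℝ)} (hS : S.Finite) {x : ι → ℝ}
    (h : ∀ c, ∃ y ∈ convexHull ℝ S, x ⬝ᵥ c ≤ y ⬝ᵥ c) : x ∈ convexHull ℝ S := by
  classical
  by_contra hx
  obtain ⟨f, u, hfy, hf⟩ := geometric_hahn_banach_point_closed (convex_convexHull ℝ S)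
    (hS.isCompact_convexHull ℝ).isClosed hx
  have hrep : ∀ z : ι → ℝ, z ⬝ᵥ (fun i => -f (Pi.single i 1)) = -f z := by
    intro z
    conv_rhs => rw [← Finset.univ_sum_single z, map_sum, ← Finset.sum_neg_distrib]
    refine Finset.sum_congr rfl fun i _ => ?_
    have : (Pi.single i (z i) : ι → ℝ) = z i • (Pi.single i 1 : ι → ℝ) := by
      rw [← Pi.single_smul, smul_eq_mul, mul_one]
    rw [this, map_smul, smul_eq_mul, mul_neg]
  obtain ⟨y, hy, h1⟩ := h fun i => -f (Pi.single i 1)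
  rw [hrep, hrep] at h1
  linarith [hf y hy]

omit [Fintype ι] in
lemma int_iff {x : ι → ℝ} : x ∈ intPts ι ↔ ∀ i, x i ∈ InG 0 :=
  forall_congr' fun _ => mem_InG_zero.symm

theorem cayley {δ : Type} [Fintype δ] {U W : ℕ} {Fs Y : Set (ι → ℝ)} {hF : (ι → ℝ) → ℝ}
    {V : Set ((ι → ℝ) × ℕ)} {π : Par} (hs : Supp (2 ^ U) Fs hF) (hVY : VY (2 ^ U) U hF π V Y)
    (hR : ∀ p, Rep (2 ^ U) hF V Y p) (w q : δ → ℕ) (hW : W = ∑ i, w i + 1)
    (hq : ∀ i, w i * q i = W) (i₀ : δ) (hw₀ : w i₀ = 1) (hdvd : 2 ^ (U * (π.E + π.z + π.b)) ∣ W) :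
    Cert {x | ∀ p, x ⬝ᵥ p ≤ hF p} (δ ⊕ ι) := by
  classical
  have hWR : (W : ℝ) = ∑ i, (w i : ℝ) + 1 := by exact_mod_cast hW
  have hqR : ∀ i, (w i : ℝ) * q i = W := fun i => by exact_mod_cast hq i
  have hW0 : (0 : ℝ) < W := by exact_mod_cast (show 0 < W by omega)
  have hq0 : ∀ i, (0 : ℝ) < q i := fun i => by
    have := hqR i
    rcases (Nat.cast_nonneg (α := ℝ) (q i)).lt_or_eq with h | h
    · exact h
    · rw [← h, mul_zero] at this; linarith
  set B : ℝ := 2 ^ U with hB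
  have hB0 : 0 < B := by positivity
  have hBE : 1 ≤ B ^ π.E := one_le_pow₀ (one_le_pow₀ one_le_two)
  let βn : (δ → ℝ) → ℝ := fun b => (1 - ∑ i, b i) / W
  let β : (δ → ℝ) → δ → ℝ := fun b i => b i + w i * βn b
  have hβ : ∀ b, βn b + ∑ i, β b i = 1 := by
    intro b
    simp only [β, Finset.sum_add_distrib, ← Finset.sum_mul,
      show ∑ i, (w i : ℝ) = W - 1 by linarith, βn]
    field_simp; ring
  let g : (ι → ℝ) → (ι → ℝ) → ι → ℝ := fun y f => B ^ π.E • y + (B ^ π.E - 1) • f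
  let c : (ι → ℝ) × ℕ → ℝ := fun v => W / B ^ (π.E + v.2)
  let v₀ : δ → ℝ := -fun i => (w i : ℝ)
  let Vs : Set (δ ⊕ ι → ℝ) := (fun f => Sum.elim v₀ f) '' Fs ∪
    (Set.image2 (fun y f => Sum.elim (Pi.single i₀ 1) (g y f)) Y Fs ∪
      (fun i => Sum.elim (Pi.single i 1) 0) '' {i | i ≠ i₀})
  let H : Set (δ ⊕ ι → ℝ) := {Sum.elim (-1 : δ → ℝ) (0 : ι → ℝ)} ∪
    (Set.range (fun i => Sum.elim (-1 + Pi.single i (q i : ℝ)) 0) ∪
      (fun v => Sum.elim (-1 + Pi.single i₀ (W - c v * hF v.1)) (-c v • v.1)) '' V)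
  let K : (δ → ℝ) → (ι → ℝ) → Prop := fun b x => 0 ≤ βn b ∧ (∀ i, 0 ≤ β b i) ∧
    ∀ v ∈ V, x ⬝ᵥ v.1 ≤ B ^ π.E * β b i₀ * B ^ v.2 + (βn b - β b i₀) * hF v.1
  have hK : ∀ b x, (∀ η ∈ H, -1 ≤ Sum.elim b x ⬝ᵥ η) ↔ K b x := by
    intro b x
    simp only [H, K, Set.mem_union, Set.mem_singleton_iff, or_imp, forall_and, forall_eq,
      Set.forall_mem_range, Set.forall_mem_image, sumElim_dotProduct_sumElim, dotProduct_zero,
      add_zero, dotProduct_add, dotProduct_neg, dotProduct_one, dotProduct_single,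
      dotProduct_smul, smul_eq_mul]
    refine and_congr ?_ (and_congr (forall_congr' fun i => ?_) (forall₂_congr fun v _ => ?_))
    · simp only [βn]
      rw [le_div_iff₀ hW0]
      constructor <;> intro h <;> linarith
    · have h1 : β b i * q i = -∑ i, b i + b i * q i + 1 := by
        simp only [β, βn]
        rw [add_mul, mul_right_comm, hqR]; field_simp; ring
      rw [← mul_nonneg_iff_of_pos_right (hq0 i), h1]
      constructor <;> intro h <;> linarith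
    · have h0 : 0 < c v := by simp only [c]; positivity
      have h1 : c v * (B ^ π.E * β b i₀ * B ^ v.2 + (βn b - β b i₀) * hF v.1) =
          -∑ i, b i + b i₀ * (W - c v * hF v.1) + 1 := by
        simp only [β, βn, c, hw₀]
        push_cast
        field_simp; ring
      rw [← mul_le_mul_iff_right₀ h0 (b := x ⬝ᵥ v.1), h1]
      constructor <;> intro h <;> linarith
  have hn₀ : βn v₀ = 1 := by
    simp only [βn, v₀, Pi.neg_apply, Finset.sum_neg_distrib]
    rw [div_eq_one_iff_eq hW0.ne']; linarith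
  have hβ₀ : ∀ i, β v₀ i = 0 := fun i => by simp only [β, hn₀, v₀, Pi.neg_apply]; ring
  have hn₁ : ∀ i, βn (Pi.single i 1) = 0 := fun i => by simp [βn]
  have hβ₁ : ∀ i j, β (Pi.single i 1) j = if j = i then 1 else 0 := fun i j => by
    simp only [β, hn₁, mul_zero, add_zero, Pi.single_apply]
  have hK₀ : ∀ x, (∀ p, x ⬝ᵥ p ≤ hF p) ↔ K v₀ x := by
    intro x
    simp only [K, hn₀, hβ₀, mul_zero, zero_mul, zero_add, sub_zero, one_mul]
    refine ⟨fun h => ⟨zero_le_one, fun _ => le_rfl, fun v _ => h _⟩, fun h p => ?_⟩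
    obtain ⟨y, _, h1⟩ := hR p
    simpa using h1 x 0 1 (by simpa using h.2.2)
  have hFs : Fs.Finite := (finite_bdd 0 B).subset fun f hf i => ⟨hs.int f hf i, hs.norm f hf i⟩
  have hY : Y.Finite := (finite_bdd _ _).subset fun y hy i => ⟨hVY.yin y hy i, hVY.yn y hy i⟩
  have hV : V.Finite := ((finite_bdd (U * π.b) (B ^ π.a)).prod (Set.finite_le_nat π.z)).subset
    fun v hv => ⟨fun i => ⟨hVY.vin v hv i, hVY.vn v hv i⟩, hVY.vk v hv⟩
  have hVs : Vs.Finite := (hFs.image _).union ((hY.image2 _ hFs).union ((Set.toFinite _).image _))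
  have hsplit : ∀ p : δ ⊕ ι → ℝ, ∃ b x, p = Sum.elim b x := fun p =>
    ⟨p ∘ .inl, p ∘ .inr, (Sum.elim_comp_inl_inr p).symm⟩
  have hVH : convexHull ℝ Vs = {x | ∀ η ∈ H, -1 ≤ x ⬝ᵥ η} := by
    apply Set.Subset.antisymm
    · refine convexHull_min ?_ (convex_halfspaces _)
      rintro _ (⟨f, hf, rfl⟩ | ⟨y, hy, f, hf, rfl⟩ | ⟨i, hi, rfl⟩)
      · exact (hK _ _).2 ((hK₀ f).1 fun p => hs.le p f hf)
      · refine (hK _ _).2 ⟨(hn₁ _).ge, fun i => by rw [hβ₁]; split_ifs <;> norm_num, fun v hv => ?_⟩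
        have h1 := hVY.valid y hy v hv
        have h2 := hs.le v.1 f hf
        simp only [hn₁, hβ₁, if_true, g, add_dotProduct, smul_dotProduct, smul_eq_mul]
        nlinarith
      · refine (hK _ _).2 ⟨(hn₁ _).ge, fun i => by rw [hβ₁]; split_ifs <;> norm_num, fun v hv => ?_⟩
        simp [hn₁, hβ₁, Ne.symm hi]
    · intro p hp
      obtain ⟨b, x, rfl⟩ := hsplit p
      obtain ⟨h1, h2, h3⟩ := (hK b x).1 hp
      refine mem_hull_of_forall hVs fun d => ?_
      obtain ⟨d, p, rfl⟩ := hsplit d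
      obtain ⟨y, hy, h4⟩ := hR p
      obtain ⟨f, hf, h5⟩ := hs.ex p
      refine ⟨Sum.elim b (βn b • f + β b i₀ • g y f), ?_, ?_⟩
      · let u : Option δ → δ ⊕ ι → ℝ := fun o => o.elim (Sum.elim v₀ f)
          fun i => Sum.elim (Pi.single i 1) (if i = i₀ then g y f else 0)
        have h6 := (convex_convexHull ℝ Vs).sum_mem (t := Finset.univ)
          (w := fun o : Option δ => o.elim (βn b) (β b)) (z := u)
          (by rintro (_ | i) _; exacts [h1, h2 i]) (by rw [Fintype.sum_option]; exact hβ b)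
          (by
            rintro (_ | i) _
            · exact subset_convexHull ℝ _ (Or.inl ⟨f, hf, rfl⟩)
            · by_cases hi : i = i₀
              · exact subset_convexHull ℝ _ (Or.inr (Or.inl ⟨y, hy, f, hf, by simp [u, hi]⟩))
              · exact subset_convexHull ℝ _ (Or.inr (Or.inr ⟨i, hi, by simp [u, hi]⟩)))
        convert h6 using 1
        rw [Fintype.sum_option]
        funext j
        cases j with
        | inl j => simp [u, v₀, β, Finset.sum_apply, Pi.single_apply]; ring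
        | inr j => simp [u, Finset.sum_apply, ite_apply]
      · have h6 := h4 x _ _ h3
        simp only [sumElim_dotProduct_sumElim, g, add_dotProduct, smul_dotProduct, smul_eq_mul,
          ← h5]
        linarith
  obtain ⟨W', hW'⟩ := hdvd
  have hc : ∀ v ∈ V, ∀ r ∈ InG (U * π.b), c v * r ∈ InG 0 := by
    rintro v hv r ⟨z, hz⟩
    obtain ⟨d, hd⟩ := Nat.exists_eq_add_of_le (hVY.vk v hv)
    have := InG.mul (InG.nat 0 (W' * 2 ^ (U * d))) (InG.int 0 z)
    convert this using 1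
    simp only [c]
    rw [← hz, hW', hd, hB]
    push_cast
    field_simp
    ring
  have hBi : B ^ π.E ∈ InG 0 := by simpa [hB, pow_mul] using InG.nat 0 (2 ^ (U * π.E))
  have hs1 : ∀ (i : δ) (r : ℝ), r ∈ InG 0 → (Pi.single i r : δ → ℝ) ∈ intPts δ := fun i r hr =>
    int_iff.2 fun j => by rw [Pi.single_apply]; split_ifs; exacts [hr, zero_mem _]
  have h1i : (1 : ℝ) ∈ InG 0 := by simpa using InG.nat 0 1
  let A : (ι → ℝ) →ₗ[ℝ] (δ ⊕ ι → ℝ) :=
    { toFun := fun x => Sum.elim 0 x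
      map_add' := fun x y => by funext i; cases i <;> simp
      map_smul' := fun t x => by funext i; cases i <;> simp }
  have hA : ∀ x, A x + Sum.elim v₀ 0 = Sum.elim v₀ x := by
    intro x; funext i; cases i <;> simp [A]
  have hl : ∀ b x, (-∑ j : δ, LinearMap.proj (Sum.inl j) : (δ ⊕ ι → ℝ) →ₗ[ℝ] ℝ) (Sum.elim b x) =
      W * βn b - 1 := by
    intro b x
    simp only [LinearMap.neg_apply, LinearMap.sum_apply, LinearMap.proj_apply, Sum.elim_inl, βn]
    field_simp; ring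
  refine ⟨Vs, H, hVs, ?_, (Set.finite_singleton _).union ((Set.finite_range _).union (hV.image _)),
    ?_, hVH, -∑ j : δ, LinearMap.proj (Sum.inl j), W - 1, A, Sum.elim v₀ 0, ?_, ?_, ?_, fun x => ?_⟩
  · rintro _ (⟨f, hf, rfl⟩ | ⟨y, hy, f, hf, rfl⟩ | ⟨i, hi, rfl⟩)
    · exact int_elim.2 ⟨int_neg (int_nat w), int_iff.2 (hs.int f hf)⟩
    · refine int_elim.2 ⟨hs1 _ _ h1i, int_iff.2 fun i => add_mem ?_
        (InG.mul (sub_mem hBi h1i) (hs.int f hf i))⟩
      obtain ⟨z, hz⟩ := hVY.yin y hy i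
      refine mem_InG_zero.2 ⟨z, ?_⟩
      rw [← hz, pow_mul, mul_comm]
      rfl
    · exact int_elim.2 ⟨hs1 _ _ h1i, int_zero⟩
  · rintro _ (rfl | ⟨i, rfl⟩ | ⟨v, hv, rfl⟩)
    · exact int_elim.2 ⟨int_neg int_one, int_zero⟩
    · exact int_elim.2 ⟨int_add (int_neg int_one) (int_single _ _), int_zero⟩
    · refine int_elim.2 ⟨int_add (int_neg int_one) (hs1 _ _ (sub_mem (InG.nat 0 W) ?_)),
        int_iff.2 fun i => ?_⟩
      · obtain ⟨f, hf, h5⟩ := hs.ex v.1
        rw [h5]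
        exact hc v hv _ (by simpa using InG.dot (hs.int f hf) (hVY.vin v hv))
      · simpa using hc v hv _ (hVY.vin v hv i)
  · intro p hp
    obtain ⟨b, x, rfl⟩ := hsplit p
    rw [hVH] at hp
    obtain ⟨h1, h2, h3⟩ := (hK b x).1 hp
    have h4 := Finset.sum_nonneg fun i (_ : i ∈ Finset.univ) => h2 i
    rw [hl]
    nlinarith [hβ b]
  · intro x y hxy
    exact funext fun i => congrFun hxy (.inr i)
  · ext p
    rw [hVH]
    constructor
    · rintro ⟨x, hx, rfl⟩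
      show _ ∧ _
      simp only [hA]
      exact ⟨(hK _ _).2 ((hK₀ x).1 hx), by rw [hl, hn₀, mul_one]⟩
    · rintro ⟨hp, hp'⟩
      obtain ⟨b, x, rfl⟩ := hsplit p
      have h0 := (hK b x).1 hp
      rw [hl] at hp'
      have h1 : βn b = 1 := mul_left_cancel₀ hW0.ne' (by linarith)
      have h2 : b = v₀ := funext fun i => by
        have := (Finset.sum_eq_zero_iff_of_nonneg fun i _ => h0.2.1 i).1
          (show ∑ i, β b i = 0 by linarith [hβ b]) i (Finset.mem_univ i)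
        simp only [β, h1] at this
        simp only [v₀, Pi.neg_apply]
        linarith
      exact ⟨x, (hK₀ x).2 (h2 ▸ h0), by rw [h2]; exact hA x⟩
  · rw [hA, int_elim]
    exact ⟨fun h => ⟨int_neg (int_nat w), h⟩, fun h => h.2⟩

lemma exists_base (k : ℕ) : ∃ (a : ℕ) (L : List ℕ), 2 ^ 2 ^ k ∣ a ∧ 2 ^ 2 ^ k - 1 ∣ a ∧
    L.length = 2 * k + 1 ∧ (∀ x ∈ L, x ∣ a) ∧ L.sum + 1 = a := by
  have step : ∀ (a b : ℕ) (L : List ℕ), b ∣ a → (∀ x ∈ L, x ∣ a) → L.sum + 1 = a →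
      (∀ x ∈ b :: L.map (· * (b + 1)), x ∣ a * (b + 1)) ∧
        (b :: L.map (· * (b + 1))).sum + 1 = a * (b + 1) := by
    intro a b L h1 h3 h4
    refine ⟨fun x hx => ?_, ?_⟩
    · rcases List.mem_cons.1 hx with rfl | hx
      · exact h1.mul_right _
      · obtain ⟨y, hy, rfl⟩ := List.mem_map.1 hx
        exact Nat.mul_dvd_mul_right (h3 y hy) _
    · rw [List.sum_cons, List.sum_map_mul_right, List.map_id', ← h4]
      ring
  induction k with
  | zero => exact ⟨2, [1], by norm_num, by norm_num, rfl, by simp, rfl⟩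
  | succ k ih =>
    obtain ⟨a, L, h1, h2, h3, h4, h5⟩ := ih
    obtain ⟨h6, h7⟩ := step a _ L h1 h4 h5
    have h8 : 2 ^ 2 ^ (k + 1) - 1 = (2 ^ 2 ^ k - 1) * (2 ^ 2 ^ k + 1) := by
      rw [pow_succ, pow_mul, mul_comm, ← Nat.sq_sub_sq, one_pow]
    have h9 : 2 ^ 2 ^ (k + 1) - 1 ∣ a * (2 ^ 2 ^ k + 1) := h8 ▸ Nat.mul_dvd_mul_right h2 _
    obtain ⟨h10, h11⟩ := step _ _ _ h9 h6 h7
    refine ⟨_, _, ?_, h9.mul_right _, by simp [h3]; ring, h10, h11⟩
    rw [Nat.sub_add_cancel Nat.one_le_two_pow]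
    exact Dvd.intro_left _ rfl

theorem cayley_fin {n U k : ℕ} {Fs Y : Set (Fin n → ℝ)} {hF : (Fin n → ℝ) → ℝ}
    {V : Set ((Fin n → ℝ) × ℕ)} {π : Par} (hs : Supp (2 ^ U) Fs hF)
    (hVY : VY (2 ^ U) U hF π V Y) (hR : ∀ p, Rep (2 ^ U) hF V Y p)
    (hk : U * (π.E + π.z + π.b) ≤ 2 ^ k) :
    IsReflexiveFace {x | ∀ p, x ⬝ᵥ p ≤ hF p} (n + 2 * k + 2) := by
  obtain ⟨a, L, h1, _, h2, h3, h4⟩ := exists_base k
  have h5 := cayley (δ := Option (Fin L.length)) hs hVY hR (fun o => o.elim 1 fun i => 2 * L.get i)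
    (fun o => o.elim (2 * a) fun i => a / L.get i) (W := 2 * a) ?_ ?_ none rfl
    (((pow_dvd_pow 2 hk).trans h1).mul_left _)
  · refine (h5.reindex (Fintype.equivOfCardEq ?_)).isReflexiveFace
    simp [h2]
    omega
  · rw [Fintype.sum_option]
    simp only [Option.elim_none, Option.elim_some, ← Finset.mul_sum, List.get_eq_getElem,
      Fin.sum_univ_getElem]
    omega
  · rintro (_ | i)
    · simp
    · simp only [Option.elim_some]
      rw [mul_assoc, Nat.mul_div_cancel' (h3 _ (List.get_mem L i))]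

end Pool.Agent.Lib.MP_892d22_co
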