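import Pool.Agent.Lib.MP_892d22_co.H24Fc

namespace Pool.Agent.Lib.MP_892d22_co

open Matrix

variable {ι : Type} [Fintype ι]

/-- The data fixed during one stage of the construction. -/
structure Ctx (ι : Type) where
  U : ℕ
  D : ℕ
  Hm : ℕ
  R : Finset (ι → ℝ)
  e : ι → ℝ
  hF : (ι → ℝ) → ℝ

/-- The base of all size bounds. -/
noncomputable def Ctx.B (C : Ctx ι) : ℝ := 2 ^ C.U

/-- The admissible denominator of a coordinate. -/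
noncomputable def Ctx.m (C : Ctx ι) (u : ι → ℝ) : ℕ := if u ∈ C.R then C.D else 1

/-- The potential of a facet. -/
noncomputable def Ctx.Φ (C : Ctx ι) (F : Fc ι) : ℕ := F.h * (2 * C.D) ^ (F.φ ∩ C.R).card

/-- Size conditions on the data of a stage. -/
structure Ctx.OK (C : Ctx ι) : Prop where
  U1 : 1 ≤ C.U
  odd : Odd C.D
  DH : C.D * C.Hm ≤ 2 ^ C.U
  card : Fintype.card ι + 1 ≤ 2 ^ C.U
  eint : ∀ i, C.e i ∈ InG 0
  en : ∀ i, |C.e i| ≤ C.B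
  hF : ∀ p, ∃ f : ι → ℝ, (∀ i, f i ∈ InG 0) ∧ (∀ i, |f i| ≤ C.B) ∧ C.hF p = f ⬝ᵥ p

/-- The invariants of a facet. -/
structure FcOK (C : Ctx ι) (a b : ℕ) (F : Fc ι) : Prop extends Bas C.e F where
  lat : ∀ q : ι → ℝ, (∀ i, q i ∈ DyR) → F.ψ ⬝ᵥ q = 0 → ∀ u ∈ F.φ, (C.m u : ℝ) * F.ω u ⬝ᵥ q ∈ DyR
  odd : Odd F.h
  hψ : ∀ i, (F.h : ℝ) * F.ψ i ∈ DyR
  x0 : ∃ x₀ : ι → ℝ, (∀ i, x₀ i ∈ DyR) ∧ (F.h : ℝ) * (F.ψ ⬝ᵥ x₀) = -1
  hle : C.Φ F ≤ C.Hm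
  card : F.φ.card ≤ Fintype.card ι
  nψ : ∀ i, |F.ψ i| ≤ C.B ^ a
  nω : ∀ u ∈ F.φ, ∀ i, |F.ω u i| ≤ C.B ^ a
  den : ∃ Δ : ℕ, 0 < Δ ∧ Δ ≤ 2 ^ (C.U * b) ∧ (∀ i, (Δ : ℝ) * F.ψ i ∈ InG 0) ∧
    ∀ u ∈ F.φ, ∀ i, (Δ : ℝ) * F.ω u i ∈ InG 0
  lin : ∃ f : ι → ℝ, ∀ p, InC F p → C.hF p = f ⬝ᵥ p

/-- The admissible coefficients of a new point. -/
def Coef (C : Ctx ι) (h : ℕ) (u : ι → ℝ) (y : ℝ) : Prop :=
  ∃ N g : ℕ, 1 ≤ N ∧ y = N / (2 ^ g * C.m u * h) ∧ g ≤ C.U ∧ N ≤ C.m u * h ∧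
    (u ∉ C.R → 2 * N ≤ h)

omit [Fintype ι] in
lemma Ctx.B_pow (C : Ctx ι) (n : ℕ) : C.B ^ n = 2 ^ (C.U * n) := by rw [Ctx.B, pow_mul]

lemma Ctx.OK.two_le {C : Ctx ι} (hC : C.OK) : 2 ≤ C.B := by
  have := pow_le_pow_right₀ (one_le_two (α := ℝ)) hC.U1
  simpa [Ctx.B] using this

lemma Ctx.OK.pos {C : Ctx ι} (hC : C.OK) : 0 < C.B := by linarith [hC.two_le]

lemma Ctx.OK.cardR {C : Ctx ι} (hC : C.OK) : (Fintype.card ι : ℝ) + 1 ≤ C.B := by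
  rw [Ctx.B]; exact_mod_cast hC.card

lemma Ctx.OK.cardR' {C : Ctx ι} (hC : C.OK) : (Fintype.card ι : ℝ) ≤ C.B := by
  linarith [hC.cardR]

lemma Ctx.OK.m_odd {C : Ctx ι} (hC : C.OK) (u : ι → ℝ) : Odd (C.m u) := by
  rw [Ctx.m]; split_ifs; exacts [hC.odd, odd_one]

lemma Ctx.m_dvd (C : Ctx ι) (u : ι → ℝ) : C.m u ∣ C.D := by
  rw [Ctx.m]; split_ifs; exacts [dvd_rfl, one_dvd _]

lemma FcOK.Dh {C : Ctx ι} {a b : ℕ} {F : Fc ι} (hC : C.OK) (hF : FcOK C a b F) :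
    C.D * F.h ≤ 2 ^ C.U := by
  refine le_trans (Nat.mul_le_mul_left _ (le_trans ?_ hF.hle)) hC.DH
  exact Nat.le_mul_of_pos_right _ (pow_pos (by have := hC.odd.pos; omega) _)

lemma FcOK.mono {C : Ctx ι} {a b a' b' : ℕ} {F : Fc ι} (hC : C.OK) (hF : FcOK C a b F)
    (ha : a ≤ a') (hb : b ≤ b') : FcOK C a' b' F := by
  obtain ⟨Δ, h1, h2, h3⟩ := hF.den
  exact { hF with
    nψ := fun i => bd_mono hC.two_le (hF.nψ i) ha
    nω := fun u hu i => bd_mono hC.two_le (hF.nω u hu i) ha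
    den := ⟨Δ, h1, h2.trans (Nat.pow_le_pow_right (by norm_num) (Nat.mul_le_mul_left _ hb)), h3⟩ }

lemma FcOK.hψ_dot {C : Ctx ι} {a b : ℕ} {F : Fc ι} (hF : FcOK C a b F) {q : ι → ℝ}
    (hq : ∀ i, q i ∈ DyR) : (F.h : ℝ) * F.ψ ⬝ᵥ q ∈ DyR := by
  have := DyR.dot hF.hψ hq
  convert this using 1
  simp only [dotProduct, Finset.mul_sum, mul_assoc]

lemma FcOK.hψ_In {C : Ctx ι} {a b : ℕ} {F : Fc ι} (hF : FcOK C a b F) (i : ι) :
    (F.h : ℝ) * F.ψ i ∈ InG (C.U * b) := by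
  obtain ⟨Δ, h1, h2, h3, _⟩ := hF.den
  refine InG.of_den (hF.hψ i) h1 h2 ?_
  have := InG.mul (InG.nat 0 F.h) (h3 i)
  convert this using 1; ring

lemma Coef.bounds {C : Ctx ι} {h : ℕ} {u : ι → ℝ} {y : ℝ} (hC : C.OK) (hy : Coef C h u y)
    (h0 : 0 < h) (hD : C.D * h ≤ 2 ^ C.U) :
    (C.B ^ 2)⁻¹ ≤ y ∧ y ≤ 1 ∧ ((2 ^ C.U * C.D * h : ℕ) : ℝ) * y ∈ InG 0 := by
  obtain ⟨N, g, h1, rfl, h3, h4, _⟩ := hy
  have hm := (hC.m_odd u).pos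
  obtain ⟨d, hd⟩ := C.m_dvd u
  have h5 : C.m u * h ≤ 2 ^ C.U :=
    le_trans (Nat.mul_le_mul_right _ (Nat.le_of_dvd hC.odd.pos (C.m_dvd u))) hD
  have h6 : (2 : ℝ) ^ g ≤ C.B := pow_le_pow_right₀ one_le_two h3
  have h7 : (C.m u : ℝ) * h ≤ C.B := by rw [Ctx.B]; exact_mod_cast h5
  have h8 : (0 : ℝ) < C.m u * h := by positivity
  have h9 : (1 : ℝ) ≤ N := by exact_mod_cast h1
  have h10 : (N : ℝ) ≤ C.m u * h := by exact_mod_cast h4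
  have h11 : (1 : ℝ) ≤ 2 ^ g := one_le_pow₀ one_le_two
  refine ⟨?_, ?_, ?_⟩
  · rw [inv_eq_one_div, mul_assoc]
    refine div_le_div₀ (by positivity) h9 (by positivity) ?_
    rw [sq]
    exact mul_le_mul h6 h7 h8.le hC.pos.le
  · rw [mul_assoc, div_le_one (by positivity)]
    nlinarith
  · obtain ⟨r, hr⟩ := Nat.exists_eq_add_of_le h3
    have := InG.nat 0 (N * 2 ^ r * d)
    convert this using 1
    rw [hd, hr]
    push_cast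
    have : (C.m u : ℝ) ≠ 0 := by positivity
    field_simp
    ring

lemma FcOK.child {C : Ctx ι} {a b j : ℕ} {F : Fc ι} {x w : ι → ℝ} (hC : C.OK)
    (hF : FcOK C a b F) (hx : ∀ i, x i ∈ DyR) (hψx : F.ψ ⬝ᵥ x = -((C.B ^ j)⁻¹ / F.h))
    (hω : ∀ u ∈ F.φ, F.ω u ⬝ᵥ x = 0 ∨ Coef C F.h u (F.ω u ⬝ᵥ x)) (hxR : x ∉ C.R)
    (hw : w ∈ F.φ) (hwx : Coef C F.h w (F.ω w ⬝ᵥ x)) :
    ∃ h, FcOK C (a + 3) (b + j + 2) (F.child x w h) ∧ 2 * C.Φ (F.child x w h) ≤ C.Φ F := by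
  have hB := hC.two_le
  have hB0 := hC.pos
  have h0 := hF.odd.pos
  have h0R : (0 : ℝ) < F.h := by exact_mod_cast h0
  have h1R : (1 : ℝ) ≤ F.h := by exact_mod_cast h0
  have hD := hF.Dh hC
  obtain ⟨hy1, hy2, hy3⟩ := hwx.bounds hC h0 hD
  have hy0 : 0 < F.ω w ⬝ᵥ x := lt_of_lt_of_le (by positivity) hy1
  have hε : 0 < (C.B ^ j)⁻¹ / F.h := by positivity
  have hε1 : (C.B ^ j)⁻¹ / F.h ≤ 1 := by
    rw [div_le_one h0R]
    exact (inv_le_one_of_one_le₀ (one_le_pow₀ (by linarith))).trans h1R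
  have hψ0 : F.ψ ⬝ᵥ x ≠ 0 := by rw [hψx]; linarith
  have hxφ := hF.toBas.notMem hψ0
  have hne : ∀ u ∈ F.φ, u ≠ x := fun u hu h => hxφ (h ▸ hu)
  have hbas := fun h => hF.toBas.child hw hψ0 hy0.ne' h
  have hω' : ∀ u ∈ F.φ, 0 ≤ F.ω u ⬝ᵥ x ∧ F.ω u ⬝ᵥ x ≤ 1 ∧
      ((2 ^ C.U * C.D * F.h : ℕ) : ℝ) * F.ω u ⬝ᵥ x ∈ InG 0 := by
    intro u hu
    rcases hω u hu with h | h
    · rw [h, mul_zero]; exact ⟨le_rfl, zero_le_one, zero_mem _⟩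
    · obtain ⟨h1, h2, h3⟩ := h.bounds hC h0 hD
      exact ⟨le_trans (by positivity) h1, h2, h3⟩
  have hxC : InC F x := ⟨by rw [hψx]; linarith, fun u hu => (hω' u hu).1⟩
  have hc : ∀ q : ι → ℝ, (∀ i, q i ∈ DyR) → F.ψ ⬝ᵥ q / F.ψ ⬝ᵥ x ∈ DyR ∧
      ∀ u ∈ F.φ, (C.m u : ℝ) * (F.ω u ⬝ᵥ q - F.ψ ⬝ᵥ q / F.ψ ⬝ᵥ x * F.ω u ⬝ᵥ x) ∈ DyR := by
    intro q hq
    have h1 : F.ψ ⬝ᵥ q / F.ψ ⬝ᵥ x ∈ DyR := by
      have := DyR.neg_mem (DyR.mul_mem (DyR.two_pow (C.U * j)) (hF.hψ_dot hq))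
      convert this using 1
      rw [hψx, ← C.B_pow]; field_simp
    refine ⟨h1, fun u hu => ?_⟩
    have := hF.lat (q - (F.ψ ⬝ᵥ q / F.ψ ⬝ᵥ x) • x)
      (fun i => DyR.sub_mem (hq i) (DyR.mul_mem h1 (hx i)))
      (by rw [dotProduct_sub, dotProduct_smul, smul_eq_mul]; field_simp; ring) u hu
    rwa [dotProduct_sub, dotProduct_smul, smul_eq_mul] at this
  obtain ⟨N, g, hN1, hN2, hN3, hN4, hN5⟩ := hwx
  have hm : (0 : ℝ) < C.m w := by exact_mod_cast (hC.m_odd w).pos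
  have hNR : (0 : ℝ) < N := by exact_mod_cast hN1
  obtain ⟨h, hh1, hh2, hh3, hh4⟩ := exists_height (ψ := (F.child x w 0).ψ) hN1 (fun i => by
    classical
    have h1 := (hc (Pi.single i 1) (fun k => by
      rw [Pi.single_apply]; split_ifs; exacts [DyR.one_mem, DyR.zero_mem])).2 w hw
    have h2 := DyR.mul_mem (DyR.mul_mem (DyR.inv_pow (C.U * j)) (DyR.two_pow g)) h1
    convert h2 using 1
    rw [← dotProduct_single_one (F.child x w 0).ψ i, child_ψ, ← C.B_pow, hN2, hψx]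
    field_simp
    ring) hC.eint (hbas 0).ψe
  have hΦ : 2 * C.Φ (F.child x w h) ≤ C.Φ F := by
    have h3 : (F.child x w h).φ = insert x (F.φ.erase w) := rfl
    have h4 : (F.child x w h).h = h := rfl
    rw [Ctx.Φ, Ctx.Φ, h3, h4, Finset.insert_inter_of_notMem hxR, Finset.erase_inter]
    by_cases hwR : w ∈ C.R
    · have h5 : w ∈ F.φ ∩ C.R := Finset.mem_inter.2 ⟨hw, hwR⟩
      rw [← Finset.card_erase_add_one h5, pow_succ]
      rw [Ctx.m, if_pos hwR] at hN4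
      have h6 : h ≤ C.D * F.h := hh2.trans hN4
      nlinarith [Nat.mul_le_mul_right ((2 * C.D) ^ ((F.φ ∩ C.R).erase w).card) h6]
    · rw [Finset.erase_eq_of_notMem fun h => hwR (Finset.mem_inter.1 h).2, ← mul_assoc]
      exact Nat.mul_le_mul_right _ (by have := hN5 hwR; omega)
  have hinv : |(F.ω w ⬝ᵥ x)⁻¹| ≤ C.B ^ 2 := by
    rw [abs_of_pos (inv_pos.2 hy0)]
    exact inv_le_of_inv_le₀ (by positivity) hy1
  have hq : ∀ t : ℝ, |t| ≤ 1 → ∀ i, |t / F.ω w ⬝ᵥ x * F.ω w i| ≤ C.B ^ (a + 2) := by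
    intro t ht i
    have := bd_mul (bd_mul (n := 0) (by simpa using ht) hinv) (hF.nω w hw i)
    rw [div_eq_mul_inv]
    convert this using 2
    ring
  refine ⟨h, { hbas h with
    lat := ?_, odd := hh1, hψ := hh3, x0 := hh4, hle := ?_, card := ?_, nψ := ?_, nω := ?_,
    den := ?_, lin := ?_ }, hΦ⟩
  · intro q hq hψq u hu
    obtain ⟨h1, h2⟩ := hc q hq
    have h3 : F.ψ ⬝ᵥ q / F.ψ ⬝ᵥ x = F.ω w ⬝ᵥ q / F.ω w ⬝ᵥ x := by
      rw [child_ψ, sub_eq_zero] at hψq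
      rw [hψq]; field_simp
    rcases mem_child.1 hu with rfl | ⟨_, h5⟩
    · rw [child_ωx, ← h3]
      exact DyR.mul_mem (natCast_mem _ _) h1
    · rw [child_ω _ _ _ (hne u h5)]
      convert h2 u h5 using 2
      rw [h3]; ring
  · have := hF.hle; omega
  · have h3 : (F.child x w h).φ = insert x (F.φ.erase w) := rfl
    rw [h3]
    refine (Finset.card_insert_le _ _).trans ?_
    rw [Finset.card_erase_add_one hw]
    exact hF.card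
  · intro i
    refine bd_sub hB (bd_mono hB (hF.nψ i) (by omega)) (hq _ ?_ i)
    rw [hψx, abs_neg, abs_of_pos hε]; exact hε1
  · intro u hu i
    rcases mem_child.1 hu with rfl | ⟨_, h5⟩
    · have := hq 1 (by simp) i
      simp only [Fc.child, if_true, Pi.smul_apply, smul_eq_mul]
      rw [one_div] at this
      exact bd_mono hB this (by omega)
    · simp only [Fc.child, if_neg (hne u h5), Pi.sub_apply, Pi.smul_apply, smul_eq_mul]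
      refine bd_sub hB (bd_mono hB (hF.nω u h5 i) (by omega)) (hq _ ?_ i)
      rw [abs_of_nonneg (hω' u h5).1]; exact (hω' u h5).2.1
  · obtain ⟨Δ, hΔ1, hΔ2, hΔ3, hΔ4⟩ := hF.den
    obtain ⟨z, hz⟩ := mem_InG_zero.1 hy3
    have hΘ : (0 : ℝ) < (2 ^ C.U * C.D * F.h : ℕ) := by
      have := hC.odd.pos; positivity
    have hz0 : 0 < z := by
      have : (0 : ℝ) < z := by rw [← hz]; positivity
      exact_mod_cast this
    obtain ⟨n, rfl⟩ := Int.eq_ofNat_of_zero_le hz0.le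
    have hn : n ≤ 2 ^ C.U * C.D * F.h := by
      have : (n : ℝ) ≤ (2 ^ C.U * C.D * F.h : ℕ) := by
        rw [show (n : ℝ) = ((n : ℤ) : ℝ) by simp, ← hz]; nlinarith
      exact_mod_cast this
    have hz' : (n : ℝ) = (2 ^ C.U * C.D * F.h : ℕ) * F.ω w ⬝ᵥ x := by rw [hz]; simp
    have hn0 : 0 < n := by exact_mod_cast hz0
    refine ⟨Δ * n * 2 ^ (C.U * j), by positivity, ?_, fun i => ?_, fun u hu i => ?_⟩
    · have h1 : n ≤ 2 ^ C.U * 2 ^ C.U := hn.trans (by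
        rw [mul_assoc]; exact Nat.mul_le_mul_left _ hD)
      calc Δ * n * 2 ^ (C.U * j) ≤ 2 ^ (C.U * b) * (2 ^ C.U * 2 ^ C.U) * 2 ^ (C.U * j) :=
            Nat.mul_le_mul_right _ (Nat.mul_le_mul hΔ2 h1)
        _ = _ := by ring
    · have := add_mem (InG.mul (InG.nat 0 (n * 2 ^ (C.U * j))) (hΔ3 i))
        (InG.mul (InG.nat 0 (2 ^ C.U * C.D)) (hΔ4 w hw i))
      convert this using 1
      simp only [Fc.child, Pi.sub_apply, Pi.smul_apply, smul_eq_mul]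
      push_cast at hz' ⊢
      rw [hψx, hz', ← C.B_pow]
      field_simp
      ring
    · rcases mem_child.1 hu with rfl | ⟨_, h5⟩
      · have := InG.mul (InG.nat 0 (2 ^ C.U * C.D * F.h * 2 ^ (C.U * j))) (hΔ4 w hw i)
        convert this using 1
        simp only [Fc.child, if_true, Pi.smul_apply, smul_eq_mul]
        push_cast at hz' ⊢
        rw [hz']
        field_simp
      · have := sub_mem (InG.mul (InG.nat 0 (n * 2 ^ (C.U * j))) (hΔ4 u h5 i))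
          (InG.mul (InG.mul (InG.nat 0 (2 ^ (C.U * j))) (hω' u h5).2.2) (hΔ4 w hw i))
        convert this using 1
        simp only [Fc.child, if_neg (hne u h5), Pi.sub_apply, Pi.smul_apply, smul_eq_mul]
        push_cast at hz' ⊢
        rw [hz']
        field_simp
  · obtain ⟨f, hf⟩ := hF.lin
    exact ⟨f, fun p hp => hf p (InC.of_child hxC hxφ hy0 hp)⟩

end Pool.Agent.Lib.MP_892d22_co
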