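import Mathlib

namespace Pool.Agent.Lib.MP_892d22_co

open Matrix

/-- The dyadic rationals. -/
def DyR : Subring ℝ where
  carrier := {r | ∃ (c : ℕ) (z : ℤ), r * 2 ^ c = z}
  mul_mem' := by
    rintro a b ⟨c, z, h⟩ ⟨c', z', h'⟩
    exact ⟨c + c', z * z', by push_cast; rw [← h, ← h']; ring⟩
  one_mem' := ⟨0, 1, by simp⟩
  add_mem' := by
    rintro a b ⟨c, z, h⟩ ⟨c', z', h'⟩
    exact ⟨c + c', z * 2 ^ c' + z' * 2 ^ c, by push_cast; rw [← h, ← h']; ring⟩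
  zero_mem' := ⟨0, 0, by simp⟩
  neg_mem' := by
    rintro a ⟨c, z, h⟩
    exact ⟨c, -z, by push_cast; rw [← h]; ring⟩

/-- Reals whose `2 ^ n`-fold multiple is an integer. -/
def InG (n : ℕ) : AddSubgroup ℝ where
  carrier := {r | ∃ z : ℤ, r * 2 ^ n = z}
  add_mem' := by
    rintro a b ⟨z, h⟩ ⟨z', h'⟩
    exact ⟨z + z', by push_cast; rw [← h, ← h']; ring⟩
  zero_mem' := ⟨0, by simp⟩
  neg_mem' := by
    rintro a ⟨z, h⟩
    exact ⟨-z, by push_cast; rw [← h]; ring⟩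

lemma mem_InG {n : ℕ} {r : ℝ} : r ∈ InG n ↔ ∃ z : ℤ, r * 2 ^ n = z := Iff.rfl

lemma mem_DyR {r : ℝ} : r ∈ DyR ↔ ∃ c, r ∈ InG c := Iff.rfl

lemma InG.dy {n : ℕ} {r : ℝ} (h : r ∈ InG n) : r ∈ DyR := ⟨n, h⟩

lemma InG.mono {n m : ℕ} {r : ℝ} (h : r ∈ InG n) (hnm : n ≤ m) : r ∈ InG m := by
  obtain ⟨z, hz⟩ := h
  obtain ⟨d, rfl⟩ := Nat.exists_eq_add_of_le hnm
  exact ⟨z * 2 ^ d, by push_cast; rw [← hz]; ring⟩

lemma InG.mul {n m : ℕ} {r s : ℝ} (h : r ∈ InG n) (h' : s ∈ InG m) : r * s ∈ InG (n + m) := by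
  obtain ⟨z, hz⟩ := h
  obtain ⟨z', hz'⟩ := h'
  exact ⟨z * z', by push_cast; rw [← hz, ← hz']; ring⟩

lemma InG.int (n : ℕ) (z : ℤ) : (z : ℝ) ∈ InG n := ⟨z * 2 ^ n, by push_cast; ring⟩

lemma InG.nat (n : ℕ) (z : ℕ) : (z : ℝ) ∈ InG n := by simpa using InG.int n z

lemma mem_InG_zero {r : ℝ} : r ∈ InG 0 ↔ ∃ z : ℤ, r = z := by simp [mem_InG]

lemma InG.dot {ι : Type} [Fintype ι] {n m : ℕ} {u v : ι → ℝ} (h : ∀ i, u i ∈ InG n)
    (h' : ∀ i, v i ∈ InG m) : u ⬝ᵥ v ∈ InG (n + m) :=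
  AddSubgroup.sum_mem _ fun i _ => InG.mul (h i) (h' i)

lemma DyR.dot {ι : Type} [Fintype ι] {u v : ι → ℝ} (h : ∀ i, u i ∈ DyR)
    (h' : ∀ i, v i ∈ DyR) : u ⬝ᵥ v ∈ DyR :=
  Subring.sum_mem _ fun i _ => DyR.mul_mem (h i) (h' i)

lemma DyR.inv_pow (c : ℕ) : ((2 : ℝ) ^ c)⁻¹ ∈ DyR := ⟨c, 1, by simp⟩

lemma DyR.two_pow (c : ℕ) : (2 : ℝ) ^ c ∈ DyR := by
  simpa using natCast_mem DyR (2 ^ c)

/-- A dyadic number with a denominator at most `2 ^ n` has denominator dividing `2 ^ n`. -/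
lemma InG.of_den {n Δ : ℕ} {r : ℝ} (h : r ∈ DyR) (h0 : 0 < Δ) (hΔ : Δ ≤ 2 ^ n)
    (hz : (Δ : ℝ) * r ∈ InG 0) : r ∈ InG n := by
  obtain ⟨c, z, hc⟩ := h
  obtain ⟨w, hw⟩ := mem_InG_zero.1 hz
  obtain ⟨e, m, hm, rfl⟩ := Nat.exists_eq_two_pow_mul_odd h0.ne'
  have he : e ≤ n := by
    have h1 : 2 ^ e ≤ 2 ^ n := le_trans (Nat.le_mul_of_pos_right _ hm.pos) hΔ
    exact (Nat.pow_le_pow_iff_right (by norm_num)).1 h1
  refine InG.mono ?_ he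
  have hcop : IsCoprime ((2 : ℤ) ^ c) (m : ℤ) := by
    have : Nat.Coprime (2 ^ c) m := Nat.Coprime.pow_left _ (Nat.coprime_two_left.2 hm)
    exact_mod_cast Nat.isCoprime_iff_coprime.2 this
  obtain ⟨u, v, huv⟩ := hcop
  have huv' : (u : ℝ) * 2 ^ c + v * m = 1 := by exact_mod_cast huv
  refine ⟨u * z * 2 ^ e + v * w, ?_⟩
  push_cast at hw ⊢
  rw [← hc, ← hw]
  linear_combination (-(r * 2 ^ e)) * huv'

lemma dvd_of_dy {N h : ℕ} (hh : Odd h) (hd : (N : ℝ) / h ∈ DyR) : h ∣ N := by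
  obtain ⟨c, z, hc⟩ := hd
  have h0 : (h : ℝ) ≠ 0 := by exact_mod_cast hh.pos.ne'
  have h1 : (N : ℤ) * 2 ^ c = h * z := by
    have : (N : ℝ) * 2 ^ c = h * z := by rw [← hc]; field_simp
    exact_mod_cast this
  have h2 : h ∣ N * 2 ^ c := by
    have : (h : ℤ) ∣ (N : ℤ) * 2 ^ c := ⟨z, h1⟩
    exact_mod_cast this
  exact (Nat.Coprime.pow_right c (Nat.coprime_two_right.2 hh)).dvd_of_dvd_mul_right h2

lemma residue_one {M : ℕ} (hM : Odd M) {A : ℝ} (hA : A ∈ DyR) :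
    ∃ N : ℕ, 1 ≤ N ∧ N ≤ M ∧ (N - A) / M ∈ DyR := by
  obtain ⟨c, z, hc⟩ := hA
  have hcop : IsCoprime ((2 : ℤ) ^ c) (M : ℤ) := by
    have : Nat.Coprime (2 ^ c) M := Nat.Coprime.pow_left _ (Nat.coprime_two_left.2 hM)
    exact_mod_cast Nat.isCoprime_iff_coprime.2 this
  obtain ⟨u, v, huv⟩ := hcop
  have huv' : (u : ℝ) * 2 ^ c + v * M = 1 := by exact_mod_cast huv
  have hM0 : (0 : ℤ) < M := by exact_mod_cast hM.pos
  have hMR : (M : ℝ) ≠ 0 := by exact_mod_cast hM.pos.ne'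
  have h1 := Int.emod_nonneg (u * z - 1) hM0.ne'
  have h2 := Int.emod_lt_of_pos (u * z - 1) hM0
  have h3 := Int.emod_add_mul_ediv (u * z - 1) M
  obtain ⟨N, hN⟩ := Int.eq_ofNat_of_zero_le h1
  refine ⟨N + 1, by omega, by omega, c, -((u * z - 1) / M) * 2 ^ c - v * z, ?_⟩
  have h4 : (N : ℝ) + M * ((u * z - 1) / M : ℤ) = u * z - 1 := by
    rw [hN] at h3; exact_mod_cast h3
  push_cast
  field_simp
  rw [← hc] at h4 ⊢
  linear_combination (2 ^ c) * h4 + (A * 2 ^ c) * huv'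

lemma residue_half {M : ℕ} (hM : Odd M) {A : ℝ} (hA : A ∈ DyR) (hAM : A / M ∉ DyR) :
    ∃ N g : ℕ, 1 ≤ N ∧ 2 * N ≤ M ∧ 2 ^ g ≤ M ∧ (N / 2 ^ g - A) / M ∈ DyR := by
  obtain ⟨N, h1, h2, h3⟩ := residue_one hM hA
  have hMR : (M : ℝ) ≠ 0 := by exact_mod_cast hM.pos.ne'
  have h4 : N ≠ M := by
    rintro rfl
    apply hAM
    have := DyR.sub_mem DyR.one_mem h3
    convert this using 1
    field_simp
    ring
  obtain ⟨d, rfl⟩ := Nat.exists_eq_add_of_le h2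
  have hd : 0 < d := by omega
  have hex : ∃ g, N + d ≤ 2 * (d * 2 ^ g) := ⟨N + d, by
    have := Nat.lt_two_pow_self (n := N + d)
    nlinarith⟩
  classical
  have h5 := Nat.find_spec hex
  have h6 : d * 2 ^ Nat.find hex < N + d := by
    rcases h : Nat.find hex with _ | g
    · omega
    · have := Nat.find_min hex (m := g) (by omega)
      rw [pow_succ]
      nlinarith
  obtain ⟨N', hN'⟩ := Nat.exists_eq_add_of_lt h6
  refine ⟨N' + 1, Nat.find hex, by omega, by omega, by nlinarith, ?_⟩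
  have h7 : (N : ℝ) + d = d * 2 ^ Nat.find hex + N' + 1 := by exact_mod_cast hN'
  have := DyR.add_mem (DyR.sub_mem (DyR.inv_pow (Nat.find hex)) DyR.one_mem) h3
  convert this using 1
  push_cast at hMR ⊢
  field_simp
  linear_combination (-1 : ℝ) * h7

lemma exists_common {ι : Type} [Fintype ι] {v : ι → ℝ} (h : ∀ i, v i ∈ DyR) :
    ∃ c, ∀ i, v i ∈ InG c := by
  choose c hc using h
  exact ⟨Finset.univ.sup c, fun i => InG.mono (hc i) (Finset.le_sup (Finset.mem_univ i))⟩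

/-- The odd height of an integer point over a rational hyperplane. -/
lemma exists_height {ι : Type} [Fintype ι] {ψ e : ι → ℝ} {N : ℕ} (hN : 0 < N)
    (hψ : ∀ i, (N : ℝ) * ψ i ∈ DyR) (he : ∀ i, e i ∈ InG 0) (hψe : ψ ⬝ᵥ e = -1) :
    ∃ h : ℕ, Odd h ∧ h ≤ N ∧ (∀ i, (h : ℝ) * ψ i ∈ DyR) ∧
      ∃ x₀ : ι → ℝ, (∀ i, x₀ i ∈ DyR) ∧ (h : ℝ) * (ψ ⬝ᵥ x₀) = -1 := by
  classical
  obtain ⟨c, hc⟩ := exists_common hψ
  choose a ha using hc
  choose ee hee using fun i => mem_InG_zero.1 (he i)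
  obtain ⟨b, hb⟩ := Finset.gcd_eq_sum_mul Finset.univ a
  set g := Finset.univ.gcd a with hg
  have hdv : ∀ i, g ∣ a i := fun i => Finset.gcd_dvd (Finset.mem_univ i)
  have h1 : ∑ i, a i * ee i = -(2 ^ c * N) := by
    have : ∑ i, (a i : ℝ) * ee i = -(2 ^ c * N) := by
      simp only [← ha, ← hee]
      rw [show ∑ i, N * ψ i * 2 ^ c * e i = (2 ^ c * N) * (ψ ⬝ᵥ e) by
        rw [dotProduct, Finset.mul_sum]; exact Finset.sum_congr rfl fun i _ => by ring, hψe]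
      ring
    exact_mod_cast this
  have h2 : g ∣ 2 ^ c * N := by
    rw [← dvd_neg, ← h1]
    exact Finset.dvd_sum fun i _ => (hdv i).mul_right _
  have hg0 : 0 ≤ g := by
    rw [hg, ← Finset.normalize_gcd]
    exact Int.nonneg_of_normalize_eq_self (by simp)
  obtain ⟨g', hg'⟩ := Int.eq_ofNat_of_zero_le hg0
  rw [hg'] at h2 hdv hb
  obtain ⟨t, ht⟩ : g' ∣ 2 ^ c * N := by exact_mod_cast h2
  have ht0 : t ≠ 0 := by rintro rfl; simp at ht; omega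
  have hg1 : g' ≠ 0 := by rintro rfl; simp at ht; omega
  obtain ⟨r, h, hh, rfl⟩ := Nat.exists_eq_two_pow_mul_odd ht0
  have htR : (2 : ℝ) ^ c * N = g' * (2 ^ r * h) := by exact_mod_cast ht
  have hgR : (g' : ℝ) ≠ 0 := by exact_mod_cast hg1
  have hNR : (N : ℝ) ≠ 0 := by exact_mod_cast hN.ne'
  have key : ∀ i, (h : ℝ) * ψ i * 2 ^ r * g' = a i := fun i => by
    rw [← ha i]; linear_combination (-ψ i) * htR
  refine ⟨h, hh, ?_, fun i => ?_, fun i => -(2 ^ r * b i), fun i => ?_, ?_⟩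
  · refine Nat.le_of_dvd hN ?_
    have : h ∣ 2 ^ c * N := ⟨g' * 2 ^ r, by rw [ht]; ring⟩
    exact (Nat.Coprime.pow_right c (Nat.coprime_two_right.2 hh)).dvd_of_dvd_mul_left this
  · obtain ⟨q, hq⟩ := hdv i
    refine ⟨r, q, mul_right_cancel₀ hgR ?_⟩
    rw [key, hq]; push_cast; ring
  · exact DyR.neg_mem (DyR.mul_mem (DyR.two_pow r) (intCast_mem _ _))
  · have hbR : (g' : ℝ) = ∑ i, (a i : ℝ) * b i := by exact_mod_cast hb
    refine mul_right_cancel₀ hgR ?_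
    rw [neg_mul, one_mul]
    conv_rhs => rw [hbR]
    rw [dotProduct, Finset.mul_sum, Finset.sum_mul, ← Finset.sum_neg_distrib]
    refine Finset.sum_congr rfl fun i _ => ?_
    rw [← key]; ring

end Pool.Agent.Lib.MP_892d22_co
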