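import Pool.Agent.Lib.MP_892d22_co.H24Dy

namespace Pool.Agent.Lib.MP_892d22_co

open Matrix

variable {ι : Type} [Fintype ι]

/-- A simplicial facet seen from a fixed direction, with its dual basis. -/
structure Fc (ι : Type) where
  φ : Finset (ι → ℝ)
  ψ : ι → ℝ
  ω : (ι → ℝ) → ι → ℝ
  h : ℕ

/-- The facet obtained by exchanging `w` for `x`. -/
noncomputable def Fc.child (F : Fc ι) (x w : ι → ℝ) (h : ℕ) : Fc ι where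
  φ := insert x (F.φ.erase w)
  ψ := F.ψ - (F.ψ ⬝ᵥ x / F.ω w ⬝ᵥ x) • F.ω w
  ω := fun u => if u = x then (F.ω w ⬝ᵥ x)⁻¹ • F.ω w
    else F.ω u - (F.ω u ⬝ᵥ x / F.ω w ⬝ᵥ x) • F.ω w
  h := h

/-- The points of the facet and `e` form a basis with the given dual basis. -/
structure Bas (e : ι → ℝ) (F : Fc ι) : Prop where
  ψe : F.ψ ⬝ᵥ e = -1
  ψu : ∀ u ∈ F.φ, F.ψ ⬝ᵥ u = 0
  ωe : ∀ u ∈ F.φ, F.ω u ⬝ᵥ e = 0
  ωu : ∀ u ∈ F.φ, ∀ u' ∈ F.φ, F.ω u ⬝ᵥ u' = if u = u' then 1 else 0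
  exp : ∀ p, p = -(F.ψ ⬝ᵥ p) • e + ∑ u ∈ F.φ, (F.ω u ⬝ᵥ p) • u

/-- The cone spanned by the facet and `e`. -/
def InC (F : Fc ι) (p : ι → ℝ) : Prop := F.ψ ⬝ᵥ p ≤ 0 ∧ ∀ u ∈ F.φ, 0 ≤ F.ω u ⬝ᵥ p

lemma child_ψ (F : Fc ι) (x w : ι → ℝ) (h : ℕ) (p : ι → ℝ) :
    (F.child x w h).ψ ⬝ᵥ p = F.ψ ⬝ᵥ p - (F.ψ ⬝ᵥ x / F.ω w ⬝ᵥ x) * F.ω w ⬝ᵥ p := by
  simp [Fc.child, sub_dotProduct, smul_dotProduct]

lemma child_ωx (F : Fc ι) (x w : ι → ℝ) (h : ℕ) (p : ι → ℝ) :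
    (F.child x w h).ω x ⬝ᵥ p = F.ω w ⬝ᵥ p / F.ω w ⬝ᵥ x := by
  simp [Fc.child, smul_dotProduct, div_eq_inv_mul]

lemma child_ω (F : Fc ι) {x u : ι → ℝ} (w : ι → ℝ) (h : ℕ) (hu : u ≠ x) (p : ι → ℝ) :
    (F.child x w h).ω u ⬝ᵥ p = F.ω u ⬝ᵥ p - (F.ω u ⬝ᵥ x / F.ω w ⬝ᵥ x) * F.ω w ⬝ᵥ p := by
  simp [Fc.child, hu, sub_dotProduct, smul_dotProduct]

lemma mem_child {F : Fc ι} {x w u : ι → ℝ} {h : ℕ} :
    u ∈ (F.child x w h).φ ↔ u = x ∨ (u ≠ w ∧ u ∈ F.φ) := by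
  simp [Fc.child]

lemma Bas.notMem {e x : ι → ℝ} {F : Fc ι} (hF : Bas e F) (hx : F.ψ ⬝ᵥ x ≠ 0) : x ∉ F.φ :=
  fun h => hx (hF.ψu x h)

lemma Bas.child {e x w : ι → ℝ} {F : Fc ι} (hF : Bas e F) (hw : w ∈ F.φ) (hx : F.ψ ⬝ᵥ x ≠ 0)
    (hwx : F.ω w ⬝ᵥ x ≠ 0) (h : ℕ) : Bas e (F.child x w h) := by
  have hxφ := hF.notMem hx
  have hne : ∀ u ∈ F.φ, u ≠ x := fun u hu h => hxφ (h ▸ hu)
  refine ⟨?_, ?_, ?_, ?_, fun p => ?_⟩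
  · rw [child_ψ, hF.ψe, hF.ωe w hw]; ring
  · intro u hu
    rcases mem_child.1 hu with rfl | ⟨h1, h2⟩
    · rw [child_ψ]; field_simp; ring
    · rw [child_ψ, hF.ψu u h2, hF.ωu w hw u h2, if_neg h1.symm]; ring
  · intro u hu
    rcases mem_child.1 hu with rfl | ⟨_, h2⟩
    · rw [child_ωx, hF.ωe w hw, zero_div]
    · rw [child_ω _ _ _ (hne u h2), hF.ωe u h2, hF.ωe w hw]; ring
  · intro u hu u' hu'
    rcases mem_child.1 hu with rfl | ⟨h1, h2⟩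
    · rcases mem_child.1 hu' with rfl | ⟨h3, h4⟩
      · rw [child_ωx, div_self hwx, if_pos rfl]
      · rw [child_ωx, hF.ωu w hw u' h4, if_neg h3.symm, zero_div, if_neg (hne u' h4).symm]
    · rcases mem_child.1 hu' with rfl | ⟨h3, h4⟩
      · rw [child_ω _ _ _ (hne u h2), if_neg (hne u h2)]; field_simp; ring
      · rw [child_ω _ _ _ (hne u h2), hF.ωu w hw u' h4, if_neg h3.symm, hF.ωu u h2 u' h4]; ring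
  · have h1 := hF.exp (p - (F.ω w ⬝ᵥ p / F.ω w ⬝ᵥ x) • x)
    rw [← Finset.add_sum_erase _ _ hw] at h1
    have h2 : F.ω w ⬝ᵥ (p - (F.ω w ⬝ᵥ p / F.ω w ⬝ᵥ x) • x) = 0 := by
      rw [dotProduct_sub, dotProduct_smul, smul_eq_mul]; field_simp; ring
    rw [h2, zero_smul, zero_add, sub_eq_iff_eq_add] at h1
    have h3 : (F.child x w h).φ = insert x (F.φ.erase w) := rfl
    rw [h3, Finset.sum_insert (fun h => hxφ (Finset.mem_of_mem_erase h)), child_ωx, child_ψ]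
    conv_lhs => rw [h1]
    rw [add_assoc, add_comm (∑ _ ∈ _, _)]
    congr 1
    · rw [dotProduct_sub, dotProduct_smul, smul_eq_mul]
      congr 1; ring
    · congr 1
      refine Finset.sum_congr rfl fun u hu => ?_
      rw [child_ω _ _ _ (hne u (Finset.mem_of_mem_erase hu)), dotProduct_sub, dotProduct_smul,
        smul_eq_mul]
      congr 1; ring

lemma InC.of_child {x w p : ι → ℝ} {F : Fc ι} {h : ℕ} (hx : InC F x) (hxφ : x ∉ F.φ)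
    (hwx : 0 < F.ω w ⬝ᵥ x) (hp : InC (F.child x w h) p) : InC F p := by
  have h1 : 0 ≤ F.ω w ⬝ᵥ p := by
    have := hp.2 x (mem_child.2 (Or.inl rfl))
    rw [child_ωx] at this
    exact (div_nonneg_iff.1 this).elim (fun h => h.1) fun h => absurd h.2 (not_le.2 hwx)
  refine ⟨?_, fun u hu => ?_⟩
  · have h2 := hp.1
    rw [child_ψ] at h2
    have : F.ψ ⬝ᵥ x / F.ω w ⬝ᵥ x * F.ω w ⬝ᵥ p ≤ 0 :=
      mul_nonpos_of_nonpos_of_nonneg (div_nonpos_of_nonpos_of_nonneg hx.1 hwx.le) h1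
    linarith
  · by_cases huw : u = w
    · exact huw ▸ h1
    · have h2 := hp.2 u (mem_child.2 (Or.inr ⟨huw, hu⟩))
      rw [child_ω _ _ _ (fun h : u = x => hxφ (h ▸ hu))] at h2
      have : 0 ≤ F.ω u ⬝ᵥ x / F.ω w ⬝ᵥ x * F.ω w ⬝ᵥ p :=
        mul_nonneg (div_nonneg (hx.2 u hu) hwx.le) h1
      linarith

/-- The ratio test. -/
lemma InC.split {x p : ι → ℝ} {F : Fc ι} (hp : InC F p) (hx : InC F x) (hx0 : F.ψ ⬝ᵥ x < 0)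
    (hxφ : x ∉ F.φ) :
    (∀ u ∈ F.φ, F.ψ ⬝ᵥ p / F.ψ ⬝ᵥ x * F.ω u ⬝ᵥ x ≤ F.ω u ⬝ᵥ p) ∨
      ∃ w ∈ F.φ, 0 < F.ω w ⬝ᵥ x ∧ ∀ h, InC (F.child x w h) p := by
  by_cases h0 : ∀ u ∈ F.φ, F.ψ ⬝ᵥ p / F.ψ ⬝ᵥ x * F.ω u ⬝ᵥ x ≤ F.ω u ⬝ᵥ p
  · exact Or.inl h0
  right
  push Not at h0
  obtain ⟨u₀, hu₀, h1⟩ := h0
  have hu₀x : 0 < F.ω u₀ ⬝ᵥ x := by
    rcases (hx.2 u₀ hu₀).lt_or_eq with h | h
    · exact h
    · rw [← h, mul_zero] at h1; linarith [hp.2 u₀ hu₀]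
  obtain ⟨w, hw', hmin⟩ := Finset.exists_min_image (F.φ.filter fun u => 0 < F.ω u ⬝ᵥ x)
    (fun u => F.ω u ⬝ᵥ p / F.ω u ⬝ᵥ x) ⟨u₀, Finset.mem_filter.2 ⟨hu₀, hu₀x⟩⟩
  obtain ⟨hw, hwx⟩ := Finset.mem_filter.1 hw'
  refine ⟨w, hw, hwx, fun h => ⟨?_, fun u hu => ?_⟩⟩
  · rw [child_ψ]
    have h2 := hmin u₀ (Finset.mem_filter.2 ⟨hu₀, hu₀x⟩)
    have h3 : F.ω u₀ ⬝ᵥ p / F.ω u₀ ⬝ᵥ x < F.ψ ⬝ᵥ p / F.ψ ⬝ᵥ x := by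
      rw [div_lt_iff₀ hu₀x]; exact h1
    have h4 := (lt_div_iff_of_neg hx0).1 (h2.trans_lt h3)
    rw [show F.ψ ⬝ᵥ x / F.ω w ⬝ᵥ x * F.ω w ⬝ᵥ p = F.ω w ⬝ᵥ p / F.ω w ⬝ᵥ x * F.ψ ⬝ᵥ x by ring]
    linarith
  · rcases mem_child.1 hu with rfl | ⟨_, h3⟩
    · rw [child_ωx]; exact div_nonneg (hp.2 w hw) hwx.le
    · rw [child_ω _ _ _ (fun h : u = x => hxφ (h ▸ h3))]
      rcases (hx.2 u h3).lt_or_eq with h4 | h4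
      · have h5 := hmin u (Finset.mem_filter.2 ⟨h3, h4⟩)
        rw [le_div_iff₀ h4] at h5
        rw [show F.ω u ⬝ᵥ x / F.ω w ⬝ᵥ x * F.ω w ⬝ᵥ p =
          F.ω w ⬝ᵥ p / F.ω w ⬝ᵥ x * F.ω u ⬝ᵥ x by ring]
        linarith
      · rw [← h4]; simpa using hp.2 u h3

section bounds

variable {B : ℝ}

lemma bd_mono (hB : 2 ≤ B) {n m : ℕ} {x : ℝ} (h : |x| ≤ B ^ n) (hnm : n ≤ m) : |x| ≤ B ^ m :=
  h.trans (pow_le_pow_right₀ (by linarith) hnm)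

lemma bd_mul {n m : ℕ} {x y : ℝ} (h : |x| ≤ B ^ n) (h' : |y| ≤ B ^ m) :
    |x * y| ≤ B ^ (n + m) := by
  rw [abs_mul, pow_add]
  exact mul_le_mul h h' (abs_nonneg _) ((abs_nonneg _).trans h)

lemma bd_add (hB : 2 ≤ B) {n : ℕ} {x y : ℝ} (h : |x| ≤ B ^ n) (h' : |y| ≤ B ^ n) :
    |x + y| ≤ B ^ (n + 1) := by
  have : 0 ≤ B ^ n := by positivity
  rw [pow_succ]
  nlinarith [abs_add_le x y]

lemma bd_sub (hB : 2 ≤ B) {n : ℕ} {x y : ℝ} (h : |x| ≤ B ^ n) (h' : |y| ≤ B ^ n) :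
    |x - y| ≤ B ^ (n + 1) := by
  rw [sub_eq_add_neg]
  exact bd_add hB h (by rwa [abs_neg])

lemma bd_sum {α : Type} {s : Finset α} {f : α → ℝ} {c : ℝ} (h : ∀ i ∈ s, |f i| ≤ c) :
    |∑ i ∈ s, f i| ≤ s.card * c := by
  refine (Finset.abs_sum_le_sum_abs _ _).trans ?_
  simpa using Finset.sum_le_card_nsmul s (fun i => |f i|) c h

lemma bd_dot (hB : (Fintype.card ι : ℝ) ≤ B) {n m : ℕ} {u v : ι → ℝ} (h : ∀ i, |u i| ≤ B ^ n)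
    (h' : ∀ i, |v i| ≤ B ^ m) : |u ⬝ᵥ v| ≤ B ^ (n + m + 1) := by
  refine (bd_sum fun i _ => bd_mul (h i) (h' i)).trans ?_
  have h0 : 0 ≤ B := le_trans (Nat.cast_nonneg _) hB
  rw [pow_succ, mul_comm]
  exact mul_le_mul_of_nonneg_left hB (by positivity)

end bounds

end Pool.Agent.Lib.MP_892d22_co
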