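import Pool.Agent.Lib.MP_892d22_co.H24Cay

namespace Pool.Agent.Lib.MP_892d22_co

open Matrix

/-- The outer normals of the lecture hall simplex. -/
noncomputable def hr (N : ℕ) (t : ℕ → ℕ) (j : ℕ) : Fin N → ℝ := fun i =>
  (if (i : ℕ) + 1 = j then (t (j + 1) : ℝ) else 0) - if (i : ℕ) = j then (t j : ℝ) else 0

/-- The truncated vertices of the lecture hall simplex. -/
noncomputable def hg (N : ℕ) (t : ℕ → ℕ) (m k : ℕ) : Fin N → ℝ := fun i =>
  if k ≤ (i : ℕ) ∧ (i : ℕ) < m then (t (i + 1) : ℝ) else 0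

/-- The basis at stage `m`. -/
noncomputable def hρ (N : ℕ) (t : ℕ → ℕ) (m : ℕ) (k : Fin N) : Fin N → ℝ :=
  if (k : ℕ) < m then hr N t k else -Pi.single k 1

/-- The dual basis at stage `m`. -/
noncomputable def hα (N : ℕ) (t : ℕ → ℕ) (m : ℕ) (k : Fin N) : Fin N → ℝ :=
  if (k : ℕ) < m then -((t k : ℝ) * t (k + 1))⁻¹ • hg N t m k else -Pi.single k 1

variable {N : ℕ} {t : ℕ → ℕ}

lemma dot_hr (P : ℕ → ℝ) (j : ℕ) : (fun i : Fin N => P i) ⬝ᵥ hr N t j =
    (if 0 < j ∧ j ≤ N then P (j - 1) * t (j + 1) else 0) - if j < N then P j * t j else 0 := by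
  rw [dotProduct]
  simp only [hr, mul_sub, Finset.sum_sub_distrib, mul_ite, mul_zero]
  rw [Fin.sum_univ_eq_sum_range (fun i => if i + 1 = j then P i * t (j + 1) else 0),
    Fin.sum_univ_eq_sum_range (fun i => if i = j then P i * t j else 0)]
  congr 1
  · rcases j with _ | j
    · simp
    · simp only [Nat.add_right_cancel_iff, Finset.sum_ite_eq', Finset.mem_range, Nat.succ_pos,
        true_and, Nat.add_sub_cancel, Nat.succ_le_iff]
  · simp only [Finset.sum_ite_eq', Finset.mem_range]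

lemma hg_hr {m k j : ℕ} (hm : m ≤ N) (hj : j ≤ m) : hg N t m k ⬝ᵥ hr N t j =
    if j < m then (if k = j then -((t j : ℝ) * t (j + 1)) else 0)
    else if k < m then (t j : ℝ) * t (j + 1) else 0 := by
  refine (dot_hr (fun i => if k ≤ i ∧ i < m then (t (i + 1) : ℝ) else 0) j).trans ?_
  rcases j with _ | j
  · split_ifs <;> first | omega | ring
  · simp only [Nat.add_sub_cancel]
    split_ifs <;> first | omega | ring

lemma hg_nonneg (m k : ℕ) (i : Fin N) : 0 ≤ hg N t m k i := by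
  rw [hg]; split_ifs <;> positivity

lemma hα_hρ (ht : ∀ i, 0 < t i) {m : ℕ} (hm : m ≤ N) (k j : Fin N) :
    hα N t m k ⬝ᵥ hρ N t m j = if k = j then 1 else 0 := by
  have h0 : ∀ i, (t i : ℝ) ≠ 0 := fun i => by exact_mod_cast (ht i).ne'
  rw [hα, hρ]
  by_cases hk : (k : ℕ) < m <;> by_cases hj : (j : ℕ) < m
  · rw [if_pos hk, if_pos hj, smul_dotProduct, hg_hr hm hj.le, if_pos hj]
    by_cases h : k = j
    · subst h
      have := h0 k
      have := h0 (k + 1)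
      simp only [if_true, smul_eq_mul]; field_simp
    · rw [if_neg h, if_neg (fun h' => h (Fin.ext h')), smul_zero]
  · rw [if_pos hk, if_neg hj, if_neg (by rintro rfl; exact hj hk)]
    simp [hg, hj]
  · rw [if_neg hk, if_pos hj, if_neg (by rintro rfl; exact hk hj), neg_dotProduct,
      single_dotProduct, hr, if_neg (by omega), if_neg (by omega)]
    simp
  · rw [if_neg hk, if_neg hj, neg_dotProduct_neg, single_dotProduct, one_mul, Pi.single_apply]

lemma hr_int (j : ℕ) (i : Fin N) : hr N t j i ∈ InG 0 := by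
  refine sub_mem ?_ ?_ <;> split_ifs <;> first | exact InG.nat 0 _ | exact zero_mem _

lemma hg_int (m k : ℕ) (i : Fin N) : hg N t m k i ∈ InG 0 := by
  rw [hg]; split_ifs; exacts [InG.nat 0 _, zero_mem _]

lemma hr_norm {S : ℕ} (hS : ∀ i, t i ≤ S) (j : ℕ) (i : Fin N) : |hr N t j i| ≤ S := by
  have h1 : ∀ i, (t i : ℝ) ≤ S := fun i => by exact_mod_cast hS i
  rw [hr]
  split_ifs <;> first | omega | simp [h1]

lemma hg_norm {S : ℕ} (hS : ∀ i, t i ≤ S) (m k : ℕ) (i : Fin N) : |hg N t m k i| ≤ S := by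
  have h1 : ∀ i, (t i : ℝ) ≤ S := fun i => by exact_mod_cast hS i
  rw [hg]
  split_ifs <;> simp [h1]

lemma single_int (k i : Fin N) : (-Pi.single k 1 : Fin N → ℝ) i ∈ InG 0 ∧
    |(-Pi.single k 1 : Fin N → ℝ) i| ≤ 1 := by
  rw [Pi.neg_apply, Pi.single_apply]
  split_ifs
  · exact ⟨by simpa using InG.int 0 (-1), by simp⟩
  · simp

lemma par_bound (n : ℕ) : let π := Par.next^[n] ⟨3, 3, 3, 3, 0⟩
    π.a = 3 * n + 3 ∧ 3 ≤ π.l ∧ 3 ≤ π.b ∧ 3 ≤ π.z ∧ π.l ≤ 20 * (n + 1) ^ 2 ∧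
      π.b ≤ 40 * (n + 1) ^ 3 ∧ π.z ≤ 40 * (n + 1) ^ 3 ∧ π.E ≤ 100 * (n + 1) ^ 4 := by
  induction n with
  | zero => simp
  | succ n ih =>
    rw [Function.iterate_succ_apply']
    obtain ⟨h1, h2, h3, h4, h5, h6, h7, h8⟩ := ih
    generalize Par.next^[n] ⟨3, 3, 3, 3, 0⟩ = π at *
    simp only [Par.next, Par.j]
    refine ⟨by omega, by omega, by omega, by omega, ?_, ?_, ?_, ?_⟩ <;> rw [h1] <;>
      nlinarith [Nat.zero_le (n ^ 3), Nat.zero_le (n ^ 2)]

theorem hall_stages {U S : ℕ} {hF : (Fin N → ℝ) → ℝ} (hN : 0 < N) (ht : ∀ i, 0 < t i)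
    (hS : ∀ i, t i ≤ S) (hU : 1 ≤ U) (hNU : N + 1 ≤ 2 ^ U) (hSU : S ≤ 2 ^ U)
    (hDU : S ^ (2 * (N + 2)) * (S ^ (2 * (N + 2)) * (N * (S * S)) *
      (2 * S ^ (2 * (N + 2))) ^ N) ≤ 2 ^ U)
    (hs : Supp (2 ^ U) (Set.range fun k : Fin (N + 1) => hg N t N k) hF) :
    ∃ V Y, VY (2 ^ U) U hF (Par.next^[(N + 1) * (U + 2)] ⟨3, 3, 3, 3, 0⟩) V Y ∧
      ∀ p, Rep (2 ^ U) hF V Y p := by
  have h0 : ∀ i, (0 : ℝ) < t i := fun i => by exact_mod_cast ht i
  have h1 : ∀ i, (1 : ℝ) ≤ t i := fun i => by exact_mod_cast ht i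
  have hS1 : 1 ≤ S := (ht 0).trans_le (hS 0)
  have hS1R : (1 : ℝ) ≤ S := by exact_mod_cast hS1
  have hSR : (S : ℝ) ≤ 2 ^ U := by exact_mod_cast hSU
  have hB1 : (1 : ℝ) ≤ 2 ^ U := one_le_pow₀ one_le_two
  set D := (∏ i ∈ Finset.range (N + 2), t i) ^ 2 with hD
  have hD0 : 0 < D := pow_pos (Finset.prod_pos fun i _ => ht i) _
  have hDS : D ≤ S ^ (2 * (N + 2)) := by
    rw [mul_comm, pow_mul]
    refine Nat.pow_le_pow_left ?_ _
    simpa using Finset.prod_le_pow_card (Finset.range (N + 2)) t S fun i _ => hS i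
  have hz : (0 : Fin N → ℝ) ∈ Set.range fun k : Fin (N + 1) => hg N t N k :=
    ⟨Fin.last N, funext fun i => by simp [hg]⟩
  have hαn : ∀ m k i, |hα N t m k i| ≤ S := by
    intro m k i
    rw [hα]
    split_ifs
    · rw [Pi.smul_apply, smul_eq_mul, abs_mul, abs_neg, abs_inv,
        abs_of_pos (mul_pos (h0 _) (h0 _))]
      refine le_trans (mul_le_of_le_one_left (abs_nonneg _) ?_) (hg_norm hS _ _ _)
      exact inv_le_one_of_one_le₀ (one_le_mul_of_one_le_of_one_le (h1 _) (h1 _))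
    · exact (single_int k i).2.trans hS1R
  have hlam : ∀ m ≤ N, ∀ k : Fin N, ((k : ℕ) < m → hα N t m k ⬝ᵥ hr N t m < 0) ∧
      (hα N t m k ⬝ᵥ hr N t m < 0 → (k : ℕ) < m) := by
    intro m hm k
    refine ⟨fun hk => ?_, fun h => ?_⟩
    · rw [hα, if_pos hk, smul_dotProduct, hg_hr hm le_rfl, if_neg (lt_irrefl _), if_pos hk,
        smul_eq_mul, neg_mul, neg_lt_zero]
      have := h0 k
      have := h0 (k + 1)
      have := h0 m
      have := h0 (m + 1)
      positivity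
    · by_contra hk
      rw [hα, if_neg hk, neg_dotProduct, single_dotProduct, hr, if_neg (by omega)] at h
      split_ifs at h <;> simp at h
      linarith [h0 m]
  have hfr : ∀ k j, j < N → hg N t N k ⬝ᵥ hr N t j ≤ 0 := by
    intro k j hj
    rw [hg_hr le_rfl hj.le, if_pos hj]
    split_ifs
    · exact neg_nonpos.2 (mul_pos (h0 _) (h0 _)).le
    · exact le_rfl
  have hfρ : ∀ m k j, hg N t N k ⬝ᵥ hρ N t m j ≤ 0 := by
    intro m k j
    rw [hρ]
    split_ifs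
    · exact hfr k j j.2
    · simpa using hg_nonneg N k j
  have stg : ∀ m ≤ N, ∀ V Y, VY (2 ^ U) U hF (Par.next^[m * (U + 2)] ⟨3, 3, 3, 3, 0⟩) V Y →
      (∀ c : Fin N → ℝ, (∀ k, 0 ≤ c ⬝ᵥ hρ N t m k) → ∀ v ∈ V, 0 ≤ c ⬝ᵥ v.1) →
      (∀ p, (∀ k, 0 ≤ hα N t m k ⬝ᵥ p) → Rep (2 ^ U) hF V Y p) →
      ∃ V' Y', VY (2 ^ U) U hF (Par.next^[(m + 1) * (U + 2)] ⟨3, 3, 3, 3, 0⟩) V' Y' ∧
      (∀ p, ∀ s : ℝ, 0 ≤ s → (∀ k, s * hα N t m k ⬝ᵥ hr N t m ≤ hα N t m k ⬝ᵥ p) →
        Rep (2 ^ U) hF V' Y' p) ∧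
      ∀ c : Fin N → ℝ, (∀ k, 0 ≤ c ⬝ᵥ hρ N t m k) → 0 ≤ c ⬝ᵥ hr N t m →
        ∀ v ∈ V', 0 ≤ c ⬝ᵥ v.1 := by
    intro m hm V Y hVY hV hR
    obtain ⟨p1, p2, p3, p4, _⟩ := par_bound (m * (U + 2))
    rw [add_mul, one_mul, add_comm, Function.iterate_add_apply]
    refine stage (D' := D) (Z := D * (N * (S * S))) hU (by simpa using hNU) hs (hα_hρ ht hm)
      (fun k i => ?_) (fun k i => ?_) (hr_int m) (fun i => (hr_norm hS m i).trans hSR) hD0
      (fun k i => ?_) (fun k i => (hαn m k i).trans hSR) (Nat.succ_le_of_lt (by positivity))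
      (fun k => ?_) ?_ (fun i hi => ?_) (by omega) (by omega) (by omega) (by omega) hVY hV hR
    · rw [hρ]; split_ifs; exacts [hr_int _ _, (single_int k i).1]
    · rw [hρ]; split_ifs; exacts [(hr_norm hS _ i).trans hSR, (single_int k i).2.trans hB1]
    · rw [hα]
      split_ifs
      · obtain ⟨d, hd⟩ : t k * t (k + 1) ∣ D := by
          rw [hD, sq]
          exact mul_dvd_mul (Finset.dvd_prod_of_mem _ (by simp; omega))
            (Finset.dvd_prod_of_mem _ (by simp))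
        have := neg_mem (InG.mul (InG.nat 0 d) (hg_int (t := t) m k i))
        convert this using 1
        have := h0 k
        have := h0 (k + 1)
        rw [hd, Pi.smul_apply, smul_eq_mul]
        push_cast
        field_simp
      · exact InG.mul (InG.nat 0 D) (single_int k i).1
    · rw [abs_mul, Nat.abs_cast]
      push_cast
      refine mul_le_mul_of_nonneg_left ?_ (Nat.cast_nonneg _)
      have := bd_sum (s := Finset.univ) (c := (S : ℝ) * S) fun i _ => (abs_mul _ _).trans_le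
        (mul_le_mul (hαn m k i) (hr_norm hS m i) (abs_nonneg _) (Nat.cast_nonneg _))
      simpa [dotProduct] using this
    · rw [Fintype.card_fin]
      refine le_trans ?_ hDU
      gcongr
    · have hi' := (hlam m hm i).2 hi
      rcases hm.lt_or_eq with hm' | rfl
      · refine ⟨0, hz, ?_⟩
        rintro _ ⟨k, rfl⟩
        simp only [zero_dotProduct]
        exact ⟨hfr k m hm', fun j _ => hfρ m k j⟩
      · refine ⟨_, ⟨i.castSucc, rfl⟩, ?_⟩
        rintro _ ⟨k, rfl⟩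
        refine ⟨?_, fun j hj => (hfρ m k j).trans_eq ?_⟩
        · simp only [hg_hr le_rfl le_rfl, lt_irrefl, if_false, Fin.val_castSucc, if_pos hi']
          split_ifs
          · exact le_rfl
          · exact (mul_pos (h0 _) (h0 _)).le
        · simp only [hρ, if_pos j.2, hg_hr le_rfl j.2.le, Fin.val_castSucc]
          rw [if_neg fun h => hj (Fin.ext h).symm]
  have hF0 : ∀ p : Fin N → ℝ, (∀ i, p i ≤ 0) → hF p = 0 := by
    intro p hp
    refine le_antisymm ?_ (by simpa using hs.le p 0 hz)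
    obtain ⟨_, ⟨k, rfl⟩, h⟩ := hs.ex p
    rw [h]
    exact Finset.sum_nonpos fun i _ => mul_nonpos_of_nonneg_of_nonpos (hg_nonneg _ _ _) (hp i)
  have hF1 : ∀ k : Fin N, hF (-Pi.single k 1) = 0 := fun k => hF0 _ fun i => by
    rw [Pi.neg_apply, Pi.single_apply]; split_ifs <;> simp
  have ind : ∀ m ≤ N, ∃ V Y, VY (2 ^ U) U hF (Par.next^[m * (U + 2)] ⟨3, 3, 3, 3, 0⟩) V Y ∧
      (∀ c : Fin N → ℝ, (∀ k, 0 ≤ c ⬝ᵥ hρ N t m k) → ∀ v ∈ V, 0 ≤ c ⬝ᵥ v.1) ∧
      ∀ p, (∀ k, 0 ≤ hα N t m k ⬝ᵥ p) → Rep (2 ^ U) hF V Y p := by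
    intro m
    induction m with
    | zero =>
      intro _
      have hB3 : (1 : ℝ) ≤ (2 ^ U) ^ 3 := one_le_pow₀ hB1
      refine ⟨Set.range fun k => (-Pi.single k 1, 0), {-1}, ⟨?_, ?_, ?_, ?_, ?_, ?_⟩, ?_, ?_⟩
      · rintro _ ⟨k, rfl⟩ i; exact InG.mono (single_int k i).1 (Nat.zero_le _)
      · rintro _ ⟨k, rfl⟩ i; exact (single_int k i).2.trans (by simpa using hB3)
      · rintro _ ⟨k, rfl⟩; exact Nat.zero_le _
      · rintro _ rfl i; simpa using InG.int _ (-1)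
      · rintro _ rfl i; simpa using hB3
      · rintro _ rfl _ ⟨k, rfl⟩; simp [hF1]
      · rintro c hc _ ⟨k, rfl⟩; simpa [hρ] using hc k
      · intro p hp
        have hp' : ∀ i, p i ≤ 0 := fun i => by simpa [hα] using hp i
        refine ⟨-1, rfl, fun z α β hz => ?_⟩
        have hz' : ∀ i, -z i ≤ α := fun i => by simpa [hF1] using hz _ ⟨i, rfl⟩
        rw [hF0 p hp', add_zero, mul_zero, add_zero, dotProduct, dotProduct, Finset.mul_sum]
        refine Finset.sum_le_sum fun i _ => ?_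
        simp only [Pi.neg_apply, Pi.one_apply]
        nlinarith [hp' i, hz' i]
    | succ m ih =>
      intro hm
      obtain ⟨V, Y, hVY, hV, hR⟩ := ih (by omega)
      obtain ⟨V', Y', hVY', hR', hV'⟩ := stg m (by omega) V Y hVY hV hR
      have hρ1 : ∀ k : Fin N, k ≠ ⟨m, hm⟩ → hρ N t (m + 1) k = hρ N t m k := by
        intro k hk
        have : (k : ℕ) ≠ m := fun h => hk (Fin.ext h)
        simp only [hρ, show (k : ℕ) < m + 1 ↔ (k : ℕ) < m by omega]
      have hρ2 : hρ N t (m + 1) ⟨m, hm⟩ = hr N t m := by simp [hρ]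
      refine ⟨V', Y', hVY', fun c hc => hV' c (fun k => ?_) (hρ2 ▸ hc _), fun p hp =>
        hR' p _ (hp ⟨m, hm⟩) fun k => ?_⟩
      · by_cases hk : k = ⟨m, hm⟩
        · rw [dual_exp (hα_hρ ht hm) (hρ N t m k), dotProduct_sum]
          refine Finset.sum_nonneg fun j _ => ?_
          rw [dotProduct_smul, smul_eq_mul]
          refine mul_nonneg ?_ (hc j)
          rw [hρ, if_neg (by simp [hk]), dotProduct_neg, dotProduct_single, mul_one, hα]
          split_ifs with h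
          · rw [Pi.smul_apply, smul_eq_mul, neg_mul, neg_neg]
            exact mul_nonneg (inv_nonneg.2 (mul_pos (h0 _) (h0 _)).le) (hg_nonneg _ _ _)
          · rw [Pi.neg_apply, neg_neg, Pi.single_apply]; split_ifs <;> simp
        · exact hρ1 k hk ▸ hc k
      · conv_rhs => rw [dual_exp (hα_hρ ht hm) p, dotProduct_sum,
          ← Finset.add_sum_erase _ _ (Finset.mem_univ ⟨m, hm⟩), hρ2, dotProduct_smul, smul_eq_mul]
        refine le_add_of_nonneg_right (Finset.sum_nonneg fun j hj => ?_)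
        rw [hρ1 j (Finset.ne_of_mem_erase hj), dotProduct_smul, smul_eq_mul,
          hα_hρ ht (by omega)]
        exact mul_nonneg (hp j) (by split_ifs <;> simp)
  obtain ⟨V, Y, hVY, hV, hR⟩ := ind N le_rfl
  obtain ⟨V', Y', hVY', hR', _⟩ := stg N le_rfl V Y hVY hV hR
  refine ⟨V', Y', hVY', fun p => hR' p (∑ k, |hα N t N k ⬝ᵥ p / hα N t N k ⬝ᵥ hr N t N|)
    (Finset.sum_nonneg fun _ _ => abs_nonneg _) fun k => ?_⟩
  have h2 := (hlam N le_rfl k).1 k.2
  rw [← div_le_iff_of_neg h2]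
  exact (le_abs_self _).trans (Finset.single_le_sum
    (f := fun k => |hα N t N k ⬝ᵥ p / hα N t N k ⬝ᵥ hr N t N|) (fun _ _ => abs_nonneg _)
    (Finset.mem_univ k))

end Pool.Agent.Lib.MP_892d22_co
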