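import Pool.Agent.Lib.MP_892d22_co.H24Main

namespace Pool.Agent.Lib.MP_892d22_co

open Matrix

lemma dirichlet_boxes {J : Type} (A : Finset J) (β : J → ℝ) (M : J → ℕ) (hM : ∀ i, 0 < M i) :
    ∃ m : ℕ, 1 ≤ m ∧ m ≤ ∏ i ∈ A, M i ∧ ∃ n : J → ℤ, ∀ i ∈ A, |m * β i - n i| < 1 / M i := by
  classical
  have hMR : ∀ i, (0 : ℝ) < M i := fun i => by exact_mod_cast hM i
  have h1 : ∀ (m : ℕ) (i : J), ⌊Int.fract (m * β i) * M i⌋₊ < M i := fun m i => by
    rw [Nat.floor_lt (mul_nonneg (Int.fract_nonneg _) (hMR i).le)]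
    exact mul_lt_of_lt_one_left (hMR i) (Int.fract_lt_one _)
  let f : Fin (∏ i ∈ A, M i + 1) → (i : A) → Fin (M i) := fun m i => ⟨_, h1 m i⟩
  have key : ∀ x y : Fin (∏ i ∈ A, M i + 1), x < y → f x = f y →
      ∃ m : ℕ, 1 ≤ m ∧ m ≤ ∏ i ∈ A, M i ∧ ∃ n : J → ℤ, ∀ i ∈ A, |m * β i - n i| < 1 / M i := by
    intro x y hxy h
    have h2 : (x : ℕ) < y := hxy
    refine ⟨y - x, by omega, by omega, fun i => ⌊y * β i⌋ - ⌊x * β i⌋, fun i hi => ?_⟩
    have h3 : ⌊Int.fract (x * β i) * M i⌋₊ = ⌊Int.fract (y * β i) * M i⌋₊ :=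
      congrArg Fin.val (congrFun h ⟨i, hi⟩)
    have h4 : ⌊Int.fract (y * β i) * M i⌋ = ⌊Int.fract (x * β i) * M i⌋ := by
      rw [← Int.natCast_floor_eq_floor (mul_nonneg (Int.fract_nonneg _) (hMR i).le),
        ← Int.natCast_floor_eq_floor (mul_nonneg (Int.fract_nonneg _) (hMR i).le), h3]
    have h5 := Int.abs_sub_lt_one_of_floor_eq_floor h4
    rw [← sub_mul, abs_mul, abs_of_pos (hMR i), ← lt_div_iff₀ (hMR i)] at h5
    refine lt_of_eq_of_lt (congrArg abs ?_) h5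
    rw [Nat.cast_sub h2.le, Int.fract, Int.fract]
    push_cast
    ring
  obtain ⟨x, y, hxy, h⟩ := Fintype.exists_ne_map_eq_of_card_lt f (by
    simp only [Fintype.card_pi, Fintype.card_fin, Finset.prod_coe_sort A M]; omega)
  rcases lt_or_gt_of_ne hxy with h' | h'
  exacts [key x y h' h, key y x h' h.symm]

lemma bary_gap {J : Type} [Fintype J] [DecidableEq J] {β : J → ℝ} {K : ℕ}
    (hK : Fintype.card J ≤ K) (hβ : ∀ i, 0 < β i) (hs : ∑ i, β i = 1)
    (hno : ∀ n : J → ℤ, (∀ i, n i < β i * (1 + ∑ j, n j)) → ∀ i, n i = β i * ∑ j, n j)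
    {A : Finset J} {i₀ : J} (hi₀ : i₀ ∈ A) (hmax : ∀ i, β i ≤ β i₀) (hA : A ≠ Finset.univ) :
    ∃ i ∉ A, ∏ j ∈ A, β j ≤ (3 * K) ^ A.card * β i := by
  have hK1 : (1 : ℝ) ≤ K := by
    have : 0 < Fintype.card J := Fintype.card_pos_iff.2 ⟨i₀⟩
    exact_mod_cast this.trans_le hK
  have hKR : (Fintype.card J : ℝ) ≤ K := by exact_mod_cast hK
  have hβ1 : ∀ i, β i ≤ 1 := fun i =>
    hs ▸ Finset.single_le_sum (fun j _ => (hβ j).le) (Finset.mem_univ i)
  obtain ⟨i₁, hi₁, hmax₁⟩ := Finset.exists_max_image Aᶜ β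
    (Finset.nonempty_iff_ne_empty.2 (by simpa using hA))
  have hi₁' : i₁ ∉ A := Finset.mem_compl.1 hi₁
  refine ⟨i₁, hi₁', ?_⟩
  obtain ⟨m, hm1, hm2, n, hn⟩ := dirichlet_boxes (A.erase i₀) β (fun i => ⌈2 * K / β i⌉₊)
    fun i => Nat.ceil_pos.2 (div_pos (by linarith) (hβ i))
  have hn' : ∀ i ∈ A.erase i₀, |m * β i - n i| < β i / (2 * K) := fun i hi => by
    refine (hn i hi).trans_le ?_
    have := hβ i
    rw [← one_div_div (2 * (K : ℝ)) (β i)]
    exact one_div_le_one_div_of_le (by positivity) (Nat.le_ceil _)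
  have hσ : ∑ i ∈ Aᶜ, β i ≤ K * β i₁ := by
    have h1 := Finset.sum_le_card_nsmul _ _ _ hmax₁
    rw [nsmul_eq_mul] at h1
    refine h1.trans (mul_le_mul_of_nonneg_right ?_ (hβ _).le)
    exact le_trans (by exact_mod_cast Finset.card_le_univ _) hKR
  have hm : (m : ℝ) * ∏ j ∈ A.erase i₀, β j ≤ (3 * K) ^ (A.erase i₀).card := by
    have h1 : (m : ℝ) ≤ ∏ j ∈ A.erase i₀, (⌈2 * K / β j⌉₊ : ℝ) := by exact_mod_cast hm2
    refine (mul_le_mul_of_nonneg_right h1 (Finset.prod_nonneg fun j _ => (hβ j).le)).trans ?_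
    rw [← Finset.prod_mul_distrib, ← Finset.prod_const]
    refine Finset.prod_le_prod (fun j _ => mul_nonneg (Nat.cast_nonneg _) (hβ j).le) fun j _ => ?_
    have h2 := (Nat.ceil_lt_add_one (show 0 ≤ 2 * K / β j by have := hβ j; positivity)).le
    have h3 := mul_le_mul_of_nonneg_right h2 (hβ j).le
    rw [add_mul, div_mul_cancel₀ _ (hβ j).ne'] at h3
    linarith [hβ1 j]
  have hmain : β i₀ / 2 ≤ m * ∑ i ∈ Aᶜ, β i := by
    by_contra h
    let n' : J → ℤ := fun i => if i = i₀ then m - ∑ j ∈ A.erase i₀, n j else if i ∈ A then n i else 0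
    have h1 : ∑ j, n' j = m := by
      rw [← Finset.sum_add_sum_compl A, ← Finset.add_sum_erase A _ hi₀,
        Finset.sum_eq_zero (s := Aᶜ) fun j hj => by
          have := Finset.mem_compl.1 hj
          simp only [n', if_neg this, if_neg (show j ≠ i₀ from fun h => this (h ▸ hi₀))],
        Finset.sum_congr rfl (g := n) fun j hj => by
          simp only [n', if_neg (Finset.ne_of_mem_erase hj), if_pos (Finset.mem_of_mem_erase hj)]]
      simp [n']
    have hm0 : (0 : ℝ) < m := by exact_mod_cast hm1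
    have h2 := hno n' (fun i => ?_) i₁
    · rw [h1] at h2
      simp only [n', if_neg hi₁', if_neg (show i₁ ≠ i₀ from fun h => hi₁' (h ▸ hi₀))] at h2
      have := mul_pos (hβ i₁) hm0
      push_cast at h2
      linarith
    rw [h1]
    simp only [n']
    split_ifs with h3 h4
    · have h5 : β i₀ + ∑ j ∈ A.erase i₀, β j + ∑ j ∈ Aᶜ, β j = 1 := by
        rw [Finset.add_sum_erase A _ hi₀, Finset.sum_add_sum_compl, hs]
      have h6 : ∑ j ∈ A.erase i₀, (m * β j - n j) ≤ (A.erase i₀).card • (β i₀ / (2 * K)) :=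
        Finset.sum_le_card_nsmul _ _ _ fun j hj => ((le_abs_self _).trans (hn' j hj).le).trans
          (div_le_div_of_nonneg_right (hmax j) (by positivity))
      have h7 : ((A.erase i₀).card : ℝ) * (β i₀ / (2 * K)) ≤ β i₀ / 2 := by
        have h8 : ((A.erase i₀).card : ℝ) ≤ K :=
          le_trans (by exact_mod_cast Finset.card_le_univ _) hKR
        refine (mul_le_mul_of_nonneg_right h8 (by have := hβ i₀; positivity)).trans_eq ?_
        field_simp
      rw [nsmul_eq_mul, Finset.sum_sub_distrib, ← Finset.mul_sum] at h6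
      rw [h3]
      push_cast
      have h9 := congrArg (fun r => (m : ℝ) * r) h5
      simp only [mul_add, mul_one] at h9
      nlinarith
    · have h5 := (neg_abs_le _).trans' (neg_le_neg (hn' i (Finset.mem_erase.2 ⟨h3, h4⟩)).le)
      have h6 : β i / (2 * K) < β i := div_lt_self (hβ i) (by linarith)
      push_cast
      nlinarith
    · have := hβ i
      push_cast
      positivity
  rw [← Finset.mul_prod_erase A _ hi₀, ← Finset.card_erase_add_one hi₀, pow_succ]
  have h1 : 0 ≤ ∏ j ∈ A.erase i₀, β j := Finset.prod_nonneg fun j _ => (hβ j).le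
  have h2 : β i₀ ≤ m * (3 * K * β i₁) := by
    have := mul_le_mul_of_nonneg_left hσ (Nat.cast_nonneg (α := ℝ) m)
    have h3 : 0 ≤ (m : ℝ) * (K * β i₁) := by have := hβ i₁; positivity
    nlinarith
  calc _ ≤ m * (3 * K * β i₁) * ∏ j ∈ A.erase i₀, β j := mul_le_mul_of_nonneg_right h2 h1
    _ = (m * ∏ j ∈ A.erase i₀, β j) * (3 * K * β i₁) := by ring
    _ ≤ _ := by
      rw [mul_assoc (_ ^ _)]
      exact mul_le_mul_of_nonneg_right hm (by have := hβ i₁; positivity)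

lemma bary_bound {J : Type} [Fintype J] {β : J → ℝ} {d : ℕ}
    (hK : Fintype.card J ≤ d + 1) (hβ : ∀ i, 0 < β i) (hs : ∑ i, β i = 1)
    (hno : ∀ n : J → ℤ, (∀ i, n i < β i * (1 + ∑ j, n j)) → ∀ i, n i = β i * ∑ j, n j) (i : J) :
    1 ≤ (3 * (d + 1 : ℕ) : ℝ) ^ (3 * 2 ^ d) * β i := by
  classical
  obtain ⟨i₀, _, hmax⟩ := Finset.exists_max_image Finset.univ β ⟨i, Finset.mem_univ _⟩
  have hK1 : (1 : ℝ) ≤ 3 * (d + 1 : ℕ) := by push_cast; linarith [Nat.cast_nonneg (α := ℝ) d]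
  have hβ1 : ∀ i, β i ≤ 1 := fun i =>
    hs ▸ Finset.single_le_sum (fun j _ => (hβ j).le) (Finset.mem_univ i)
  have key : ∀ j, j + 1 ≤ Fintype.card J → ∃ A : Finset J, i₀ ∈ A ∧ A.card = j + 1 ∧
      ∃ e, e + j + 2 ≤ 3 * 2 ^ j ∧ 1 ≤ (3 * (d + 1 : ℕ) : ℝ) ^ e * ∏ k ∈ A, β k := by
    intro j
    induction j with
    | zero =>
      intro _
      refine ⟨{i₀}, by simp, by simp, 1, by norm_num, ?_⟩
      have h1 := Finset.sum_le_card_nsmul _ _ _ hmax
      have h2 : (Fintype.card J : ℝ) ≤ (d + 1 : ℕ) := by exact_mod_cast hK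
      rw [hs, nsmul_eq_mul, Finset.card_univ] at h1
      rw [pow_one, Finset.prod_singleton]
      nlinarith [hβ i₀]
    | succ j ih =>
      intro hj
      obtain ⟨A, h1, h2, e, h3, h4⟩ := ih (by omega)
      obtain ⟨k, hk, h5⟩ := bary_gap hK hβ hs hno h1 (fun i => hmax i (Finset.mem_univ i))
        (by rintro rfl; rw [Finset.card_univ] at h2; omega)
      refine ⟨insert k A, Finset.mem_insert_of_mem h1, by rw [Finset.card_insert_of_notMem hk, h2],
        e + e + (j + 1), by rw [pow_succ]; omega, ?_⟩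
      rw [Finset.prod_insert hk, pow_add, pow_add]
      rw [h2] at h5
      have h6 := mul_le_mul_of_nonneg_left h5 (show (0 : ℝ) ≤ (3 * (d + 1 : ℕ)) ^ e by positivity)
      have h7 := mul_le_mul (h4.trans h6) h4 zero_le_one (by have := hβ k; positivity)
      linarith
  obtain ⟨j, hj⟩ : ∃ j, Fintype.card J = j + 1 :=
    Nat.exists_eq_succ_of_ne_zero (Fintype.card_pos_iff.2 ⟨i⟩).ne'
  obtain ⟨A, _, h2, e, h3, h4⟩ := key j hj.ge
  obtain rfl : A = Finset.univ := Finset.eq_univ_of_card _ (h2.trans hj.symm)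
  have h5 : 2 ^ j ≤ 2 ^ d := Nat.pow_le_pow_right (by norm_num) (by omega)
  refine h4.trans (mul_le_mul (pow_le_pow_right₀ hK1 (by omega)) ?_
    (Finset.prod_nonneg fun k _ => (hβ k).le) (by positivity))
  rw [← Finset.mul_prod_erase _ _ (Finset.mem_univ i)]
  exact mul_le_of_le_one_right (hβ i).le
    (Finset.prod_le_one (fun k _ => (hβ k).le) fun k _ => hβ1 k)

section

variable {d : ℕ} {V H : Set (Fin d → ℝ)}

lemma int_eq_zero (hV : V.Finite) (hHi : H ⊆ intPts _)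
    (hVH : convexHull ℝ V = {x | ∀ η ∈ H, -1 ≤ x ⬝ᵥ η}) {y : Fin d → ℝ} (hy : y ∈ intPts _)
    (h : ∀ η ∈ H, -1 < y ⬝ᵥ η) : y = 0 := by
  refine eq_zero_of_cone hV hVH fun η hη => ?_
  obtain ⟨z, hz⟩ := int_dot hy (hHi hη)
  have h1 := h η hη
  rw [hz] at h1 ⊢
  have h2 : -1 < z := by exact_mod_cast h1
  exact_mod_cast (show 0 ≤ z by omega)

lemma asym_bound (hV : V.Finite) (hVi : V ⊆ intPts _) (hH : H.Finite) (hHi : H ⊆ intPts _)
    (hVH : convexHull ℝ V = {x | ∀ η ∈ H, -1 ≤ x ⬝ᵥ η}) {x η : Fin d → ℝ} (hx : x ∈ V)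
    (hη : η ∈ H) : x ⬝ᵥ η + 1 ≤ (3 * (d + 1 : ℕ) : ℝ) ^ (3 * 2 ^ d) := by
  obtain ⟨η₀, hη₀, hmax⟩ := Set.exists_max_image H (fun η => x ⬝ᵥ η) hH ⟨η, hη⟩
  have hK1 : (1 : ℝ) ≤ 3 * (d + 1 : ℕ) := by push_cast; linarith [Nat.cast_nonneg (α := ℝ) d]
  set c := x ⬝ᵥ η₀ with hc
  rcases le_or_gt c 0 with hc0 | hc0
  · linarith [hmax η hη, one_le_pow₀ (n := 3 * 2 ^ d) hK1]
  have hmem : ∀ v ∈ V, ∀ η ∈ H, -1 ≤ v ⬝ᵥ η := fun v hv => by
    have := subset_convexHull ℝ V hv
    rwa [hVH] at this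
  have h1 : -c⁻¹ • x ∈ convexHull ℝ V := by
    rw [hVH]
    intro η hη
    rw [smul_dotProduct, smul_eq_mul, neg_mul, neg_le_neg_iff, inv_mul_le_iff₀ hc0, mul_one]
    exact hmax η hη
  obtain ⟨κ, _, z, w, hz, hind, hw, hw1, hw2⟩ := eq_pos_convex_span_of_mem_convexHull h1
  have hzV : ∀ i, z i ∈ V := fun i => hz ⟨i, rfl⟩
  have hz1 : ∀ i, z i ⬝ᵥ η₀ = -1 := by
    have h2 : ∑ i, w i * (z i ⬝ᵥ η₀ + 1) = 0 := by
      have h3 := congrArg (· ⬝ᵥ η₀) hw2
      simp only [sum_dotProduct, smul_dotProduct, smul_eq_mul, ← hc, neg_mul,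
        inv_mul_cancel₀ hc0.ne'] at h3
      simp only [mul_add, Finset.sum_add_distrib, mul_one, h3, hw1]; ring
    intro i
    have := (Finset.sum_eq_zero_iff_of_nonneg fun i _ =>
      mul_nonneg (hw i).le (by linarith [hmem _ (hzV i) η₀ hη₀])).1 h2 i (Finset.mem_univ i)
    linarith [(mul_eq_zero.1 this).resolve_left (hw i).ne']
  let v : Option κ → Fin d → ℝ := fun o => o.elim x z
  let β : Option κ → ℝ := fun o => o.elim (1 / (c + 1)) fun i => c / (c + 1) * w i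
  have hvV : ∀ o, v o ∈ V := by rintro (_ | i); exacts [hx, hzV i]
  have hβ : ∀ o, 0 < β o := by
    rintro (_ | i)
    · simp only [β, Option.elim_none]; positivity
    · have := hw i
      simp only [β, Option.elim_some]; positivity
  have hβs : ∑ o, β o = 1 := by
    simp only [Fintype.sum_option, β, Option.elim_none, Option.elim_some, ← Finset.mul_sum, hw1]
    field_simp; ring
  have hβv : ∑ o, β o • v o = 0 := by
    simp only [Fintype.sum_option, β, v, Option.elim_none, Option.elim_some, mul_smul,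
      ← Finset.smul_sum, hw2]
    rw [smul_smul, ← add_smul, show 1 / (c + 1) + c / (c + 1) * -c⁻¹ = 0 by field_simp; ring, zero_smul]
  have hv : ∀ a : Option κ → ℝ, ∑ o, a o = 0 → ∑ o, a o • v o = 0 → ∀ o, a o = 0 := by
    intro a ha1 ha2
    have h3 := congrArg (· ⬝ᵥ η₀) ha2
    simp only [Fintype.sum_option, v, Option.elim_none, Option.elim_some, add_dotProduct,
      sum_dotProduct, smul_dotProduct, smul_eq_mul, hz1, ← hc, zero_dotProduct, mul_neg, mul_one,
      Finset.sum_neg_distrib] at h3 ha1 ha2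
    have h4 : a none = 0 := by
      have : a none * (c + 1) = 0 := by linarith
      exact (mul_eq_zero.1 this).resolve_right (by linarith)
    rw [h4, zero_add] at ha1
    rw [h4, zero_smul, zero_add] at ha2
    rintro (_ | i)
    · exact h4
    · exact affineIndependent_iff.1 hind Finset.univ _ ha1 ha2 i (Finset.mem_univ i)
  have hcard : Fintype.card (Option κ) ≤ d + 1 := by
    have h2 : AffineIndependent ℝ v := (affineIndependent_iff_of_fintype ℝ v).2 fun a h1 h2 =>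
      hv a h1 (by rwa [Finset.weightedVSub_eq_linear_combination _ h1] at h2)
    refine h2.card_le_finrank_succ.trans (Nat.succ_le_succ ?_)
    simpa using Submodule.finrank_le (vectorSpan ℝ (Set.range v))
  have h2 := bary_bound hcard hβ hβs (fun n hn => ?_) none
  · simp only [β, Option.elim_none] at h2
    rw [mul_one_div, le_div_iff₀ (by linarith)] at h2
    linarith [hmax η hη]
  · have h3 : ∑ o, ((-n o : ℤ) : ℝ) • v o = 0 := by
      refine int_eq_zero hV hHi hVH (int_sum fun o => int_smul _ (hVi (hvV o))) fun η hη => ?_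
      have h4 := congrArg (· ⬝ᵥ η) hβv
      simp only [sum_dotProduct, smul_dotProduct, smul_eq_mul, zero_dotProduct] at h4 ⊢
      have h5 : ∑ o, β o * (v o ⬝ᵥ η + 1) = 1 := by
        simp only [mul_add, Finset.sum_add_distrib, mul_one, h4, hβs, zero_add]
      obtain ⟨o, _, ho⟩ := Finset.exists_ne_zero_of_sum_ne_zero (h5.trans_ne one_ne_zero)
      have h6 : 0 < ∑ o, (β o * (1 + ∑ j, n j) - n o) * (v o ⬝ᵥ η + 1) :=
        Finset.sum_pos' (fun o _ => mul_nonneg (by have := hn o; push_cast at this ⊢; linarith)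
          (by linarith [hmem _ (hvV o) η hη])) ⟨o, Finset.mem_univ _,
          mul_pos (by have := hn o; push_cast at this ⊢; linarith)
            (lt_of_le_of_ne (by linarith [hmem _ (hvV o) η hη]) (right_ne_zero_of_mul ho).symm)⟩
      rw [Finset.sum_congr rfl (g := fun o => (1 + ∑ j, n j) * (β o * (v o ⬝ᵥ η + 1)) +
        (((-n o : ℤ) : ℝ) * v o ⬝ᵥ η - n o)) fun o _ => by push_cast; ring,
        Finset.sum_add_distrib, ← Finset.mul_sum, h5, Finset.sum_sub_distrib] at h6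
      push_cast at h6 ⊢
      linarith
    intro o
    have h4 := hv (fun o => β o * (∑ j, n j : ℤ) + ((-n o : ℤ) : ℝ)) (by
      rw [Finset.sum_add_distrib, ← Finset.sum_mul, hβs]; simp) (by
      simp only [add_smul, Finset.sum_add_distrib, h3, mul_comm (β _), mul_smul,
        ← Finset.smul_sum, hβv]; simp) o
    push_cast at h4 ⊢
    linarith

end

lemma Cert.edge {n d L : ℕ} {P : Set (Fin n → ℝ)} (h : Cert P (Fin d)) {u v : Fin n → ℝ}
    (hv : v ∈ intPts _) (hv0 : v ≠ 0) (hu : u ∈ P) (huv : u + (L : ℝ) • v ∈ P) :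
    L ≤ (3 * (d + 1)) ^ (3 * 2 ^ d) := by
  obtain ⟨V, H, hV, hVi, hH, hHi, hVH, l, c, A, b, _, hA, hF, hint⟩ := h
  have h1 : ∀ x ∈ P, A x + b ∈ convexHull ℝ V := fun x hx =>
    (show A x + b ∈ {x ∈ convexHull ℝ V | l x = c} from hF ▸ ⟨x, hx, rfl⟩).1
  have h2 : A v ∈ intPts _ := by
    have := int_add ((hint v).1 hv) (int_neg ((hint 0).1 int_zero))
    simpa using this
  by_contra hL
  have hLR : (3 * (d + 1 : ℕ) : ℝ) ^ (3 * 2 ^ d) < L := by exact_mod_cast not_le.1 hL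
  refine hv0 (hA ((int_eq_zero hV hHi hVH h2 fun η hη => ?_).trans (map_zero A).symm))
  have h3 : (A u + b) ⬝ᵥ η + 1 ≤ (3 * (d + 1 : ℕ) : ℝ) ^ (3 * 2 ^ d) := by
    refine convexHull_min (t := {x | x ⬝ᵥ η + 1 ≤ (3 * (d + 1 : ℕ) : ℝ) ^ (3 * 2 ^ d)})
      (fun x hx => asym_bound hV hVi hH hHi hVH hx hη) ?_ (h1 u hu)
    intro x hx y hy s t hs ht hst
    simp only [Set.mem_ofPred_eq, add_dotProduct, smul_dotProduct, smul_eq_mul] at hx hy ⊢
    nlinarith
  have h4 := h1 _ huv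
  rw [hVH] at h4
  have h5 := h4 η hη
  rw [map_add, map_smul, add_right_comm, add_dotProduct, smul_dotProduct, smul_eq_mul] at h5
  by_contra h6
  nlinarith [Nat.cast_nonneg (α := ℝ) L]

theorem lower_bound {n m : ℕ} {s : Fin (n + 1) → ℕ} (hs0 : ∀ i, 0 < s i)
    (h : IsReflexiveFace (lectureHall s) m) :
    n + 1 ≤ m ∧ ∀ i, s i ≤ (3 * (m + 1)) ^ (3 * 2 ^ m) := by
  have hs : ∀ i, (0 : ℝ) < s i := fun i => by exact_mod_cast hs0 i
  have hf : ∀ k : ℕ, (fun j : Fin (n + 1) => if k ≤ j then (s j : ℝ) else 0) ∈ lectureHall s := by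
    intro k
    have h1 : ∀ j : Fin (n + 1), (if k ≤ j then (s j : ℝ) else 0) / s j = if k ≤ j then 1 else 0 := by
      intro j; split_ifs; exacts [div_self (hs j).ne', zero_div _]
    refine ⟨?_, fun i => ?_, ?_⟩ <;> simp only [h1] <;> split_ifs with h2 <;> try norm_num
    simp only [Fin.val_succ, Fin.val_castSucc] at *
    omega
  have hc := h.cert ⟨_, hf 0⟩
  refine ⟨?_, fun i => hc.edge (v := Pi.single i 1) (by simpa using int_single i 1)
    (by simp) (hf (i + 1)) ?_⟩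
  · obtain ⟨_, _, _, _, _, _, _, _, _, A, _, _, hA, _⟩ := hc
    simpa using LinearMap.finrank_le_finrank_of_injective hA
  · convert hf i using 1
    funext j
    simp only [Pi.add_apply, Pi.smul_apply, Pi.single_apply, smul_eq_mul, Fin.ext_iff]
    by_cases h2 : (j : ℕ) = i
    · obtain rfl := Fin.ext h2
      simp
    · split_ifs <;> first | omega | simp

/-- The reflexive dimension. -/
noncomputable def rdim {n : ℕ} (P : Set (Fin n → ℝ)) : ℕ := sInf {m | IsReflexiveFace P m}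

end Pool.Agent.Lib.MP_892d22_co
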