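import Pool.Agent.Lib.MP_892d22_co.H24Hall

namespace Pool.Agent.Lib.MP_892d22_co

open Matrix

lemma hall_eq {n : ℕ} {s : Fin (n + 1) → ℕ} {t : ℕ → ℕ} (ht : ∀ i, 0 < t i)
    (hts : ∀ i : Fin (n + 1), t (i + 1) = s i) {B : ℝ} {hF : (Fin (n + 1) → ℝ) → ℝ}
    (hs : Supp B (Set.range fun k : Fin (n + 1 + 1) => hg (n + 1) t (n + 1) k) hF) :
    lectureHall s = {x | ∀ p, x ⬝ᵥ p ≤ hF p} := by
  have h0 : ∀ i, (0 : ℝ) < t i := fun i => by exact_mod_cast ht i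
  have hs0 : ∀ i, (0 : ℝ) < s i := fun i => by rw [← hts]; exact h0 _
  have hx : ∀ x : Fin (n + 1) → ℝ, x ⬝ᵥ hr (n + 1) t 0 = -(x 0 * t 0) ∧ ∀ i : Fin n,
      x ⬝ᵥ hr (n + 1) t (i + 1) = x i.castSucc * s i.succ - x i.succ * s i.castSucc := by
    intro x
    obtain ⟨P, rfl⟩ : ∃ P : ℕ → ℝ, x = fun i : Fin (n + 1) => P i :=
      ⟨fun j => if h : j < n + 1 then x ⟨j, h⟩ else 0, funext fun i => by simp only [dif_pos i.2]⟩
    refine ⟨?_, fun i => ?_⟩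
    · rw [dot_hr]; simp
    · rw [dot_hr, ← hts, ← hts]
      have h2 : (i : ℕ) + 1 < n + 1 := by omega
      simp [h2.le]
  have hz : (0 : Fin (n + 1) → ℝ) ∈
      Set.range fun k : Fin (n + 1 + 1) => hg (n + 1) t (n + 1) k :=
    ⟨Fin.last _, funext fun i => by simp [hg]⟩
  ext x
  constructor
  · rintro ⟨h1, h2, h3⟩ p
    have hexp := dual_exp (ρ := hα (n + 1) t (n + 1)) (α := hρ (n + 1) t (n + 1))
      (fun k j => by rw [dotProduct_comm, hα_hρ ht le_rfl]; simp only [eq_comm]) x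
    let c : Fin (n + 1) → ℝ := fun k => -(x ⬝ᵥ hr (n + 1) t k) / (t k * t (k + 1))
    have hc : ∀ k, 0 ≤ c k := by
      intro k
      refine div_nonneg (neg_nonneg.2 ?_) (mul_pos (h0 _) (h0 _)).le
      refine Fin.cases ?_ (fun i => ?_) k
      · rw [Fin.val_zero, (hx x).1, neg_nonpos]
        exact mul_nonneg (by simpa using (le_div_iff₀ (hs0 0)).1 h1) (h0 0).le
      · rw [Fin.val_succ, (hx x).2, sub_nonpos]
        exact (div_le_div_iff₀ (hs0 _) (hs0 _)).1 (h2 i)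
    have h4 : x = ∑ k, c k • hg (n + 1) t (n + 1) k := by
      refine hexp.trans (Finset.sum_congr rfl fun k _ => ?_)
      rw [hρ, hα, if_pos k.2, if_pos k.2, smul_smul, dotProduct_comm]
      congr 1
      simp only [c]; ring
    have h5 : ∑ k, c k ≤ 1 := by
      have h6 := congrFun h4 (Fin.last n)
      rw [Finset.sum_apply, Finset.sum_congr rfl (g := fun k => c k * s (Fin.last n)) fun k _ => by
        rw [Pi.smul_apply, smul_eq_mul, hg, if_pos ⟨Fin.le_last k, by simp⟩, hts],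
        ← Finset.sum_mul] at h6
      rwa [h6, mul_div_cancel_right₀ _ (hs0 _).ne'] at h3
    have h6 : 0 ≤ hF p := by simpa using hs.le p 0 hz
    calc x ⬝ᵥ p = ∑ k, c k * hg (n + 1) t (n + 1) k ⬝ᵥ p := by
          conv_lhs => rw [h4]
          simp only [sum_dotProduct, smul_dotProduct, smul_eq_mul]
      _ ≤ ∑ k, c k * hF p := Finset.sum_le_sum fun k _ =>
          mul_le_mul_of_nonneg_left (hs.le p _ ⟨k.castSucc, rfl⟩) (hc k)
      _ ≤ hF p := by rw [← Finset.sum_mul]; exact mul_le_of_le_one_left h6 h5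
  · intro h
    have h1 : ∀ j, j < n + 1 → x ⬝ᵥ hr (n + 1) t j ≤ 0 := by
      intro j hj
      obtain ⟨_, ⟨k, rfl⟩, h2⟩ := hs.ex (hr (n + 1) t j)
      refine (h _).trans (h2.trans_le ?_)
      simp only [hg_hr le_rfl hj.le, if_pos hj]
      split_ifs
      · exact neg_nonpos.2 (mul_pos (h0 _) (h0 _)).le
      · exact le_rfl
    refine ⟨div_nonneg ?_ (hs0 0).le, fun i => ?_, ?_⟩
    · have := h1 0 (by omega)
      rw [(hx x).1, neg_nonpos] at this
      exact nonneg_of_mul_nonneg_left this (h0 0)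
    · have := h1 (i + 1) (by omega)
      rw [(hx x).2, sub_nonpos] at this
      exact (div_le_div_iff₀ (hs0 _) (hs0 _)).2 this
    · obtain ⟨_, ⟨k, rfl⟩, h2⟩ := hs.ex (Pi.single (Fin.last n) 1)
      have h3 := (h _).trans_eq h2
      rw [dotProduct_single, dotProduct_single, mul_one, mul_one] at h3
      rw [div_le_one (hs0 _)]
      refine h3.trans ?_
      simp only [hg, hts]
      split_ifs
      · exact le_rfl
      · exact (hs0 _).le

theorem upper_bound {n a b : ℕ} (s : Fin (n + 1) → ℕ) (hs0 : ∀ i, 0 < s i) (hn : n + 1 ≤ 2 ^ a)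
    (hs : ∀ i, s i ≤ 2 ^ 2 ^ b) :
    IsReflexiveFace (lectureHall s) (n + 1 + 28 * a + 10 * b + 72) := by
  set x := 2 ^ a with hx
  set σ := 2 ^ b with hσ
  have hx1 : 1 ≤ x := Nat.one_le_two_pow
  have hσ1 : 1 ≤ σ := Nat.one_le_two_pow
  let t : ℕ → ℕ := fun j => if h : 0 < j ∧ j ≤ n + 1 then s ⟨j - 1, by omega⟩ else 1
  have ht : ∀ i, 0 < t i := fun i => by simp only [t]; split_ifs; exacts [hs0 _, one_pos]
  have htS : ∀ i, t i ≤ 2 ^ σ := fun i => by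
    simp only [t]; split_ifs; exacts [hs _, Nat.one_le_two_pow]
  have hts : ∀ i : Fin (n + 1), t (i + 1) = s i := fun i => by
    simp only [t]; rw [dif_pos ⟨by omega, by omega⟩]; rfl
  choose K hK using fun p : Fin (n + 1) → ℝ =>
    Finite.exists_max fun j : Fin (n + 1 + 1) => hg (n + 1) t (n + 1) j ⬝ᵥ p
  have e1 : x ≤ x ^ 2 := Nat.le_self_pow (by norm_num) x
  have e2 : x ^ 2 ≤ x ^ 2 * σ := Nat.le_mul_of_pos_right _ hσ1
  have e3 : σ ≤ x * σ := Nat.le_mul_of_pos_left _ hx1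
  have e4 : x * σ ≤ x ^ 2 * σ := Nat.mul_le_mul_right _ e1
  have hSU : 2 ^ σ ≤ 2 ^ (22 * (x ^ 2 * σ)) := Nat.pow_le_pow_right (by norm_num) (by omega)
  have hxU : 2 ^ x ≤ 2 ^ (22 * (x ^ 2 * σ)) := Nat.pow_le_pow_right (by norm_num) (by omega)
  have hS : Supp ((2 : ℝ) ^ (22 * (x ^ 2 * σ)))
      (Set.range fun j : Fin (n + 1 + 1) => hg (n + 1) t (n + 1) j)
      fun p => hg (n + 1) t (n + 1) (K p) ⬝ᵥ p := by
    refine ⟨fun p => ⟨_, ⟨K p, rfl⟩, rfl⟩, ?_, ?_, ?_⟩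
    · rintro p _ ⟨j, rfl⟩; exact hK p j
    · rintro _ ⟨j, rfl⟩ i; exact hg_int _ _ _
    · rintro _ ⟨j, rfl⟩ i
      exact (hg_norm htS _ _ _).trans (by exact_mod_cast hSU)
  have hDU := hall_stages (Nat.succ_pos n) ht htS (by omega)
    (le_trans (by have := Nat.lt_two_pow_self (n := x); omega) hxU) hSU ?_ hS
  · obtain ⟨V, Y, h1, h2⟩ := hDU
    rw [hall_eq ht hts hS,
      show n + 1 + 28 * a + 10 * b + 72 = n + 1 + 2 * (14 * a + 5 * b + 35) + 2 by ring]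
    refine cayley_fin hS h1 h2 ?_
    obtain ⟨_, _, _, _, _, p1, p2, p3⟩ := par_bound ((n + 1 + 1) * (22 * (x ^ 2 * σ) + 2))
    generalize Par.next^[(n + 1 + 1) * (22 * (x ^ 2 * σ) + 2)] ⟨3, 3, 3, 3, 0⟩ = π at *
    have h3 : (n + 1 + 1) * (22 * (x ^ 2 * σ) + 2) + 1 ≤ 49 * (x * (x ^ 2 * σ)) := by
      have h5 : x ^ 2 * σ ≤ x * (x ^ 2 * σ) := Nat.le_mul_of_pos_left _ hx1
      have h6 : (n + 1 + 1) * (22 * (x ^ 2 * σ) + 2) ≤ (2 * x) * (24 * (x ^ 2 * σ)) :=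
        Nat.mul_le_mul (by omega) (by omega)
      nlinarith
    generalize (n + 1 + 1) * (22 * (x ^ 2 * σ) + 2) + 1 = T at *
    have h4 : T ^ 3 ≤ T ^ 4 := by
      rcases T with _ | T
      · simp
      · exact Nat.pow_le_pow_right (Nat.succ_pos T) (by norm_num)
    have h6 : T ^ 4 ≤ (49 * (x * (x ^ 2 * σ))) ^ 4 := Nat.pow_le_pow_left h3 4
    calc 22 * (x ^ 2 * σ) * (π.E + π.z + π.b)
        ≤ 22 * (x ^ 2 * σ) * (180 * (49 * (x * (x ^ 2 * σ))) ^ 4) :=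
          Nat.mul_le_mul_left _ (by omega)
      _ = (22 * 180 * 49 ^ 4) * (x ^ 14 * σ ^ 5) := by ring
      _ ≤ 2 ^ 35 * (x ^ 14 * σ ^ 5) := Nat.mul_le_mul_right _ (by norm_num)
      _ = 2 ^ (14 * a + 5 * b + 35) := by rw [hx, hσ]; ring
  · have h3 : n + 1 ≤ 2 ^ x := hn.trans Nat.lt_two_pow_self.le
    calc _ ≤ (2 ^ σ) ^ (2 * (x + 2)) * ((2 ^ σ) ^ (2 * (x + 2)) * (2 ^ x * (2 ^ σ * 2 ^ σ)) *
          (2 * (2 ^ σ) ^ (2 * (x + 2))) ^ x) := by
          have h4 : 1 ≤ 2 ^ σ := Nat.one_le_two_pow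
          have h5 : (2 ^ σ) ^ (2 * (n + 1 + 2)) ≤ (2 ^ σ) ^ (2 * (x + 2)) :=
            Nat.pow_le_pow_right h4 (by omega)
          refine Nat.mul_le_mul h5 (Nat.mul_le_mul (Nat.mul_le_mul h5 (Nat.mul_le_mul_right _ h3))
            (le_trans (Nat.pow_le_pow_left (Nat.mul_le_mul_left _ h5) _)
              (Nat.pow_le_pow_right (by positivity) hn)))
      _ = 2 ^ (2 * (x ^ 2 * σ) + 8 * (x * σ) + 10 * σ + 2 * x) := by
          rw [mul_pow]
          simp only [← pow_mul, ← pow_add]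
          congr 1
          ring
      _ ≤ _ := Nat.pow_le_pow_right (by norm_num) (by omega)

end Pool.Agent.Lib.MP_892d22_co
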