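import Pool.Agent.Lib.MP_892d22_co.H24Step

namespace Pool.Agent.Lib.MP_892d22_co

open Matrix

variable {ι : Type} [Fintype ι]
variable {C : Ctx ι} {T Γ Y : Set (ι → ℝ)} {π : Par} {S : Set (Fc ι)} {V : Set ((ι → ℝ) × ℕ)}

lemma Coef.not_dy {h : ℕ} {u : ι → ℝ} {y : ℝ} (hy : Coef C h u y) (hh : Odd h) (hu : u ∉ C.R) :
    y ∉ DyR := by
  obtain ⟨N, g, h1, rfl, _, _, h5⟩ := hy
  intro h6
  have h7 : (N : ℝ) / h ∈ DyR := by
    have := DyR.mul_mem (DyR.two_pow g) h6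
    convert this using 1
    rw [Ctx.m, if_neg hu]
    field_simp
    simp
  have := Nat.le_of_dvd h1 (dvd_of_dy hh h7)
  have := h5 hu
  omega

lemma St.exists_pt (hC : C.OK) (hS : St C T π S Γ V Y) {F : Fc ι} (hF : F ∈ S) (j : ℕ) :
    ∃ τ ⊆ F.φ, F.φ ∩ C.R ⊆ τ ∧ ∃ x, NewPt C j τ F.h x := by
  classical
  have hF' := hS.fc F hF
  obtain ⟨x₀, hx₀, hψ⟩ := hF'.x0
  have hB := hC.pos
  have h0 : (0 : ℝ) < F.h := by exact_mod_cast hF'.odd.pos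
  let c : (ι → ℝ) → ℝ := fun u => (C.B ^ j)⁻¹ * F.ω u ⬝ᵥ x₀
  have hj : (C.B ^ j)⁻¹ ∈ DyR := by rw [C.B_pow]; exact DyR.inv_pow _
  have hA : ∀ u ∈ F.φ, ((C.m u * F.h : ℕ) : ℝ) * c u ∈ DyR := by
    intro u hu
    have := hF'.lat ((F.h : ℝ) • x₀ + -C.e) (fun i => DyR.add_mem
      (DyR.mul_mem (natCast_mem _ _) (hx₀ i)) (DyR.neg_mem (InG.dy (hC.eint i))))
      (by rw [dotProduct_add, dotProduct_neg, dotProduct_smul, smul_eq_mul, hψ, hF'.ψe]; ring) u hu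
    rw [dotProduct_add, dotProduct_neg, dotProduct_smul, smul_eq_mul, hF'.ωe u hu] at this
    convert DyR.mul_mem hj this using 1
    simp only [c]; push_cast; ring
  have hy : ∀ u, ∃ y, u ∈ F.φ → (u ∈ C.R ∨ c u ∉ DyR) → Coef C F.h u y ∧ y - c u ∈ DyR := by
    intro u
    by_cases hu : u ∈ F.φ
    swap
    · exact ⟨0, fun h => absurd h hu⟩
    have hM := (hC.m_odd u).mul hF'.odd
    have hM0 : ((C.m u * F.h : ℕ) : ℝ) ≠ 0 := by exact_mod_cast hM.pos.ne'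
    by_cases huR : u ∈ C.R
    · obtain ⟨N, h1, h2, h3⟩ := residue_one hM (hA u hu)
      refine ⟨_, fun _ _ => ⟨⟨N, 0, h1, rfl, Nat.zero_le _, h2, fun h => absurd huR h⟩, ?_⟩⟩
      convert h3 using 1
      push_cast at hM0 ⊢
      rw [sub_div, mul_div_cancel_left₀ _ hM0]; simp
    by_cases hc : c u ∈ DyR
    · exact ⟨0, fun _ h => absurd h (by simp [huR, hc])⟩
    obtain ⟨N, g, h1, h2, h3, h4⟩ := residue_half hM (hA u hu)
      (by rwa [mul_div_cancel_left₀ _ hM0])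
    have h5 : g ≤ C.U := by
      have h6 : C.m u * F.h ≤ 2 ^ C.U := le_trans (Nat.mul_le_mul_right _
        (Nat.le_of_dvd hC.odd.pos (C.m_dvd u))) (hF'.Dh hC)
      exact (Nat.pow_le_pow_iff_right (by norm_num)).1 (h3.trans h6)
    refine ⟨_, fun _ _ => ⟨⟨N, g, h1, rfl, h5, by omega, fun h => ?_⟩, ?_⟩⟩
    · rwa [Ctx.m, if_neg h, one_mul] at h2
    · convert h4 using 1
      push_cast at hM0 ⊢
      rw [sub_div, mul_div_cancel_left₀ _ hM0, div_div, mul_assoc]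
  choose y hy using hy
  let τ := F.φ.filter fun u => u ∈ C.R ∨ c u ∉ DyR
  refine ⟨τ, Finset.filter_subset _ _, fun u hu => Finset.mem_filter.2
    ⟨(Finset.mem_inter.1 hu).1, Or.inl (Finset.mem_inter.1 hu).2⟩, _, fun i => ?_, y, rfl,
    fun u hu => (hy u (Finset.mem_filter.1 hu).1 (Finset.mem_filter.1 hu).2).1⟩
  have h1 : (C.B ^ j)⁻¹ * x₀ i = (C.B ^ j)⁻¹ / F.h * C.e i + ∑ u ∈ F.φ, c u * u i := by
    have h2 := congrFun (hF'.exp x₀) i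
    have h3 : F.ψ ⬝ᵥ x₀ = -(F.h : ℝ)⁻¹ := by field_simp; linarith
    rw [h2, h3]
    simp only [Pi.add_apply, Pi.smul_apply, smul_eq_mul, Finset.sum_apply, mul_add,
      Finset.mul_sum, c, mul_assoc]
    ring
  have h2 : (((C.B ^ j)⁻¹ / F.h) • C.e + ∑ u ∈ τ, y u • u) i = (C.B ^ j)⁻¹ * x₀ i +
      ∑ u ∈ F.φ, ((if u ∈ C.R ∨ c u ∉ DyR then y u else 0) - c u) * u i := by
    rw [h1]
    simp only [Pi.add_apply, Pi.smul_apply, smul_eq_mul, Finset.sum_apply, sub_mul,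
      Finset.sum_sub_distrib, τ, Finset.sum_filter, ite_mul, zero_mul, ite_apply, Pi.zero_apply]
    ring
  rw [h2]
  refine DyR.add_mem (DyR.mul_mem hj (hx₀ i)) (Subring.sum_mem _ fun u hu =>
    DyR.mul_mem ?_ (InG.dy (hS.gin u (hS.sub F hF u hu) i)))
  split_ifs with h
  · exact (hy u hu h).2
  · push Not at h
    rw [zero_sub]
    exact DyR.neg_mem h.2

lemma St.round (hC : C.OK) (hS : St C T π S Γ V Y) {c : ℕ}
    (hc : ∀ F ∈ S, 1 < F.h → C.Φ F < 2 ^ (c + 1)) :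
    ∃ S' Γ' V' Y', St C T π.next S' Γ' V' Y' ∧ ∀ F ∈ S', 1 < F.h → C.Φ F < 2 ^ c := by
  let P : Finset (ι → ℝ) → Fc ι → (ι → ℝ) → Prop := fun τ F x =>
    F ∈ S ∧ 1 < F.h ∧ 2 ^ c ≤ C.Φ F ∧ τ ⊆ F.φ ∧ F.φ ∩ C.R ⊆ τ ∧ NewPt C π.j τ F.h x
  have key : ∀ τ F x, P τ F x → ∀ G ∈ S, τ ⊆ G.φ → G.h = F.h ∧ G.φ ∩ C.R ⊆ τ := by
    rintro τ F x ⟨h1, h2, h3, h4, h5, h6⟩ G hG hτG
    have hG' := hS.fc G hG
    have hF' := hS.fc F h1
    have h7 : F.h ∣ G.h := by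
      refine dvd_of_dy hF'.odd ?_
      have := DyR.neg_mem (DyR.mul_mem (DyR.two_pow (C.U * π.j)) (hG'.hψ_dot h6.1))
      convert this using 1
      have := hC.pos
      rw [h6.ψ hG' hτG, ← C.B_pow]; field_simp
    have h8 := Nat.le_of_dvd hG'.odd.pos h7
    have h9 := hc G hG (by omega)
    have h10 : F.φ ∩ C.R ⊆ G.φ ∩ C.R := fun u hu =>
      Finset.mem_inter.2 ⟨hτG (h5 hu), (Finset.mem_inter.1 hu).2⟩
    have hD := hC.odd.pos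
    have h11 : C.Φ G < 2 * C.Φ F := by rw [pow_succ] at h9; omega
    rw [Ctx.Φ, Ctx.Φ] at h11
    constructor
    · obtain ⟨t, ht⟩ := h7
      have h12 := Nat.pow_le_pow_right (show 0 < 2 * C.D by omega) (Finset.card_le_card h10)
      by_contra h13
      have h14 : 2 ≤ t := by
        rcases t with _ | _ | t
        · omega
        · omega
        · omega
      have h15 : 2 * F.h ≤ G.h := by rw [ht, mul_comm]; exact Nat.mul_le_mul_left _ h14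
      have := Nat.mul_le_mul h15 h12
      nlinarith
    · refine subset_trans (Finset.eq_of_subset_of_card_le h10 ?_).ge h5
      by_contra h13
      have h12 := Nat.pow_le_pow_right (show 0 < 2 * C.D by omega) (not_le.1 h13)
      rw [pow_succ] at h12
      have h14 : (2 * C.D) ^ (F.φ ∩ C.R).card * 2 ≤ (2 * C.D) ^ (G.φ ∩ C.R).card :=
        le_trans (Nat.mul_le_mul_left _ (by omega)) h12
      have := Nat.mul_le_mul h8 h14
      nlinarith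
  have hch : ∀ τ, ∃ x, (∃ F x, P τ F x) → ∃ F, P τ F x := by
    intro τ
    by_cases h : ∃ F x, P τ F x
    · obtain ⟨F, x, h⟩ := h
      exact ⟨x, fun _ => ⟨F, h⟩⟩
    · exact ⟨0, fun h' => absurd h' h⟩
  choose X hX using hch
  have hX' : ∀ τ, (∃ F x, P τ F x) → ∀ G ∈ S, τ ⊆ G.φ →
      NewPt C π.j τ G.h (X τ) ∧ 1 < G.h ∧ G.φ ∩ C.R ⊆ τ := by
    intro τ hτ G hG hτG
    obtain ⟨F, hF⟩ := hX τ hτ
    obtain ⟨h1, h2⟩ := key τ F _ hF G hG hτG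
    rw [h1]
    exact ⟨hF.2.2.2.2.2, hF.2.1, h2⟩
  have hsub : ∀ τ, (∃ F x, P τ F x) → ∀ τ', (∃ F x, P τ' F x) → ∀ G ∈ S, τ ⊆ G.φ → τ' ⊆ G.φ →
      τ ⊆ τ' := by
    intro τ hτ τ' hτ' G hG h1 h2 u hu
    obtain ⟨h3, _, _⟩ := hX' τ hτ G hG h1
    obtain ⟨h4, _, h5⟩ := hX' τ' hτ' G hG h2
    have hG' := hS.fc G hG
    by_cases huR : u ∈ C.R
    · exact h5 (Finset.mem_inter.2 ⟨h1 hu, huR⟩)
    by_contra h6
    have h7 := hG'.lat (X τ - X τ') (fun i => DyR.sub_mem (h3.1 i) (h4.1 i))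
      (by rw [dotProduct_sub, h3.ψ hG' h1, h4.ψ hG' h2, sub_self]) u (h1 hu)
    rw [Ctx.m, if_neg huR, Nat.cast_one, one_mul, dotProduct_sub, (h4.ω hG' h2 (h1 hu)).1 h6,
      sub_zero] at h7
    exact ((h3.ω hG' h1 (h1 hu)).2 hu).not_dy hG'.odd huR h7
  obtain ⟨S', Γ', V', Y', h1, _, _, h2⟩ := hS.step hC {τ | ∃ F x, P τ F x} X
    (fun τ ⟨F, _, h⟩ => ⟨F, h.1, h.2.2.2.1⟩) (fun τ hτ G hG h => (hX' τ hτ G hG h).1)
    fun τ hτ τ' hτ' G hG h h' =>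
      Finset.Subset.antisymm (hsub τ hτ τ' hτ' G hG h h') (hsub τ' hτ' τ hτ G hG h' h)
  refine ⟨S', Γ', V', Y', h1, fun F hF hh => ?_⟩
  rcases h2 F hF with ⟨h3, h4⟩ | ⟨G, hG, τ, hτ, h3, _, h4⟩
  · by_contra h5
    obtain ⟨τ, h6, h7, x, h8⟩ := hS.exists_pt hC h3 π.j
    exact h4 τ ⟨F, x, h3, hh, not_lt.1 h5, h6, h7, h8⟩ h6
  · have := hc G hG (hX' τ hτ G hG h3).2.1
    rw [pow_succ] at this
    omega

lemma St.rounds (hC : C.OK) (c : ℕ) : ∀ {π S Γ V Y}, St C T π S Γ V Y →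
    (∀ F ∈ S, 1 < F.h → C.Φ F < 2 ^ c) →
    ∃ S' Γ' V' Y', St C T (Par.next^[c] π) S' Γ' V' Y' ∧ ∀ F ∈ S', F.h = 1 := by
  induction c with
  | zero =>
    intro π S Γ V Y hS hc
    refine ⟨S, Γ, V, Y, hS, fun F hF => ?_⟩
    have h1 := (hS.fc F hF).odd.pos
    by_contra h2
    have h3 := hc F hF (by omega)
    have h4 : 0 < C.Φ F := Nat.mul_pos h1 (pow_pos (by have := hC.odd.pos; omega) _)
    omega
  | succ c ih =>
    intro π S Γ V Y hS hc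
    obtain ⟨S', Γ', V', Y', h1, h2⟩ := hS.round hC hc
    exact ih h1 h2

theorem St.finish (hC : C.OK) (hS : St C T π S Γ V Y) :
    ∃ V' Y', VY C.B C.U C.hF (Par.next^[C.U + 2] π) V' Y' ∧ (∀ p ∈ T, Rep C.B C.hF V' Y' p) ∧
      ∀ c : ι → ℝ, (∀ ρ ∈ C.R, 0 ≤ c ⬝ᵥ ρ) → 0 ≤ c ⬝ᵥ C.e → ∀ v ∈ V', 0 ≤ c ⬝ᵥ v.1 := by
  obtain ⟨S₁, Γ₁, V₁, Y₁, h1, h2⟩ := St.rounds hC (C.U + 1) hS fun F hF _ => by
    have h3 := (hS.fc F hF).hle
    have h4 := le_trans (Nat.le_mul_of_pos_left _ hC.odd.pos) hC.DH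
    have h5 : 0 < 2 ^ C.U := by positivity
    rw [pow_succ]; omega
  obtain ⟨S', Γ', V', Y', h3, _, _, h4⟩ := h1.step hC {τ | τ = ∅ ∧ S₁.Nonempty}
    (fun _ => (C.B ^ (Par.next^[C.U + 1] π).j)⁻¹ • C.e)
    (fun τ ⟨h, F, hF⟩ => ⟨F, hF, h ▸ Finset.empty_subset _⟩)
    (fun τ hτ F hF _ => ⟨fun i => DyR.mul_mem (by rw [C.B_pow]; exact DyR.inv_pow _)
      (InG.dy (hC.eint i)), 0, by simp [hτ.1, h2 F hF], by simp [hτ.1]⟩)
    fun τ hτ τ' hτ' _ _ _ _ => hτ.1.trans hτ'.1.symm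
  rw [← Function.iterate_succ_apply' Par.next] at h3
  refine ⟨V', Y', h3.vy, fun p hp => (h3.cover p hp).resolve_right ?_,
    fun c hc he => h3.vcone c (h3.gcone c hc he)⟩
  rintro ⟨F, hF, _⟩
  rcases h4 F hF with ⟨h5, h6⟩ | ⟨G, _, τ, hτ, _, h5, _⟩
  · exact h6 ∅ ⟨rfl, F, h5⟩ (Finset.empty_subset _)
  · exact h5.ne_empty hτ.1

end Pool.Agent.Lib.MP_892d22_co
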