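import Pool.Agent.Lib.MP_892d22_co.H24Child

namespace Pool.Agent.Lib.MP_892d22_co

open Matrix

variable {ι : Type} [Fintype ι]

/-- Exponents bounding norms, slack, denominators and heights. -/
structure Par where
  a : ℕ
  l : ℕ
  b : ℕ
  z : ℕ
  E : ℕ

/-- The exponent of the depth of the new points. -/
def Par.j (π : Par) : ℕ := π.l + 2 * π.a + 8

/-- The exponent of the height of the new points. -/
def Par.k (π : Par) : ℕ := π.z + π.a + 3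

/-- The exponents after one round. -/
def Par.next (π : Par) : Par :=
  ⟨π.a + 3, π.j + 1, π.b + π.j + 2, π.z + 2 * π.a + π.j + 6, π.E + 2 * (π.b + π.j + 2)⟩

/-- The inequalities given by `V` imply the inequality in direction `p` given by a point of `Y`. -/
def Rep (B : ℝ) (hF : (ι → ℝ) → ℝ) (V : Set ((ι → ℝ) × ℕ)) (Y : Set (ι → ℝ)) (p : ι → ℝ) : Prop :=
  ∃ y ∈ Y, ∀ (z : ι → ℝ) (α β : ℝ), (∀ v ∈ V, z ⬝ᵥ v.1 ≤ α * B ^ v.2 + β * hF v.1) →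
    z ⬝ᵥ p ≤ α * (y ⬝ᵥ p + hF p) + β * hF p

lemma Rep.mono {B : ℝ} {hF : (ι → ℝ) → ℝ} {V V' : Set ((ι → ℝ) × ℕ)} {Y Y' : Set (ι → ℝ)}
    {p : ι → ℝ} (h : Rep B hF V Y p) (hV : V ⊆ V') (hY : Y ⊆ Y') : Rep B hF V' Y' p := by
  obtain ⟨y, hy, h⟩ := h
  exact ⟨y, hY hy, fun z α β hz => h z α β fun v hv => hz v (hV hv)⟩

/-- Size bounds and validity for the normals `V` and the vertices `Y`. -/
structure VY (B : ℝ) (U : ℕ) (hF : (ι → ℝ) → ℝ) (π : Par) (V : Set ((ι → ℝ) × ℕ))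
    (Y : Set (ι → ℝ)) : Prop where
  vin : ∀ v ∈ V, ∀ i, v.1 i ∈ InG (U * π.b)
  vn : ∀ v ∈ V, ∀ i, |v.1 i| ≤ B ^ π.a
  vk : ∀ v ∈ V, v.2 ≤ π.z
  yin : ∀ y ∈ Y, ∀ i, y i ∈ InG (U * π.E)
  yn : ∀ y ∈ Y, ∀ i, |y i| ≤ B ^ π.z
  valid : ∀ y ∈ Y, ∀ v ∈ V, y ⬝ᵥ v.1 + hF v.1 ≤ B ^ v.2

/-- The invariants of the construction. -/
structure St (C : Ctx ι) (T : Set (ι → ℝ)) (π : Par) (S : Set (Fc ι)) (Γ : Set (ι → ℝ))
    (V : Set ((ι → ℝ) × ℕ)) (Y : Set (ι → ℝ)) : Prop where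
  a1 : 1 ≤ π.a
  z1 : 1 ≤ π.z
  vy : VY C.B C.U C.hF π V Y
  fc : ∀ F ∈ S, FcOK C π.a π.b F
  sub : ∀ F ∈ S, ∀ u ∈ F.φ, u ∈ Γ
  Rsub : ∀ u ∈ C.R, u ∈ Γ
  gin : ∀ γ ∈ Γ, ∀ i, γ i ∈ InG (C.U * π.b)
  gn : ∀ γ ∈ Γ, ∀ i, |γ i| ≤ C.B ^ π.a
  slack : ∀ F ∈ S, ∀ γ ∈ Γ, γ ∈ F.φ ∨ (C.B ^ π.l)⁻¹ ≤ F.ψ ⬝ᵥ γ
  gcone : ∀ c : ι → ℝ, (∀ ρ ∈ C.R, 0 ≤ c ⬝ᵥ ρ) → 0 ≤ c ⬝ᵥ C.e → ∀ γ ∈ Γ, 0 ≤ c ⬝ᵥ γ
  vcone : ∀ c : ι → ℝ, (∀ γ ∈ Γ, 0 ≤ c ⬝ᵥ γ) → ∀ v ∈ V, 0 ≤ c ⬝ᵥ v.1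
  good : ∀ F ∈ S, ∀ p, F.ψ ⬝ᵥ p = 0 → (∀ u ∈ F.φ, 0 ≤ F.ω u ⬝ᵥ p) → Rep C.B C.hF V Y p
  cover : ∀ p ∈ T, Rep C.B C.hF V Y p ∨ ∃ F ∈ S, InC F p

/-- A dyadic point slightly beyond the face `τ`. -/
def NewPt (C : Ctx ι) (j : ℕ) (τ : Finset (ι → ℝ)) (h : ℕ) (x : ι → ℝ) : Prop :=
  (∀ i, x i ∈ DyR) ∧ ∃ y : (ι → ℝ) → ℝ, x = ((C.B ^ j)⁻¹ / h) • C.e + ∑ u ∈ τ, y u • u ∧
    ∀ u ∈ τ, Coef C h u (y u)

lemma dot_pt (c e : ι → ℝ) (ε : ℝ) (τ : Finset (ι → ℝ)) (y : (ι → ℝ) → ℝ) :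
    c ⬝ᵥ (ε • e + ∑ u ∈ τ, y u • u) = ε * c ⬝ᵥ e + ∑ u ∈ τ, y u * c ⬝ᵥ u := by
  simp [dotProduct_add, dotProduct_sum, dotProduct_smul]

variable {C : Ctx ι} {T Γ Y : Set (ι → ℝ)} {π : Par} {S : Set (Fc ι)} {V : Set ((ι → ℝ) × ℕ)}
  {τ : Finset (ι → ℝ)} {x : ι → ℝ} {F G : Fc ι} {j : ℕ}

lemma St.ψ_nonneg (hC : C.OK) (hS : St C T π S Γ V Y) (hF : F ∈ S) {γ : ι → ℝ} (hγ : γ ∈ Γ) :
    0 ≤ F.ψ ⬝ᵥ γ := by
  rcases hS.slack F hF γ hγ with h | h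
  · exact ((hS.fc F hF).ψu γ h).ge
  · have := hC.pos
    exact le_trans (by positivity) h

lemma NewPt.ψ {a b h : ℕ} (hx : NewPt C j τ h x) (hF : FcOK C a b F) (hτ : τ ⊆ F.φ) :
    F.ψ ⬝ᵥ x = -((C.B ^ j)⁻¹ / h) := by
  obtain ⟨_, y, rfl, _⟩ := hx
  rw [dot_pt, hF.ψe, Finset.sum_eq_zero fun u hu => by rw [hF.ψu u (hτ hu), mul_zero]]
  ring

lemma NewPt.ω {a b h : ℕ} (hx : NewPt C j τ h x) (hF : FcOK C a b F) (hτ : τ ⊆ F.φ)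
    {u : ι → ℝ} (hu : u ∈ F.φ) :
    (u ∉ τ → F.ω u ⬝ᵥ x = 0) ∧ (u ∈ τ → Coef C h u (F.ω u ⬝ᵥ x)) := by
  obtain ⟨_, y, rfl, hy⟩ := hx
  rw [dot_pt, hF.ωe u hu, Finset.sum_congr rfl fun v hv => by rw [hF.ωu u hu v (hτ hv)]]
  simp only [mul_zero, zero_add, mul_ite, mul_one, Finset.sum_ite_eq]
  exact ⟨fun h => if_neg h, fun h => by rw [if_pos h]; exact hy u h⟩

lemma NewPt.inC {a b : ℕ} (hC : C.OK) (hx : NewPt C j τ F.h x) (hF : FcOK C a b F)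
    (hτ : τ ⊆ F.φ) : InC F x ∧ F.ψ ⬝ᵥ x < 0 := by
  have hB := hC.pos
  have h0 : (0 : ℝ) < F.h := by exact_mod_cast hF.odd.pos
  have h1 : F.ψ ⬝ᵥ x < 0 := by rw [hx.ψ hF hτ, neg_lt_zero]; positivity
  refine ⟨⟨h1.le, fun u hu => ?_⟩, h1⟩
  by_cases h : u ∈ τ
  · exact le_trans (by positivity) (((hx.ω hF hτ hu).2 h).bounds hC hF.odd.pos (hF.Dh hC)).1
  · exact ((hx.ω hF hτ hu).1 h).ge

lemma NewPt.far (hC : C.OK) (hS : St C T π S Γ V Y) (hx : NewPt C j τ G.h x) (hG : G ∈ S)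
    (hτ : τ ⊆ G.φ) (hF : F ∈ S) (hn : ¬τ ⊆ F.φ) :
    (C.B ^ (π.l + 2))⁻¹ - (C.B ^ j)⁻¹ ≤ F.ψ ⬝ᵥ x := by
  obtain ⟨_, y, rfl, hy⟩ := hx
  have hB := hC.pos
  have hG' := hS.fc G hG
  have h0 : (1 : ℝ) ≤ G.h := by exact_mod_cast hG'.odd.pos
  obtain ⟨u, hu, hu'⟩ := Finset.not_subset.1 hn
  have h1 : ∀ v ∈ τ, (C.B ^ 2)⁻¹ ≤ y v := fun v hv =>
    ((hy v hv).bounds hC hG'.odd.pos (hG'.Dh hC)).1
  have h2 := Finset.single_le_sum (f := fun v => y v * F.ψ ⬝ᵥ v) (fun v hv =>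
    mul_nonneg (le_trans (by positivity) (h1 v hv))
      (hS.ψ_nonneg hC hF (hS.sub G hG v (hτ hv)))) hu
  have h3 := (hS.slack F hF u (hS.sub G hG u (hτ hu))).resolve_left hu'
  have h4 : (C.B ^ (π.l + 2))⁻¹ ≤ y u * F.ψ ⬝ᵥ u := by
    rw [pow_add, mul_inv, mul_comm]
    exact mul_le_mul (h1 u hu) h3 (by positivity) (le_trans (by positivity) (h1 u hu))
  have h5 : (C.B ^ j)⁻¹ / G.h ≤ (C.B ^ j)⁻¹ := div_le_self (by positivity) h0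
  rw [dot_pt, (hS.fc F hF).ψe]
  linarith

lemma NewPt.size (hC : C.OK) (hS : St C T π S Γ V Y) (hx : NewPt C j τ G.h x) (hG : G ∈ S)
    (hτ : τ ⊆ G.φ) (i : ι) : |x i| ≤ C.B ^ (π.a + 1) ∧ x i ∈ InG (C.U * (π.b + j + 2)) := by
  obtain ⟨hd, y, hx, hy⟩ := hx
  have hB := hC.pos
  have hB2 := hC.two_le
  have hG' := hS.fc G hG
  have h0 : (1 : ℝ) ≤ G.h := by exact_mod_cast hG'.odd.pos
  have h1 := fun v hv => (hy v hv).bounds hC hG'.odd.pos (hG'.Dh hC)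
  have h2 : x i = (C.B ^ j)⁻¹ / G.h * C.e i + ∑ u ∈ τ, y u * u i := by
    rw [hx]; simp [Finset.sum_apply]
  constructor
  · have h3 : |∑ u ∈ τ, y u * u i| ≤ τ.card * C.B ^ π.a := bd_sum fun u hu => by
      have := bd_mul (n := 0) (x := y u) (by
        rw [abs_of_nonneg (le_trans (by positivity) (h1 u hu).1)]; simpa using (h1 u hu).2.1)
        (hS.gn u (hS.sub G hG u (hτ hu)) i)
      simpa using this
    have h4 : |(C.B ^ j)⁻¹ / G.h * C.e i| ≤ C.B ^ π.a := by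
      have h5 : |(C.B ^ j)⁻¹ / G.h| ≤ C.B ^ 0 := by
        rw [abs_of_nonneg (by positivity), pow_zero, div_le_one (by linarith)]
        exact (inv_le_one_of_one_le₀ (one_le_pow₀ (by linarith))).trans h0
      exact bd_mono hB2 (bd_mul (m := 1) h5 (by simpa using hC.en i)) (by simpa using hS.a1)
    have h5 : (τ.card : ℝ) ≤ Fintype.card ι := by
      exact_mod_cast (Finset.card_le_card hτ).trans hG'.card
    have h6 := hC.cardR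
    have h7 : 0 ≤ C.B ^ π.a := by positivity
    rw [h2, pow_succ]
    nlinarith [abs_add_le ((C.B ^ j)⁻¹ / G.h * C.e i) (∑ u ∈ τ, y u * u i)]
  · have hD := hC.odd.pos
    have hh := hG'.odd.pos
    refine InG.of_den (Δ := 2 ^ C.U * C.D * G.h * 2 ^ (C.U * j) * 2 ^ (C.U * π.b)) (hd i)
      (by positivity) ?_ ?_
    · calc _ ≤ 2 ^ C.U * 2 ^ C.U * 2 ^ (C.U * j) * 2 ^ (C.U * π.b) := by
            rw [mul_assoc (2 ^ C.U)]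
            gcongr
            exact hG'.Dh hC
        _ = _ := by ring
    · rw [h2, mul_add, Finset.mul_sum]
      refine add_mem ?_ (AddSubgroup.sum_mem _ fun u hu => ?_)
      · have := InG.mul (InG.nat 0 (2 ^ C.U * C.D * 2 ^ (C.U * π.b))) (hC.eint i)
        convert this using 1
        push_cast
        rw [← C.B_pow j]
        field_simp
      · obtain ⟨z, hz⟩ := hS.gin u (hS.sub G hG u (hτ hu)) i
        have := InG.mul (InG.mul (h1 u hu).2.2 (InG.int 0 z)) (InG.nat 0 (2 ^ (C.U * j)))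
        convert this using 1
        rw [← hz]
        push_cast
        ring

lemma NewPt.cone (hC : C.OK) (hS : St C T π S Γ V Y) (hx : NewPt C j τ G.h x) (hG : G ∈ S)
    (hτ : τ ⊆ G.φ) {c : ι → ℝ} (hc : ∀ γ ∈ Γ, 0 ≤ c ⬝ᵥ γ) (he : 0 ≤ c ⬝ᵥ C.e) : 0 ≤ c ⬝ᵥ x := by
  obtain ⟨_, y, rfl, hy⟩ := hx
  have hB := hC.pos
  have hG' := hS.fc G hG
  rw [dot_pt]
  refine add_nonneg (mul_nonneg (by positivity) he) (Finset.sum_nonneg fun u hu => ?_)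
  exact mul_nonneg (le_trans (by positivity) ((hy u hu).bounds hC hG'.odd.pos (hG'.Dh hC)).1)
    (hc u (hS.sub G hG u (hτ hu)))

lemma NewPt.height (hC : C.OK) (hS : St C T π S Γ V Y) (hx : NewPt C j τ G.h x) (hG : G ∈ S)
    (hτ : τ ⊆ G.φ) {y : ι → ℝ} (hy : y ∈ Y) :
    |C.hF x + y ⬝ᵥ x| ≤ C.B ^ π.k ∧ C.hF x + y ⬝ᵥ x ∈ InG (C.U * (π.E + (π.b + j + 2))) := by
  obtain ⟨f, hf1, hf2, hf3⟩ := hC.hF x
  have h1 := hx.size hC hS hG hτ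
  have hB := hC.two_le
  rw [hf3]
  constructor
  · have h2 := bd_dot hC.cardR' (n := 1) (by simpa using hf2) fun i => (h1 i).1
    have h3 := bd_dot hC.cardR' (hS.vy.yn y hy) fun i => (h1 i).1
    have := hS.z1
    exact bd_mono hB (bd_add hB (bd_mono hB h2 (by omega)) h3) (by rw [Par.k]; omega)
  · rw [mul_add]
    exact add_mem (InG.mono (InG.dot hf1 fun i => (h1 i).2) (by omega))
      (InG.dot (hS.vy.yin y hy) fun i => (h1 i).2)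

/-- The new vertex attached to an old vertex, a facet and a new point. -/
noncomputable def newY (C : Ctx ι) (k : ℕ) (F : Fc ι) (x y : ι → ℝ) : ι → ℝ :=
  y + ((C.B ^ k - (C.hF x + y ⬝ᵥ x)) / F.ψ ⬝ᵥ x) • F.ψ

lemma newY_dot (k : ℕ) (y p : ι → ℝ) : newY C k F x y ⬝ᵥ p =
    y ⬝ᵥ p + (C.B ^ k - (C.hF x + y ⬝ᵥ x)) / F.ψ ⬝ᵥ x * F.ψ ⬝ᵥ p := by
  simp [newY, add_dotProduct, smul_dotProduct]

lemma NewPt.newY_size (hC : C.OK) (hS : St C T π S Γ V Y) (hx : NewPt C π.j τ F.h x) (hF : F ∈ S)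
    (hτ : τ ⊆ F.φ) {y : ι → ℝ} (hy : y ∈ Y) (i : ι) :
    |newY C π.k F x y i| ≤ C.B ^ π.next.z ∧ newY C π.k F x y i ∈ InG (C.U * π.next.E) := by
  obtain ⟨h1, h2⟩ := hx.height hC hS hF hτ hy
  have hF' := hS.fc F hF
  have hB := hC.two_le
  have hB0 := hC.pos
  have h0 : (0 : ℝ) < F.h := by exact_mod_cast hF'.odd.pos
  have h3 : newY C π.k F x y i =
      y i - C.B ^ π.j * (C.B ^ π.k - (C.hF x + y ⬝ᵥ x)) * (F.h * F.ψ i) := by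
    simp only [newY, Pi.add_apply, Pi.smul_apply, smul_eq_mul, hx.ψ hF' hτ]
    field_simp
    ring
  rw [h3]
  constructor
  · have h4 : |(F.h : ℝ)| ≤ C.B ^ 1 := by
      rw [abs_of_pos h0, pow_one, Ctx.B]
      exact_mod_cast le_trans (Nat.le_mul_of_pos_left _ hC.odd.pos) (hF'.Dh hC)
    have h5 := bd_mul (bd_mul (abs_of_pos (pow_pos hB0 π.j)).le
      (bd_sub hB (abs_of_pos (pow_pos hB0 π.k)).le h1)) (bd_mul h4 (hF'.nψ i))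
    refine bd_mono hB (bd_sub hB (bd_mono hB (hS.vy.yn y hy i) ?_) h5) ?_
    · rw [Par.k]; omega
    · simp only [Par.next, Par.k]; omega
  · have h4 : ∀ n, C.B ^ n ∈ InG 0 := fun n => by
      rw [C.B_pow]; simpa using InG.nat 0 (2 ^ (C.U * n))
    refine sub_mem (InG.mono (hS.vy.yin y hy i) (Nat.mul_le_mul_left _ ?_))
      (InG.mono (InG.mul (InG.mul (h4 _) (sub_mem (InG.mono (h4 _) (Nat.zero_le _)) h2))
        (hF'.hψ_In i)) ?_)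
    · simp only [Par.next]; omega
    · rw [zero_add, ← mul_add]
      refine Nat.mul_le_mul_left _ ?_
      simp only [Par.next]; omega

lemma NewPt.rep (hC : C.OK) (hS : St C T π S Γ V Y) (hx : NewPt C j τ F.h x) (hF : F ∈ S)
    (hτ : τ ⊆ F.φ) {V' : Set ((ι → ℝ) × ℕ)} {Y' : Set (ι → ℝ)} {k : ℕ} (hV : V ⊆ V')
    (hxV : (x, k) ∈ V') (hY : ∀ y ∈ Y, newY C k F x y ∈ Y') {p : ι → ℝ} (hp : F.ψ ⬝ᵥ p ≤ 0)
    (hp' : ∀ u ∈ F.φ, F.ψ ⬝ᵥ p / F.ψ ⬝ᵥ x * F.ω u ⬝ᵥ x ≤ F.ω u ⬝ᵥ p) : Rep C.B C.hF V' Y' p := by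
  have hF' := hS.fc F hF
  obtain ⟨hxC, hx0⟩ := hx.inC hC hF' hτ
  set s := F.ψ ⬝ᵥ p / F.ψ ⬝ᵥ x with hs
  have hs0 : 0 ≤ s := div_nonneg_of_nonpos hp hx0.le
  have h1 : F.ψ ⬝ᵥ (p - s • x) = 0 := by
    rw [dotProduct_sub, dotProduct_smul, smul_eq_mul, hs, div_mul_cancel₀ _ hx0.ne, sub_self]
  have h2 : ∀ u ∈ F.φ, 0 ≤ F.ω u ⬝ᵥ (p - s • x) := fun u hu => by
    rw [dotProduct_sub, dotProduct_smul, smul_eq_mul, sub_nonneg]; exact hp' u hu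
  obtain ⟨y, hy, h3⟩ := hS.good F hF _ h1 h2
  obtain ⟨f, hf⟩ := hF'.lin
  have h4 := hf p ⟨hp, fun u hu => le_trans (mul_nonneg hs0 (hxC.2 u hu)) (hp' u hu)⟩
  have h5 := hf x hxC
  have h6 := hf _ ⟨h1.le, h2⟩
  refine ⟨_, hY y hy, fun z α β hz => ?_⟩
  have h7 := h3 z α β fun v hv => hz v (hV hv)
  have h8 := mul_le_mul_of_nonneg_left (hz _ hxV) hs0
  simp only [h6, dotProduct_sub, dotProduct_smul, smul_eq_mul] at h7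
  rw [newY_dot, h4, show (C.B ^ k - (C.hF x + y ⬝ᵥ x)) / F.ψ ⬝ᵥ x * F.ψ ⬝ᵥ p =
    s * (C.B ^ k - (C.hF x + y ⬝ᵥ x)) by rw [hs]; ring]
  simp only [h5] at h8 ⊢
  nlinarith

end Pool.Agent.Lib.MP_892d22_co
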