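import Pool.Agent.Lib.MP_892d22_co.H24Round

namespace Pool.Agent.Lib.MP_892d22_co

open Matrix

variable {ι : Type} [Fintype ι]

lemma Bas.cone {e p c : ι → ℝ} {F : Fc ι} (hF : Bas e F) (hp : InC F p) (he : 0 ≤ c ⬝ᵥ e)
    (hu : ∀ u ∈ F.φ, 0 ≤ c ⬝ᵥ u) : 0 ≤ c ⬝ᵥ p := by
  rw [hF.exp p, dot_pt]
  exact add_nonneg (mul_nonneg (neg_nonneg.2 hp.1) he)
    (Finset.sum_nonneg fun u h => mul_nonneg (hp.2 u h) (hu u h))

lemma dual_exp [DecidableEq ι] {ρ α : ι → ι → ℝ}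
    (h : ∀ k j, α k ⬝ᵥ ρ j = if k = j then 1 else 0) (p : ι → ℝ) : p = ∑ k, (α k ⬝ᵥ p) • ρ k := by
  have h1 : Matrix.of α * (Matrix.of ρ)ᵀ = 1 := by
    ext k j
    rw [Matrix.one_apply, ← h k j]
    rfl
  have h2 := congrArg (· *ᵥ p) (mul_eq_one_comm.1 h1)
  simp only [← Matrix.mulVec_mulVec, Matrix.one_mulVec] at h2
  conv_lhs => rw [← h2]
  funext i
  simp only [Matrix.mulVec, dotProduct, Matrix.transpose_apply, Matrix.of_apply,
    Finset.sum_apply, Pi.smul_apply, smul_eq_mul]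
  exact Finset.sum_congr rfl fun k _ => mul_comm _ _

/-- `hF` is the support function of a set of small integer points. -/
structure Supp (B : ℝ) (Fs : Set (ι → ℝ)) (hF : (ι → ℝ) → ℝ) : Prop where
  ex : ∀ p, ∃ f ∈ Fs, hF p = f ⬝ᵥ p
  le : ∀ p, ∀ f ∈ Fs, f ⬝ᵥ p ≤ hF p
  int : ∀ f ∈ Fs, ∀ i, f i ∈ InG 0
  norm : ∀ f ∈ Fs, ∀ i, |f i| ≤ B

theorem stage [DecidableEq ι] {U D' Z : ℕ} {Fs Y : Set (ι → ℝ)} {hF : (ι → ℝ) → ℝ}
    {V : Set ((ι → ℝ) × ℕ)} {π : Par} {ρ α : ι → ι → ℝ} {e : ι → ℝ} (hU : 1 ≤ U)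
    (hcard : Fintype.card ι + 1 ≤ 2 ^ U) (hs : Supp (2 ^ U) Fs hF)
    (hd : ∀ k j, α k ⬝ᵥ ρ j = if k = j then 1 else 0) (hρ : ∀ k i, ρ k i ∈ InG 0)
    (hρn : ∀ k i, |ρ k i| ≤ 2 ^ U) (he : ∀ i, e i ∈ InG 0) (hen : ∀ i, |e i| ≤ 2 ^ U)
    (hD : 0 < D') (hα : ∀ k i, (D' : ℝ) * α k i ∈ InG 0) (hαn : ∀ k i, |α k i| ≤ 2 ^ U)
    (hZ1 : 1 ≤ Z) (hZ : ∀ k, |D' * α k ⬝ᵥ e| ≤ Z)
    (hZU : D' * (Z * (2 * D') ^ Fintype.card ι) ≤ 2 ^ U)
    (hlin : ∀ i, α i ⬝ᵥ e < 0 → ∃ f ∈ Fs, ∀ f' ∈ Fs, f' ⬝ᵥ e ≤ f ⬝ᵥ e ∧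
      ∀ k, k ≠ i → f' ⬝ᵥ ρ k ≤ f ⬝ᵥ ρ k)
    (ha : 3 ≤ π.a) (hl : 1 ≤ π.l) (hb : 2 ≤ π.b) (hz : 1 ≤ π.z) (hVY : VY (2 ^ U) U hF π V Y)
    (hV : ∀ c : ι → ℝ, (∀ k, 0 ≤ c ⬝ᵥ ρ k) → ∀ v ∈ V, 0 ≤ c ⬝ᵥ v.1)
    (hR : ∀ p, (∀ k, 0 ≤ α k ⬝ᵥ p) → Rep (2 ^ U) hF V Y p) :
    ∃ V' Y', VY (2 ^ U) U hF (Par.next^[U + 2] π) V' Y' ∧
      (∀ p, ∀ t : ℝ, 0 ≤ t → (∀ k, t * α k ⬝ᵥ e ≤ α k ⬝ᵥ p) → Rep (2 ^ U) hF V' Y' p) ∧
      ∀ c : ι → ℝ, (∀ k, 0 ≤ c ⬝ᵥ ρ k) → 0 ≤ c ⬝ᵥ e → ∀ v ∈ V', 0 ≤ c ⬝ᵥ v.1 := by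
  obtain ⟨c, D, hDo, hDc⟩ := Nat.exists_eq_two_pow_mul_odd hD.ne'
  have hDD : D ≤ D' := by rw [hDc]; exact Nat.le_mul_of_pos_left _ (by positivity)
  let C : Ctx ι := ⟨U, D, Z * (2 * D') ^ Fintype.card ι, Finset.univ.image ρ, e, hF⟩
  have hC : C.OK := ⟨hU, hDo, le_trans (Nat.mul_le_mul_right _ hDD) hZU, hcard, he, hen, fun p => by
    obtain ⟨f, hf, h⟩ := hs.ex p
    exact ⟨f, hs.int f hf, hs.norm f hf, h⟩⟩
  have hB := hC.two_le
  have hB0 := hC.pos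
  have hBe : C.B = 2 ^ U := rfl
  have hp1 : 0 < (2 * D') ^ Fintype.card ι := by positivity
  have hD'B : D' ≤ 2 ^ U := le_trans (Nat.le_mul_of_pos_right _ (by positivity)) hZU
  have hZB : Z ≤ 2 ^ U :=
    le_trans (le_trans (Nat.le_mul_of_pos_right _ hp1) (Nat.le_mul_of_pos_left _ hD)) hZU
  have hD'R : (D' : ℝ) ≤ C.B := by rw [hBe]; exact_mod_cast hD'B
  have hZR : (Z : ℝ) ≤ C.B := by rw [hBe]; exact_mod_cast hZB
  have hD0 : (0 : ℝ) < D' := by exact_mod_cast hD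
  have hD1 : (1 : ℝ) ≤ D' := by exact_mod_cast hD
  have hinj : Function.Injective ρ := fun k j h => by
    by_contra h1
    have h2 := hd k k
    rw [h] at h2
    nth_rewrite 1 [← h] at h2
    rw [h, hd k j, if_neg h1, if_pos rfl] at h2
    exact zero_ne_one h2
  have hzint : ∀ k, (D' : ℝ) * α k ⬝ᵥ e ∈ InG 0 := fun k => by
    have := InG.dot (hα k) he
    convert this using 1
    simp only [dotProduct, Finset.mul_sum, mul_assoc]
  have hN : ∀ i, α i ⬝ᵥ e < 0 → ∃ N : ℕ, 1 ≤ N ∧ N ≤ Z ∧ (N : ℝ) = -(D' * α i ⬝ᵥ e) := by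
    intro i hi
    obtain ⟨z, hz⟩ := mem_InG_zero.1 (hzint i)
    have h1 : (z : ℝ) < 0 := hz ▸ mul_neg_of_pos_of_neg hD0 hi
    have h2 : z < 0 := by exact_mod_cast h1
    obtain ⟨N, hN⟩ := Int.eq_ofNat_of_zero_le (show 0 ≤ -z by omega)
    have h3 : (N : ℝ) = -z := by exact_mod_cast hN.symm
    refine ⟨N, by omega, ?_, by rw [hz, h3]⟩
    have h4 := hZ i
    rw [hz, abs_of_neg h1, ← h3] at h4
    exact_mod_cast h4
  let G : ι → ℕ → Fc ι := fun i h => ⟨(Finset.univ.erase i).image ρ, (-(α i ⬝ᵥ e))⁻¹ • α i,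
    Function.extend ρ (fun k => α k - (α k ⬝ᵥ e / α i ⬝ᵥ e) • α i) 0, h⟩
  have Gφ : ∀ i h u, u ∈ (G i h).φ ↔ ∃ k, k ≠ i ∧ ρ k = u := by intro i h u; simp [G]
  have Gψ : ∀ i h p, (G i h).ψ ⬝ᵥ p = -(α i ⬝ᵥ p / α i ⬝ᵥ e) := by
    intro i h p
    simp only [G, smul_dotProduct, smul_eq_mul, inv_neg]; ring
  have Gω' : ∀ i h k, (G i h).ω (ρ k) = α k - (α k ⬝ᵥ e / α i ⬝ᵥ e) • α i := by
    intro i h k
    simp only [G, hinj.extend_apply]
  have Gω : ∀ i h k p, (G i h).ω (ρ k) ⬝ᵥ p = α k ⬝ᵥ p - α i ⬝ᵥ p / α i ⬝ᵥ e * α k ⬝ᵥ e := by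
    intro i h k p
    rw [Gω', sub_dotProduct, smul_dotProduct, smul_eq_mul]; ring
  have Gbas : ∀ i h, α i ⬝ᵥ e < 0 → Bas e (G i h) := by
    intro i h hi
    refine ⟨by rw [Gψ, div_self hi.ne], fun u hu => ?_, fun u hu => ?_, fun u hu u' hu' => ?_,
      fun p => ?_⟩
    · obtain ⟨k, hk, rfl⟩ := (Gφ i h u).1 hu
      rw [Gψ, hd, if_neg hk.symm]; simp
    · obtain ⟨k, hk, rfl⟩ := (Gφ i h u).1 hu
      rw [Gω, div_self hi.ne]; ring
    · obtain ⟨k, hk, rfl⟩ := (Gφ i h u).1 hu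
      obtain ⟨k', hk', rfl⟩ := (Gφ i h u').1 hu'
      rw [Gω, hd, hd, if_neg hk'.symm]
      simp [hinj.eq_iff]
    · have h1 := dual_exp hd (p - (α i ⬝ᵥ p / α i ⬝ᵥ e) • e)
      rw [← Finset.add_sum_erase _ _ (Finset.mem_univ i), dotProduct_sub, dotProduct_smul,
        smul_eq_mul, div_mul_cancel₀ _ hi.ne, sub_self, zero_smul, zero_add,
        sub_eq_iff_eq_add'] at h1
      have h2 : (G i h).φ = (Finset.univ.erase i).image ρ := rfl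
      rw [Gψ, neg_neg, h2, Finset.sum_image fun _ _ _ _ h => hinj h]
      conv_lhs => rw [h1]
      congr 1
      refine Finset.sum_congr rfl fun k _ => ?_
      rw [Gω, dotProduct_sub, dotProduct_smul, smul_eq_mul]
  have Gok : ∀ i, α i ⬝ᵥ e < 0 → ∃ h, FcOK C π.a π.b (G i h) := by
    intro i hi
    obtain ⟨N, hN1, hN2, hN3⟩ := hN i hi
    have hNR : (1 : ℝ) ≤ N := by exact_mod_cast hN1
    have hNψ : ∀ h j, (N : ℝ) * (G i h).ψ j = D' * α i j := by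
      intro h j
      have := hi.ne
      simp only [G, Pi.smul_apply, smul_eq_mul, hN3]; field_simp
    obtain ⟨h, h1, h2, h3, h4⟩ := exists_height (ψ := (G i 0).ψ) hN1
      (fun j => by rw [hNψ]; exact InG.dy (hα i j)) he (Gbas i 0 hi).ψe
    have hαB : ∀ k j, |α k j| ≤ C.B ^ 1 := fun k j => by rw [pow_one]; exact hαn k j
    have hq : ∀ k, α k ⬝ᵥ e / α i ⬝ᵥ e = -(D' * α k ⬝ᵥ e) / N := by
      intro k
      have := hi.ne
      rw [hN3]; field_simp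
    refine ⟨h, { Gbas i h hi with
      lat := ?_, odd := h1, hψ := h3, x0 := h4, hle := ?_, card := ?_, nψ := ?_, nω := ?_,
      den := ?_, lin := ?_ }⟩
    · intro q hq hψ u hu
      obtain ⟨k, hk, rfl⟩ := (Gφ i h u).1 hu
      rw [Gψ, neg_eq_zero] at hψ
      rw [Gω, hψ, zero_mul, sub_zero, Ctx.m, if_pos (Finset.mem_image_of_mem _ (Finset.mem_univ k))]
      have := DyR.mul_mem (DyR.inv_pow c) (DyR.dot (fun j => InG.dy (hα k j)) hq)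
      convert this using 1
      have h5 : (D' : ℝ) = 2 ^ c * D := by exact_mod_cast hDc
      simp only [dotProduct, Finset.mul_sum, h5]
      refine Finset.sum_congr rfl fun j _ => ?_
      show (D : ℝ) * _ = _
      field_simp
    · refine Nat.mul_le_mul (h2.trans hN2) (le_trans (Nat.pow_le_pow_left
        (Nat.mul_le_mul_left 2 hDD) _) (Nat.pow_le_pow_right (by omega) ?_))
      refine (Finset.card_le_card Finset.inter_subset_right).trans ?_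
      exact Finset.card_image_le.trans (by simp)
    · exact Finset.card_image_le.trans (Finset.card_le_univ _)
    · intro j
      have h5 : |(G i h).ψ j| ≤ |D' * α i j| := by
        rw [← hNψ h j, abs_mul, abs_of_pos (by linarith : (0 : ℝ) < N)]
        exact le_mul_of_one_le_left (abs_nonneg _) hNR
      exact bd_mono hB (h5.trans (bd_mul (n := 1) (by rwa [abs_of_pos hD0, pow_one]) (hαB i j)))
        (by omega)
    · intro u hu j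
      obtain ⟨k, hk, rfl⟩ := (Gφ i h u).1 hu
      rw [Gω', Pi.sub_apply, Pi.smul_apply, smul_eq_mul]
      have h5 : |α k ⬝ᵥ e / α i ⬝ᵥ e| ≤ C.B ^ 1 := by
        rw [hq, abs_div, abs_neg, abs_of_pos (by linarith : (0 : ℝ) < N), pow_one]
        exact (div_le_self (abs_nonneg _) hNR).trans ((hZ k).trans hZR)
      exact bd_mono hB (bd_sub hB (bd_mono hB (hαB k j) (by omega)) (bd_mul h5 (hαB i j))) ha
    · refine ⟨N * D', by positivity, ?_, fun j => ?_, fun u hu j => ?_⟩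
      · calc N * D' ≤ 2 ^ U * 2 ^ U := Nat.mul_le_mul (hN2.trans hZB) hD'B
          _ = 2 ^ (U * 2) := by ring
          _ ≤ _ := Nat.pow_le_pow_right (by norm_num) (Nat.mul_le_mul_left _ hb)
      · have := InG.mul (InG.nat 0 D') (hα i j)
        convert this using 1
        rw [← hNψ h j]; push_cast; ring
      · obtain ⟨k, hk, rfl⟩ := (Gφ i h u).1 hu
        have := add_mem (InG.mul (InG.nat 0 N) (hα k j)) (InG.mul (hzint k) (hα i j))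
        convert this using 1
        rw [Gω', Pi.sub_apply, Pi.smul_apply, smul_eq_mul, hq]
        push_cast
        field_simp
        ring
    · obtain ⟨f, hf, h5⟩ := hlin i hi
      refine ⟨f, fun p hp => le_antisymm ?_ (hs.le p f hf)⟩
      obtain ⟨f', hf', h6⟩ := hs.ex p
      have := (Gbas i h hi).cone (c := f - f') hp
        (by rw [sub_dotProduct, sub_nonneg]; exact (h5 f' hf').1) fun u hu => by
          obtain ⟨k, hk, rfl⟩ := (Gφ i h u).1 hu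
          rw [sub_dotProduct, sub_nonneg]; exact (h5 f' hf').2 k hk
      rw [sub_dotProduct, sub_nonneg] at this
      exact h6.trans_le this
  have hS : St C {p | ∃ t : ℝ, 0 ≤ t ∧ ∀ k, t * α k ⬝ᵥ e ≤ α k ⬝ᵥ p} π
      {F | ∃ i h, α i ⬝ᵥ e < 0 ∧ F = G i h ∧ FcOK C π.a π.b F} (Set.range ρ) V Y := by
    refine ⟨by omega, hz, hVY, ?_, ?_, ?_, ?_, ?_, ?_, ?_, ?_, ?_, ?_⟩
    · rintro F ⟨i, h, _, _, h1⟩; exact h1
    · rintro F ⟨i, h, _, rfl, _⟩ u hu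
      obtain ⟨k, _, rfl⟩ := (Gφ i h u).1 hu
      exact ⟨k, rfl⟩
    · intro u hu
      obtain ⟨k, _, rfl⟩ := Finset.mem_image.1 hu
      exact ⟨k, rfl⟩
    · rintro _ ⟨k, rfl⟩ i; exact InG.mono (hρ k i) (Nat.zero_le _)
    · rintro _ ⟨k, rfl⟩ i
      exact bd_mono (n := 1) hB (by rw [pow_one]; exact hρn k i) (by omega)
    · rintro F ⟨i, h, hi, rfl, _⟩ _ ⟨k, rfl⟩
      by_cases hk : k = i
      · right
        obtain ⟨N, hN1, hN2, hN3⟩ := hN i hi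
        have hNR : (1 : ℝ) ≤ N := by exact_mod_cast hN1
        have hN2R : (N : ℝ) ≤ Z := by exact_mod_cast hN2
        rw [Gψ, hk, hd, if_pos rfl, ← div_neg, one_div]
        refine inv_anti₀ (by linarith) (le_trans ?_ (le_self_pow₀ (by linarith) (by omega)))
        nlinarith
      · exact Or.inl ((Gφ i h _).2 ⟨k, hk, rfl⟩)
    · rintro c hc _ _ ⟨k, rfl⟩
      exact hc _ (Finset.mem_image_of_mem _ (Finset.mem_univ k))
    · exact fun c hc => hV c fun k => hc _ ⟨k, rfl⟩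
    · rintro F ⟨i, h, hi, rfl, _⟩ p hp hp'
      rw [Gψ, neg_eq_zero] at hp
      refine hR p fun k => ?_
      by_cases hk : k = i
      · rw [hk]; exact ((div_eq_zero_iff.1 hp).resolve_right hi.ne).ge
      · have := hp' _ ((Gφ i h _).2 ⟨k, hk, rfl⟩)
        rwa [Gω, hp, zero_mul, sub_zero] at this
    · rintro p ⟨t, ht0, ht⟩
      by_cases h0 : ∀ k, 0 ≤ α k ⬝ᵥ p
      · exact Or.inl (hR p h0)
      push Not at h0
      obtain ⟨k₀, hk₀⟩ := h0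
      have hk₀e : α k₀ ⬝ᵥ e < 0 := by
        by_contra h
        have := mul_nonneg ht0 (not_lt.1 h)
        linarith [ht k₀]
      obtain ⟨i, hi', hmax⟩ := Finset.exists_max_image (Finset.univ.filter fun k => α k ⬝ᵥ e < 0)
        (fun k => α k ⬝ᵥ p / α k ⬝ᵥ e) ⟨k₀, by simpa using hk₀e⟩
      have hi : α i ⬝ᵥ e < 0 := by simpa using hi'
      obtain ⟨h, hh⟩ := Gok i hi
      refine Or.inr ⟨G i h, ⟨i, h, hi, rfl, hh⟩, ?_, fun u hu => ?_⟩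
      · rw [Gψ, neg_nonpos]
        exact (div_nonneg_of_nonpos hk₀.le hk₀e.le).trans (hmax k₀ (by simpa using hk₀e))
      · obtain ⟨k, _, rfl⟩ := (Gφ i h u).1 hu
        rw [Gω, sub_nonneg]
        rcases lt_or_ge (α k ⬝ᵥ e) 0 with h1 | h1
        · exact (div_le_iff_of_neg h1).1 (hmax k (by simpa using h1))
        · exact le_trans (mul_le_mul_of_nonneg_right ((div_le_iff_of_neg hi).2 (ht i)) h1) (ht k)
  obtain ⟨V', Y', h1, h2, h3⟩ := hS.finish hC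
  refine ⟨V', Y', h1, fun p t ht0 ht => h2 p ⟨t, ht0, ht⟩, fun c hc => h3 c fun u hu => ?_⟩
  obtain ⟨k, _, rfl⟩ := Finset.mem_image.1 hu
  exact hc k

end Pool.Agent.Lib.MP_892d22_co
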