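import Pool.Agent.Lib.MP_892d22_co.H24St

namespace Pool.Agent.Lib.MP_892d22_co

open Matrix

variable {ι : Type} [Fintype ι]

lemma slack_arith {B : ℝ} (hB : 2 ≤ B) (l a : ℕ) :
    (B ^ (l + 2 * a + 8 + 1))⁻¹ + (B ^ (l + 2 * a + 8))⁻¹ +
      (B ^ (l + 2 * a + 8))⁻¹ * B ^ 2 * B ^ (a + (a + 1) + 1) ≤ (B ^ (l + 2))⁻¹ := by
  have hB0 : 0 < B := by linarith
  have h1 : ∀ n, l + 4 ≤ n → (B ^ n)⁻¹ ≤ (B ^ (l + 4))⁻¹ := fun n hn =>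
    inv_anti₀ (by positivity) (pow_le_pow_right₀ (by linarith) hn)
  have h2 : (B ^ (l + 2 * a + 8))⁻¹ * B ^ 2 * B ^ (a + (a + 1) + 1) = (B ^ (l + 4))⁻¹ := by
    field_simp; ring
  have h3 : (B ^ (l + 2))⁻¹ = B ^ 2 * (B ^ (l + 4))⁻¹ := by field_simp; ring
  have h4 : 0 < (B ^ (l + 4))⁻¹ := by positivity
  rw [h2, h3]
  nlinarith [h1 (l + 2 * a + 8 + 1) (by omega), h1 (l + 2 * a + 8) (by omega),
    mul_le_mul_of_nonneg_right (show 4 ≤ B ^ 2 by nlinarith) h4.le]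

variable {C : Ctx ι} {T Γ Y : Set (ι → ℝ)} {π : Par} {S : Set (Fc ι)} {V : Set ((ι → ℝ) × ℕ)}

lemma NewPt.child_slack (hC : C.OK) (hS : St C T π S Γ V Y) {τ : Finset (ι → ℝ)} {x w γ : ι → ℝ}
    {F : Fc ι} (hx : NewPt C π.j τ F.h x) (hF : F ∈ S) (hτ : τ ⊆ F.φ) (hw : w ∈ τ) (h : ℕ)
    (hγ : ∀ i, |γ i| ≤ C.B ^ (π.a + 1))
    (hψ : (C.B ^ (π.l + 2))⁻¹ - (C.B ^ π.j)⁻¹ ≤ F.ψ ⬝ᵥ γ) :
    (C.B ^ (π.j + 1))⁻¹ ≤ (F.child x w h).ψ ⬝ᵥ γ := by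
  have hF' := hS.fc F hF
  have hB := hC.pos
  have h0 : (1 : ℝ) ≤ F.h := by exact_mod_cast hF'.odd.pos
  have h1 := (((hx.ω hF' hτ (hτ hw)).2 hw).bounds hC hF'.odd.pos (hF'.Dh hC)).1
  have h2 : 0 < F.ω w ⬝ᵥ x := lt_of_lt_of_le (by positivity) h1
  have h3 := bd_dot hC.cardR' (hF'.nω w (hτ hw)) hγ
  have h4 : |F.ψ ⬝ᵥ x / F.ω w ⬝ᵥ x| ≤ (C.B ^ π.j)⁻¹ * C.B ^ 2 := by
    rw [hx.ψ hF' hτ, abs_div, abs_neg, abs_of_pos h2, abs_of_pos (by positivity), div_eq_mul_inv]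
    exact mul_le_mul (div_le_self (by positivity) h0) (inv_le_of_inv_le₀ (by positivity) h1)
      (by positivity) (by positivity)
  have h5 := mul_le_mul h4 h3 (abs_nonneg _) (by positivity)
  rw [← abs_mul] at h5
  have h6 := slack_arith hC.two_le π.l π.a
  rw [child_ψ]
  have h7 : π.j = π.l + 2 * π.a + 8 := rfl
  rw [← h7] at h6
  linarith [le_abs_self (F.ψ ⬝ᵥ x / F.ω w ⬝ᵥ x * F.ω w ⬝ᵥ γ)]

theorem St.step (hC : C.OK) (hS : St C T π S Γ V Y) (A : Set (Finset (ι → ℝ)))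
    (X : Finset (ι → ℝ) → ι → ℝ) (hex : ∀ τ ∈ A, ∃ F ∈ S, τ ⊆ F.φ)
    (hX : ∀ τ ∈ A, ∀ F ∈ S, τ ⊆ F.φ → NewPt C π.j τ F.h (X τ))
    (huniq : ∀ τ ∈ A, ∀ τ' ∈ A, ∀ F ∈ S, τ ⊆ F.φ → τ' ⊆ F.φ → τ = τ') :
    ∃ S' Γ' V' Y', St C T π.next S' Γ' V' Y' ∧ V ⊆ V' ∧ Y ⊆ Y' ∧
      ∀ F' ∈ S', (F' ∈ S ∧ ∀ τ ∈ A, ¬τ ⊆ F'.φ) ∨
        ∃ F ∈ S, ∃ τ ∈ A, τ ⊆ F.φ ∧ τ.Nonempty ∧ 2 * C.Φ F' ≤ C.Φ F := by
  have hB := hC.two_le
  have hB0 := hC.pos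
  let S' : Set (Fc ι) := {F | F ∈ S ∧ ∀ τ ∈ A, ¬τ ⊆ F.φ} ∪
    {F' | ∃ F ∈ S, ∃ τ ∈ A, τ ⊆ F.φ ∧ ∃ w ∈ τ, ∃ h, F' = F.child (X τ) w h ∧
      FcOK C π.next.a π.next.b F' ∧ 2 * C.Φ F' ≤ C.Φ F}
  let V' := V ∪ {v | ∃ τ ∈ A, v = (X τ, π.k)}
  let Y' := Y ∪ {y' | ∃ y ∈ Y, ∃ F ∈ S, ∃ τ ∈ A, τ ⊆ F.φ ∧ y' = newY C π.k F (X τ) y}
  have hsz : ∀ τ ∈ A, ∀ i, |X τ i| ≤ C.B ^ (π.a + 1) ∧ X τ i ∈ InG (C.U * π.next.b) := by
    intro τ hτ i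
    obtain ⟨G, hG, hG'⟩ := hex τ hτ
    exact (hX τ hτ G hG hG').size hC hS hG hG' i
  have hfar : ∀ τ ∈ A, ∀ F ∈ S, ¬τ ⊆ F.φ →
      (C.B ^ (π.l + 2))⁻¹ - (C.B ^ π.j)⁻¹ ≤ F.ψ ⬝ᵥ X τ := by
    intro τ hτ F hF hn
    obtain ⟨G, hG, hG'⟩ := hex τ hτ
    exact (hX τ hτ G hG hG').far hC hS hG hG' hF hn
  have hsl : (C.B ^ (π.j + 1))⁻¹ ≤ (C.B ^ (π.l + 2))⁻¹ - (C.B ^ π.j)⁻¹ := by
    have h6 := slack_arith hC.two_le π.l π.a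
    have h7 : π.j = π.l + 2 * π.a + 8 := rfl
    rw [← h7] at h6
    have : 0 ≤ (C.B ^ π.j)⁻¹ * C.B ^ 2 * C.B ^ (π.a + (π.a + 1) + 1) := by positivity
    linarith
  have hsl2 : (C.B ^ (π.l + 2))⁻¹ ≤ (C.B ^ π.l)⁻¹ :=
    inv_anti₀ (by positivity) (pow_le_pow_right₀ (by linarith) (by omega))
  have hj0 : 0 < (C.B ^ π.j)⁻¹ := by positivity
  have hj1 : 0 < (C.B ^ (π.j + 1))⁻¹ := by positivity
  have hht : ∀ τ ∈ A, ∀ y ∈ Y, C.hF (X τ) + y ⬝ᵥ X τ ≤ C.B ^ π.k := by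
    intro τ hτ y hy
    obtain ⟨G, hG, hG'⟩ := hex τ hτ
    exact (le_abs_self _).trans ((hX τ hτ G hG hG').height hC hS hG hG' hy).1
  have hrep : ∀ τ ∈ A, ∀ F ∈ S, τ ⊆ F.φ → ∀ p, F.ψ ⬝ᵥ p ≤ 0 →
      (∀ u ∈ F.φ, F.ψ ⬝ᵥ p / F.ψ ⬝ᵥ X τ * F.ω u ⬝ᵥ X τ ≤ F.ω u ⬝ᵥ p) → Rep C.B C.hF V' Y' p :=
    fun τ hτ F hF hτF p hp hp' => (hX τ hτ F hF hτF).rep (V' := V') (Y' := Y') (k := π.k) hC hS
      hF hτF Set.subset_union_left (Or.inr ⟨τ, hτ, rfl⟩)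
      (fun y hy => Or.inr ⟨y, hy, F, hF, τ, hτ, hτF, rfl⟩) hp hp'
  have hnew : ∀ y ∈ Y, ∀ F ∈ S, ∀ τ ∈ A, τ ⊆ F.φ → ∀ v, 0 ≤ F.ψ ⬝ᵥ v →
      newY C π.k F (X τ) y ⬝ᵥ v ≤ y ⬝ᵥ v := by
    intro y hy F hF τ hτ hτF v hv
    have h1 := ((hX τ hτ F hF hτF).inC hC (hS.fc F hF) hτF).2
    rw [newY_dot]
    have := mul_nonpos_of_nonpos_of_nonneg
      (div_nonpos_of_nonneg_of_nonpos (sub_nonneg.2 (hht τ hτ y hy)) h1.le) hv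
    linarith
  have ha : π.a ≤ π.next.a := by simp only [Par.next]; omega
  have hb : C.U * π.b ≤ C.U * π.next.b :=
    Nat.mul_le_mul_left _ (by simp only [Par.next]; omega)
  refine ⟨S', Γ ∪ X '' A, V', Y', ⟨hS.a1.trans ha, ?_, ⟨?_, ?_, ?_, ?_, ?_, ?_⟩, ?_, ?_, ?_, ?_, ?_,
    ?_, ?_, ?_, ?_, ?_⟩, Set.subset_union_left, Set.subset_union_left, ?_⟩
  · simp only [Par.next]; omega
  · rintro v (hv | ⟨τ, hτ, rfl⟩) i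
    exacts [InG.mono (hS.vy.vin v hv i) hb, (hsz τ hτ i).2]
  · rintro v (hv | ⟨τ, hτ, rfl⟩) i
    · exact bd_mono hB (hS.vy.vn v hv i) ha
    · exact bd_mono hB (hsz τ hτ i).1 (by simp only [Par.next]; omega)
  · rintro v (hv | ⟨τ, hτ, rfl⟩)
    · have := hS.vy.vk v hv
      simp only [Par.next]; omega
    · simp only [Par.next, Par.k, Par.j]; omega
  · rintro y (hy | ⟨y, hy, F, hF, τ, hτ, hτF, rfl⟩) i
    · exact InG.mono (hS.vy.yin y hy i) (Nat.mul_le_mul_left _ (by simp only [Par.next]; omega))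
    · exact ((hX τ hτ F hF hτF).newY_size hC hS hF hτF hy i).2
  · rintro y (hy | ⟨y, hy, F, hF, τ, hτ, hτF, rfl⟩) i
    · exact bd_mono hB (hS.vy.yn y hy i) (by simp only [Par.next]; omega)
    · exact ((hX τ hτ F hF hτF).newY_size hC hS hF hτF hy i).1
  · rintro y (hy | ⟨y, hy, F, hF, τ, hτ, hτF, rfl⟩) v (hv | ⟨τ', hτ', rfl⟩)
    · exact hS.vy.valid y hy v hv
    · linarith [hht τ' hτ' y hy]
    · have := hnew y hy F hF τ hτ hτF v.1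
        (hS.vcone _ (fun γ hγ => hS.ψ_nonneg hC hF hγ) v hv)
      linarith [hS.vy.valid y hy v hv]
    · by_cases h : τ' ⊆ F.φ
      · obtain rfl := huniq τ hτ τ' hτ' F hF hτF h
        have h1 := ((hX τ hτ F hF hτF).inC hC (hS.fc F hF) hτF).2
        simp only [newY_dot, div_mul_cancel₀ _ h1.ne]
        linarith
      · have := hnew y hy F hF τ hτ hτF (X τ') (by linarith [hfar τ' hτ' F hF h])
        linarith [hht τ' hτ' y hy]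
  · rintro F (hF | ⟨F₀, _, τ, _, _, w, _, h, _, hF, _⟩)
    · exact (hS.fc F hF.1).mono hC ha (by simp only [Par.next]; omega)
    · exact hF
  · rintro F (hF | ⟨F₀, hF₀, τ, hτ, _, w, _, h, rfl, _⟩) u hu
    · exact Or.inl (hS.sub F hF.1 u hu)
    · rcases mem_child.1 hu with rfl | ⟨_, hu⟩
      exacts [Or.inr ⟨τ, hτ, rfl⟩, Or.inl (hS.sub F₀ hF₀ u hu)]
  · exact fun u hu => Or.inl (hS.Rsub u hu)
  · rintro γ (hγ | ⟨τ, hτ, rfl⟩) i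
    exacts [InG.mono (hS.gin γ hγ i) hb, (hsz τ hτ i).2]
  · rintro γ (hγ | ⟨τ, hτ, rfl⟩) i
    · exact bd_mono hB (hS.gn γ hγ i) ha
    · exact bd_mono hB (hsz τ hτ i).1 (by simp only [Par.next]; omega)
  · have hl : π.next.l = π.j + 1 := rfl
    rw [hl]
    rintro F (hF | ⟨F, hF, τ, hτ, hτF, w, hw, h, rfl, _⟩) γ (hγ | ⟨τ', hτ', rfl⟩)
    · exact (hS.slack F hF.1 γ hγ).imp_right fun h => by linarith
    · exact Or.inr (hsl.trans (hfar τ' hτ' F hF.1 (hF.2 τ' hτ')))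
    · have hx := hX τ hτ F hF hτF
      have hF' := hS.fc F hF
      rcases hS.slack F hF γ hγ with h1 | h1
      · by_cases h2 : γ = w
        · right
          obtain ⟨h3, h4, _⟩ := ((hx.ω hF' hτF (hτF hw)).2 hw).bounds hC hF'.odd.pos (hF'.Dh hC)
          have h5 : 0 < F.ω w ⬝ᵥ X τ := lt_of_lt_of_le (by positivity) h3
          have h6 : (0 : ℝ) < F.h := by exact_mod_cast hF'.odd.pos
          have h7 : (F.h : ℝ) ≤ C.B := by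
            rw [Ctx.B]
            exact_mod_cast le_trans (Nat.le_mul_of_pos_left _ hC.odd.pos) (hF'.Dh hC)
          rw [child_ψ, h2, hF'.ψu w (hτF hw), hF'.ωu w (hτF hw) w (hτF hw), if_pos rfl,
            hx.ψ hF' hτF, mul_one, neg_div, zero_sub, neg_neg, pow_succ, mul_inv, ← div_eq_mul_inv]
          exact (div_le_div_of_nonneg_left hj0.le h6 h7).trans (le_div_self (by positivity) h5 h4)
        · exact Or.inl (mem_child.2 (Or.inr ⟨h2, h1⟩))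
      · exact Or.inr (hx.child_slack hC hS hF hτF hw h
          (fun i => bd_mono hB (hS.gn γ hγ i) (by omega)) (by linarith))
    · by_cases h1 : τ' ⊆ F.φ
      · obtain rfl := huniq τ hτ τ' hτ' F hF hτF h1
        exact Or.inl (mem_child.2 (Or.inl rfl))
      · exact Or.inr ((hX τ hτ F hF hτF).child_slack hC hS hF hτF hw h
          (fun i => (hsz τ' hτ' i).1) (hfar τ' hτ' F hF h1))
  · rintro c hc he γ (hγ | ⟨τ, hτ, rfl⟩)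
    · exact hS.gcone c hc he γ hγ
    · obtain ⟨G, hG, hG'⟩ := hex τ hτ
      exact (hX τ hτ G hG hG').cone hC hS hG hG' (hS.gcone c hc he) he
  · rintro c hc v (hv | ⟨τ, hτ, rfl⟩)
    · exact hS.vcone c (fun γ hγ => hc γ (Or.inl hγ)) v hv
    · exact hc _ (Or.inr ⟨τ, hτ, rfl⟩)
  · rintro F (hF | ⟨F, hF, τ, hτ, hτF, w, hw, h, rfl, _⟩) p hp hp'
    · exact (hS.good F hF.1 p hp hp').mono Set.subset_union_left Set.subset_union_left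
    · have hx := hX τ hτ F hF hτF
      have hF' := hS.fc F hF
      obtain ⟨hxC, hx0⟩ := hx.inC hC hF' hτF
      have hxφ := hF'.toBas.notMem hx0.ne
      have h3 := (((hx.ω hF' hτF (hτF hw)).2 hw).bounds hC hF'.odd.pos (hF'.Dh hC)).1
      have h5 : 0 < F.ω w ⬝ᵥ X τ := lt_of_lt_of_le (by positivity) h3
      have h6 := InC.of_child hxC hxφ h5 ⟨hp.le, hp'⟩
      have h7 : F.ψ ⬝ᵥ p / F.ψ ⬝ᵥ X τ = F.ω w ⬝ᵥ p / F.ω w ⬝ᵥ X τ := by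
        rw [child_ψ, sub_eq_zero] at hp
        have := hx0.ne
        rw [hp]; field_simp
      refine hrep τ hτ F hF hτF p h6.1 fun u hu => ?_
      rw [h7]
      by_cases huw : u = w
      · rw [huw, div_mul_cancel₀ _ h5.ne']
      · have h8 := hp' u (mem_child.2 (Or.inr ⟨huw, hu⟩))
        rw [child_ω _ _ _ (fun h : u = X τ => hxφ (h ▸ hu))] at h8
        rw [show F.ω w ⬝ᵥ p / F.ω w ⬝ᵥ X τ * F.ω u ⬝ᵥ X τ =
          F.ω u ⬝ᵥ X τ / F.ω w ⬝ᵥ X τ * F.ω w ⬝ᵥ p by ring]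
        linarith
  · intro p hp
    rcases hS.cover p hp with h | ⟨F, hF, h⟩
    · exact Or.inl (h.mono Set.subset_union_left Set.subset_union_left)
    by_cases h1 : ∀ τ ∈ A, ¬τ ⊆ F.φ
    · exact Or.inr ⟨F, Or.inl ⟨hF, h1⟩, h⟩
    push Not at h1
    obtain ⟨τ, hτ, hτF⟩ := h1
    have hx := hX τ hτ F hF hτF
    have hF' := hS.fc F hF
    obtain ⟨hxC, hx0⟩ := hx.inC hC hF' hτF
    rcases h.split hxC hx0 (hF'.toBas.notMem hx0.ne) with h2 | ⟨w, hw, h2, h3⟩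
    · exact Or.inl (hrep τ hτ F hF hτF p h.1 h2)
    · have hwτ : w ∈ τ := by
        by_contra h4
        exact h2.ne' ((hx.ω hF' hτF hw).1 h4)
      obtain ⟨h', h4, h5⟩ := hF'.child hC hx.1 (hx.ψ hF' hτF) (fun u hu => by
          by_cases h4 : u ∈ τ
          exacts [Or.inr ((hx.ω hF' hτF hu).2 h4), Or.inl ((hx.ω hF' hτF hu).1 h4)])
        (fun h4 => absurd (hS.ψ_nonneg hC hF (hS.Rsub _ h4)) (not_le.2 hx0)) hw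
        ((hx.ω hF' hτF hw).2 hwτ)
      exact Or.inr ⟨_, Or.inr ⟨F, hF, τ, hτ, hτF, w, hwτ, h', rfl, h4, h5⟩, h3 h'⟩
  · rintro F (hF | ⟨F₀, hF₀, τ, hτ, hτF, w, hw, h, _, _, h1⟩)
    · exact Or.inl hF
    · exact Or.inr ⟨F₀, hF₀, τ, hτ, hτF, ⟨w, hw⟩, h1⟩

end Pool.Agent.Lib.MP_892d22_co
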