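import Pool.Agent.Lib.MP_892d22_co.Simp

/-! Long lecture hall simplices are facets of reflexive simplices. -/

namespace Pool.Agent.Lib.MP_892d22_co

open Matrix Finset

/-- Binary expansion with a geometric tail. -/
lemma h37_bin {ι : Type} [DecidableEq ι] (a : ℕ) : ∀ (A : Finset ι) (c : ℕ), 0 < c → c ≤ 2 ^ a →
    a ≤ A.card → ∃ (t : ℕ) (z : ι → ℕ), (∀ i ∈ A, z i ∣ 2 ^ (a + t)) ∧
      ∑ i ∈ A, z i + 1 = c * 2 ^ t := by
  induction a with
  | zero =>
    intro A c h0 h1 _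
    obtain rfl : c = 1 := by omega
    induction A using Finset.induction_on with
    | empty => exact ⟨0, fun _ => 1, by simp, by simp⟩
    | insert j A hj ih =>
      obtain ⟨t, z, hz, hs⟩ := ih (Nat.zero_le _)
      refine ⟨t + 1, Function.update z j (2 ^ t), fun i hi => ?_, ?_⟩
      · by_cases e : i = j
        · rw [e, Function.update_self]; exact pow_dvd_pow _ (by omega)
        · rw [Function.update_of_ne e]
          exact (hz i ((mem_insert.1 hi).resolve_left e)).trans (pow_dvd_pow _ (by omega))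
      · rw [sum_insert hj, Function.update_self,
          sum_congr rfl fun i hi => Function.update_of_ne (ne_of_mem_of_not_mem hi hj) _ _]
        rw [pow_succ]; omega
  | succ a ih =>
    intro A c h0 h1 hA
    by_cases hc : c ≤ 2 ^ a
    · obtain ⟨t, z, hz, hs⟩ := ih A c h0 hc (by omega)
      exact ⟨t, z, fun i hi => (hz i hi).trans (pow_dvd_pow _ (by omega)), hs⟩
    · obtain ⟨j, hj⟩ : A.Nonempty := card_pos.1 (by omega)
      have := card_erase_of_mem hj
      obtain ⟨t, z, hz, hs⟩ := ih (A.erase j) (c - 2 ^ a) (by omega) (by rw [pow_succ] at h1; omega)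
        (by omega)
      refine ⟨t, Function.update z j (2 ^ (a + t)), fun i hi => ?_, ?_⟩
      · by_cases e : i = j
        · rw [e, Function.update_self]; exact pow_dvd_pow _ (by omega)
        · rw [Function.update_of_ne e]
          exact (hz i (mem_erase.2 ⟨e, hi⟩)).trans (pow_dvd_pow _ (by omega))
      · rw [← add_sum_erase A _ hj, Function.update_self,
          sum_congr rfl fun i hi => Function.update_of_ne (mem_erase.1 hi).1 _ _, add_assoc, hs,
          pow_add, ← add_mul, Nat.add_sub_cancel' (by omega)]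

/-- Greedy filling: whole steps, halving steps, then the binary expansion. -/
lemma h37_fill {ι : Type} [DecidableEq ι] {a H : ℕ} (h : ι → ℕ) (hH : H ≤ 2 ^ a)
    (A : Finset ι) : ∀ (c b : ℕ), (∀ i ∈ A, h i ∣ H) → 0 < c → c ≤ 2 ^ b * 2 ^ a →
    (∀ S ⊆ A, A.card ≤ S.card + a + b → c ≤ ∑ i ∈ S, 2 ^ a * (H / h i)) →
    ∃ (t : ℕ) (z : ι → ℕ), (∀ i ∈ A, h i * z i ∣ 2 ^ (a + t) * H) ∧
      ∑ i ∈ A, z i + 1 = c * 2 ^ t := by
  induction A using Finset.induction_on with
  | empty =>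
    intro c b _ h0 _ hS
    have := hS ∅ (Subset.refl _) (by simp)
    simp at this
    omega
  | insert j A hj ih =>
    intro c b hd h0 h1 hS
    have hc : (insert j A).card = A.card + 1 := card_insert_of_notMem hj
    by_cases c1 : c ≤ 2 ^ a
    · have hA : a ≤ (insert j A).card := by
        by_contra hn
        have := hS ∅ (empty_subset _) (by simp only [card_empty]; omega)
        simp at this
        omega
      obtain ⟨t, z, hz, hs⟩ := h37_bin a _ c h0 c1 hA
      exact ⟨t, z, fun i hi => by rw [mul_comm]; exact mul_dvd_mul (hz i hi) (hd i hi), hs⟩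
    have key : ∀ k b' : ℕ, k ≤ a → 2 ^ k * (H / h j) < c →
        c - 2 ^ k * (H / h j) ≤ 2 ^ b' * 2 ^ a →
        (∀ S ⊆ A, A.card ≤ S.card + a + b' →
          c - 2 ^ k * (H / h j) ≤ ∑ i ∈ S, 2 ^ a * (H / h i)) →
        ∃ (t : ℕ) (z : ι → ℕ), (∀ i ∈ insert j A, h i * z i ∣ 2 ^ (a + t) * H) ∧
          ∑ i ∈ insert j A, z i + 1 = c * 2 ^ t := by
      intro k b' hk k1 k2 k3
      obtain ⟨t, z, hz, hs⟩ := ih _ b' (fun i hi => hd i (mem_insert_of_mem hi)) (by omega) k2 k3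
      refine ⟨t, Function.update z j (2 ^ k * (H / h j) * 2 ^ t), fun i hi => ?_, ?_⟩
      · by_cases e : i = j
        · rw [e, Function.update_self]
          have e1 : h j * (2 ^ k * (H / h j) * 2 ^ t) = 2 ^ (k + t) * (h j * (H / h j)) := by ring
          rw [e1, Nat.mul_div_cancel' (hd j (mem_insert_self _ _))]
          exact mul_dvd_mul_right (pow_dvd_pow _ (by omega)) _
        · rw [Function.update_of_ne e]
          exact hz i ((mem_insert.1 hi).resolve_left e)
      · rw [sum_insert hj, Function.update_self,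
          sum_congr rfl fun i hi => Function.update_of_ne (ne_of_mem_of_not_mem hi hj) _ _,
          add_assoc, hs, ← add_mul, Nat.add_sub_cancel' k1.le]
    by_cases c2 : 2 ^ a * (H / h j) < c
    · refine key a b le_rfl c2 (by omega) fun S hS' hcard => ?_
      have hjS : j ∉ S := fun hh => hj (hS' hh)
      have := hS (insert j S) (insert_subset_insert j hS') (by rw [card_insert_of_notMem hjS]; omega)
      rw [sum_insert hjS] at this
      omega
    · obtain ⟨b', rfl⟩ : ∃ b', b = b' + 1 := by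
        cases b with
        | zero => simp at h1; omega
        | succ b' => exact ⟨b', rfl⟩
      have e0 : 2 ^ 0 * (H / h j) < c := by
        have := Nat.div_le_self H (h j)
        omega
      have hex : ∃ k, c ≤ 2 ^ (k + 1) * (H / h j) := by
        refine ⟨a, (not_lt.1 c2).trans (Nat.mul_le_mul_right _ ?_)⟩
        exact Nat.pow_le_pow_right two_pos (by omega)
      have f1 := Nat.find_spec hex
      have f2 : 2 ^ Nat.find hex * (H / h j) < c := by
        cases hk : Nat.find hex with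
        | zero => exact e0
        | succ k => exact not_le.1 (Nat.find_min hex (by omega))
      have f3 : Nat.find hex ≤ a := by
        refine Nat.find_min' hex ((not_lt.1 c2).trans (Nat.mul_le_mul_right _ ?_))
        exact Nat.pow_le_pow_right two_pos (by omega)
      refine key _ b' f3 f2 ?_ fun S hS' hcard => ?_
      · rw [pow_succ, mul_right_comm] at f1 h1
        omega
      · have := hS S (hS'.trans (subset_insert _ _)) (by omega)
        omega

/-- A simplex in barycentric form is a facet of a reflexive simplex. -/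
lemma h37_facet {κ J : Type} [Fintype κ] [Fintype J] [DecidableEq J] (p α : J → κ → ℝ)
    (β : J → ℤ) (z d : J → ℕ) {L : ℕ} (hp : ∀ j, p j ∈ intPts κ) (hα : ∀ j, α j ∈ intPts κ)
    (hzd : ∀ j, z j * d j = L) (hL : ∑ j, z j + 1 = L)
    (h1 : ∀ i j, p i ⬝ᵥ α j + β j = if i = j then (d j : ℝ) else 0)
    (h2 : ∀ (x : κ → ℝ) (l : ℝ), ∑ j, (x ⬝ᵥ α j + l * β j) / d j = l)
    (h3 : ∀ (x : κ → ℝ) (l : ℝ), ∑ j, ((x ⬝ᵥ α j + l * β j) / d j) • p j = x) :
    Cert {x : κ → ℝ | ∀ j, 0 ≤ x ⬝ᵥ α j + β j} (κ ⊕ Unit) := by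
  have hL0 : (0 : ℝ) < L := by exact_mod_cast (show 0 < L by omega)
  have hzd' : ∀ j, (z j : ℝ) * d j = L := fun j => by exact_mod_cast hzd j
  have hL' : ∑ j, (z j : ℝ) = L - 1 := by
    have : ∑ j, (z j : ℝ) + 1 = L := by exact_mod_cast hL
    linarith
  have hd : ∀ j, (0 : ℝ) < d j := fun j => by
    rcases (Nat.cast_nonneg (α := ℝ) (d j)).lt_or_eq with h | h
    · exact h
    · have := hzd' j
      rw [← h, mul_zero] at this; linarith
  have hinv : ∀ j, (1 : ℝ) / d j = z j / L := fun j => by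
    rw [div_eq_div_iff (hd j).ne' hL0.ne', one_mul, hzd']
  let w : κ → ℝ := -∑ j, (z j : ℝ) • p j
  let v : Option J → κ ⊕ Unit → ℝ := fun o =>
    o.elim (Sum.elim w fun _ => L - 1) fun j => Sum.elim (p j) (-1)
  let η : Option J → κ ⊕ Unit → ℝ := fun o =>
    o.elim (Sum.elim 0 1) fun j => Sum.elim (α j) fun _ => 1 - β j
  let k : Option J → ℝ := fun o => o.elim L fun j => d j
  have e0 : ∀ (x : κ → ℝ) (t : Unit → ℝ), Sum.elim x t ⬝ᵥ η none = t () := by
    intro x t; simp [η, dotProduct]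
  have e1 : ∀ (x : κ → ℝ) (t : Unit → ℝ) (j : J),
      Sum.elim x t ⬝ᵥ η (some j) = t () + (x ⬝ᵥ α j + -t () * β j) := by
    intro x t j
    simp only [η, Option.elim_some, sumElim_dotProduct_sumElim]
    simp only [dotProduct, Fintype.univ_punit, sum_singleton]
    ring
  have hw : ∀ j, w ⬝ᵥ α j + -((L : ℝ) - 1) * β j = -L := fun j => by
    have : ∑ i, (z i : ℝ) * (p i ⬝ᵥ α j + β j) = L := by
      simp only [h1, mul_ite, mul_zero, sum_ite_eq', mem_univ, if_true, hzd']
    simp only [mul_add, sum_add_distrib, ← sum_mul, hL'] at this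
    simp only [w, neg_dotProduct, sum_dotProduct, smul_dotProduct, smul_eq_mul]
    linarith
  have hs : ∀ (x : κ → ℝ) (t : Unit → ℝ) (j : J), (Sum.elim x t ⬝ᵥ η (some j) + 1) / k (some j) =
      (t () + 1) / L * z j + (x ⬝ᵥ α j + -t () * β j) / d j := fun x t j => by
    rw [e1, add_right_comm, add_div]
    simp only [k, Option.elim_some]
    rw [div_eq_mul_one_div (t () + 1), hinv]; ring
  have hsum : ∀ y : κ ⊕ Unit → ℝ, ∑ o, (y ⬝ᵥ η o + 1) / k o = 1 := fun y => by
    obtain ⟨x, t, rfl⟩ : ∃ x t, y = Sum.elim x t :=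
      ⟨y ∘ .inl, y ∘ .inr, (Sum.elim_comp_inl_inr y).symm⟩
    simp only [Fintype.sum_option, hs, sum_add_distrib, ← mul_sum, hL', h2, e0]
    simp only [k, Option.elim_none]
    field_simp
    ring
  have hQ := simplex_hull v η k ?_ ?_ hsum ?_
  rotate_left
  · rintro (_ | j)
    exacts [hL0, hd j]
  · rintro (_ | i) (_ | j) <;> simp only [v, Option.elim_none, Option.elim_some, e0, e1]
    · linarith
    · rw [hw]; linarith
    · simp
    · have := h1 i j
      simp only [Pi.neg_apply, Pi.one_apply, neg_neg, one_mul, this]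
      split_ifs <;> linarith [hd j]
  · intro y
    have h0 := hsum y
    obtain ⟨x, t, rfl⟩ : ∃ x t, y = Sum.elim x t :=
      ⟨y ∘ .inl, y ∘ .inr, (Sum.elim_comp_inl_inr y).symm⟩
    funext l
    rw [Finset.sum_apply]
    rw [Fintype.sum_option] at h0 ⊢
    cases l with
    | inl l =>
      have := congrFun (h3 x (-t ())) l
      simp only [Finset.sum_apply, Pi.smul_apply, smul_eq_mul] at this
      simp only [hs, e0, v, w, Option.elim_none, Option.elim_some, Pi.smul_apply, smul_eq_mul,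
        Sum.elim_inl, Pi.neg_apply, Finset.sum_apply, add_mul, sum_add_distrib, this, mul_assoc,
        ← mul_sum]
      simp only [k, Option.elim_none]
      ring
    | inr u =>
      simp only [v, Option.elim_none, Option.elim_some, Pi.smul_apply, smul_eq_mul,
        Sum.elim_inr, Pi.neg_apply, Pi.one_apply, mul_neg, mul_one, sum_neg_distrib]
      rw [eq_sub_of_add_eq' h0, e0]
      simp only [k, Option.elim_none]
      field_simp
      ring
  let A : (κ → ℝ) →ₗ[ℝ] (κ ⊕ Unit → ℝ) :=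
    { toFun := fun x => Sum.elim x 0
      map_add' := fun x y => by funext i; cases i <;> simp
      map_smul' := fun t x => by funext i; cases i <;> simp }
  have hA : ∀ x, A x + Sum.elim (0 : κ → ℝ) (-1 : Unit → ℝ) = Sum.elim x (-1) := by
    intro x; funext i; cases i <;> simp [A]
  refine ⟨Set.range v, Set.range η, Set.finite_range _, ?_, Set.finite_range _, ?_, hQ,
    -LinearMap.proj (Sum.inr ()), 1, A, Sum.elim 0 (-1), ?_, ?_, ?_, fun x => ?_⟩
  · rintro _ ⟨_ | j, rfl⟩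
    · exact int_elim.2 ⟨int_neg (int_sum fun j => by simpa using int_smul (z j) (hp j)),
        fun _ => ⟨L - 1, by simp⟩⟩
    · exact int_elim.2 ⟨hp j, int_neg int_one⟩
  · rintro _ ⟨_ | j, rfl⟩
    · exact int_elim.2 ⟨int_zero, int_one⟩
    · exact int_elim.2 ⟨hα j, fun _ => ⟨1 - β j, by simp⟩⟩
  · intro y hy
    rw [hQ] at hy
    obtain ⟨x, t, rfl⟩ : ∃ x t, y = Sum.elim x t :=
      ⟨y ∘ .inl, y ∘ .inr, (Sum.elim_comp_inl_inr y).symm⟩
    have := hy _ ⟨none, rfl⟩
    rw [e0] at this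
    simp only [LinearMap.neg_apply, LinearMap.proj_apply, Sum.elim_inr]
    linarith
  · intro x y hxy
    exact funext fun i => congrFun hxy (.inl i)
  · ext y
    rw [hQ]
    constructor
    · rintro ⟨x, hx, rfl⟩
      show _ ∧ _
      simp only [hA]
      refine ⟨?_, by simp⟩
      rintro _ ⟨_ | j, rfl⟩
      · rw [e0]; simp
      · rw [e1]; simpa using hx j
    · rintro ⟨hy, hyl⟩
      obtain ⟨x, t, rfl⟩ : ∃ x t, y = Sum.elim x t :=
        ⟨y ∘ .inl, y ∘ .inr, (Sum.elim_comp_inl_inr y).symm⟩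
      simp only [LinearMap.neg_apply, LinearMap.proj_apply, Sum.elim_inr] at hyl
      obtain rfl : t = -1 := funext fun _ => by simp only [Pi.neg_apply, Pi.one_apply]; linarith
      refine ⟨x, fun j => ?_, hA x⟩
      have := hy _ ⟨some j, rfl⟩
      rw [e1] at this
      simpa using this
  · rw [hA, int_elim]
    exact ⟨fun h => ⟨h, int_neg int_one⟩, fun h => h.1⟩

/-- The normalised coordinates, extended by `0` and `l`. -/
noncomputable def h37Y {n : ℕ} (t : ℕ → ℕ) (x : Fin (n + 1) → ℝ) (l : ℝ) (k : ℕ) : ℝ :=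
  x ⬝ᵥ (fun i => if (i : ℕ) + 1 = k then 1 / (t k : ℝ) else 0) + if k = n + 2 then l else 0

/-- The vertices. -/
noncomputable def h37p {n : ℕ} (t : ℕ → ℕ) (j : ℕ) : Fin (n + 1) → ℝ :=
  fun i => ((if j ≤ i then t (i + 1) else 0 : ℕ) : ℝ)

variable {n : ℕ} {t : ℕ → ℕ}

lemma h37Y_zero (x : Fin (n + 1) → ℝ) (l : ℝ) : h37Y t x l 0 = 0 := by simp [h37Y]

lemma h37Y_last (x : Fin (n + 1) → ℝ) (l : ℝ) : h37Y t x l (n + 2) = l := by
  have : ∀ i : Fin (n + 1), ¬(i : ℕ) = n + 1 := fun i => by omega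
  simp [h37Y, this, dotProduct]

lemma h37Y_mid (x : Fin (n + 1) → ℝ) (l : ℝ) (i : Fin (n + 1)) :
    h37Y t x l (i + 1) = x i / t (i + 1) := by
  have : ¬(i : ℕ) = n + 1 := by omega
  simp [h37Y, this, dotProduct, Fin.val_inj, div_eq_mul_inv]

lemma h37Y_add (x u : Fin (n + 1) → ℝ) (l l' e : ℝ) (k : ℕ) :
    h37Y t (x + e • u) (l + e * l') k = h37Y t x l k + e * h37Y t u l' k := by
  simp only [h37Y, add_dotProduct, smul_dotProduct, smul_eq_mul]
  split_ifs <;> ring

lemma h37Y_p (ht : ∀ i ≤ n + 2, 0 < t i) {j k : ℕ} (hj : j < n + 2) (hk : k ≤ n + 2) :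
    h37Y t (h37p (n := n) t j) 1 k = if j < k then 1 else 0 := by
  rcases k with _ | k
  · simp [h37Y_zero]
  by_cases e : k = n + 1
  · rw [e, h37Y_last, if_pos hj]
  · have := h37Y_mid (t := t) (h37p (n := n) t j) 1 ⟨k, by omega⟩
    have h0 : (t (k + 1) : ℝ) ≠ 0 := by exact_mod_cast (ht _ hk).ne'
    rw [this]
    simp only [h37p, Nat.lt_succ_iff]
    split_ifs
    · exact div_self h0
    · simp

lemma h37Y_step (ht : ∀ i ≤ n + 2, 0 < t i) (i j : Fin (n + 2)) :
    h37Y t (h37p (n := n) t i) 1 (j + 1) - h37Y t (h37p (n := n) t i) 1 j =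
      if i = j then 1 else 0 := by
  rw [h37Y_p ht i.2 (by omega), h37Y_p ht i.2 (by omega)]
  simp only [Fin.ext_iff]
  split_ifs <;> first | omega | simp

lemma h37Y_sum (x : Fin (n + 1) → ℝ) (l : ℝ) :
    ∑ j : Fin (n + 2), (h37Y t x l (j + 1) - h37Y t x l j) = l := by
  rw [Fin.sum_univ_eq_sum_range (fun j => h37Y t x l (j + 1) - h37Y t x l j), sum_range_sub,
    h37Y_last, h37Y_zero, sub_zero]

lemma h37_mem (x : Fin (n + 1) → ℝ) : x ∈ lectureHall (fun i : Fin (n + 1) => t (i + 1)) ↔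
    ∀ j : Fin (n + 2), 0 ≤ h37Y t x 1 (j + 1) - h37Y t x 1 j := by
  have e0 := h37Y_mid (t := t) x 1 0
  have e1 := h37Y_mid (t := t) x 1 (Fin.last n)
  have e2 := fun i : Fin n => h37Y_mid (t := t) x 1 i.castSucc
  have e3 := fun i : Fin n => h37Y_mid (t := t) x 1 i.succ
  rw [Fin.forall_fin_succ, Fin.forall_fin_succ']
  simp only [lectureHall, Set.mem_ofPred_eq, ← e0, ← e1, ← e2, ← e3, sub_nonneg]
  simp [h37Y_zero, h37Y_last]

/-- An integer vector whose product with `x` is the increment times `d`. -/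
lemma h37_int {j d : ℕ} (ht : ∀ i ≤ n + 2, 0 < t i) (hj : j < n + 2) (h1 : t j ∣ d)
    (h2 : t (j + 1) ∣ d) : ∃ α ∈ intPts (Fin (n + 1)), ∃ β : ℤ, ∀ x l,
      x ⬝ᵥ α + l * β = d * (h37Y t x l (j + 1) - h37Y t x l j) := by
  refine ⟨fun i => d * ((if (i : ℕ) + 1 = j + 1 then 1 / (t (j + 1) : ℝ) else 0) -
    if (i : ℕ) + 1 = j then 1 / (t j : ℝ) else 0), fun i => ?_, if j + 1 = n + 2 then d else 0,
    fun x l => ?_⟩
  · obtain ⟨a, ha⟩ := h1
    obtain ⟨b, hb⟩ := h2
    have a0 : (t j : ℝ) ≠ 0 := by exact_mod_cast (ht _ (by omega)).ne'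
    have b0 : (t (j + 1) : ℝ) ≠ 0 := by exact_mod_cast (ht _ (by omega)).ne'
    have a1 : (d : ℝ) * (1 / t j) = a := by rw [ha]; push_cast; field_simp
    have b1 : (d : ℝ) * (1 / t (j + 1)) = b := by rw [hb]; push_cast; field_simp
    refine ⟨(if (i : ℕ) + 1 = j + 1 then b else 0) - if (i : ℕ) + 1 = j then a else 0, ?_⟩
    simp only [mul_sub]
    split_ifs <;> simp [-one_div, a1, b1]
  · simp only [h37Y, if_neg hj.ne, dotProduct, mul_sub, sum_sub_distrib, mul_add, mul_sum,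
      mul_left_comm (d : ℝ)]
    split_ifs <;> push_cast <;> ring

theorem h37_upper (ht : ∀ i ≤ n + 2, 0 < t i) (z d : Fin (n + 2) → ℕ) {L : ℕ}
    (hzd : ∀ j, z j * d j = L) (hL : ∑ j, z j + 1 = L) (h1 : ∀ j : Fin (n + 2), t j ∣ d j)
    (h2 : ∀ j : Fin (n + 2), t (j + 1) ∣ d j) :
    IsReflexiveFace (lectureHall fun i : Fin (n + 1) => t (i + 1)) (n + 2) := by
  choose α hα β hβ using fun j : Fin (n + 2) => h37_int ht j.2 (h1 j) (h2 j)
  have hd : ∀ j, (0 : ℝ) < d j := fun j => by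
    have := hzd j
    exact_mod_cast Nat.pos_of_ne_zero fun e => by rw [e] at this; omega
  have hc : ∀ j x l, (x ⬝ᵥ α j + l * β j) / d j = h37Y t x l (j + 1) - h37Y t x l j :=
    fun j x l => by rw [hβ, mul_div_cancel_left₀ _ (hd j).ne']
  have h := h37_facet (fun j : Fin (n + 2) => h37p t j) α β z d (fun j => int_nat _) hα hzd hL
    (fun i j => by rw [← one_mul (β j : ℝ), hβ, h37Y_step ht]; simp)
    (fun x l => by simp only [hc, h37Y_sum]) fun x l => ?_
  · have e : {x : Fin (n + 1) → ℝ | ∀ j, 0 ≤ x ⬝ᵥ α j + β j} =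
        lectureHall fun i : Fin (n + 1) => t (i + 1) := by
      ext x
      rw [h37_mem]
      refine forall_congr' fun j => ?_
      rw [← one_mul (β j : ℝ), hβ, mul_nonneg_iff_of_pos_left (hd j)]
    rw [e] at h
    exact (h.reindex (Fintype.equivOfCardEq (by simp))).isReflexiveFace
  · funext i
    have h0 : (t (i + 1) : ℝ) ≠ 0 := by exact_mod_cast (ht _ (by omega)).ne'
    simp only [hc, Finset.sum_apply, Pi.smul_apply, smul_eq_mul, h37p]
    rw [Fin.sum_univ_eq_sum_range (fun j => (h37Y t x l (j + 1) - h37Y t x l j) *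
      ((if j ≤ i then t (i + 1) else 0 : ℕ) : ℝ)),
      ← sum_range_add_sum_Ico _ (show (i : ℕ) + 1 ≤ n + 2 by omega),
      sum_eq_zero (s := Ico _ _) fun j hj => by
        rw [if_neg (by have := (mem_Ico.1 hj).1; omega)]; simp,
      sum_congr rfl fun j hj => by rw [if_pos (by have := mem_range.1 hj; omega)],
      ← sum_mul, sum_range_sub, h37Y_zero, h37Y_mid, sub_zero, add_zero, div_mul_cancel₀ _ h0]

theorem h37_lower (ht : ∀ i ≤ n + 2, 0 < t i)
    (hT : 1 < ∑ j : Fin (n + 2), (1 : ℝ) / Nat.lcm (t j) (t (j + 1))) {m : ℕ}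
    (h : IsReflexiveFace (lectureHall fun i : Fin (n + 1) => t (i + 1)) m) : n + 2 ≤ m := by
  have hp : ∀ j : Fin (n + 2), h37p t j ∈ lectureHall fun i : Fin (n + 1) => t (i + 1) :=
    fun j => (h37_mem _).2 fun k => by rw [h37Y_step ht]; split_ifs <;> norm_num
  obtain ⟨V, H, -, -, hH, -, hVH, l, c, A, b, -, hA, hF, hint⟩ := h.cert ⟨_, hp 0⟩
  have h1 : n + 1 ≤ m := by simpa using LinearMap.finrank_le_finrank_of_injective hA
  by_contra hm
  obtain rfl : m = n + 1 := by omega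
  have hs : Function.Surjective A := LinearMap.injective_iff_surjective.1 hA
  have h2 : ∀ j : Fin (n + 2), l (A (h37p t j)) + l b = c := fun j => by
    rw [← map_add]
    exact (show _ ∈ {x ∈ convexHull ℝ V | l x = c} from hF ▸ ⟨_, hp j, rfl⟩).2
  have h3 : l ∘ₗ A = 0 := by
    refine (Pi.basisFun ℝ _).ext fun i => ?_
    have h0 : (t (i + 1) : ℝ) ≠ 0 := by exact_mod_cast (ht _ (by omega)).ne'
    have e : h37p t i.castSucc = h37p t i.succ + (t (i + 1) : ℝ) • Pi.basisFun ℝ _ i := by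
      funext k
      simp only [h37p, Fin.val_castSucc, Fin.val_succ, Pi.add_apply, Pi.smul_apply,
        Pi.basisFun_apply, Pi.single_apply, Fin.ext_iff, smul_eq_mul]
      by_cases hk : (k : ℕ) = i
      · simp [hk]
      · split_ifs <;> first | omega | simp
    have a1 := h2 i.castSucc
    rw [e, map_add, map_smul, map_add, map_smul, smul_eq_mul] at a1
    have a2 := h2 i.succ
    exact (mul_eq_zero.1 (show (t (i + 1) : ℝ) * l (A (Pi.basisFun ℝ _ i)) = 0 by
      linarith)).resolve_left h0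
  have h4 : ∀ y, l y = 0 := fun y => by
    obtain ⟨x, rfl⟩ := hs y
    exact LinearMap.congr_fun h3 x
  have h5 : c = 0 := by rw [← h2 0, h4, h4, add_zero]
  obtain ⟨x, hx⟩ := hs (-b)
  have hxi : x ∈ intPts _ := (hint x).2 (by rw [hx, neg_add_cancel]; exact int_zero)
  have h6 : ∀ u, ∃ ε : ℝ, 0 < ε ∧ x + ε • u ∈ lectureHall fun i : Fin (n + 1) => t (i + 1) := by
    intro u
    obtain ⟨M, hM⟩ := (hH.image fun η => |A u ⬝ᵥ η|).bddAbove
    have hε : 0 < |M| + 1 := by positivity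
    refine ⟨(|M| + 1)⁻¹, inv_pos.2 hε, ?_⟩
    have : (|M| + 1)⁻¹ • A u ∈ {x ∈ convexHull ℝ V | l x = c} := by
      refine ⟨hVH ▸ fun η hη => ?_, by rw [h4, h5]⟩
      have a1 := (abs_le.1 ((hM ⟨η, hη, rfl⟩).trans (le_abs_self M))).1
      rw [smul_dotProduct, smul_eq_mul, ← div_eq_inv_mul, le_div_iff₀ hε]
      linarith
    rw [← hF] at this
    obtain ⟨y, hy, e⟩ := this
    have e' : A y = A (x + (|M| + 1)⁻¹ • u) := by
      rw [map_add, map_smul, hx, ← e]; simp
    exact hA e' ▸ hy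
  refine absurd (h37Y_sum (t := t) x 1) (hT.trans_le (sum_le_sum fun j _ => ?_)).ne'
  obtain ⟨k, hk⟩ := exists_ne j
  obtain ⟨ε, hε, h7⟩ := h6 (h37p t k + (-1 : ℝ) • h37p t j)
  have h8 := (h37_mem _).1 h7 j
  have e1 := fun r => h37Y_add (t := t) x (h37p t k + (-1 : ℝ) • h37p t j) 1 (1 + -1 * 1) ε r
  have a1 := h37Y_step ht k j
  have a2 := h37Y_step ht j j
  rw [if_neg hk] at a1
  rw [if_pos rfl] at a2
  rw [show 1 + ε * (1 + -1 * 1) = 1 by ring] at e1
  rw [e1, e1, h37Y_add, h37Y_add] at h8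
  obtain ⟨α, hα, β, hβ⟩ := h37_int ht j.2 (Nat.dvd_lcm_left _ _) (Nat.dvd_lcm_right _ _)
  obtain ⟨w, hw⟩ := int_dot hxi hα
  have hl : (0 : ℝ) < Nat.lcm (t j) (t (j + 1)) := by
    exact_mod_cast Nat.lcm_pos (ht _ (by omega)) (ht _ (by omega))
  have a3 := hβ x 1
  have a4 : 0 < h37Y t x 1 (j + 1) - h37Y t x 1 j := by nlinarith
  have a5 : (0 : ℝ) < ((w + β : ℤ) : ℝ) := by
    push_cast
    linarith [mul_pos hl a4]
  have a6 : (1 : ℝ) ≤ ((w + β : ℤ) : ℝ) := by exact_mod_cast (show (0 : ℤ) < w + β by exact_mod_cast a5)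
  rw [div_le_iff₀ hl]
  push_cast at a6
  linarith

theorem h37_exact {n a H : ℕ} (t : ℕ → ℕ) (hH0 : 0 < H) (hH : H ≤ 2 ^ a)
    (ht : ∀ i ≤ n + 2, t i ∣ H)
    (hS : ∀ S : Finset (Fin (n + 2)), n + 1 ≤ S.card + 2 * a →
      1 ≤ ∑ j ∈ S, (1 : ℝ) / Nat.lcm (t j) (t (j + 1))) :
    IsLeast {m | IsReflexiveFace (lectureHall fun i : Fin (n + 1) => t (i + 1)) m} (n + 2) := by
  have ht0 : ∀ i ≤ n + 2, 0 < t i := fun i hi => Nat.pos_of_dvd_of_pos (ht i hi) hH0
  have hd : ∀ j : Fin (n + 2), Nat.lcm (t j) (t (j + 1)) ∣ H := fun j =>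
    Nat.lcm_dvd (ht _ (by omega)) (ht _ (by omega))
  have hl : ∀ j : Fin (n + 2), (0 : ℝ) < Nat.lcm (t j) (t (j + 1)) := fun j => by
    exact_mod_cast Nat.pos_of_dvd_of_pos (hd j) hH0
  refine ⟨?_, fun m hm => h37_lower ht0 ?_ hm⟩
  · obtain ⟨e, z, hz, hs⟩ := h37_fill (fun j : Fin (n + 2) => Nat.lcm (t j) (t (j + 1))) hH univ
      (2 ^ a * H) a (fun j _ => hd j) (by positivity) (Nat.mul_le_mul_left _ hH) fun S _ hc => by
        have h1 := hS S (by simp only [card_univ, Fintype.card_fin] at hc; omega)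
        rw [← mul_sum]
        refine Nat.mul_le_mul_left _ ?_
        have h2 : (H : ℝ) ≤ ∑ j ∈ S, ((H / Nat.lcm (t j) (t (j + 1)) : ℕ) : ℝ) := by
          rw [sum_congr rfl fun j _ => by rw [Nat.cast_div (hd j) (hl j).ne', div_eq_mul_one_div],
            ← mul_sum]
          exact le_mul_of_one_le_right (Nat.cast_nonneg _) h1
        exact_mod_cast h2
    choose q hq using fun j => hz j (mem_univ j)
    refine h37_upper ht0 z (fun j => Nat.lcm (t j) (t (j + 1)) * q j) (L := 2 ^ (a + e) * H)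
      (fun j => by rw [hq j]; ring) (by rw [hs]; ring)
      (fun j => (Nat.dvd_lcm_left _ _).mul_right _) fun j => (Nat.dvd_lcm_right _ _).mul_right _
  · have h1 := hS (univ.erase 0) (by simp)
    rw [← add_sum_erase _ _ (mem_univ 0)]
    linarith [one_div_pos.2 (hl 0)]

/-- Bounded entries and large length. -/
theorem h37_bounded {n M : ℕ} (s : Fin (n + 1) → ℕ) (h0 : ∀ i, 0 < s i) (hM : ∀ i, s i ≤ M)
    (hn : M ^ 2 + 16 * M ≤ n + 1) :
    IsLeast {m | IsReflexiveFace (lectureHall s) m} (n + 2) := by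
  have M0 : 0 < M := (h0 0).trans_le (hM 0)
  obtain ⟨t, t1, t2⟩ : ∃ t : ℕ → ℕ, (∀ i : Fin (n + 1), t (i + 1) = s i) ∧
      ∀ k, 0 < t k ∧ t k ≤ M := by
    refine ⟨fun k => if h : 1 ≤ k ∧ k ≤ n + 1 then s ⟨k - 1, by omega⟩ else 1, fun i => ?_,
      fun k => ?_⟩
    · have : 1 ≤ (i : ℕ) + 1 ∧ (i : ℕ) + 1 ≤ n + 1 := by omega
      exact dif_pos this
    · dsimp only
      split_ifs
      exacts [⟨h0 _, hM _⟩, ⟨one_pos, M0⟩]
  obtain rfl : s = fun i : Fin (n + 1) => t (i + 1) := funext fun i => (t1 i).symm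
  refine h37_exact (a := 8 * M) t (Nat.lcmUpto_pos M) ?_
    (fun i _ => Finset.dvd_lcm (f := id) (mem_Icc.2 (t2 i))) fun S hS => ?_
  · have h1 := Chebyshev.psi_le_const_mul_self (Nat.cast_nonneg (α := ℝ) M)
    have h2 : (0 : ℝ) < Nat.lcmUpto M := by exact_mod_cast Nat.lcmUpto_pos M
    have h3 : Real.log 4 = 2 * Real.log 2 := by
      rw [show (4 : ℝ) = 2 ^ 2 by norm_num, Real.log_pow]; norm_num
    rw [Chebyshev.psi_eq_log_lcmUpto, h3] at h1
    have h4 : (Nat.lcmUpto M : ℝ) ≤ 2 ^ (8 * M) := by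
      rw [← Real.log_le_log_iff h2 (by positivity), Real.log_pow]
      push_cast
      nlinarith [Real.log_two_gt_d9, Nat.cast_nonneg (α := ℝ) M]
    exact_mod_cast h4
  · have hM2 : (0 : ℝ) < (M : ℝ) ^ 2 := by positivity
    have h1 : ∑ _j ∈ S, 1 / (M : ℝ) ^ 2 ≤ ∑ j ∈ S, (1 : ℝ) / Nat.lcm (t j) (t (j + 1)) := by
      refine sum_le_sum fun j _ => one_div_le_one_div_of_le
        (by exact_mod_cast Nat.lcm_pos (t2 _).1 (t2 _).1) ?_
      have := (Nat.le_of_dvd (Nat.mul_pos (t2 j).1 (t2 (j + 1)).1) (Nat.lcm_dvd_mul _ _)).trans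
        (Nat.mul_le_mul (t2 j).2 (t2 (j + 1)).2)
      rw [sq]
      exact_mod_cast this
    refine le_trans ?_ h1
    rw [sum_const, nsmul_eq_mul, mul_one_div, le_div_iff₀ hM2, one_mul]
    exact_mod_cast (show M ^ 2 ≤ S.card by omega)

end Pool.Agent.Lib.MP_892d22_co
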