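import Pool.Agent.Lib.MP_892d22_co.H72Syl
import Pool.Agent.Lib.MP_892d22_co.H37Exact

namespace Pool.Agent.Lib.MP_892d22_co

open Matrix Finset

lemma h72_cara {W : Type} [AddCommGroup W] [Module ℝ W] [FiniteDimensional ℝ W] {J : Type}
    [DecidableEq J] (w : J → W) (z : W) (T : Finset J) :
    ∀ β : J → ℝ, (∀ i ∈ T, 0 ≤ β i) → ∑ i ∈ T, β i • w i = z →
      ∃ T' ⊆ T, T'.card ≤ Module.finrank ℝ W ∧ ∃ β' : J → ℝ, (∀ i ∈ T', 0 < β' i) ∧
        ∑ i ∈ T', β' i • w i = z := by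
  induction T using Finset.strongInduction with
  | H T ih =>
  intro β hβ hz
  have drop : ∀ (γ : J → ℝ) (a : J), a ∈ T → γ a = 0 → (∀ i ∈ T, 0 ≤ γ i) →
      ∑ i ∈ T, γ i • w i = z → ∃ T' ⊆ T, T'.card ≤ Module.finrank ℝ W ∧ ∃ β' : J → ℝ,
        (∀ i ∈ T', 0 < β' i) ∧ ∑ i ∈ T', β' i • w i = z := by
    intro γ a ha h0 hγ hγz
    obtain ⟨T', h1, h2⟩ := ih (T.erase a) (erase_ssubset ha) γ
      (fun i hi => hγ i (mem_of_mem_erase hi))
      (by rw [← hγz, ← add_sum_erase T _ ha, h0, zero_smul, zero_add])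
    exact ⟨T', h1.trans (erase_subset _ _), h2⟩
  by_cases h0 : ∃ a ∈ T, β a = 0
  · obtain ⟨a, ha, h0⟩ := h0
    exact drop β a ha h0 hβ hz
  have hpos : ∀ i ∈ T, 0 < β i := fun i hi =>
    lt_of_le_of_ne (hβ i hi) fun h => h0 ⟨i, hi, h.symm⟩
  by_cases hli : LinearIndependent ℝ fun i : T => w i
  · exact ⟨T, Subset.refl _, by simpa using hli.fintype_card_le_finrank, β, hpos, hz⟩
  obtain ⟨g, hg, a, ha⟩ : ∃ g : J → ℝ, ∑ i ∈ T, g i • w i = 0 ∧ ∃ a ∈ T, 0 < g a := by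
    obtain ⟨g, hg, a, ha⟩ := Fintype.not_linearIndependent_iff.1 hli
    let g' : J → ℝ := fun i => if h : i ∈ T then g ⟨i, h⟩ else 0
    have h1 : ∑ i ∈ T, g' i • w i = 0 := by
      rw [← hg, ← Finset.sum_coe_sort T]
      exact Finset.sum_congr rfl fun i _ => by simp [g']
    have h2 : g' a = g a := by simp [g']
    rcases lt_or_gt_of_ne ha with h | h
    · exact ⟨-g', by simp [h1], a, a.2, by simpa [h2] using h⟩
    · exact ⟨g', h1, a, a.2, by simpa [h2] using h⟩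
  obtain ⟨b, hb, hmin⟩ := Finset.exists_min_image (T.filter fun i => 0 < g i)
    (fun i => β i / g i) ⟨a, mem_filter.2 ha⟩
  obtain ⟨hbT, hbg⟩ := mem_filter.1 hb
  have hθ : 0 ≤ β b / g b := div_nonneg (hβ b hbT) hbg.le
  refine drop (fun i => β i - β b / g b * g i) b hbT (by field_simp; ring) (fun i hi => ?_) ?_
  · rcases le_or_gt (g i) 0 with h | h
    · nlinarith [hβ i hi]
    · have := hmin i (mem_filter.2 ⟨hi, h⟩)
      rw [le_div_iff₀ h] at this
      linarith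
  · simp only [sub_smul, sum_sub_distrib, mul_smul, ← smul_sum, hg, hz, smul_zero, sub_zero]

lemma h72_bary {J : Type} [DecidableEq J] (T : Finset J) (valid : ℝ → (J → ℝ) → Prop)
    (hv : ∀ lam β, valid lam β → ∀ n : J → ℤ, valid ((1 + ∑ i ∈ T, n i : ℤ) * lam)
      fun i => (1 + ∑ i ∈ T, n i : ℤ) * β i - n i)
    {lam : ℝ} {β : J → ℝ} (h : valid lam β) (hl : 0 < lam) (hβ : ∀ i ∈ T, 0 < β i)
    (hs : lam + ∑ i ∈ T, β i = 1) :
    ∃ lam' β', valid lam' β' ∧ 1 / (sylD T.card : ℝ) ≤ lam' ∧ (∀ i ∈ T, 0 < β' i) ∧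
      lam' + ∑ i ∈ T, β' i = 1 := by
  by_contra hno
  have key : ∀ k : ℕ, ∃ lam' β', valid lam' β' ∧ 2 ^ k * lam ≤ lam' ∧ (∀ i ∈ T, 0 < β' i) ∧
      lam' + ∑ i ∈ T, β' i = 1 := by
    intro k
    induction k with
    | zero => exact ⟨lam, β, h, by simp, hβ, hs⟩
    | succ k ih =>
    obtain ⟨l, γ, h1, h2, h3, h4⟩ := ih
    have hl0 : 0 < l := lt_of_lt_of_le (by positivity) h2
    obtain ⟨B, hB, hbad⟩ : ∃ B ⊆ T, 1 - ∑ i ∈ B, γ i < ∏ i ∈ B, γ i := by
      by_contra hall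
      refine hno ⟨l, γ, h1, ?_, h3, h4⟩
      let γ' : J → ℝ := fun i => if i ∈ T then γ i else 1
      have e : ∀ i ∈ T, γ' i = γ i := fun i hi => if_pos hi
      have := (h72_prodsum γ' (fun i => by
        by_cases hi : i ∈ T
        · rw [e i hi]; exact h3 i hi
        · simp [γ', hi]) T fun B hB => by
          rw [prod_congr rfl fun i hi => e i (hB hi), sum_congr rfl fun i hi => e i (hB hi)]
          exact not_lt.1 fun hlt => hall ⟨B, hB, hlt⟩).1
      rw [sum_congr rfl e] at this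
      linarith
    have hBs : ∑ i ∈ B, γ i < 1 := by
      have := sum_le_sum_of_subset_of_nonneg hB fun i hi _ => (h3 i hi).le
      linarith
    obtain ⟨n, hn1, hn2⟩ := h72_mink (fun i : B => γ i) (fun i => h3 i (hB i.2))
      (by rwa [Finset.sum_coe_sort B γ]) (by rwa [Finset.sum_coe_sort B γ, Finset.prod_coe_sort B γ])
    let n' : J → ℤ := fun i => if h : i ∈ B then n ⟨i, h⟩ else 0
    have hn' : ∑ i ∈ T, n' i = ∑ i, n i := by
      rw [← sum_subset hB fun i _ hi => dif_neg hi, ← Finset.sum_coe_sort B]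
      exact Finset.sum_congr rfl fun i _ => by simp
    have hM : (1 : ℝ) ≤ (∑ i, n i : ℤ) := by exact_mod_cast hn1
    refine ⟨_, _, hv l γ h1 n', ?_, fun i hi => ?_, ?_⟩
    · rw [hn', pow_succ, Int.cast_add, Int.cast_one]; nlinarith
    · rw [hn', Int.cast_add, Int.cast_one]
      by_cases hiB : i ∈ B
      · have := hn2 ⟨i, hiB⟩
        simp only [n', dif_pos hiB]
        linarith
      · simp only [n', dif_neg hiB]
        have := h3 i hi
        rw [Int.cast_zero, sub_zero]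
        positivity
    · rw [sum_sub_distrib, ← mul_sum, ← add_sub_assoc, ← mul_add, h4]
      push_cast; ring
  obtain ⟨k, hk⟩ := pow_unbounded_of_one_lt (1 / lam) (one_lt_two (α := ℝ))
  obtain ⟨l, γ, _, h2, h3, h4⟩ := key k
  rw [div_lt_iff₀ hl] at hk
  linarith [sum_nonneg fun i hi => (h3 i hi).le]

lemma h72_int_zero {d : ℕ} {V H : Set (Fin d → ℝ)} (hV : V.Finite) (hHi : H ⊆ intPts _)
    (hVH : convexHull ℝ V = {x | ∀ η ∈ H, -1 ≤ x ⬝ᵥ η}) {y : Fin d → ℝ} (hy : y ∈ intPts _)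
    (h : ∀ η ∈ H, -1 < y ⬝ᵥ η) : y = 0 := by
  refine eq_zero_of_cone hV hVH fun η hη => ?_
  obtain ⟨z, hz⟩ := int_dot hy (hHi hη)
  have h1 := h η hη
  rw [hz] at h1 ⊢
  have h2 : -1 < z := by exact_mod_cast h1
  exact_mod_cast (show 0 ≤ z by omega)

lemma Cert.h72_unique {n m : ℕ} {P : Set (Fin n → ℝ)} (h : Cert P (Fin m)) :
    ∃ (lam : ℝ) (u : Fin n → ℝ), 1 / (sylD (m - n) : ℝ) ≤ lam ∧ ∀ x x' : Fin n → ℝ,
      P ∈ nhds x → P ∈ nhds x' → lam • x - u ∈ intPts _ → lam • x' - u ∈ intPts _ →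
        lam • x = lam • x' := by
  classical
  obtain ⟨V, H, hV, hVi, hH, hHi, hVH, l, c, A, b, _, hA, hF, hint⟩ := h
  have hP : ∀ x ∈ P, ∀ η ∈ H, -1 ≤ (A x + b) ⬝ᵥ η := fun x hx => by
    have := (show A x + b ∈ {x ∈ convexHull ℝ V | l x = c} from hF ▸ ⟨x, hx, rfl⟩).1
    rwa [hVH] at this
  have hmem : ∀ v ∈ V, ∀ η ∈ H, -1 ≤ v ⬝ᵥ η := fun v hv => by
    have := subset_convexHull ℝ V hv
    rwa [hVH] at this
  have hb : b ∈ intPts _ := by simpa using (hint 0).1 int_zero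
  have hAi : ∀ q ∈ intPts (Fin n), A q ∈ intPts (Fin m) := fun q hq => by
    simpa using int_add ((hint q).1 hq) (int_neg hb)
  obtain ⟨ε, hε, hεb⟩ : ∃ ε : ℝ, 0 < ε ∧ -ε • b ∈ convexHull ℝ V := by
    obtain ⟨R, hR⟩ := (hH.image fun η => b ⬝ᵥ η).bddAbove
    refine ⟨1 / (|R| + 1), by positivity, ?_⟩
    rw [hVH]
    intro η hη
    rw [smul_dotProduct, smul_eq_mul, neg_mul, neg_le_neg_iff, one_div, inv_mul_le_iff₀
      (by positivity)]
    linarith [hR ⟨η, hη, rfl⟩, le_abs_self R]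
  rw [← hV.coe_toFinset, Finset.mem_convexHull'] at hεb
  obtain ⟨μ, hμ0, _, hμ⟩ := hεb
  let π := (LinearMap.range A).mkQ
  obtain ⟨T, hT, hTc, β, hβ, hβs⟩ := h72_cara (fun v => π v) (π (-ε • b)) hV.toFinset μ hμ0
    (by rw [← hμ, map_sum]; simp)
  have hTV : ∀ v ∈ T, v ∈ V := fun v hv => hV.mem_toFinset.1 (hT hv)
  have hrank : Module.finrank ℝ ((Fin m → ℝ) ⧸ LinearMap.range A) = m - n := by
    have h1 := Submodule.finrank_quotient_add_finrank (LinearMap.range A)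
    rw [LinearMap.finrank_range_of_inj hA] at h1
    simp only [Module.finrank_fintype_fun_eq_card, Fintype.card_fin] at h1
    omega
  obtain ⟨u₀, hu₀⟩ : ∃ u₀, A u₀ + ε • b + ∑ v ∈ T, β v • v = 0 := by
    have h1 : π (ε • b + ∑ v ∈ T, β v • v) = 0 := by
      rw [map_add, map_sum]
      simp only [map_smul] at hβs ⊢
      rw [hβs, ← add_smul]; simp
    obtain ⟨u, hu⟩ := (Submodule.Quotient.mk_eq_zero _).1 h1
    exact ⟨-u, by rw [map_neg, hu, add_assoc, neg_add_cancel]⟩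
  have hσ : 0 < ε + ∑ v ∈ T, β v := by linarith [sum_nonneg fun v hv => (hβ v hv).le]
  obtain ⟨lam, γ, ⟨u, hu⟩, hlam, hγ, hs⟩ := h72_bary T
    (fun lam γ => ∃ u, A u + lam • b + ∑ v ∈ T, γ v • v ∈ intPts (Fin m))
    (lam := ε / (ε + ∑ v ∈ T, β v)) (β := fun v => β v / (ε + ∑ v ∈ T, β v))
    (fun lam γ ⟨u, hu⟩ k => ⟨((1 + ∑ i ∈ T, k i : ℤ) : ℝ) • u, by
      have h1 : ∑ v ∈ T, (k v : ℝ) • v ∈ intPts (Fin m) := by
        rw [← Finset.sum_coe_sort T fun v => (k v : ℝ) • v]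
        exact int_sum fun v => int_smul _ (hVi (hTV v v.2))
      convert int_add (int_smul (1 + ∑ i ∈ T, k i) hu) (int_neg h1) using 1
      simp only [map_smul, sub_smul, mul_smul, sum_sub_distrib, ← smul_sum, smul_add]
      abel⟩)
    ⟨(ε + ∑ v ∈ T, β v)⁻¹ • u₀, by
      have h1 := congrArg (fun y => (ε + ∑ v ∈ T, β v)⁻¹ • y) hu₀
      simp only [smul_add, smul_sum, smul_smul, smul_zero] at h1
      simp only [map_smul, div_eq_inv_mul, h1]
      exact int_zero⟩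
    (by positivity) (fun v hv => div_pos (hβ v hv) hσ)
    (by rw [← sum_div, ← add_div, div_self hσ.ne'])
  have hD : (0 : ℝ) < sylD T.card := by exact_mod_cast sylD_pos _
  have hl0 : 0 < lam := lt_of_lt_of_le (by positivity) hlam
  refine ⟨lam, u, le_trans (one_div_le_one_div_of_le hD ?_) hlam, ?_⟩
  · exact_mod_cast sylD_mono (hrank ▸ hTc)
  have key : ∀ x, P ∈ nhds x → lam • x - u ∈ intPts _ →
      A (lam • x) + lam • b + ∑ v ∈ T, γ v • v = 0 := by
    intro x hx hq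
    refine h72_int_zero hV hHi hVH ?_ fun η hη => ?_
    · convert int_add hu (hAi _ hq) using 1
      rw [map_sub]; abel
    by_contra hle
    have h1 := hP x (mem_of_mem_nhds hx) η hη
    have h2 : ∀ v ∈ T, 0 ≤ γ v * (v ⬝ᵥ η + 1) := fun v hv =>
      mul_nonneg (hγ v hv).le (by linarith [hmem v (hTV v hv) η hη])
    have h3 : (A (lam • x) + lam • b + ∑ v ∈ T, γ v • v) ⬝ᵥ η + 1 =
        lam * ((A x + b) ⬝ᵥ η + 1) + ∑ v ∈ T, γ v * (v ⬝ᵥ η + 1) := by
      simp only [map_smul, add_dotProduct, smul_dotProduct, sum_dotProduct, smul_eq_mul, mul_add,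
        sum_add_distrib, mul_one]
      linarith
    have h4 := sum_nonneg h2
    have h5 : 0 ≤ lam * ((A x + b) ⬝ᵥ η + 1) := mul_nonneg hl0.le (by linarith)
    have h6 : (A x + b) ⬝ᵥ η = -1 := by
      have : lam * ((A x + b) ⬝ᵥ η + 1) = 0 := by linarith [not_lt.1 hle]
      linarith [(mul_eq_zero.1 this).resolve_left hl0.ne']
    have h7 : ∀ v ∈ T, v ⬝ᵥ η = -1 := fun v hv => by
      have := (sum_eq_zero_iff_of_nonneg h2).1 (by linarith [not_lt.1 hle]) v hv
      linarith [(mul_eq_zero.1 this).resolve_left (hγ v hv).ne']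
    have h8 : ∀ d, 0 ≤ A d ⬝ᵥ η := by
      intro d
      have h9 : Filter.Tendsto (fun t : ℝ => x + t • d) (nhdsWithin 0 (Set.Ioi 0)) (nhds x) := by
        refine Filter.Tendsto.mono_left ?_ nhdsWithin_le_nhds
        have : Continuous fun t : ℝ => x + t • d := by fun_prop
        simpa using this.tendsto 0
      obtain ⟨t, ht1, ht2⟩ := ((h9.eventually hx).and self_mem_nhdsWithin).exists
      have h10 := hP _ ht1 η hη
      rw [map_add, map_smul, add_right_comm, add_dotProduct, smul_dotProduct, smul_eq_mul,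
        h6] at h10
      exact nonneg_of_mul_nonneg_right (by linarith) ht2
    have h11 : ∀ d, A d ⬝ᵥ η = 0 := fun d => le_antisymm (by simpa using h8 (-d)) (h8 d)
    have h12 := congrArg (· ⬝ᵥ η) hu₀
    rw [add_dotProduct, h11, zero_add] at h6
    simp only [add_dotProduct, smul_dotProduct, sum_dotProduct, smul_eq_mul, h11, h6,
      zero_dotProduct] at h12
    rw [sum_congr rfl fun v hv => by rw [h7 v hv]] at h12
    simp only [mul_neg, mul_one, sum_neg_distrib] at h12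
    linarith
  intro x x' hx hx' hq hq'
  exact hA (add_right_cancel (add_right_cancel ((key x hx hq).trans (key x' hx' hq').symm)))

lemma h72_greedy (s τ δ : ℕ → ℝ) (hs : ∀ j, 0 < s j) :
    ∃ (q : ℕ → ℤ) (a : ℕ → ℝ), a 0 = 0 ∧ ∀ j, a (j + 1) = (q j + τ j) / s j ∧
      a j + δ j < a (j + 1) ∧ a (j + 1) ≤ a j + δ j + 1 / s j := by
  let a : ℕ → ℝ := fun j => Nat.rec 0
    (fun j x => ((⌊s j * (x + δ j) - τ j⌋ + 1 : ℤ) + τ j) / s j) j
  refine ⟨fun j => ⌊s j * (a j + δ j) - τ j⌋ + 1, a, rfl, fun j => ⟨rfl, ?_, ?_⟩⟩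
  · show _ < ((⌊s j * (a j + δ j) - τ j⌋ + 1 : ℤ) + τ j) / s j
    rw [lt_div_iff₀ (hs j)]
    push_cast
    linarith [Int.lt_floor_add_one (s j * (a j + δ j) - τ j)]
  · show ((⌊s j * (a j + δ j) - τ j⌋ + 1 : ℤ) + τ j) / s j ≤ _
    rw [div_le_iff₀ (hs j), add_mul, one_div_mul_cancel (hs j).ne']
    push_cast
    linarith [Int.floor_le (s j * (a j + δ j) - τ j)]

lemma h72_nhds {n : ℕ} (s : Fin (n + 1) → ℕ) {x : Fin (n + 1) → ℝ} (h0 : 0 < x 0 / s 0)
    (h1 : ∀ i : Fin n, x i.castSucc / s i.castSucc < x i.succ / s i.succ)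
    (h2 : x (Fin.last n) / s (Fin.last n) < 1) : lectureHall s ∈ nhds x := by
  have hc : ∀ i, ContinuousAt (fun y : Fin (n + 1) → ℝ => y i / s i) x := fun i =>
    (continuous_apply i).continuousAt.div_const _
  filter_upwards [continuousAt_const.eventually_lt (hc 0) h0,
    Filter.eventually_all.2 fun i : Fin n => (hc _).eventually_lt (hc _) (h1 i),
    (hc _).eventually_lt continuousAt_const h2] with y a b c
  exact ⟨a.le, fun i => (b i).le, c.le⟩

theorem h72_lower {n m : ℕ} (s : Fin (n + 1) → ℕ) (hs0 : ∀ i, 0 < s i)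
    (h : IsReflexiveFace (lectureHall s) m) (i : Fin (n + 1)) :
    n + 1 ≤ m ∧ 1 ≤ (sylD (m - (n + 1)) : ℝ) * (∑ j, 1 / (s j : ℝ) + 1 / s i) := by
  have hs : ∀ i, (0 : ℝ) < s i := fun i => by exact_mod_cast hs0 i
  have hc := h.cert ⟨0, by simp [lectureHall]⟩
  refine ⟨?_, ?_⟩
  · obtain ⟨_, _, _, _, _, _, _, _, _, A, _, _, hA, _⟩ := hc
    simpa using LinearMap.finrank_le_finrank_of_injective hA
  obtain ⟨lam, u, hlam, huniq⟩ := hc.h72_unique
  have hD : (0 : ℝ) < sylD (m - (n + 1)) := by exact_mod_cast sylD_pos _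
  have hl0 : 0 < lam := lt_of_lt_of_le (by positivity) hlam
  by_contra hlt
  have hlt' : ∑ j, 1 / (s j : ℝ) + 1 / s i < lam := by
    refine lt_of_lt_of_le ?_ hlam
    rw [lt_div_iff₀ hD]
    linarith [not_le.1 hlt]
  let s' : ℕ → ℝ := fun j => if h : j < n + 1 then s ⟨j, h⟩ else 1
  let u' : ℕ → ℝ := fun j => if h : j < n + 1 then u ⟨j, h⟩ else 0
  have es : ∀ j : Fin (n + 1), s' j = s j := fun j => dif_pos j.2
  have eu : ∀ j : Fin (n + 1), u' j = u j := fun j => dif_pos j.2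
  obtain ⟨q, a, ha0, ha⟩ := h72_greedy s' u' (fun j => if j = i + 1 then 1 / (s i : ℝ) else 0)
    fun j => by
      simp only [s']
      split_ifs
      exacts [hs _, one_pos]
  have hi0 : 0 < 1 / (s i : ℝ) := by have := hs i; positivity
  have hsum : ∀ k, a k ≤ ∑ j ∈ range k, 1 / s' j + if i + 1 < k then 1 / (s i : ℝ) else 0 := by
    intro k
    induction k with
    | zero => simp [ha0]
    | succ k ih =>
      have := (ha k).2.2
      rw [sum_range_succ]
      split_ifs at ih this ⊢ <;> first | omega | linarith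
  have hN := hsum (n + 1)
  rw [← Fin.sum_univ_eq_sum_range (fun j => 1 / s' j)] at hN
  simp only [es] at hN
  have main : ∀ c : ℤ, c = 0 ∨ c = 1 →
      let x : Fin (n + 1) → ℝ := fun j => (q j + u j + if j = i then c else 0) / lam
      lectureHall s ∈ nhds x ∧ lam • x - u ∈ intPts _ := by
    intro c hc x
    have hx : ∀ j : Fin (n + 1),
        x j / s j = (a (j + 1) + if j = i then c * (1 / (s i : ℝ)) else 0) / lam := by
      intro j
      rw [(ha j).1, es, eu]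
      simp only [x]
      split_ifs with hj
      · rw [hj]; field_simp
      · field_simp; ring
    have hc' : 0 ≤ c * (1 / (s i : ℝ)) ∧ c * (1 / (s i : ℝ)) ≤ 1 / (s i : ℝ) := by
      rcases hc with rfl | rfl <;> simp
    refine ⟨h72_nhds s ?_ (fun j => ?_) ?_, fun j => ⟨q j + if j = i then c else 0, ?_⟩⟩
    · rw [hx]
      have := (ha 0).2.1
      refine div_pos ?_ hl0
      simp only [Fin.val_zero]
      split_ifs at this ⊢ <;> first | omega | linarith
    · rw [hx, hx]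
      refine div_lt_div_of_pos_right ?_ hl0
      have := (ha (j + 1)).2.1
      simp only [Fin.val_succ, Fin.val_castSucc, Fin.ext_iff] at this ⊢
      split_ifs at this ⊢ <;> first | omega | linarith
    · rw [hx, div_lt_one hl0]
      simp only [Fin.val_last, Fin.ext_iff]
      split_ifs at hN ⊢ <;> first | omega | linarith
    · simp only [x, Pi.sub_apply, Pi.smul_apply, smul_eq_mul]
      rw [mul_div_cancel₀ _ hl0.ne']
      split_ifs <;> push_cast <;> ring
  obtain ⟨h1, h2⟩ := main 0 (Or.inl rfl)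
  obtain ⟨h3, h4⟩ := main 1 (Or.inr rfl)
  have h5 := congrFun (huniq _ _ h1 h3 h2 h4) i
  simp only [Pi.smul_apply, smul_eq_mul, if_true, mul_div_cancel₀ _ hl0.ne'] at h5
  norm_num at h5

end Pool.Agent.Lib.MP_892d22_co
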