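import Mathlib

namespace Pool.Agent.Lib.MP_892d22_co

open Finset

/-- The products `1, 2, 6, 42, 1806, ...` of the first `r` Sylvester numbers. -/
def sylD : ℕ → ℕ
  | 0 => 1
  | r + 1 => sylD r * (sylD r + 1)

lemma sylD_pos (r : ℕ) : 0 < sylD r := by
  induction r with
  | zero => simp [sylD]
  | succ r ih => simp only [sylD]; positivity

lemma sylD_mono : Monotone sylD := monotone_nat_of_le_succ fun r => by
  simp only [sylD]; nlinarith [sylD_pos r]

lemma h72_prodsum {J : Type} [DecidableEq J] (β : J → ℝ) (hβ : ∀ i, 0 < β i) (A : Finset J) :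
    (∀ B ⊆ A, ∏ i ∈ B, β i ≤ 1 - ∑ i ∈ B, β i) →
      0 ≤ 1 - 1 / (sylD A.card : ℝ) - ∑ i ∈ A, β i ∧ ∀ μ : ℝ, 0 < μ → (∀ i ∈ A, μ ≤ β i) →
        Real.log (1 / (sylD A.card : ℝ)) - ∑ i ∈ A, Real.log (β i) ≤
          (1 - 1 / (sylD A.card : ℝ) - ∑ i ∈ A, β i) / μ := by
  refine Finset.induction_on_min_value β A (fun _ => by simp [sylD]) ?_
  intro a s ha hmin ih h
  obtain ⟨_, h2⟩ := ih fun B hB => h B (hB.trans (subset_insert _ _))
  have hD : (0 : ℝ) < sylD s.card := by exact_mod_cast sylD_pos _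
  have h3 := h2 (β a) (hβ a) hmin
  have h4 := h _ (Subset.refl _)
  rw [card_insert_of_notMem ha, sum_insert ha, sum_insert ha]
  rw [prod_insert ha, sum_insert ha] at h4
  simp only [sylD]
  push_cast
  generalize (sylD s.card : ℝ) = D at hD h3 ⊢
  have h5 : Real.log (1 / (D + 1)) - Real.log (β a) ≤ (1 / (D + 1) - β a) / β a := by
    have := hβ a
    rw [← Real.log_div (by positivity) this.ne', sub_div, div_self this.ne']
    exact Real.log_le_sub_one_of_pos (by positivity)
  have h6 : Real.log (1 / (D * (D + 1))) = Real.log (1 / D) + Real.log (1 / (D + 1)) := by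
    rw [← Real.log_mul (by positivity) (by positivity)]; congr 1; field_simp
  have h7 : 1 - 1 / (D * (D + 1)) - (β a + ∑ i ∈ s, β i) =
      (1 - 1 / D - ∑ i ∈ s, β i) + (1 / (D + 1) - β a) := by field_simp; ring
  have h8 : Real.log (1 / (D * (D + 1))) - (Real.log (β a) + ∑ i ∈ s, Real.log (β i)) ≤
      (1 - 1 / (D * (D + 1)) - (β a + ∑ i ∈ s, β i)) / β a := by
    rw [h6, h7, add_div]; linarith
  have h9 : 0 ≤ 1 - 1 / (D * (D + 1)) - (β a + ∑ i ∈ s, β i) := by
    by_contra hneg
    have h10 := div_neg_of_neg_of_pos (not_le.1 hneg) (hβ a)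
    have h11 : Real.log (β a * ∏ i ∈ s, β i) = Real.log (β a) + ∑ i ∈ s, Real.log (β i) := by
      rw [Real.log_mul (hβ a).ne' (prod_pos fun i _ => hβ i).ne', Real.log_prod fun i _ => (hβ i).ne']
    have h12 : Real.log (1 / (D * (D + 1))) < Real.log (β a * ∏ i ∈ s, β i) := by linarith
    have h13 := (Real.log_lt_log_iff (by positivity)
      (mul_pos (hβ a) (prod_pos fun i _ => hβ i))).1 h12
    linarith [not_le.1 hneg]
  refine ⟨h9, fun μ hμ hμ' => h8.trans ?_⟩
  exact div_le_div_of_nonneg_left h9 hμ (hμ' a (mem_insert_self _ _))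

open MeasureTheory in
lemma h72_mink {J : Type} [Fintype J] [DecidableEq J] (β : J → ℝ) (hβ : ∀ i, 0 < β i)
    (hs : ∑ i, β i < 1) (h : 1 - ∑ i, β i < ∏ i, β i) :
    ∃ n : J → ℤ, 1 ≤ ∑ i, n i ∧ ∀ i, n i < β i * (1 + ∑ j, n j) := by
  let U : Matrix J J ℝ := 1 + Matrix.replicateCol Unit (-β) * Matrix.replicateRow Unit (fun _ : J => (1 : ℝ))
  have hU : U.det = 1 - ∑ i, β i := by
    simp only [U]
    rw [Matrix.det_one_add_replicateCol_mul_replicateRow]
    simp [dotProduct]; ring
  have hUv : ∀ (x : J → ℝ) i, (Matrix.toLin' U) x i = x i - β i * ∑ j, x j := by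
    intro x i
    have h1 : ∀ j, U i j = (if i = j then 1 else 0) - β i := fun j => by
      simp [U, Matrix.mul_apply, Matrix.one_apply, sub_eq_add_neg]
    simp [Matrix.mulVec, dotProduct, h1, sub_mul, Finset.mul_sum]
  let S : Set (J → ℝ) := (Matrix.toLin' U) ⁻¹' Set.pi Set.univ fun i => Set.Ioo (-β i) (β i)
  have hS : ∀ x, x ∈ S ↔ ∀ i, |x i - β i * ∑ j, x j| < β i := by
    intro x
    simp only [S, Set.mem_preimage, Set.mem_pi, Set.mem_univ, true_imp_iff, hUv, abs_lt, Set.mem_Ioo]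
  have hdet : LinearMap.det (Matrix.toLin' U) = 1 - ∑ i, β i := by rw [LinearMap.det_toLin', hU]
  have hvol : volume S = ENNReal.ofReal ((1 - ∑ i, β i)⁻¹ * (2 ^ Fintype.card J * ∏ i, β i)) := by
    simp only [S]
    rw [Measure.addHaar_preimage_linearMap _ (by rw [hdet]; linarith), hdet, Real.volume_pi_Ioo,
      abs_of_pos (inv_pos.2 (by linarith)), ENNReal.ofReal_mul (inv_pos.2 (by linarith)).le,
      ← ENNReal.ofReal_prod_of_nonneg fun i _ => by linarith [hβ i]]
    congr 2
    rw [Finset.prod_congr rfl (g := fun i => 2 * β i) fun i _ => by ring, Finset.prod_mul_distrib]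
    simp
  have hF := ZSpan.isAddFundamentalDomain' (Pi.basisFun ℝ J) volume
  have hF1 : volume (ZSpan.fundamentalDomain (Pi.basisFun ℝ J)) = 1 := by
    rw [ZSpan.fundamentalDomain_pi_basisFun, volume_pi_pi]; simp
  have : Countable (Submodule.span ℤ (Set.range (Pi.basisFun ℝ J))).toAddSubgroup :=
    inferInstanceAs (Countable (Submodule.span ℤ (Set.range (Pi.basisFun ℝ J))))
  obtain ⟨⟨x, hx⟩, hx0, hxS⟩ := exists_ne_zero_mem_lattice_of_measure_mul_two_pow_lt_measure hF
    (s := S) (fun x hx => by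
      rw [hS] at hx ⊢
      intro i
      have := hx i
      rw [← abs_neg] at this
      convert this using 2
      simp; ring)
    ((convex_pi fun i _ => convex_Ioo _ _).linear_preimage _) (by
      rw [hF1, hvol, one_mul, Module.finrank_fintype_fun_eq_card]
      have : (2 : ENNReal) ^ Fintype.card J = ENNReal.ofReal (2 ^ Fintype.card J) := by
        rw [ENNReal.ofReal_pow (by norm_num)]; simp
      have h1 : 0 < 1 - ∑ i, β i := by linarith
      rw [this, ENNReal.ofReal_lt_ofReal_iff (by have := h1.trans h; positivity),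
        inv_mul_eq_div, lt_div_iff₀ h1]
      exact mul_lt_mul_of_pos_left h (by positivity))
  have hxi : ∀ i, ∃ z : ℤ, x i = z := by
    intro i
    have := (Module.Basis.mem_span_iff_repr_mem ℤ (Pi.basisFun ℝ J) x).1 hx i
    obtain ⟨z, hz⟩ := this
    exact ⟨z, by simpa using hz.symm⟩
  choose n hn using hxi
  have hx1 := (hS x).1 hxS
  simp only [hn] at hx1
  have hβ1 : ∀ i, β i < 1 := fun i =>
    (Finset.single_le_sum (fun j _ => (hβ j).le) (Finset.mem_univ i)).trans_lt hs
  rcases lt_trichotomy (∑ i, n i) 0 with h0 | h0 | h0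
  · refine ⟨-n, by simp only [Pi.neg_apply, Finset.sum_neg_distrib]; omega, fun i => ?_⟩
    have := (abs_lt.1 (hx1 i)).1
    simp only [Pi.neg_apply, Finset.sum_neg_distrib]
    push_cast
    linarith
  · exfalso
    apply hx0
    ext i
    have h1 := hx1 i
    have h2 : ∑ j, (n j : ℝ) = 0 := by exact_mod_cast h0
    rw [h2, mul_zero, sub_zero] at h1
    have h3 : |n i| < 1 := by exact_mod_cast h1.trans (hβ1 i)
    simp [hn, Int.abs_lt_one_iff.1 h3]
  · refine ⟨n, h0, fun i => ?_⟩
    have := (abs_lt.1 (hx1 i)).2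
    push_cast
    linarith

end Pool.Agent.Lib.MP_892d22_co
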