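import Pool.Agent.Lib.MP_892d22_co.H72Low

namespace Pool.Agent.Lib.MP_892d22_co

open Matrix Finset

lemma h72_fib {κ J δ : Type} [Fintype κ] [Fintype J] [Nonempty J] [Fintype δ] [DecidableEq δ]
    (p α : J → κ → ℝ) (β : J → ℤ) (d : J → ℝ) (hp : ∀ j, p j ∈ intPts κ)
    (hα : ∀ j, α j ∈ intPts κ) (hd : ∀ j, 0 < d j) (h1 : ∀ i j, 0 ≤ p i ⬝ᵥ α j + β j)
    (h2 : ∀ (x : κ → ℝ) (l : ℝ), ∑ j, (x ⬝ᵥ α j + l * β j) / d j = l)
    (h3 : ∀ (x : κ → ℝ) (l : ℝ), ∑ j, ((x ⬝ᵥ α j + l * β j) / d j) • p j = x)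
    (w S : δ → ℕ) {W : ℕ} (hW : ∑ i, w i + 1 = W) (hS : ∀ i, w i * S i = W)
    (ε : δ → J → ℤ) (z : δ → κ → ℝ) (hz : ∀ i, z i ∈ intPts κ) (l : δ → ℤ) {k : ℕ}
    (hl : ∀ i, l i ≤ k) (hε : ∀ i j, (S i : ℝ) * ε i j = z i ⬝ᵥ α j + l i * β j)
    (hsum : ∀ j, ∑ i, ε i j = k * β j - 1) :
    Cert {x : κ → ℝ | ∀ j, 0 ≤ x ⬝ᵥ α j + k * β j} (δ ⊕ κ) := by
  have hW0 : (0 : ℝ) < W := by exact_mod_cast (show 0 < W by omega)
  have hS' : ∀ i, (w i : ℝ) * S i = W := fun i => by exact_mod_cast hS i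
  have hW' : ∑ i, (w i : ℝ) = W - 1 := by
    have : ∑ i, (w i : ℝ) + 1 = W := by exact_mod_cast hW
    linarith
  have hS0 : ∀ i, (0 : ℝ) < S i := fun i => by
    rcases (Nat.cast_nonneg (α := ℝ) (S i)).lt_or_eq with h | h
    · exact h
    · have := hS' i
      rw [← h, mul_zero] at this; linarith
  have hsum' : ∀ j, ∑ i, (ε i j : ℝ) = k * β j - 1 := fun j => by exact_mod_cast hsum j
  let Y : Option δ → δ → ℝ := fun o => o.elim 0 (fun i => Pi.single i (S i : ℝ)) - 1
  let Z : Option δ → κ → ℝ := fun o => o.elim 0 z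
  let L : Option δ → ℤ := fun o => k - o.elim 0 l
  have hL : ∀ o, (0 : ℝ) ≤ L o := by
    rintro (_ | i)
    · simp [L]
    · have := hl i
      simp only [L, Option.elim_some]
      exact_mod_cast sub_nonneg.2 this
  let v : Option δ × J → δ ⊕ κ → ℝ := fun o => Sum.elim (Y o.1) (Z o.1 + (L o.1 : ℝ) • p o.2)
  let η : Option δ ⊕ J → δ ⊕ κ → ℝ := Sum.elim
    (fun o => Sum.elim (o.elim (-fun i => (w i : ℝ)) fun i => Pi.single i ((1 : ℕ) : ℝ)) 0)
    fun j => Sum.elim (-fun i => (ε i j : ℝ)) (α j)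
  have hH : ∀ (y : δ → ℝ) (x : κ → ℝ), (∀ e ∈ Set.range η, -1 ≤ Sum.elim y x ⬝ᵥ e) ↔
      (∑ i, (y i + 1) / S i ≤ 1 ∧ ∀ i, 0 ≤ y i + 1) ∧ ∀ j,
        0 ≤ (x - ∑ i, ((y i + 1) / S i) • z i) ⬝ᵥ α j + (k - ∑ i, (y i + 1) / S i * l i) * β j := by
    intro y x
    rw [Set.forall_mem_range, Sum.forall, Option.forall]
    simp only [η, Sum.elim_inl, Sum.elim_inr, sumElim_dotProduct_sumElim, Option.elim_none,
      Option.elim_some, dotProduct_zero, add_zero, dotProduct_single, Nat.cast_one, mul_one,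
      dotProduct_neg]
    refine and_congr (and_congr ?_ (forall_congr' fun i => by constructor <;> intro <;> linarith))
      (forall_congr' fun j => ?_)
    · have e : ∑ i, (y i + 1) / S i = ((y ⬝ᵥ fun i => (w i : ℝ)) + (W - 1)) / W := by
        rw [← hW', dotProduct, ← sum_add_distrib, sum_div]
        refine sum_congr rfl fun i _ => ?_
        rw [div_eq_div_iff (hS0 i).ne' hW0.ne', ← hS' i]; ring
      rw [e, div_le_one hW0]
      constructor <;> intro <;> linarith
    · have e : (∑ i, ((y i + 1) / S i) • z i) ⬝ᵥ α j + (∑ i, (y i + 1) / S i * l i) * β j =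
          (y ⬝ᵥ fun i => (ε i j : ℝ)) + (k * β j - 1) := by
        rw [← hsum', sum_dotProduct, sum_mul, ← sum_add_distrib, dotProduct, ← sum_add_distrib]
        refine sum_congr rfl fun i _ => ?_
        rw [smul_dotProduct, smul_eq_mul, mul_assoc, ← mul_add, ← hε]
        have := hS0 i
        field_simp
      rw [sub_dotProduct, sub_mul]
      constructor <;> intro <;> linarith
  have hVH : convexHull ℝ (Set.range v) = {x | ∀ e ∈ Set.range η, -1 ≤ x ⬝ᵥ e} := by
    apply Set.Subset.antisymm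
    · refine convexHull_min ?_ (convex_halfspaces _)
      rintro _ ⟨⟨o, j⟩, rfl⟩
      refine (hH _ _).2 ?_
      have e : ∀ j', 0 ≤ ((L o : ℝ) • p j) ⬝ᵥ α j' + L o * β j' := fun j' => by
        rw [smul_dotProduct, smul_eq_mul, ← mul_add]; exact mul_nonneg (hL o) (h1 j j')
      rcases o with _ | i
      · simpa [Y, Z, L] using e
      · have e1 : ∀ i', (Y (some i) i' + 1) / S i' = if i' = i then 1 else 0 := fun i' => by
          simp only [Y, Option.elim_some, Pi.sub_apply, Pi.one_apply, sub_add_cancel,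
            Pi.single_apply]
          split_ifs with h
          · rw [h, div_self (hS0 i).ne']
          · simp
        simp only [e1]
        refine ⟨⟨by simp, fun i' => ?_⟩, fun j' => ?_⟩
        · simp only [Y, Option.elim_some, Pi.sub_apply, Pi.one_apply, sub_add_cancel,
            Pi.single_apply]
          split_ifs <;> positivity
        · simpa [Z, L] using e j'
    · intro q hq
      obtain ⟨y, x, rfl⟩ : ∃ y x, q = Sum.elim y x :=
        ⟨q ∘ .inl, q ∘ .inr, (Sum.elim_comp_inl_inr q).symm⟩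
      obtain ⟨⟨g1, g2⟩, g3⟩ := (hH y x).1 hq
      let a : Option δ → ℝ := fun o => o.elim (1 - ∑ i, (y i + 1) / S i) fun i => (y i + 1) / S i
      have ha0 : ∀ o, 0 ≤ a o := by
        rintro (_ | i)
        · exact sub_nonneg.2 g1
        · exact div_nonneg (g2 i) (hS0 i).le
      have ha1 : ∑ o, a o = 1 := by simp [a, Fintype.sum_option]
      have hφ : ∑ o, a o * L o = k - ∑ i, (y i + 1) / S i * l i := by
        simp only [L, Int.cast_sub, mul_sub, sum_sub_distrib, ← sum_mul, ha1]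
        simp [a, Fintype.sum_option]
      have hφ0 : 0 ≤ k - ∑ i, (y i + 1) / S i * l i :=
        hφ ▸ sum_nonneg fun o _ => mul_nonneg (ha0 o) (hL o)
      obtain ⟨e, he0, he1, he⟩ : ∃ e : J → ℝ, (∀ j, 0 ≤ e j) ∧ ∑ j, e j = 1 ∧
          (k - ∑ i, (y i + 1) / S i * l i) • ∑ j, e j • p j =
            x - ∑ i, ((y i + 1) / S i) • z i := by
        generalize k - ∑ i, (y i + 1) / S i * l i = φ at hφ0 g3
        generalize x - ∑ i, ((y i + 1) / S i) • z i = X at g3
        have g4 : ∀ j, 0 ≤ (X ⬝ᵥ α j + φ * β j) / d j := fun j => div_nonneg (g3 j) (hd j).le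
        rcases hφ0.lt_or_eq with h | h
        · refine ⟨fun j => φ⁻¹ * ((X ⬝ᵥ α j + φ * β j) / d j),
            fun j => mul_nonneg (inv_pos.2 h).le (g4 j), ?_, ?_⟩
          · rw [← mul_sum, h2, inv_mul_cancel₀ h.ne']
          · simp only [mul_smul, ← smul_sum, h3, smul_inv_smul₀ h.ne']
        · have hc : (0 : ℝ) < Fintype.card J := by exact_mod_cast Fintype.card_pos
          refine ⟨fun _ => 1 / Fintype.card J, fun _ => by positivity, by simp [hc.ne'], ?_⟩
          have g5 := (sum_eq_zero_iff_of_nonneg fun j _ => g4 j).1 ((h2 X φ).trans h.symm)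
          rw [← h3 X φ, ← h, zero_smul]
          exact (sum_eq_zero fun j hj => by rw [h, g5 j hj, zero_smul]).symm
      have key : ∑ o : Option δ × J, (a o.1 * e o.2) • v o = Sum.elim y x := by
        funext c
        rw [Finset.sum_apply, Fintype.sum_prod_type]
        rcases c with i | c
        · simp only [v, Pi.smul_apply, Sum.elim_inl, smul_eq_mul, mul_right_comm _ (e _),
            ← mul_sum, he1, mul_one, Y, Pi.sub_apply, Pi.one_apply, mul_sub, sum_sub_distrib, ha1]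
          have := hS0 i
          simp [a, Fintype.sum_option, Pi.single_apply]
          field_simp; ring
        · have g6 := congrFun he c
          rw [← hφ] at g6
          simp only [Pi.smul_apply, Finset.sum_apply, Pi.sub_apply, smul_eq_mul] at g6
          simp only [v, Pi.smul_apply, Sum.elim_inr, smul_eq_mul, Pi.add_apply]
          rw [sum_congr rfl (g := fun o => a o * Z o c + a o * L o * ∑ j, e j * p j c)
            fun o _ => by
              rw [mul_sum, ← mul_one (a o * Z o c), ← he1, mul_sum, ← sum_add_distrib]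
              exact sum_congr rfl fun j _ => by ring,
            sum_add_distrib, ← sum_mul, g6]
          simp [a, Z, Fintype.sum_option]
      rw [← key]
      refine (convex_convexHull ℝ _).sum_mem (fun o _ => mul_nonneg (ha0 _) (he0 _)) ?_
        fun o _ => subset_convexHull ℝ _ ⟨o, rfl⟩
      rw [Fintype.sum_prod_type]
      simp only [← mul_sum, he1, mul_one, ha1]
  let F : (δ ⊕ κ → ℝ) →ₗ[ℝ] ℝ :=
    { toFun := fun q => -∑ i, q (.inl i)
      map_add' := fun p q => by simp [sum_add_distrib]; ring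
      map_smul' := fun t p => by simp [mul_sum] }
  let A : (κ → ℝ) →ₗ[ℝ] (δ ⊕ κ → ℝ) :=
    { toFun := fun x => Sum.elim 0 x
      map_add' := fun x y => by funext i; cases i <;> simp
      map_smul' := fun t x => by funext i; cases i <;> simp }
  have hA : ∀ x, A x + Sum.elim (-1 : δ → ℝ) (0 : κ → ℝ) = Sum.elim (-1) x := by
    intro x; funext i; cases i <;> simp [A]
  have hF : ∀ (y : δ → ℝ) (x : κ → ℝ),
      F (Sum.elim y x) = Fintype.card δ - ∑ i, (y i + 1) := by
    intro y x; simp [F, sum_add_distrib]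
  refine ⟨Set.range v, Set.range η, Set.finite_range _, ?_, Set.finite_range _, ?_, hVH, F,
    Fintype.card δ, A, Sum.elim (-1) 0, ?_, ?_, ?_, fun x => ?_⟩
  · rintro _ ⟨⟨o, j⟩, rfl⟩
    refine int_elim.2 ⟨?_, int_add ?_ (int_smul _ (hp j))⟩
    · simp only [Y, sub_eq_add_neg]
      refine int_add ?_ (int_neg int_one)
      rcases o with _ | i
      exacts [int_zero, int_single i _]
    · rcases o with _ | i
      exacts [int_zero, hz i]
  · rintro _ ⟨(_ | i) | j, rfl⟩
    · exact int_elim.2 ⟨int_neg (int_nat w), int_zero⟩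
    · exact int_elim.2 ⟨int_single i 1, int_zero⟩
    · exact int_elim.2 ⟨int_neg fun i => ⟨ε i j, rfl⟩, hα j⟩
  · intro q hq
    obtain ⟨y, x, rfl⟩ : ∃ y x, q = Sum.elim y x :=
      ⟨q ∘ .inl, q ∘ .inr, (Sum.elim_comp_inl_inr q).symm⟩
    rw [hVH] at hq
    rw [hF]
    linarith [sum_nonneg fun i (_ : i ∈ univ) => ((hH y x).1 hq).1.2 i]
  · intro x y hxy
    exact funext fun i => congrFun hxy (.inr i)
  · ext q
    obtain ⟨y, x, rfl⟩ : ∃ y x, q = Sum.elim y x :=
      ⟨q ∘ .inl, q ∘ .inr, (Sum.elim_comp_inl_inr q).symm⟩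
    simp only [hA, hVH, Set.mem_image, Set.mem_ofPred_eq]
    constructor
    · rintro ⟨x', hx', he⟩
      rw [← he, hH, hF]
      simpa using hx'
    · rintro ⟨g1, g2⟩
      rw [hF] at g2
      obtain ⟨⟨_, g3⟩, g4⟩ := (hH y x).1 g1
      have g5 := (sum_eq_zero_iff_of_nonneg fun i _ => g3 i).1 (by linarith)
      obtain rfl : y = -1 := funext fun i => by
        have := g5 i (mem_univ i)
        simp only [Pi.neg_apply, Pi.one_apply]
        linarith
      exact ⟨x, by simpa using g4, rfl⟩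
  · rw [hA, int_elim]
    exact ⟨fun h => ⟨int_neg int_one, h⟩, fun h => h.2⟩

lemma h72_sylv (r : ℕ) : ∃ w : ℕ → ℕ, ∑ i ∈ range r, w i + 1 = sylD r ∧
    ∀ i < r, w i * (sylD i + 1) = sylD r := by
  induction r with
  | zero => exact ⟨0, by simp [sylD], by simp⟩
  | succ r ih =>
    obtain ⟨w, h1, h2⟩ := ih
    refine ⟨fun i => if i < r then w i * (sylD r + 1) else sylD r, ?_, fun i hi => ?_⟩
    · rw [sum_range_succ, if_neg (lt_irrefl r),
        sum_congr rfl fun i hi => if_pos (mem_range.1 hi), ← sum_mul, sylD]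
      nlinarith
    · simp only [sylD]
      split_ifs with h
      · rw [mul_right_comm, h2 i h]
      · rw [show i = r by omega]

theorem h72_upper {n r k : ℕ} (t : ℕ → ℕ) (ht : ∀ j ≤ n + 2, 0 < t j)
    (h1 : t (n + 2) = 1) (hk : 0 < k) (c : ℕ → ℤ) (hc0 : c 0 = 0)
    (hc : ∀ j < n + 2, c (j + 1) * t j - c j * t (j + 1) =
      sylD (r + 1) * Nat.gcd (t j) (t (j + 1)))
    (hup : k - c (n + 2) ≤ ∑ i ∈ range (r + 1), (k - c (n + 2)) / (sylD i + 1 : ℤ)) :
    IsReflexiveFace (lectureHall fun i : Fin (n + 1) => k * t (i + 1)) (n + 1 + (r + 1)) := by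
  choose α hα β hβ using fun j : Fin (n + 2) =>
    h37_int (d := Nat.lcm (t j) (t (j + 1))) ht j.2 (Nat.dvd_lcm_left _ _) (Nat.dvd_lcm_right _ _)
  have htR : ∀ j ≤ n + 2, (0 : ℝ) < t j := fun j hj => by exact_mod_cast ht j hj
  have hd : ∀ j : Fin (n + 2), (0 : ℝ) < Nat.lcm (t j) (t (j + 1)) := fun j => by
    exact_mod_cast Nat.lcm_pos (ht _ (by omega)) (ht _ (by omega))
  have hq : ∀ (j : Fin (n + 2)) x l, (x ⬝ᵥ α j + l * β j) / Nat.lcm (t j) (t (j + 1)) =
      h37Y t x l (j + 1) - h37Y t x l j := fun j x l => by rw [hβ, mul_div_cancel_left₀ _ (hd j).ne']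
  obtain ⟨w, hw1, hw2⟩ := h72_sylv (r + 1)
  let x₀ : Fin (n + 1) → ℝ := fun i => c (i + 1)
  have hY : ∀ j ≤ n + 2, h37Y t x₀ (c (n + 2)) j = c j / t j := by
    intro j hj
    rcases j with _ | j
    · rw [h37Y_zero, hc0]; simp
    by_cases e : j = n + 1
    · rw [e, h37Y_last, h1]; simp
    · exact h37Y_mid (t := t) x₀ _ ⟨j, by omega⟩
  have hx₀ : ∀ j : Fin (n + 2), x₀ ⬝ᵥ α j + c (n + 2) * β j = sylD (r + 1) := by
    intro j
    have e1 : (c (j + 1) : ℝ) * t j - c j * t (j + 1) =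
        sylD (r + 1) * Nat.gcd (t j) (t (j + 1)) := by exact_mod_cast hc j j.2
    have e2 : (Nat.gcd (t j) (t (j + 1)) : ℝ) * Nat.lcm (t j) (t (j + 1)) = t j * t (j + 1) := by
      exact_mod_cast Nat.gcd_mul_lcm _ _
    have e3 := htR j (by omega)
    have e4 := htR (j + 1) (by omega)
    rw [hβ, hY _ (by omega), hY _ (by omega), div_sub_div _ _ e4.ne' e3.ne', mul_comm (t _ : ℝ) (c _),
      e1, mul_div_assoc', div_eq_iff (by positivity)]
    linear_combination (sylD (r + 1) : ℝ) * e2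
  let u : ℤ := k - c (n + 2)
  let m : Fin (r + 1) → ℤ := fun i => u / (sylD i + 1 : ℤ) -
    if i = 0 then ∑ i ∈ range (r + 1), u / (sylD i + 1 : ℤ) - u else 0
  have hm1 : ∑ i, m i = u := by
    simp only [m, sum_sub_distrib, sum_ite_eq', mem_univ, if_true]
    rw [Fin.sum_univ_eq_sum_range (fun i => u / (sylD i + 1 : ℤ))]
    ring
  have hm2 : ∀ i : Fin (r + 1), (sylD i + 1 : ℤ) * m i ≤ u := fun i => by
    have e0 : (0 : ℤ) < sylD i + 1 := by positivity
    refine le_trans (mul_le_mul_of_nonneg_left (show m i ≤ u / (sylD i + 1 : ℤ) from ?_) e0.le)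
      (Int.mul_ediv_self_le e0.ne')
    simp only [m]
    split_ifs
    · linarith
    · simp
  choose a ha using fun j => int_dot (x := x₀) (fun i => ⟨c (i + 1), rfl⟩) (hα j)
  have ha' : ∀ j, a j + c (n + 2) * β j = sylD (r + 1) := fun j => by
    have := hx₀ j
    rw [ha] at this
    exact_mod_cast this
  have hw1' : ∑ i : Fin (r + 1), w i + 1 = sylD (r + 1) := by
    rw [Fin.sum_univ_eq_sum_range w]; exact hw1
  have h := h72_fib (fun j : Fin (n + 2) => h37p t j) α β
    (fun j => Nat.lcm (t j) (t (j + 1))) (fun j => int_nat _) hα hd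
    (fun i j => by
      rw [← one_mul (β j : ℝ), hβ, h37Y_step ht]
      split_ifs <;> simp)
    (fun x l => by simp only [hq, h37Y_sum]) (fun x l => ?_)
    (fun i : Fin (r + 1) => w i) (fun i => sylD i + 1) hw1' (fun i => hw2 i i.2)
    (fun i j => w i + m i * β j - if i = 0 then a j else 0)
    (fun i => ((1 - if i = 0 then (sylD i + 1 : ℤ) else 0 : ℤ) : ℝ) • x₀)
    (fun i => int_smul _ fun i => ⟨c (i + 1), rfl⟩)
    (fun i => c (n + 2) + (sylD i + 1) * m i) (k := k) (fun i => by linarith [hm2 i])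
    (fun i j => by
      have e1 : (w i : ℝ) * (sylD i + 1) = sylD (r + 1) := by exact_mod_cast hw2 i i.2
      have e2 : (a j : ℝ) + c (n + 2) * β j = sylD (r + 1) := by exact_mod_cast ha' j
      rw [smul_dotProduct, ha, smul_eq_mul]
      split_ifs <;> push_cast <;> linear_combination e1 - e2)
    (fun j => by
      have e1 : ∑ i : Fin (r + 1), (w i : ℤ) + 1 = sylD (r + 1) := by exact_mod_cast hw1'
      simp only [sum_sub_distrib, sum_add_distrib, ← sum_mul, hm1, sum_ite_eq', mem_univ, if_true, u]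
      linear_combination e1 - ha' j)
  · have hkR : (0 : ℝ) < k := by exact_mod_cast hk
    have e : {x : Fin (n + 1) → ℝ | ∀ j, 0 ≤ x ⬝ᵥ α j + k * β j} =
        lectureHall fun i : Fin (n + 1) => k * t (i + 1) := by
      ext x
      have e1 : x ∈ lectureHall (fun i : Fin (n + 1) => k * t (i + 1)) ↔
          (k : ℝ)⁻¹ • x ∈ lectureHall fun i : Fin (n + 1) => t (i + 1) := by
        simp only [lectureHall, Set.mem_ofPred_eq, Pi.smul_apply, smul_eq_mul, Nat.cast_mul,
          ← div_div, inv_mul_eq_div]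
      rw [e1, h37_mem]
      refine forall_congr' fun j => ?_
      rw [← hq, smul_dotProduct, smul_eq_mul, le_div_iff₀ (hd j), zero_mul,
        ← mul_nonneg_iff_of_pos_left hkR (b := _ + 1 * _), mul_add, mul_inv_cancel_left₀ hkR.ne',
        one_mul]
    rw [e] at h
    exact (h.reindex (Fintype.equivOfCardEq (by simp; omega))).isReflexiveFace
  · funext i
    have h0 : (t (i + 1) : ℝ) ≠ 0 := by exact_mod_cast (ht _ (by omega)).ne'
    simp only [hq, Finset.sum_apply, Pi.smul_apply, smul_eq_mul, h37p]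
    rw [Fin.sum_univ_eq_sum_range (fun j => (h37Y t x l (j + 1) - h37Y t x l j) *
      ((if j ≤ i then t (i + 1) else 0 : ℕ) : ℝ)),
      ← sum_range_add_sum_Ico _ (show (i : ℕ) + 1 ≤ n + 2 by omega),
      sum_eq_zero (s := Ico _ _) fun j hj => by
        rw [if_neg (by have := (mem_Ico.1 hj).1; omega)]; simp,
      sum_congr rfl fun j hj => by rw [if_pos (by have := mem_range.1 hj; omega)],
      ← sum_mul, sum_range_sub, h37Y_zero, h37Y_mid, sub_zero, add_zero, div_mul_cancel₀ _ h0]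

theorem h72_exact {n r k : ℕ} (t : ℕ → ℕ) (ht : ∀ j ≤ n + 2, 0 < t j)
    (h1 : t (n + 2) = 1) (c : ℕ → ℤ) (hc0 : c 0 = 0)
    (hc : ∀ j < n + 2, c (j + 1) * t j - c j * t (j + 1) =
      sylD (r + 1) * Nat.gcd (t j) (t (j + 1)))
    (hup : k - c (n + 2) ≤ ∑ i ∈ range (r + 1), (k - c (n + 2)) / (sylD i + 1 : ℤ))
    (i : Fin (n + 1))
    (hlow : sylD r * (∑ j : Fin (n + 1), 1 / (t (j + 1) : ℝ) + 1 / t (i + 1)) < k) :
    IsLeast {m | IsReflexiveFace (lectureHall fun i : Fin (n + 1) => k * t (i + 1)) m}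
      (n + 1 + (r + 1)) := by
  have hkR : (0 : ℝ) < k := lt_of_le_of_lt (by positivity) hlow
  have hk : 0 < k := by exact_mod_cast hkR
  refine ⟨h72_upper t ht h1 hk c hc0 hc hup, fun m hm => ?_⟩
  obtain ⟨h2, h3⟩ := h72_lower _ (fun j => Nat.mul_pos hk (ht _ (by omega))) hm i
  by_contra hlt
  have h4 : (sylD (m - (n + 1)) : ℝ) ≤ sylD r := by exact_mod_cast sylD_mono (by omega)
  simp only [Nat.cast_mul, ← div_div, div_right_comm 1 (k : ℝ), ← sum_div, ← add_div,
    ← mul_div_assoc, le_div_iff₀ hkR] at h3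
  have h5 : 0 ≤ ∑ j : Fin (n + 1), 1 / (t (j + 1) : ℝ) + 1 / t (i + 1) := by positivity
  nlinarith

/-- The constant sequence. -/
theorem h72_const {n r k : ℕ} (hlow : (n + 2) * sylD r < k)
    (hup : k ≤ n + 2 + ∑ i ∈ range (r + 1), k / (sylD i + 1)) :
    IsLeast {m | IsReflexiveFace (lectureHall fun _ : Fin (n + 1) => k) m} (n + 1 + (r + 1)) := by
  obtain ⟨w, hw1, hw2⟩ := h72_sylv (r + 1)
  have h := h72_exact (n := n) (r := r) (k := k) (fun _ => 1) (fun _ _ => one_pos) rfl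
    (fun j => j * sylD (r + 1)) (by simp) (fun j _ => by push_cast; simp; ring) ?_ 0 ?_
  · simpa using h
  · have e : ∀ i ∈ range (r + 1), ((k : ℤ) - (n + 2 : ℕ) * sylD (r + 1)) / (sylD i + 1 : ℤ) =
        (k / (sylD i + 1) : ℕ) - (n + 2 : ℕ) * w i := fun i hi => by
      have e1 : (w i : ℤ) * (sylD i + 1) = sylD (r + 1) := by exact_mod_cast hw2 i (mem_range.1 hi)
      rw [← e1, ← mul_assoc, Int.sub_mul_ediv_right _ _ (by positivity)]
      push_cast; rfl
    have e1 : ∑ i ∈ range (r + 1), (w i : ℤ) + 1 = sylD (r + 1) := by exact_mod_cast hw1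
    have e2 : (k : ℤ) ≤ (n + 2 : ℕ) + ∑ i ∈ range (r + 1), ((k / (sylD i + 1) : ℕ) : ℤ) := by
      exact_mod_cast hup
    rw [sum_congr rfl e, sum_sub_distrib, ← mul_sum, ← e1]
    linarith
  · have : ((n + 2) * sylD r : ℝ) < k := by exact_mod_cast hlow
    simp
    linarith

end Pool.Agent.Lib.MP_892d22_co
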