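import Pool.Agent.Lib.MP_892d22_co.H72Low

namespace Pool.Agent.Lib.MP_892d22_co

open Matrix Finset

lemma h72_fibw {κ J δ : Type} [Fintype κ] [Fintype J] [Nonempty J] [Fintype δ] [DecidableEq δ]
    (p α : J → κ → ℝ) (β : J → ℤ) (d : J → ℝ) (hp : ∀ j, p j ∈ intPts κ)
    (hα : ∀ j, α j ∈ intPts κ) (hd : ∀ j, 0 < d j) (h1 : ∀ i j, 0 ≤ p i ⬝ᵥ α j + β j)
    (h2 : ∀ (x : κ → ℝ) (l : ℝ), ∑ j, (x ⬝ᵥ α j + l * β j) / d j = l)
    (h3 : ∀ (x : κ → ℝ) (l : ℝ), ∑ j, ((x ⬝ᵥ α j + l * β j) / d j) • p j = x)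
    (w S m : δ → ℕ) {W k : ℕ} (hW : ∑ i, w i + 1 = W) (hS : ∀ i, w i * S i = W)
    (z : κ → ℝ) (hz : z ∈ intPts κ)
    (hzW : ∀ j, z ⬝ᵥ α j + (k + ∑ i, (m i : ℝ) * w i) * β j = W) :
    Cert {x : κ → ℝ | ∀ j, 0 ≤ x ⬝ᵥ α j + k * β j} (δ ⊕ κ) := by
  have hW0 : (0 : ℝ) < W := by exact_mod_cast (show 0 < W by omega)
  have hS' : ∀ i, (w i : ℝ) * S i = W := fun i => by exact_mod_cast hS i
  have hW' : ∑ i, (w i : ℝ) = W - 1 := by
    have : ∑ i, (w i : ℝ) + 1 = W := by exact_mod_cast hW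
    linarith
  have hS0 : ∀ i, (0 : ℝ) < S i := fun i => by
    rcases (Nat.cast_nonneg (α := ℝ) (S i)).lt_or_eq with h | h
    · exact h
    · have := hS' i
      rw [← h, mul_zero] at this; linarith
  let Y : Option δ → δ → ℝ := fun o =>
    o.elim (-fun i => (w i : ℝ)) fun i => Pi.single i ((1 : ℕ) : ℝ)
  let Z : Option δ → κ → ℝ := fun o => o.elim (-z) 0
  let L : Option δ → ℕ := fun o => o.elim k m
  let a : (δ → ℝ) → Option δ → ℝ := fun y o =>
    o.elim ((1 - ∑ i, y i) / W) fun i => y i + w i * ((1 - ∑ i, y i) / W)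
  have ha1 : ∀ y, ∑ o, a y o = 1 := fun y => by
    simp only [a, Fintype.sum_option, Option.elim_none, Option.elim_some, sum_add_distrib,
      ← sum_mul, hW']
    field_simp; ring
  have ha2 : ∀ y i, ∑ o, a y o * Y o i = y i := fun y i => by
    simp [a, Y, Fintype.sum_option, Pi.single_apply]; ring
  have ha3 : ∀ o o', a (Y o) o' = if o' = o then 1 else 0 := by
    rintro (_ | i) (_ | i')
    · simp [a, Y, hW', hW0.ne']
    · simp [a, Y, hW', hW0.ne']
    · simp [a, Y]
    · simp [a, Y, Pi.single_apply]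
  let v : Option δ × J → δ ⊕ κ → ℝ := fun o => Sum.elim (Y o.1) (Z o.1 + (L o.1 : ℝ) • p o.2)
  let η : Option δ ⊕ J → δ ⊕ κ → ℝ := Sum.elim
    (fun o => Sum.elim (o.elim 0 (fun i => Pi.single i (S i : ℝ)) - 1) 0)
    fun j => Sum.elim (fun i => ((m i * β j - 1 : ℤ) : ℝ)) (α j)
  have hH : ∀ (y : δ → ℝ) (x : κ → ℝ), (∀ e ∈ Set.range η, -1 ≤ Sum.elim y x ⬝ᵥ e) ↔
      (∀ o, 0 ≤ a y o) ∧ ∀ j,
        0 ≤ (x - ∑ o, a y o • Z o) ⬝ᵥ α j + (∑ o, a y o * L o) * β j := by
    intro y x
    rw [Set.forall_mem_range, Sum.forall, Option.forall, Option.forall]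
    simp only [η, Sum.elim_inl, Sum.elim_inr, sumElim_dotProduct_sumElim, Option.elim_none,
      Option.elim_some, dotProduct_zero, add_zero, dotProduct_single, dotProduct_sub,
      dotProduct_one]
    refine and_congr (and_congr ?_ (forall_congr' fun i => ?_)) (forall_congr' fun j => ?_)
    · simp only [a, Option.elim_none]
      rw [le_div_iff₀ hW0]
      constructor <;> intro <;> linarith
    · have e : a y (some i) * S i = y i * S i - ∑ i, y i + 1 := by
        simp only [a, Option.elim_some]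
        rw [add_mul, mul_right_comm, hS' i]
        field_simp; ring
      rw [← mul_nonneg_iff_of_pos_right (hS0 i), e]
      constructor <;> intro <;> linarith
    · have e : (x - ∑ o, a y o • Z o) ⬝ᵥ α j + (∑ o, a y o * L o) * β j =
          (y ⬝ᵥ fun i => ((m i * β j - 1 : ℤ) : ℝ)) + x ⬝ᵥ α j + 1 := by
        have e1 : (y ⬝ᵥ fun i => ((m i * β j - 1 : ℤ) : ℝ)) =
            (∑ i, y i * m i) * β j - ∑ i, y i := by
          rw [dotProduct, sum_mul, ← sum_sub_distrib]
          exact sum_congr rfl fun i _ => by push_cast; ring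
        have e2 : ∑ i, (y i + w i * ((1 - ∑ i, y i) / W)) * m i =
            ∑ i, y i * m i + (1 - ∑ i, y i) / W * ∑ i, (m i : ℝ) * w i := by
          rw [mul_sum, ← sum_add_distrib]
          exact sum_congr rfl fun i _ => by ring
        have e3 : (1 - ∑ i, y i) / W * W = 1 - ∑ i, y i := div_mul_cancel₀ _ hW0.ne'
        simp only [a, Z, L, Fintype.sum_option, Option.elim_none, Option.elim_some, Pi.zero_apply,
          smul_zero, sum_const_zero, add_zero, smul_neg, sub_neg_eq_add, add_dotProduct,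
          smul_dotProduct, smul_eq_mul, e1, e2]
        linear_combination (1 - ∑ i, y i) / W * hzW j + e3
      rw [e]
      constructor <;> intro <;> linarith
  have hVH : convexHull ℝ (Set.range v) = {x | ∀ e ∈ Set.range η, -1 ≤ x ⬝ᵥ e} := by
    apply Set.Subset.antisymm
    · refine convexHull_min ?_ (convex_halfspaces _)
      rintro _ ⟨⟨o, j⟩, rfl⟩
      refine (hH _ _).2 ⟨fun o' => by rw [ha3]; split_ifs <;> norm_num, fun j' => ?_⟩
      simp only [ha3, ite_smul, one_smul, zero_smul, sum_ite_eq', mem_univ, if_true, ite_mul,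
        one_mul, zero_mul, add_sub_cancel_left, smul_dotProduct, smul_eq_mul, ← mul_add]
      exact mul_nonneg (Nat.cast_nonneg _) (h1 j j')
    · intro q hq
      obtain ⟨y, x, rfl⟩ : ∃ y x, q = Sum.elim y x :=
        ⟨q ∘ .inl, q ∘ .inr, (Sum.elim_comp_inl_inr q).symm⟩
      obtain ⟨ha0, g3⟩ := (hH y x).1 hq
      have hφ0 : 0 ≤ ∑ o, a y o * L o :=
        sum_nonneg fun o _ => mul_nonneg (ha0 o) (Nat.cast_nonneg _)
      obtain ⟨e, he0, he1, he⟩ : ∃ e : J → ℝ, (∀ j, 0 ≤ e j) ∧ ∑ j, e j = 1 ∧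
          (∑ o, a y o * L o) • ∑ j, e j • p j = x - ∑ o, a y o • Z o := by
        generalize ∑ o, a y o * L o = φ at hφ0 g3
        generalize x - ∑ o, a y o • Z o = X at g3
        have g4 : ∀ j, 0 ≤ (X ⬝ᵥ α j + φ * β j) / d j := fun j => div_nonneg (g3 j) (hd j).le
        rcases hφ0.lt_or_eq with h | h
        · refine ⟨fun j => φ⁻¹ * ((X ⬝ᵥ α j + φ * β j) / d j),
            fun j => mul_nonneg (inv_pos.2 h).le (g4 j), ?_, ?_⟩
          · rw [← mul_sum, h2, inv_mul_cancel₀ h.ne']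
          · simp only [mul_smul, ← smul_sum, h3, smul_inv_smul₀ h.ne']
        · have hc : (0 : ℝ) < Fintype.card J := by exact_mod_cast Fintype.card_pos
          refine ⟨fun _ => 1 / Fintype.card J, fun _ => by positivity, by simp [hc.ne'], ?_⟩
          have g5 := (sum_eq_zero_iff_of_nonneg fun j _ => g4 j).1 ((h2 X φ).trans h.symm)
          rw [← h3 X φ, ← h, zero_smul]
          exact (sum_eq_zero fun j hj => by rw [h, g5 j hj, zero_smul]).symm
      have key : ∑ o : Option δ × J, (a y o.1 * e o.2) • v o = Sum.elim y x := by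
        funext c
        rw [Finset.sum_apply, Fintype.sum_prod_type]
        rcases c with i | c
        · simp only [v, Pi.smul_apply, Sum.elim_inl, smul_eq_mul, mul_right_comm _ (e _),
            ← mul_sum, he1, mul_one, ha2]
        · have g6 := congrFun he c
          simp only [Pi.smul_apply, Finset.sum_apply, Pi.sub_apply, smul_eq_mul] at g6
          simp only [v, Pi.smul_apply, Sum.elim_inr, smul_eq_mul, Pi.add_apply]
          rw [sum_congr rfl (g := fun o => a y o * Z o c + a y o * L o * ∑ j, e j * p j c)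
            fun o _ => by
              rw [mul_sum, ← mul_one (a y o * Z o c), ← he1, mul_sum, ← sum_add_distrib]
              exact sum_congr rfl fun j _ => by ring,
            sum_add_distrib, ← sum_mul, g6]
          ring
      rw [← key]
      refine (convex_convexHull ℝ _).sum_mem (fun o _ => mul_nonneg (ha0 _) (he0 _)) ?_
        fun o _ => subset_convexHull ℝ _ ⟨o, rfl⟩
      rw [Fintype.sum_prod_type]
      simp only [← mul_sum, he1, mul_one, ha1]
  let F : (δ ⊕ κ → ℝ) →ₗ[ℝ] ℝ :=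
    { toFun := fun q => -∑ i, q (.inl i)
      map_add' := fun p q => by simp [sum_add_distrib]; ring
      map_smul' := fun t p => by simp [mul_sum] }
  let A : (κ → ℝ) →ₗ[ℝ] (δ ⊕ κ → ℝ) :=
    { toFun := fun x => Sum.elim 0 x
      map_add' := fun x y => by funext i; cases i <;> simp
      map_smul' := fun t x => by funext i; cases i <;> simp }
  have hA : ∀ x, A x + Sum.elim (Y none) (-z) = Sum.elim (Y none) (x - z) := by
    intro x; funext i; cases i <;> simp [A, sub_eq_add_neg]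
  have hF : ∀ (y : δ → ℝ) (x : κ → ℝ),
      F (Sum.elim y x) = W - 1 - W * ∑ i, a y (some i) := by
    intro y x
    have e1 := ha1 y
    rw [Fintype.sum_option] at e1
    have e2 : W * a y none = 1 - ∑ i, y i := mul_div_cancel₀ _ hW0.ne'
    simp only [F, LinearMap.coe_mk, AddHom.coe_mk, Sum.elim_inl]
    linear_combination -e2 + W * e1
  have hY0 : Y none ∈ intPts δ := int_neg (int_nat w)
  refine ⟨Set.range v, Set.range η, Set.finite_range _, ?_, Set.finite_range _, ?_, hVH, F,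
    W - 1, A, Sum.elim (Y none) (-z), ?_, ?_, ?_, fun x => ?_⟩
  · rintro _ ⟨⟨o, j⟩, rfl⟩
    refine int_elim.2 ⟨?_, int_add ?_ (by simpa using int_smul (L o) (hp j))⟩
    · rcases o with _ | i
      exacts [hY0, int_single i 1]
    · rcases o with _ | i
      exacts [int_neg hz, int_zero]
  · rintro _ ⟨o | j, rfl⟩
    · refine int_elim.2 ⟨?_, int_zero⟩
      rw [sub_eq_add_neg]
      refine int_add ?_ (int_neg int_one)
      rcases o with _ | i
      exacts [int_zero, int_single i _]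
    · exact int_elim.2 ⟨fun i => ⟨_, rfl⟩, hα j⟩
  · intro q hq
    obtain ⟨y, x, rfl⟩ : ∃ y x, q = Sum.elim y x :=
      ⟨q ∘ .inl, q ∘ .inr, (Sum.elim_comp_inl_inr q).symm⟩
    rw [hVH] at hq
    rw [hF]
    linarith [mul_nonneg hW0.le (sum_nonneg fun i (_ : i ∈ univ) => ((hH y x).1 hq).1 (some i))]
  · intro x y hxy
    exact funext fun i => congrFun hxy (.inr i)
  · ext q
    obtain ⟨y, x, rfl⟩ : ∃ y x, q = Sum.elim y x :=
      ⟨q ∘ .inl, q ∘ .inr, (Sum.elim_comp_inl_inr q).symm⟩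
    simp only [hA, hVH, Set.mem_image, Set.mem_ofPred_eq]
    constructor
    · rintro ⟨x', hx', he⟩
      rw [← he, hH, hF]
      refine ⟨⟨fun o' => by rw [ha3]; split_ifs <;> norm_num, fun j => ?_⟩, by simp [ha3]⟩
      simpa [ha3, Z, L] using hx' j
    · rintro ⟨g1, g2⟩
      rw [hF] at g2
      obtain ⟨g3, g4⟩ := (hH y x).1 g1
      have g5 := (sum_eq_zero_iff_of_nonneg fun i _ => g3 (some i)).1
        ((mul_eq_zero.1 (by linarith : W * ∑ i, a y (some i) = 0)).resolve_left hW0.ne')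
      have g6 : a y none = 1 := by
        have e1 := ha1 y
        rw [Fintype.sum_option, sum_eq_zero g5, add_zero] at e1
        exact e1
      obtain rfl : y = Y none := funext fun i => by
        rw [← ha2 y i, Fintype.sum_option, g6, one_mul,
          sum_eq_zero fun i' hi' => by rw [g5 i' hi', zero_mul], add_zero]
      exact ⟨x + z, fun j => by simpa [ha3, Z, L] using g4 j, by simp⟩
  · rw [hA, int_elim]
    refine ⟨fun h => ⟨hY0, by simpa [sub_eq_add_neg] using int_add h (int_neg hz)⟩, fun h => ?_⟩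
    simpa using int_add h.2 hz

theorem h72_upperw {n R k W : ℕ} (t : ℕ → ℕ) (ht : ∀ j ≤ n + 2, 0 < t j)
    (h1 : t (n + 2) = 1) (hk : 0 < k) (w m : Fin R → ℕ) (hW : ∑ i, w i + 1 = W)
    (hw : ∀ i, w i ∣ W) (c : ℕ → ℤ) (hc0 : c 0 = 0)
    (hc : ∀ j < n + 2, c (j + 1) * t j - c j * t (j + 1) = W * Nat.gcd (t j) (t (j + 1)))
    (hup : c (n + 2) = k + ∑ i, m i * w i) :
    IsReflexiveFace (lectureHall fun i : Fin (n + 1) => k * t (i + 1)) (n + 1 + R) := by
  choose α hα β hβ using fun j : Fin (n + 2) =>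
    h37_int (d := Nat.lcm (t j) (t (j + 1))) ht j.2 (Nat.dvd_lcm_left _ _) (Nat.dvd_lcm_right _ _)
  have htR : ∀ j ≤ n + 2, (0 : ℝ) < t j := fun j hj => by exact_mod_cast ht j hj
  have hd : ∀ j : Fin (n + 2), (0 : ℝ) < Nat.lcm (t j) (t (j + 1)) := fun j => by
    exact_mod_cast Nat.lcm_pos (ht _ (by omega)) (ht _ (by omega))
  have hq : ∀ (j : Fin (n + 2)) x l, (x ⬝ᵥ α j + l * β j) / Nat.lcm (t j) (t (j + 1)) =
      h37Y t x l (j + 1) - h37Y t x l j := fun j x l => by rw [hβ, mul_div_cancel_left₀ _ (hd j).ne']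
  choose S hS using hw
  let x₀ : Fin (n + 1) → ℝ := fun i => c (i + 1)
  have hY : ∀ j ≤ n + 2, h37Y t x₀ (c (n + 2)) j = c j / t j := by
    intro j hj
    rcases j with _ | j
    · rw [h37Y_zero, hc0]; simp
    by_cases e : j = n + 1
    · rw [e, h37Y_last, h1]; simp
    · exact h37Y_mid (t := t) x₀ _ ⟨j, by omega⟩
  have hx₀ : ∀ j : Fin (n + 2), x₀ ⬝ᵥ α j + c (n + 2) * β j = W := by
    intro j
    have e1 : (c (j + 1) : ℝ) * t j - c j * t (j + 1) =
        W * Nat.gcd (t j) (t (j + 1)) := by exact_mod_cast hc j j.2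
    have e2 : (Nat.gcd (t j) (t (j + 1)) : ℝ) * Nat.lcm (t j) (t (j + 1)) = t j * t (j + 1) := by
      exact_mod_cast Nat.gcd_mul_lcm _ _
    have e3 := htR j (by omega)
    have e4 := htR (j + 1) (by omega)
    rw [hβ, hY _ (by omega), hY _ (by omega), div_sub_div _ _ e4.ne' e3.ne', mul_comm (t _ : ℝ) (c _),
      e1, mul_div_assoc', div_eq_iff (by positivity)]
    linear_combination (W : ℝ) * e2
  have hup' : (c (n + 2) : ℝ) = k + ∑ i, (m i : ℝ) * w i := by exact_mod_cast hup
  have h := h72_fibw (fun j : Fin (n + 2) => h37p t j) α β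
    (fun j => Nat.lcm (t j) (t (j + 1))) (fun j => int_nat _) hα hd
    (fun i j => by
      rw [← one_mul (β j : ℝ), hβ, h37Y_step ht]
      split_ifs <;> simp)
    (fun x l => by simp only [hq, h37Y_sum]) (fun x l => ?_)
    w S m (k := k) hW (fun i => (hS i).symm) x₀ (fun i => ⟨c (i + 1), rfl⟩)
    (fun j => by rw [← hup', hx₀])
  · have hkR : (0 : ℝ) < k := by exact_mod_cast hk
    have e : {x : Fin (n + 1) → ℝ | ∀ j, 0 ≤ x ⬝ᵥ α j + k * β j} =
        lectureHall fun i : Fin (n + 1) => k * t (i + 1) := by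
      ext x
      have e1 : x ∈ lectureHall (fun i : Fin (n + 1) => k * t (i + 1)) ↔
          (k : ℝ)⁻¹ • x ∈ lectureHall fun i : Fin (n + 1) => t (i + 1) := by
        simp only [lectureHall, Set.mem_ofPred_eq, Pi.smul_apply, smul_eq_mul, Nat.cast_mul,
          ← div_div, inv_mul_eq_div]
      rw [e1, h37_mem]
      refine forall_congr' fun j => ?_
      rw [← hq, smul_dotProduct, smul_eq_mul, le_div_iff₀ (hd j), zero_mul,
        ← mul_nonneg_iff_of_pos_left hkR (b := _ + 1 * _), mul_add, mul_inv_cancel_left₀ hkR.ne',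
        one_mul]
    rw [e] at h
    exact (h.reindex (Fintype.equivOfCardEq (by simp; omega))).isReflexiveFace
  · funext i
    have h0 : (t (i + 1) : ℝ) ≠ 0 := by exact_mod_cast (ht _ (by omega)).ne'
    simp only [hq, Finset.sum_apply, Pi.smul_apply, smul_eq_mul, h37p]
    rw [Fin.sum_univ_eq_sum_range (fun j => (h37Y t x l (j + 1) - h37Y t x l j) *
      ((if j ≤ i then t (i + 1) else 0 : ℕ) : ℝ)),
      ← sum_range_add_sum_Ico _ (show (i : ℕ) + 1 ≤ n + 2 by omega),
      sum_eq_zero (s := Ico _ _) fun j hj => by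
        rw [if_neg (by have := (mem_Ico.1 hj).1; omega)]; simp,
      sum_congr rfl fun j hj => by rw [if_pos (by have := mem_range.1 hj; omega)],
      ← sum_mul, sum_range_sub, h37Y_zero, h37Y_mid, sub_zero, add_zero, div_mul_cancel₀ _ h0]

theorem h72_exactw {n r k W : ℕ} (t : ℕ → ℕ) (ht : ∀ j ≤ n + 2, 0 < t j)
    (h1 : t (n + 2) = 1) (w m : Fin (r + 1) → ℕ) (hW : ∑ i, w i + 1 = W)
    (hw : ∀ i, w i ∣ W) (c : ℕ → ℤ) (hc0 : c 0 = 0)
    (hc : ∀ j < n + 2, c (j + 1) * t j - c j * t (j + 1) = W * Nat.gcd (t j) (t (j + 1)))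
    (hup : c (n + 2) = k + ∑ i, m i * w i) (i : Fin (n + 1))
    (hlow : sylD r * (∑ j : Fin (n + 1), 1 / (t (j + 1) : ℝ) + 1 / t (i + 1)) < k) :
    IsLeast {m | IsReflexiveFace (lectureHall fun i : Fin (n + 1) => k * t (i + 1)) m}
      (n + 1 + (r + 1)) := by
  have hkR : (0 : ℝ) < k := lt_of_le_of_lt (by positivity) hlow
  have hk : 0 < k := by exact_mod_cast hkR
  refine ⟨h72_upperw t ht h1 hk w m hW hw c hc0 hc hup, fun m hm => ?_⟩
  obtain ⟨h2, h3⟩ := h72_lower _ (fun j => Nat.mul_pos hk (ht _ (by omega))) hm i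
  by_contra hlt
  have h4 : (sylD (m - (n + 1)) : ℝ) ≤ sylD r := by exact_mod_cast sylD_mono (by omega)
  simp only [Nat.cast_mul, ← div_div, div_right_comm 1 (k : ℝ), ← sum_div, ← add_div,
    ← mul_div_assoc, le_div_iff₀ hkR] at h3
  have h5 : 0 ≤ ∑ j : Fin (n + 1), 1 / (t (j + 1) : ℝ) + 1 / t (i + 1) := by positivity
  nlinarith

/-- Instance: constant sequences, the doubling window, every dimension and codimension. -/
theorem h72_double {n r k : ℕ} (hlow : (n + 2) * sylD r < k) (hup : k ≤ (n + 2) * (2 * sylD r)) :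
    IsLeast {m | IsReflexiveFace (lectureHall fun _ : Fin (n + 1) => k) m} (n + 1 + (r + 1)) := by
  obtain ⟨w, hw1, hw2⟩ : ∃ w : ℕ → ℕ, ∑ i ∈ range r, w i + 1 = sylD r ∧
      ∀ i < r, w i * (sylD i + 1) = sylD r := by
    clear hlow hup
    induction r with
    | zero => exact ⟨0, by simp [sylD], by simp⟩
    | succ r ih =>
      obtain ⟨w, h1, h2⟩ := ih
      refine ⟨fun i => if i < r then w i * (sylD r + 1) else sylD r, ?_, fun i hi => ?_⟩
      · rw [sum_range_succ, if_neg (lt_irrefl r),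
          sum_congr rfl fun i hi => if_pos (mem_range.1 hi), ← sum_mul, sylD]
        nlinarith
      · simp only [sylD]
        split_ifs with h
        · rw [mul_right_comm, h2 i h]
        · rw [show i = r by omega]
  have h := h72_exactw (n := n) (r := r) (k := k) (W := 2 * sylD r) (fun _ => 1)
    (fun _ _ => one_pos) rfl (Fin.cons 1 fun i => 2 * w i)
    (Fin.cons ((n + 2) * (2 * sylD r) - k) 0) ?_ ?_
    (fun j => j * (2 * sylD r : ℕ)) (by simp) (fun j _ => by push_cast; simp; ring) ?_ 0 ?_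
  · simpa using h
  · rw [Fin.sum_univ_succ]
    simp only [Fin.cons_zero, Fin.cons_succ, ← mul_sum]
    rw [Fin.sum_univ_eq_sum_range w]
    omega
  · refine Fin.cases (by simp) fun i => ?_
    simp only [Fin.cons_succ]
    exact Nat.mul_dvd_mul_left 2 ⟨_, (hw2 i i.2).symm⟩
  · rw [Fin.sum_univ_succ]
    simp [Nat.cast_sub hup]
  · have : ((n + 2) * sylD r : ℝ) < k := by exact_mod_cast hlow
    simp
    linarith

end Pool.Agent.Lib.MP_892d22_co
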