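import Pool.Agent.Lib.MP_892d22_co.H72Syl

namespace Pool.Agent.Lib.MP_892d22_co

open Finset

/-- One multiplier makes all residues small. -/
lemma h9_digits (M : ℕ) (hM : 0 < M) (y : ℕ → ℕ) (u : ℤ) (J : ℕ) (hy : ∀ a < J, 0 < y a) :
    ∃ t ≤ J * M ^ J, ∀ a < J, ∃ m : ℕ, m * M ≤ y a + J * M ^ (J + 1) ∧
      (y a : ℤ) ∣ u + t * (y a / M ^ (a + 1) + 1 : ℕ) - m := by
  induction J with
  | zero => exact ⟨0, by simp, by simp⟩
  | succ J ih =>
    obtain ⟨t, ht, h⟩ := ih fun a ha => hy a (by omega)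
    have hn : ∀ a, ∃ ρ ≤ M ^ (a + 1), 0 < ρ ∧
        M ^ (a + 1) * (y a / M ^ (a + 1) + 1) = y a + ρ := by
      intro a
      have h1 := Nat.div_add_mod (y a) (M ^ (a + 1))
      have h2 := Nat.mod_lt (y a) (pow_pos hM (a + 1))
      refine ⟨M ^ (a + 1) - y a % M ^ (a + 1), Nat.sub_le _ _, Nat.sub_pos_of_lt h2, ?_⟩
      rw [mul_add]
      generalize y a % M ^ (a + 1) = q at h1 h2
      omega
    have hyJ := hy J (by omega)
    have hyJ' : (0 : ℤ) < y J := by exact_mod_cast hyJ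
    obtain ⟨ρJ, hρ1, hρ2, hρ3⟩ := hn J
    generalize hnJ : y J / M ^ (J + 1) + 1 = nJ at hρ3
    obtain ⟨s, hs⟩ : ∃ s, s = M ^ J * nJ := ⟨_, rfl⟩
    have hsM : s * M = y J + ρJ := by rw [← hρ3, hs]; ring
    have hs0 : 0 < s := Nat.pos_of_ne_zero fun e => by rw [e] at hsM; omega
    obtain ⟨ρ, hρ⟩ : ∃ ρ : ℕ, (ρ : ℤ) = (u + t * nJ) % y J :=
      ⟨_, Int.toNat_of_nonneg (Int.emod_nonneg _ hyJ'.ne')⟩
    have hρlt : ρ < y J := by
      have := Int.emod_lt_of_pos (u + t * nJ) hyJ'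
      omega
    obtain ⟨c, hc⟩ : ∃ c, c = (y J - ρ - 1) / s := ⟨_, rfl⟩
    have hc1 := Nat.div_add_mod (y J - ρ - 1) s
    have hc2 := Nat.mod_lt (y J - ρ - 1) hs0
    rw [← hc] at hc1
    have hcM : c + 1 ≤ M := by
      by_contra hlt
      have : s * M ≤ s * c := Nat.mul_le_mul_left _ (by omega)
      omega
    have hpow : ∀ e, M ^ e ≤ M ^ (e + 1) := fun e => Nat.pow_le_pow_right hM (by omega)
    have hA : J * M ^ (J + 1) ≤ J * M ^ (J + 1 + 1) := Nat.mul_le_mul_left _ (hpow _)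
    refine ⟨t + (c + 1) * M ^ J, ?_, fun a ha => ?_⟩
    · have h1 : (c + 1) * M ^ J ≤ M * M ^ J := Nat.mul_le_mul_right _ hcM
      have h2 : J * M ^ J ≤ J * M ^ (J + 1) := Nat.mul_le_mul_left _ (hpow _)
      rw [← pow_succ'] at h1
      rw [add_mul J 1, one_mul]
      omega
    rcases Nat.lt_succ_iff_lt_or_eq.1 ha with ha | rfl
    · obtain ⟨m, hm1, hm2⟩ := h a ha
      obtain ⟨ρa, h1, -, h3⟩ := hn a
      obtain ⟨e, rfl⟩ : ∃ e, J = a + 1 + e := ⟨J - (a + 1), by omega⟩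
      refine ⟨m + (c + 1) * M ^ e * ρa, ?_, ?_⟩
      · have h4 : (c + 1) * M ^ e * ρa * M ≤ M * M ^ e * M ^ (a + 1) * M := by gcongr
        have h5 : M * M ^ e * M ^ (a + 1) * M = M ^ (a + 1 + e + 1 + 1) := by ring
        rw [add_mul, add_mul (a + 1 + e) 1, one_mul]
        omega
      · have h4 : (M : ℤ) ^ (a + 1) * (y a / M ^ (a + 1) + 1 : ℕ) = y a + ρa := by
          exact_mod_cast h3
        generalize ((y a / M ^ (a + 1) + 1 : ℕ) : ℤ) = na at h4 hm2 ⊢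
        have h5 : u + (t + (c + 1) * M ^ (a + 1 + e) : ℕ) * na - (m + (c + 1) * M ^ e * ρa : ℕ) =
            (u + t * na - m) + y a * ((c + 1) * M ^ e) := by
          push_cast
          linear_combination (c + 1) * (M : ℤ) ^ e * h4
        rw [h5]
        exact dvd_add hm2 (dvd_mul_right _ _)
    · obtain ⟨m, hm⟩ : ∃ m, m + y a = ρ + s * (c + 1) := ⟨ρ + s * (c + 1) - y a, by
        rw [mul_add]; omega⟩
      have hms : m ≤ s := by rw [mul_add] at hm; omega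
      refine ⟨m, ?_, ?_⟩
      · have h1 : m * M ≤ s * M := Nat.mul_le_mul_right _ hms
        have h2 := hpow (a + 1)
        rw [add_mul a 1, one_mul]
        omega
      · rw [hnJ]
        have h1 : (m : ℤ) + y a = ρ + M ^ a * nJ * (c + 1) := by
          rw [hs] at hm; exact_mod_cast hm
        have h2 := Int.emod_add_mul_ediv (u + t * nJ) (y a)
        refine ⟨(u + t * nJ) / y a + 1, ?_⟩
        push_cast
        linear_combination -h1 - hρ - h2

lemma h9_arith (J L : ℕ) (hL : 0 < L) : ∃ X : ℕ, 0 < X ∧ ∀ (P W c k : ℕ) (y w : ℕ → ℕ),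
    P = ∏ a ∈ range J, y a → (∀ a < J, y a ∣ w a + 1) →
    (∀ a < J, ∀ a' < J, a ≠ a' → y a ∣ w a') → (∀ a < J, w a * y a = W) → (∀ a < J, X ≤ y a) →
    X * (P + 1) ≤ W → W ≤ L * c → W ≤ L * k → k * X ≤ W * W →
    ∃ (b σ μ m' n' : ℕ) (m n : ℕ → ℕ), b ≤ μ ∧ k = μ + b * σ ∧
      σ + (∑ a ∈ range J, n a * w a + n' * P) = W ∧
      μ + (∑ a ∈ range J, m a * w a + m' * P) = c := by
  obtain ⟨M, hM⟩ : ∃ M, M = 4 * (J + 1) * L := ⟨_, rfl⟩
  obtain ⟨T, hT⟩ : ∃ T, T = J * M ^ J + 1 := ⟨_, rfl⟩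
  have hM0 : 0 < M := by rw [hM]; positivity
  have hT0 : 0 < T := by omega
  refine ⟨64 * L * L * T + (J + 1) * M ^ (J + 1), by positivity, ?_⟩
  intro P W c k y w hP h1 h2 h3 hX hXW hc hk hkX
  have hy1 : ∀ a < J, J * M ^ (J + 1) ≤ y a ∧ M ≤ y a := fun a ha => by
    have e1 := hX a ha
    have e2 : M ≤ M ^ (J + 1) := Nat.le_self_pow (by omega) _
    rw [add_mul J 1, one_mul] at e1
    omega
  have hy0 : ∀ a < J, 0 < y a := fun a ha => hM0.trans_le (hy1 a ha).2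
  have hP0 : 0 < P := hP ▸ prod_pos fun a ha => hy0 a (mem_range.1 ha)
  have hsum : ∀ f : ℕ → ℕ, (∀ a < J, f a * M ≤ 2 * y a) →
      2 * L * ∑ a ∈ range J, f a * w a ≤ W := by
    intro f hf
    have e1 : (∑ a ∈ range J, f a * w a) * M ≤ J * (2 * W) := by
      rw [sum_mul]
      refine (sum_le_card_nsmul _ _ (2 * W) fun a ha => ?_).trans (by simp)
      have := Nat.mul_le_mul_right (w a) (hf a (mem_range.1 ha))
      rw [← h3 a (mem_range.1 ha)]
      exact (le_of_eq (by ring)).trans (this.trans (le_of_eq (by ring)))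
    generalize ∑ a ∈ range J, f a * w a = S at e1
    refine Nat.le_of_mul_le_mul_left ?_ (show 0 < 2 * (J + 1) by omega)
    have e2 : 2 * (J + 1) * (2 * L * S) = S * M := by rw [hM]; ring
    have e3 : 2 * (J + 1) * W = J * (2 * W) + 2 * W := by ring
    omega
  have hmod : ∀ (f : ℕ → ℕ), ∀ a < J,
      (y a : ℤ) ∣ (∑ a' ∈ range J, f a' * w a' : ℕ) + f a := by
    intro f a ha
    have : y a ∣ ∑ a' ∈ range J, f a' * w a' + f a := by
      rw [← add_sum_erase _ _ (mem_range.2 ha), add_right_comm, ← mul_add_one]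
      refine dvd_add ((h1 a ha).mul_left _) (dvd_sum fun a' ha' => ?_)
      rw [mem_erase, mem_range] at ha'
      exact (h2 a ha a' ha'.2 ha'.1.symm).mul_left _
    exact_mod_cast this
  obtain ⟨n, hn⟩ : ∃ n : ℕ → ℕ, ∀ a, n a = y a / M ^ (a + 1) + 1 := ⟨_, fun _ => rfl⟩
  have hSn := hsum n fun a ha => by
    have e1 : y a / M ^ (a + 1) * M ≤ y a / M ^ (a + 1) * M ^ (a + 1) :=
      Nat.mul_le_mul_left _ (Nat.le_self_pow (by omega) _)
    have e2 := Nat.div_mul_le_self (y a) (M ^ (a + 1))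
    have e3 := (hy1 a ha).2
    rw [hn, add_mul]
    omega
  have hmn := hmod n
  generalize hSn' : ∑ a ∈ range J, n a * w a = Sn at hSn hmn
  obtain ⟨U, hU⟩ : ∃ U, U = 4 * L * T := ⟨_, rfl⟩
  have hLT : 0 < L * T := Nat.mul_pos hL hT0
  have hU4 : 4 ≤ U := by rw [hU, mul_assoc]; omega
  have hXU' : 16 * L * U ≤ 64 * L * L * T + (J + 1) * M ^ (J + 1) :=
    le_trans (le_of_eq (by rw [hU]; ring)) (Nat.le_add_right _ _)
  obtain ⟨s, hs⟩ : ∃ s, s = W / U := ⟨_, rfl⟩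
  have hs1 : U * s ≤ W := hs ▸ Nat.mul_div_le _ _
  have hs2 : W < U * (s + 1) := hs ▸ Nat.lt_mul_div_succ _ (by omega)
  have hXU : 16 * L * U * (P + 1) ≤ W := le_trans (Nat.mul_le_mul_right _ hXU') hXW
  have hs3 : 16 * (P + 1) ≤ s := by
    have e1 : U * (16 * (P + 1)) ≤ 16 * L * U * (P + 1) :=
      (Nat.le_mul_of_pos_left _ hL).trans (le_of_eq (by ring))
    have e2 : U * (16 * (P + 1)) < U * (s + 1) := by omega
    have := Nat.lt_of_mul_lt_mul_left e2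
    omega
  have hs4 : 4 * s ≤ W := (Nat.mul_le_mul_right _ hU4).trans hs1
  have hSn2 : 2 * Sn ≤ W :=
    ((Nat.le_mul_of_pos_left _ hL).trans (le_of_eq (by ring))).trans hSn
  obtain ⟨n', hn'⟩ : ∃ n', n' = (W - Sn - s) / P := ⟨_, rfl⟩
  have hn1 := Nat.div_add_mod (W - Sn - s) P
  have hn2 := Nat.mod_lt (W - Sn - s) hP0
  rw [← hn'] at hn1
  obtain ⟨σ, hσ⟩ : ∃ σ, σ + (Sn + (n' + 1) * P) = W :=
    ⟨W - (Sn + (n' + 1) * P), by rw [add_mul, mul_comm n']; omega⟩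
  have hσ1 : σ ≤ s ∧ s + 1 ≤ 2 * σ := by rw [add_mul, mul_comm n'] at hσ; omega
  have hσ0 : 0 < σ := by omega
  obtain ⟨B, hB⟩ : ∃ B, B = k / σ := ⟨_, rfl⟩
  have hB1 : B * σ ≤ k := hB ▸ Nat.div_mul_le_self _ _
  have hB2 : 4 * L * B ≤ W := by
    by_contra hlt
    have e1 : W ≤ U * (2 * σ) := hs2.le.trans (Nat.mul_le_mul_left _ hσ1.2)
    have e2 : k * (16 * L * U) ≤ W * W := le_trans (Nat.mul_le_mul_left _ hXU') hkX
    have e3 : B * σ * (16 * L * U) ≤ W * W := (Nat.mul_le_mul_right _ hB1).trans e2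
    have e4 : (W + 1) * (2 * W) ≤ (4 * L * B) * (2 * (U * (2 * σ))) :=
      Nat.mul_le_mul (by omega) (by omega)
    have e5 : (4 * L * B) * (2 * (U * (2 * σ))) = B * σ * (16 * L * U) := by ring
    have e6 : (W + 1) * (2 * W) = 2 * (W * W) + 2 * W := by ring
    omega
  have hBk : B ≤ k := hB ▸ Nat.div_le_self _ _
  obtain ⟨μ₀, hμ₀⟩ : ∃ μ₀, μ₀ = B + (k - B) % σ := ⟨_, rfl⟩
  obtain ⟨Q, hQ⟩ : ∃ Q, Q = (k - B) / σ := ⟨_, rfl⟩
  have hQ1 := Nat.div_add_mod (k - B) σ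
  have hQ2 := Nat.mod_lt (k - B) hσ0
  rw [← hQ] at hQ1
  obtain ⟨t, ht, hm⟩ := h9_digits M hM0 y (μ₀ - c) J hy0
  choose! m hm1 hm2 using hm
  have hSm := hsum m fun a ha => by have := hm1 a ha; have := (hy1 a ha).1; omega
  have hmm := hmod m
  generalize hSm' : ∑ a ∈ range J, m a * w a = Sm at hSm hmm
  have hμ : 2 * L * (μ₀ + t * σ) ≤ W := by
    have e1 : μ₀ + t * σ ≤ B + T * σ := by
      have : (t + 1) * σ ≤ T * σ := Nat.mul_le_mul_right _ (by omega)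
      rw [add_mul] at this
      omega
    have e2 : U * σ ≤ W := (Nat.mul_le_mul_left _ hσ1.1).trans hs1
    have e3 : 4 * L * (μ₀ + t * σ) ≤ 4 * L * (B + T * σ) := Nat.mul_le_mul_left _ e1
    have e4 : 4 * L * (B + T * σ) = 4 * L * B + U * σ := by rw [hU]; ring
    have e5 : 4 * L * (μ₀ + t * σ) = 2 * (2 * L * (μ₀ + t * σ)) := by ring
    omega
  have hμk : μ₀ + t * σ ≤ k := by
    refine Nat.le_of_mul_le_mul_left ?_ hL
    have e5 : 2 * L * (μ₀ + t * σ) = 2 * (L * (μ₀ + t * σ)) := by ring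
    omega
  have htQ : t ≤ Q := by
    have : σ * t ≤ σ * Q := by rw [mul_comm σ t]; omega
    exact Nat.le_of_mul_le_mul_left this hσ0
  obtain ⟨b, rfl⟩ : ∃ b, Q = t + b := ⟨Q - t, by omega⟩
  have hkb : k = μ₀ + t * σ + b * σ := by
    rw [mul_add, mul_comm σ, mul_comm σ] at hQ1; omega
  have hμc : μ₀ + t * σ + Sm ≤ c := by
    refine Nat.le_of_mul_le_mul_left ?_ hL
    have e5 : 2 * L * (μ₀ + t * σ) + 2 * L * Sm = 2 * (L * (μ₀ + t * σ + Sm)) := by ring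
    omega
  obtain ⟨g, hg⟩ : ∃ g, μ₀ + t * σ + (Sm + g) = c := ⟨c - (μ₀ + t * σ + Sm), by omega⟩
  have hPg : P ∣ g := by
    have : (∏ a ∈ range J, (y a : ℤ)) ∣ g := by
      refine Finset.prod_dvd_of_coprime (fun a ha a' ha' hne => ?_) fun a ha => ?_
      · rw [coe_range, Set.mem_Iio] at ha ha'
        obtain ⟨e1, he1⟩ := h2 a ha a' ha' hne
        obtain ⟨e2, he2⟩ := h1 a' ha'
        refine ⟨-e1, e2, ?_⟩
        have e3 : (w a' : ℤ) = y a * e1 := by exact_mod_cast he1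
        have e4 : (w a' : ℤ) + 1 = y a' * e2 := by exact_mod_cast he2
        linear_combination e3 - e4
      · rw [mem_range] at ha
        have e1 : (y a : ℤ) ∣ P := by
          exact_mod_cast hP ▸ dvd_prod_of_mem y (mem_range.2 ha)
        have e2 : (y a : ℤ) ∣ W := by exact_mod_cast h3 a ha ▸ dvd_mul_left _ _
        have e3 := hm2 a ha
        rw [← hn] at e3
        have e4 : (σ : ℤ) + (Sn + (n' + 1) * P) = W := by exact_mod_cast hσ
        have e5 : (μ₀ : ℤ) + t * σ + (Sm + g) = c := by exact_mod_cast hg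
        have e6 : (g : ℤ) = -(μ₀ - c + t * n a - m a) - (Sm + m a) - t * W + t * (Sn + n a) +
            t * (n' + 1) * P := by linear_combination e5 - t * e4
        rw [e6]
        exact dvd_add (dvd_add (dvd_sub (dvd_sub e3.neg_right (hmm a ha)) (e2.mul_left _))
          ((hmn a ha).mul_left _)) (e1.mul_left _)
    rw [hP]
    exact_mod_cast this
  obtain ⟨m', rfl⟩ := hPg
  refine ⟨b, σ, μ₀ + t * σ, m', n' + 1, m, n, ?_, hkb, hSn' ▸ hσ, ?_⟩
  · have : b ≤ B := hB ▸ (Nat.le_div_iff_mul_le hσ0).2 (by omega)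
    omega
  · rw [hSm', mul_comm m', hg]

end Pool.Agent.Lib.MP_892d22_co
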