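import Pool.Agent.Lib.MP_892d22_co.H72Syl

namespace Pool.Agent.Lib.MP_892d22_co

open Finset

/-- Greedy continuation from `M`. -/
def gr (M : ℕ) : ℕ → ℕ
  | 0 => M
  | s + 1 => gr M s * (gr M s + 1)

/-- `M - 1` is a sum of `i` divisors of `M`. -/
def Egy (i M : ℕ) : Prop := M ≤ sylD i ∧ ∃ w : Fin i → ℕ, ∑ a, w a + 1 = M ∧ ∀ a, w a ∣ M

lemma Egy.pos {i M : ℕ} (h : Egy i M) : 0 < M := by
  obtain ⟨-, w, hw, -⟩ := h; omega

lemma Egy.move {i M δ : ℕ} (h : Egy i M) (hδ : δ ∣ M) : Egy (i + 1) (M * (δ + 1)) := by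
  have h0 := h.pos
  obtain ⟨hle, w, hw, hd⟩ := h
  refine ⟨Nat.mul_le_mul hle (by have := Nat.le_of_dvd h0 hδ; omega),
    Fin.cons δ fun a => w a * (δ + 1), ?_, Fin.cases ?_ fun a => ?_⟩
  · rw [Fin.sum_univ_succ]
    simp only [Fin.cons_zero, Fin.cons_succ, ← sum_mul, ← hw]
    ring
  · exact hδ.mul_right _
  · exact Nat.mul_dvd_mul_right (hd a) _

lemma Egy.gr {i M : ℕ} (h : Egy i M) (s : ℕ) : Egy (i + s) (gr M s) := by
  induction s with
  | zero => exact h
  | succ s ih => exact ih.move dvd_rfl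

lemma gr_add (M a s : ℕ) : gr M (a + s) = gr (gr M a) s := by
  induction s with
  | zero => rfl
  | succ s ih => rw [← add_assoc, gr, ih, gr]

lemma gr_prod (M s : ℕ) : gr M s = M * ∏ a ∈ range s, (gr M a + 1) := by
  induction s with
  | zero => simp [gr]
  | succ s ih => rw [prod_range_succ, ← mul_assoc, ← ih, gr]

lemma gr_ge {M : ℕ} (h : 0 < M) (s : ℕ) : s < gr M s := by
  induction s with
  | zero => exact h
  | succ s ih => rw [gr]; nlinarith

lemma gr_pow (M s : ℕ) : M ^ 2 ^ s ≤ gr M s := by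
  induction s with
  | zero => simp [gr]
  | succ s ih =>
    rw [gr, pow_succ, pow_mul, sq]
    exact Nat.mul_le_mul ih (ih.trans (Nat.le_succ _))

lemma sylD_ge (i : ℕ) : i < sylD i := by
  induction i with
  | zero => simp [sylD]
  | succ i ih => rw [sylD]; nlinarith

lemma log_sylD (i : ℕ) : Real.log (sylD (i + 1) + 1) ≤ 2 * Real.log (sylD i + 1) := by
  have h : (0 : ℝ) ≤ sylD i := Nat.cast_nonneg _
  rw [two_mul, ← Real.log_mul (by positivity) (by positivity)]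
  refine Real.log_le_log (by positivity) ?_
  rw [sylD]; push_cast; nlinarith

lemma log_sylD_big (C : ℝ) : ∃ i₀ : ℕ, ∀ i ≥ i₀, C ≤ Real.log (sylD i + 1) := by
  refine ⟨⌈Real.exp C⌉₊, fun i hi => ?_⟩
  rw [Real.le_log_iff_exp_le (by positivity)]
  have h1 : (⌈Real.exp C⌉₊ : ℝ) ≤ sylD i := by exact_mod_cast hi.trans (sylD_ge i).le
  linarith [Nat.le_ceil (Real.exp C)]

/-- `M` is nearly as large as possible. -/
def Good (η : ℝ) (i M : ℕ) : Prop := Egy i M ∧ η * Real.log (sylD i + 1) ≤ Real.log M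

lemma Good.gr {η : ℝ} (hη : 0 ≤ η) {i M : ℕ} (h : Good η i M) (s : ℕ) :
    Good η (i + s) (gr M s) := by
  refine ⟨h.1.gr s, ?_⟩
  induction s with
  | zero => exact h.2
  | succ s ih =>
    have h0 : (0 : ℝ) < MP_892d22_co.gr M s := by exact_mod_cast (h.1.gr s).pos
    have h1 := mul_le_mul_of_nonneg_left (log_sylD (i + s)) hη
    have h2 := Real.log_le_log h0 (le_add_of_nonneg_right zero_le_one)
    rw [MP_892d22_co.gr, Nat.cast_mul, Real.log_mul h0.ne' (by positivity), ← add_assoc]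
    push_cast
    linarith

lemma gr_one_mod {p : ℕ} (hp : p.Prime) (M : ℕ) :
    ∃ a, ∀ s₀, ∃ s ≥ s₀, ∃ G, gr M (a + s) = gr M a * G ∧ G ≡ 1 [MOD p] := by
  by_cases h : ∃ a, p ∣ gr M a
  · obtain ⟨a, ha⟩ := h
    refine ⟨a, fun s => ⟨s, le_rfl, _, by rw [gr_add, gr_prod], ?_⟩⟩
    induction s with
    | zero => simp [Nat.ModEq]
    | succ s ih =>
      rw [prod_range_succ]
      have h1 : p ∣ gr (gr M a) s := by rw [gr_prod]; exact ha.mul_right _
      simpa using ih.mul (((Nat.modEq_zero_iff_dvd.2 h1)).add_right 1)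
  · have : NeZero p := ⟨hp.ne_zero⟩
    obtain ⟨ρ, hρ⟩ := Finite.exists_infinite_fiber fun a : ℕ => (gr M a : ZMod p)
    have hinf := Set.infinite_coe_iff.1 hρ
    obtain ⟨a, ha⟩ := hinf.nonempty
    refine ⟨a, fun s₀ => ?_⟩
    obtain ⟨a', ha', hlt⟩ := hinf.exists_gt (a + s₀)
    obtain ⟨s, rfl⟩ : ∃ s, a' = a + s := ⟨a' - a, by omega⟩
    refine ⟨s, by omega, _, by rw [gr_add, gr_prod], ?_⟩
    have h1 : gr M (a + s) ≡ gr M a [MOD p] :=
      (ZMod.natCast_eq_natCast_iff _ _ _).1 (ha'.trans (Eq.symm ha))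
    rw [gr_add, gr_prod] at h1
    refine Nat.ModEq.cancel_left_of_coprime (c := gr M a) ?_ (by simpa using h1)
    exact (Nat.Prime.coprime_iff_not_dvd hp).2 fun e => h ⟨a, e⟩

lemma Good.step {p : ℕ} (hp : p.Prime) {η η' : ℝ} (h0 : 0 ≤ η') (hlt : η' < η) {i M y : ℕ}
    (h : Good η i M) (hy : y ∣ M) :
    ∃ i' M' y', Good η' i' M' ∧ M * y' ∣ M' ∧ y' ≡ y + 1 [MOD p] := by
  obtain ⟨a, ha⟩ := gr_one_mod hp M
  have hMa : M ∣ MP_892d22_co.gr M a := by rw [gr_prod]; exact dvd_mul_right _ _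
  obtain ⟨e, he⟩ := hy.trans hMa
  obtain ⟨s₀, hs₀⟩ := log_sylD_big (Real.log e / (2 * (η - η')))
  obtain ⟨s, hs, G, hG, hG1⟩ := ha s₀
  have hg := h.gr (h0.trans hlt.le) (a + s)
  have hM0 := hg.1.pos
  have hδ : MP_892d22_co.gr M (a + s) = y * G * e := by rw [hG, he]; ring
  refine ⟨i + (a + s) + 1, MP_892d22_co.gr M (a + s) * (y * G + 1), y * G + 1,
    ⟨hg.1.move ⟨e, hδ⟩, ?_⟩, Nat.mul_dvd_mul_right (hMa.trans ⟨G, hG⟩) _, ?_⟩
  · have h1 := mul_le_mul_of_nonneg_left (log_sylD (i + (a + s))) h0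
    have h2 := hs₀ (i + (a + s)) (by omega)
    rw [div_le_iff₀ (by linarith)] at h2
    have h3 := hg.2
    generalize MP_892d22_co.gr M (a + s) = K at *
    generalize y * G = δ at *
    have hδ0 : (0 : ℝ) < δ := by exact_mod_cast Nat.pos_of_mul_pos_right (hδ ▸ hM0)
    have he0 : (0 : ℝ) < e := by exact_mod_cast Nat.pos_of_mul_pos_left (hδ ▸ hM0)
    have hK : (0 : ℝ) < K := by exact_mod_cast hM0
    have h4 : Real.log K = Real.log δ + Real.log e := by
      rw [hδ, Nat.cast_mul, Real.log_mul hδ0.ne' he0.ne']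
    have h5 := Real.log_le_log hδ0 (le_add_of_nonneg_right zero_le_one)
    rw [Nat.cast_mul, Real.log_mul hK.ne' (by positivity)]
    push_cast
    linarith
  · simpa using ((Nat.ModEq.refl y).mul hG1).add_right 1

lemma Good.prime {p : ℕ} (hp : p.Prime) {η : ℝ} {i M : ℕ} (h : Good η i M) (a : ℕ) :
    ∀ η', 0 ≤ η' → η' < η → ∃ i' M' y, Good η' i' M' ∧ M * y ∣ M' ∧ y ≡ a + 1 [MOD p] := by
  induction a with
  | zero =>
    intro η' _ hlt
    refine ⟨i, M, 1, ⟨h.1, le_trans (mul_le_mul_of_nonneg_right hlt.le ?_) h.2⟩, by simp, rfl⟩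
    exact Real.log_nonneg (by simp)
  | succ a ih =>
    intro η' h0 hlt
    obtain ⟨i₁, M₁, y₁, g1, g2, g3⟩ := ih ((η' + η) / 2) (by linarith) (by linarith)
    obtain ⟨i₂, M₂, y₂, f1, f2, f3⟩ := g1.step hp h0 (by linarith) (Dvd.dvd.trans (dvd_mul_left _ _) g2)
    exact ⟨i₂, M₂, y₂, f1, (Nat.mul_dvd_mul_right ((dvd_mul_right _ _).trans g2) _).trans f2,
      f3.trans (g3.add_right 1)⟩

theorem exists_good (L : ℕ) :
    0 < L → ∀ η : ℝ, 0 ≤ η → η < 1 → ∃ i M, Good η i M ∧ L ∣ M := by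
  induction L using induction_on_primes with
  | zero => simp
  | one =>
    intro _ η _ hlt
    obtain ⟨i, hi⟩ := log_sylD_big (Real.log 2 / (1 - η))
    have h1 : ∀ i, gr 1 i = sylD i := fun i => by
      induction i with
      | zero => rfl
      | succ i ih => rw [gr, ih, sylD]
    have h2 : Egy 0 1 := ⟨le_rfl, 0, by simp, by simp⟩
    refine ⟨i, sylD i, ⟨by simpa [h1] using h2.gr i, ?_⟩, one_dvd _⟩
    have h3 := hi i le_rfl
    rw [div_le_iff₀ (by linarith)] at h3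
    have h4 : (1 : ℝ) ≤ sylD i := by exact_mod_cast sylD_pos i
    have h5 : Real.log (sylD i + 1) ≤ Real.log 2 + Real.log (sylD i) := by
      rw [← Real.log_mul (by positivity) (by positivity)]
      exact Real.log_le_log (by positivity) (by linarith)
    linarith
  | prime_mul p a hp ih =>
    intro h0 η hη hlt
    obtain ⟨i, M, g1, g2⟩ := ih (Nat.pos_of_mul_pos_left h0) ((η + 1) / 2) (by linarith)
      (by linarith)
    obtain ⟨i', M', y, f1, f2, f3⟩ := g1.prime hp (p - 1) η hη (by linarith)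
    rw [Nat.sub_add_cancel hp.one_le] at f3
    have h1 : p ∣ y := (f3.dvd_iff dvd_rfl).2 dvd_rfl
    exact ⟨i', M', f1, (mul_comm p a ▸ Nat.mul_dvd_mul g2 h1).trans f2⟩

lemma h9_tail (E J : ℕ) : ∃ v : ℕ → ℕ, ∑ a ∈ range J, v a + 1 = ∏ a ∈ range J, (gr E a + 1) ∧
    (∀ a < J, v a * (gr E a + 1) = gr E J) ∧
    ∀ a < J, ∀ a' < J, a ≠ a' → gr E a + 1 ∣ v a' := by
  induction J with
  | zero => exact ⟨0, by simp, by simp, by simp⟩
  | succ J ih =>
    obtain ⟨v, h1, h2, h3⟩ := ih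
    refine ⟨fun a => if a < J then v a * (gr E J + 1) else gr E J, ?_, fun a ha => ?_,
      fun a ha a' ha' hne => ?_⟩
    · rw [sum_range_succ, if_neg (lt_irrefl J), sum_congr rfl fun i hi => if_pos (mem_range.1 hi),
        ← sum_mul, prod_range_succ, ← h1]
      ring
    · simp only [gr]
      split_ifs with h
      · rw [mul_right_comm, h2 a h]
      · rw [show a = J by omega]
    · dsimp only
      split_ifs with h
      · rcases Nat.lt_succ_iff_lt_or_eq.1 ha with ha | rfl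
        · exact (h3 a ha a' h hne).mul_right _
        · exact dvd_mul_left _ _
      · exact ⟨v a, by rw [← h2 a (by omega), mul_comm]⟩

end Pool.Agent.Lib.MP_892d22_co
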