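import Pool.Agent.Lib.MP_892d22_co.H72Low

namespace Pool.Agent.Lib.MP_892d22_co

open Matrix Finset

/-- The convex combinations of the points `Y o` are the solutions of the inequalities `η i`. -/
def HV {δ O I : Type} [Fintype δ] [Fintype O] (Y : O → δ → ℝ) (η : I → δ → ℝ) : Prop :=
  ∀ y, (∃ a : O → ℝ, (∀ o, 0 ≤ a o) ∧ ∑ o, a o = 1 ∧ ∑ o, a o • Y o = y) ↔
    ∀ i, -1 ≤ y ⬝ᵥ η i

lemma HV.vertex {δ O I : Type} [Fintype δ] [Fintype O] {Y : O → δ → ℝ} {η : I → δ → ℝ}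
    (h : HV Y η) (o : O) (i : I) : -1 ≤ Y o ⬝ᵥ η i := by
  classical
  refine (h (Y o)).1 ⟨fun o' => if o' = o then 1 else 0, fun o' => ?_, by simp, by simp⟩ i
  dsimp only
  split_ifs <;> norm_num

lemma HV.hull {δ O I : Type} [Fintype δ] [Fintype O] {Y : O → δ → ℝ} {η : I → δ → ℝ}
    (h : HV Y η) : convexHull ℝ (Set.range Y) = {x | ∀ e ∈ Set.range η, -1 ≤ x ⬝ᵥ e} := by
  apply Set.Subset.antisymm
  · refine convexHull_min ?_ (convex_halfspaces _)
    rintro _ ⟨o, rfl⟩ _ ⟨i, rfl⟩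
    exact h.vertex o i
  · intro x hx
    obtain ⟨a, h0, h1, rfl⟩ := (h x).2 fun i => hx _ ⟨i, rfl⟩
    exact (convex_convexHull ℝ _).sum_mem (fun o _ => h0 o) h1
      fun o _ => subset_convexHull ℝ _ ⟨o, rfl⟩

lemma h9_sum_dot {δ O : Type} [Fintype δ] [Fintype O] (a : O → ℝ) (Y : O → δ → ℝ) (e : δ → ℝ) :
    (∑ o, a o • Y o) ⬝ᵥ e = ∑ o, a o * (Y o ⬝ᵥ e) := by
  rw [sum_dotProduct]
  exact sum_congr rfl fun o _ => by rw [smul_dotProduct, smul_eq_mul]

/-- A family of homothetic simplices over a base polytope. -/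
lemma HV.fib {κ J δ O I : Type} [Fintype κ] [Fintype J] [Nonempty J] [Fintype δ] [Fintype O]
    {Y : O → δ → ℝ} {η : I → δ → ℝ} (hB : HV Y η)
    (p α : J → κ → ℝ) (β d : J → ℝ) (hd : ∀ j, 0 < d j) (h1 : ∀ i j, 0 ≤ p i ⬝ᵥ α j + β j)
    (h2 : ∀ (x : κ → ℝ) (l : ℝ), ∑ j, (x ⬝ᵥ α j + l * β j) / d j = l)
    (h3 : ∀ (x : κ → ℝ) (l : ℝ), ∑ j, ((x ⬝ᵥ α j + l * β j) / d j) • p j = x)
    (γ : J → δ → ℝ) (Z : O → κ → ℝ) (L : O → ℝ) (hL : ∀ o, 0 ≤ L o)
    (hγ : ∀ o j, Y o ⬝ᵥ γ j + 1 = L o * β j - Z o ⬝ᵥ α j) :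
    HV (fun o : O × J => Sum.elim (Y o.1) (Z o.1 + L o.1 • p o.2))
      (Sum.elim (fun i => Sum.elim (η i) 0) fun j => Sum.elim (γ j) (α j)) := by
  intro q
  constructor
  · rintro ⟨a, h0, ha, rfl⟩ i
    rw [h9_sum_dot]
    have : ∀ o : O × J, -1 ≤ Sum.elim (Y o.1) (Z o.1 + L o.1 • p o.2) ⬝ᵥ
        Sum.elim (fun i => Sum.elim (η i) 0) (fun j => Sum.elim (γ j) (α j)) i := by
      rintro ⟨o, j⟩
      rcases i with i | j'
      · simpa using hB.vertex o i
      · simp only [Sum.elim_inr, sumElim_dotProduct_sumElim, add_dotProduct, smul_dotProduct,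
          smul_eq_mul]
        nlinarith [hγ o j', mul_nonneg (hL o) (h1 j j')]
    calc (-1 : ℝ) = ∑ o, a o * (-1) := by rw [← sum_mul, ha]; ring
      _ ≤ _ := sum_le_sum fun o _ => mul_le_mul_of_nonneg_left (this o) (h0 o)
  · intro hq
    obtain ⟨y, x, rfl⟩ : ∃ y x, q = Sum.elim y x :=
      ⟨q ∘ .inl, q ∘ .inr, (Sum.elim_comp_inl_inr q).symm⟩
    obtain ⟨a, ha0, ha1, ha2⟩ := (hB y).2 fun i => by simpa using hq (.inl i)
    have g3 : ∀ j, 0 ≤ (x - ∑ o, a o • Z o) ⬝ᵥ α j + (∑ o, a o * L o) * β j := by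
      intro j
      have e1 := hq (.inr j)
      simp only [Sum.elim_inr, sumElim_dotProduct_sumElim] at e1
      have e2 : y ⬝ᵥ γ j + 1 = (∑ o, a o * L o) * β j - (∑ o, a o • Z o) ⬝ᵥ α j := by
        rw [← ha2, h9_sum_dot, h9_sum_dot, sum_mul, ← sum_sub_distrib]
        nth_rewrite 1 [← ha1]
        rw [← sum_add_distrib]
        exact sum_congr rfl fun o _ => by linear_combination a o * hγ o j
      rw [sub_dotProduct]
      linarith
    have hφ0 : 0 ≤ ∑ o, a o * L o := sum_nonneg fun o _ => mul_nonneg (ha0 o) (hL o)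
    obtain ⟨e, he0, he1, he⟩ : ∃ e : J → ℝ, (∀ j, 0 ≤ e j) ∧ ∑ j, e j = 1 ∧
        (∑ o, a o * L o) • ∑ j, e j • p j = x - ∑ o, a o • Z o := by
      generalize ∑ o, a o * L o = φ at hφ0 g3
      generalize x - ∑ o, a o • Z o = X at g3
      have g4 : ∀ j, 0 ≤ (X ⬝ᵥ α j + φ * β j) / d j := fun j => div_nonneg (g3 j) (hd j).le
      rcases hφ0.lt_or_eq with h | h
      · refine ⟨fun j => φ⁻¹ * ((X ⬝ᵥ α j + φ * β j) / d j),
          fun j => mul_nonneg (inv_pos.2 h).le (g4 j), ?_, ?_⟩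
        · rw [← mul_sum, h2, inv_mul_cancel₀ h.ne']
        · simp only [mul_smul, ← smul_sum, h3, smul_inv_smul₀ h.ne']
      · have hc : (0 : ℝ) < Fintype.card J := by exact_mod_cast Fintype.card_pos
        refine ⟨fun _ => 1 / Fintype.card J, fun _ => by positivity, by simp [hc.ne'], ?_⟩
        have g5 := (sum_eq_zero_iff_of_nonneg fun j _ => g4 j).1 ((h2 X φ).trans h.symm)
        rw [← h3 X φ, ← h, zero_smul]
        exact (sum_eq_zero fun j hj => by rw [h, g5 j hj, zero_smul]).symm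
    refine ⟨fun o => a o.1 * e o.2, fun o => mul_nonneg (ha0 _) (he0 _), ?_, ?_⟩
    · rw [Fintype.sum_prod_type]
      simp only [← mul_sum, he1, mul_one, ha1]
    · funext c
      rw [Finset.sum_apply, Fintype.sum_prod_type]
      rcases c with i | c
      · have g7 := congrFun ha2 i
        simp only [Finset.sum_apply, Pi.smul_apply, smul_eq_mul] at g7
        simp only [Pi.smul_apply, Sum.elim_inl, smul_eq_mul, mul_right_comm _ (e _),
          ← mul_sum, he1, mul_one, g7]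
      · have g6 := congrFun he c
        simp only [Pi.smul_apply, Finset.sum_apply, Pi.sub_apply, smul_eq_mul] at g6
        simp only [Pi.smul_apply, Sum.elim_inr, smul_eq_mul, Pi.add_apply]
        rw [sum_congr rfl (g := fun o => a o * Z o c + a o * L o * ∑ j, e j * p j c)
          fun o _ => by
            rw [mul_sum, ← mul_one (a o * Z o c), ← he1, mul_sum, ← sum_add_distrib]
            exact sum_congr rfl fun j _ => by ring,
          sum_add_distrib, ← sum_mul, g6]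
        ring

/-- The fibre over an exposed vertex of the base is a face. -/
lemma HV.cert {κ J δ O I : Type} [Fintype κ] [Fintype J] [Nonempty J] [Fintype δ] [Fintype O]
    [Finite I] {Y : O → δ → ℝ} {η : I → δ → ℝ} (hB : HV Y η) (hY : ∀ o, Y o ∈ intPts δ)
    (hη : ∀ i, η i ∈ intPts δ)
    (p α : J → κ → ℝ) (β d : J → ℝ) (hp : ∀ j, p j ∈ intPts κ) (hα : ∀ j, α j ∈ intPts κ)
    (hd : ∀ j, 0 < d j) (h1 : ∀ i j, 0 ≤ p i ⬝ᵥ α j + β j)
    (h2 : ∀ (x : κ → ℝ) (l : ℝ), ∑ j, (x ⬝ᵥ α j + l * β j) / d j = l)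
    (h3 : ∀ (x : κ → ℝ) (l : ℝ), ∑ j, ((x ⬝ᵥ α j + l * β j) / d j) • p j = x)
    (γ : J → δ → ℝ) (hγi : ∀ j, γ j ∈ intPts δ) (Z : O → κ → ℝ) (hZ : ∀ o, Z o ∈ intPts κ)
    (L : O → ℕ) (hγ : ∀ o j, Y o ⬝ᵥ γ j + 1 = L o * β j - Z o ⬝ᵥ α j)
    (o₀ : O) (f : δ → ℝ) (hf : ∀ o, o ≠ o₀ → Y o ⬝ᵥ f < Y o₀ ⬝ᵥ f) :
    Cert {x : κ → ℝ | ∀ j, 0 ≤ x ⬝ᵥ α j + L o₀ * β j} (δ ⊕ κ) := by
  classical
  have hQ := hB.fib p α β d hd h1 h2 h3 γ Z (fun o => L o) (fun o => Nat.cast_nonneg _) hγ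
  have hVH := hQ.hull
  let F : (δ ⊕ κ → ℝ) →ₗ[ℝ] ℝ :=
    { toFun := fun q => (q ∘ .inl) ⬝ᵥ f
      map_add' := fun p q => by simp [Pi.add_comp]
      map_smul' := fun t p => by simp [Pi.smul_comp] }
  let A : (κ → ℝ) →ₗ[ℝ] (δ ⊕ κ → ℝ) :=
    { toFun := fun x => Sum.elim 0 x
      map_add' := fun x y => by funext i; cases i <;> simp
      map_smul' := fun t x => by funext i; cases i <;> simp }
  have hA : ∀ x, A x + Sum.elim (Y o₀) (Z o₀) = Sum.elim (Y o₀) (x + Z o₀) := by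
    intro x; funext i; cases i <;> simp [A]
  have hF : ∀ (y : δ → ℝ) (x : κ → ℝ), F (Sum.elim y x) = y ⬝ᵥ f := fun y x => rfl
  have hf' : ∀ o, Y o ⬝ᵥ f ≤ Y o₀ ⬝ᵥ f := fun o => by
    by_cases h : o = o₀
    · rw [h]
    · exact (hf o h).le
  have hmax : ∀ y, (∀ i, -1 ≤ y ⬝ᵥ η i) → y ⬝ᵥ f ≤ Y o₀ ⬝ᵥ f ∧ (y ⬝ᵥ f = Y o₀ ⬝ᵥ f → y = Y o₀) := by
    intro y hy
    obtain ⟨a, ha0, ha1, rfl⟩ := (hB y).2 hy
    have e1 : Y o₀ ⬝ᵥ f - (∑ o, a o • Y o) ⬝ᵥ f = ∑ o, a o * (Y o₀ ⬝ᵥ f - Y o ⬝ᵥ f) := by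
      simp only [h9_sum_dot, mul_sub, sum_sub_distrib, ← sum_mul, ha1, one_mul]
    have e2 : ∀ o ∈ (univ : Finset O), 0 ≤ a o * (Y o₀ ⬝ᵥ f - Y o ⬝ᵥ f) :=
      fun o _ => mul_nonneg (ha0 o) (sub_nonneg.2 (hf' o))
    refine ⟨by linarith [sum_nonneg e2], fun h => ?_⟩
    have e3 := (sum_eq_zero_iff_of_nonneg e2).1 (by linarith)
    have e4 : ∀ o, o ≠ o₀ → a o = 0 := fun o ho =>
      (mul_eq_zero.1 (e3 o (mem_univ _))).resolve_right (sub_pos.2 (hf o ho)).ne'
    have e5 : a o₀ = 1 := by rw [← ha1, sum_eq_single o₀ (fun o _ ho => e4 o ho) (by simp)]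
    rw [sum_eq_single o₀ (fun o _ ho => by rw [e4 o ho, zero_smul]) (by simp), e5, one_smul]
  refine ⟨_, _, Set.finite_range _, ?_, Set.finite_range _, ?_, hVH, F, Y o₀ ⬝ᵥ f, A,
    Sum.elim (Y o₀) (Z o₀), ?_, ?_, ?_, fun x => ?_⟩
  · rintro _ ⟨⟨o, j⟩, rfl⟩
    exact int_elim.2 ⟨hY o, int_add (hZ o) (by simpa using int_smul (L o) (hp j))⟩
  · rintro _ ⟨i | j, rfl⟩
    · exact int_elim.2 ⟨hη i, int_zero⟩
    · exact int_elim.2 ⟨hγi j, hα j⟩
  · intro q hq
    obtain ⟨y, x, rfl⟩ : ∃ y x, q = Sum.elim y x :=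
      ⟨q ∘ .inl, q ∘ .inr, (Sum.elim_comp_inl_inr q).symm⟩
    rw [hVH] at hq
    exact (hmax y fun i => by simpa using hq _ ⟨.inl i, rfl⟩).1
  · intro x y hxy
    exact funext fun i => congrFun hxy (.inr i)
  · ext q
    obtain ⟨y, x, rfl⟩ : ∃ y x, q = Sum.elim y x :=
      ⟨q ∘ .inl, q ∘ .inr, (Sum.elim_comp_inl_inr q).symm⟩
    simp only [hA, hVH, Set.mem_image, Set.mem_ofPred_eq]
    constructor
    · rintro ⟨x', hx', he⟩
      rw [← he, hF]
      refine ⟨?_, rfl⟩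
      rintro _ ⟨i | j, rfl⟩
      · simpa using hB.vertex o₀ i
      · simp only [Sum.elim_inr, sumElim_dotProduct_sumElim, add_dotProduct]
        linarith [hγ o₀ j, hx' j]
    · rintro ⟨g1, g2⟩
      obtain rfl : y = Y o₀ := (hmax y fun i => by simpa using g1 _ ⟨.inl i, rfl⟩).2 g2
      refine ⟨x - Z o₀, fun j => ?_, by simp⟩
      have := g1 _ ⟨.inr j, rfl⟩
      simp only [Sum.elim_inr, sumElim_dotProduct_sumElim] at this
      rw [sub_dotProduct]
      linarith [hγ o₀ j]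
  · rw [hA, int_elim]
    refine ⟨fun h => ⟨hY o₀, int_add h (hZ o₀)⟩, fun h => ?_⟩
    simpa using int_add h.2 (int_neg (hZ o₀))

/-- The weighted simplex. -/
lemma h9_simplex {δ : Type} [Fintype δ] [DecidableEq δ] (w S : δ → ℕ) {W : ℕ}
    (hW : ∑ i, w i + 1 = W) (hS : ∀ i, w i * S i = W) :
    HV (fun o : Option δ => o.elim (-fun i => (w i : ℝ)) fun i => Pi.single i ((1 : ℕ) : ℝ))
      (fun o : Option δ => o.elim 0 (fun i => Pi.single i (S i : ℝ)) - 1) := by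
  have hW0 : (0 : ℝ) < W := by exact_mod_cast (show 0 < W by omega)
  have hS' : ∀ i, (w i : ℝ) * S i = W := fun i => by exact_mod_cast hS i
  have hW' : ∑ i, (w i : ℝ) = W - 1 := by
    have : ∑ i, (w i : ℝ) + 1 = W := by exact_mod_cast hW
    linarith
  have hS0 : ∀ i, (0 : ℝ) < S i := fun i => by
    rcases (Nat.cast_nonneg (α := ℝ) (S i)).lt_or_eq with h | h
    · exact h
    · have := hS' i
      rw [← h, mul_zero] at this; linarith
  intro y
  constructor
  · rintro ⟨a, h0, ha, rfl⟩ i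
    rw [h9_sum_dot]
    have : ∀ o : Option δ, -1 ≤ (o.elim (-fun i => (w i : ℝ)) fun i => Pi.single i ((1 : ℕ) : ℝ)) ⬝ᵥ
        (i.elim 0 (fun i => Pi.single i (S i : ℝ)) - 1) := by
      rintro (_ | o) <;> rcases i with _ | i
      · simp [dotProduct_one, hW']
      · simp [dotProduct_one, hW', hS']
      · simp
      · simp [Pi.single_apply]
        split_ifs
        · exact (hS0 _).le
        · exact le_rfl
    calc (-1 : ℝ) = ∑ o, a o * (-1) := by rw [← sum_mul, ha]; ring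
      _ ≤ _ := sum_le_sum fun o _ => mul_le_mul_of_nonneg_left (this o) (h0 o)
  · intro hy
    refine ⟨fun o => o.elim ((1 - ∑ i, y i) / W) fun i => y i + w i * ((1 - ∑ i, y i) / W),
      ?_, ?_, ?_⟩
    · rintro (_ | i)
      · have := hy none
        simp [dotProduct_one] at this
        exact div_nonneg (by linarith) hW0.le
      · have := hy (some i)
        simp [dotProduct_one] at this
        have e : (y i + w i * ((1 - ∑ i, y i) / W)) * S i = y i * S i - ∑ i, y i + 1 := by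
          rw [add_mul, mul_right_comm, hS' i]
          field_simp; ring
        simp only [Option.elim_some]
        rw [← mul_nonneg_iff_of_pos_right (hS0 i), e]
        linarith
    · simp only [Fintype.sum_option, Option.elim_none, Option.elim_some, sum_add_distrib,
        ← sum_mul, hW']
      field_simp; ring
    · funext i
      simp [Fintype.sum_option, Finset.sum_apply, Pi.single_apply]; ring

/-- Two fibrations over the weighted simplex: first a segment, then the dilated simplex. -/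
lemma h9_fib2 {κ J δ : Type} [Fintype κ] [Fintype J] [Nonempty J] [Fintype δ] [DecidableEq δ]
    (p α : J → κ → ℝ) (β : J → ℤ) (d : J → ℝ) (hp : ∀ j, p j ∈ intPts κ)
    (hα : ∀ j, α j ∈ intPts κ) (hd : ∀ j, 0 < d j) (h1 : ∀ i j, 0 ≤ p i ⬝ᵥ α j + β j)
    (h2 : ∀ (x : κ → ℝ) (l : ℝ), ∑ j, (x ⬝ᵥ α j + l * β j) / d j = l)
    (h3 : ∀ (x : κ → ℝ) (l : ℝ), ∑ j, ((x ⬝ᵥ α j + l * β j) / d j) • p j = x)
    (w S m n : δ → ℕ) {W b σ ν : ℕ} (hW : ∑ i, w i + 1 = W) (hS : ∀ i, w i * S i = W)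
    (hσ : σ + ∑ i, n i * w i = W) (z : κ → ℝ) (hz : z ∈ intPts κ)
    (hzW : ∀ j, z ⬝ᵥ α j + ((ν + b : ℕ) + ∑ i, (m i : ℝ) * w i) * β j = W) :
    Cert {x : κ → ℝ | ∀ j, 0 ≤ x ⬝ᵥ α j + (ν + b + b * σ : ℕ) * β j} ((δ ⊕ Unit) ⊕ κ) := by
  have hW0 : (0 : ℝ) < W := by exact_mod_cast (show 0 < W by omega)
  have hW' : ∑ i, (w i : ℝ) = W - 1 := by
    have : ∑ i, (w i : ℝ) + 1 = W := by exact_mod_cast hW
    linarith
  have hσ' : ∑ i, (n i : ℝ) * w i = W - σ := by
    have : (σ : ℝ) + ∑ i, (n i : ℝ) * w i = W := by exact_mod_cast hσ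
    linarith
  have hT := h9_simplex w S hW hS
  have hB := hT.fib (κ := Unit) (J := Bool) (fun j _ => if j then 1 else 0)
    (fun j _ => if j then W else -1) (fun j => if j then 0 else 1) (fun j => if j then W else 1)
    (by rintro (_ | _) <;> simp [hW0])
    (by rintro (_ | _) (_ | _) <;> simp [dotProduct])
    (fun x l => by simp [dotProduct]; field_simp; ring)
    (fun x l => by funext u; simp [dotProduct]; field_simp)
    (fun j i => if j then W * (n i - 1) - 1 else 0)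
    (fun o _ => o.elim (-σ) fun i => 1 - n i) (fun o => o.elim (σ + 1) fun i => n i)
    (by rintro (_ | i) <;> simp; positivity)
    (by
      rintro (_ | i) (_ | _)
      · simp [dotProduct]
      · have e : ∑ i, (w i : ℝ) * (W * (n i - 1) - 1) =
            W * ∑ i, (n i : ℝ) * w i - (W + 1) * ∑ i, (w i : ℝ) := by
          rw [mul_sum, mul_sum, ← sum_sub_distrib]
          exact sum_congr rfl fun i _ => by ring
        simp [dotProduct, e, hW', hσ']
        ring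
      · simp [dotProduct]
      · simp [dotProduct, Pi.single_apply]
        ring)
  refine hB.cert ?_ ?_ p α (fun j => β j) d hp hα hd h1 h2 h3
    (fun j => Sum.elim (fun i => (m i + b * (n i - 1)) * β j - 1) fun _ => b * β j) ?_
    (fun o => o.1.elim (-z) 0) ?_
    (fun o => o.1.elim (if o.2 then ν + b + b * σ else ν)
      fun i => if o.2 then m i + b * n i else m i) ?_ (none, true)
    (Sum.elim (-1) 1) ?_
  · rintro ⟨_ | i, j⟩
    · refine int_elim.2 ⟨int_neg (int_nat w), fun _ => ⟨if j then 1 else -σ, ?_⟩⟩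
      cases j <;> simp
    · refine int_elim.2 ⟨int_single i 1, fun _ => ⟨if j then 1 else 1 - n i, ?_⟩⟩
      cases j <;> simp
  · rintro (o | j)
    · refine int_elim.2 ⟨?_, int_zero⟩
      rw [sub_eq_add_neg]
      refine int_add ?_ (int_neg int_one)
      rcases o with _ | i
      exacts [int_zero, int_single i _]
    · refine int_elim.2 ⟨fun i => ⟨if j then W * (n i - 1) - 1 else 0, ?_⟩,
        fun _ => ⟨if j then W else -1, ?_⟩⟩ <;> cases j <;> simp
  · exact fun j => int_elim.2 ⟨fun i => ⟨(m i + b * (n i - 1)) * β j - 1, by simp⟩,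
      fun _ => ⟨b * β j, by simp⟩⟩
  · rintro ⟨_ | i, j⟩
    exacts [int_neg hz, int_zero]
  · rintro ⟨_ | i, u⟩ j
    · have e : ∑ i, (w i : ℝ) * ((m i + b * (n i - 1)) * β j - 1) =
          β j * ∑ i, (m i : ℝ) * w i + b * β j * ∑ i, (n i : ℝ) * w i -
            (b * β j + 1) * ∑ i, (w i : ℝ) := by
        rw [mul_sum, mul_sum, mul_sum, ← sum_add_distrib, ← sum_sub_distrib]
        exact sum_congr rfl fun i _ => by ring
      have e2 := hzW j
      rw [sumElim_dotProduct_sumElim, Option.elim_none, neg_dotProduct, dotProduct, e, hW', hσ']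
      push_cast at e2
      cases u
      · simp [dotProduct] at e2 ⊢
        linear_combination -e2
      · simp [dotProduct] at e2 ⊢
        linear_combination -e2
    · cases u <;> simp [dotProduct, Pi.single_apply] <;> ring
  · rintro ⟨_ | i, u⟩ ho
    · cases u
      · simp [dotProduct]
        linarith [Nat.cast_nonneg (α := ℝ) σ]
      · exact absurd rfl ho
    · cases u
      · simp [dotProduct, Pi.single_apply, hW']
        linarith [Nat.cast_nonneg (α := ℝ) (n i)]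
      · simp [dotProduct, Pi.single_apply, hW']
        omega

theorem h9_upper {δ : Type} [Fintype δ] [DecidableEq δ] {n k W b σ μ : ℕ} (t : ℕ → ℕ)
    (ht : ∀ j ≤ n + 2, 0 < t j) (h1 : t (n + 2) = 1) (hk : 0 < k) (w m m' : δ → ℕ)
    (hW : ∑ i, w i + 1 = W) (hw : ∀ i, w i ∣ W) (c : ℕ → ℤ) (hc0 : c 0 = 0)
    (hc : ∀ j < n + 2, c (j + 1) * t j - c j * t (j + 1) = W * Nat.gcd (t j) (t (j + 1)))
    (hup : c (n + 2) = μ + ∑ i, m i * w i) (hσ : σ + ∑ i, m' i * w i = W) (hb : b ≤ μ)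
    (hkb : k = μ + b * σ) :
    IsReflexiveFace (lectureHall fun i : Fin (n + 1) => k * t (i + 1))
      (n + 1 + (Fintype.card δ + 1)) := by
  obtain ⟨ν, rfl⟩ : ∃ ν, μ = ν + b := ⟨μ - b, by omega⟩
  choose α hα β hβ using fun j : Fin (n + 2) =>
    h37_int (d := Nat.lcm (t j) (t (j + 1))) ht j.2 (Nat.dvd_lcm_left _ _) (Nat.dvd_lcm_right _ _)
  have htR : ∀ j ≤ n + 2, (0 : ℝ) < t j := fun j hj => by exact_mod_cast ht j hj
  have hd : ∀ j : Fin (n + 2), (0 : ℝ) < Nat.lcm (t j) (t (j + 1)) := fun j => by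
    exact_mod_cast Nat.lcm_pos (ht _ (by omega)) (ht _ (by omega))
  have hq : ∀ (j : Fin (n + 2)) x l, (x ⬝ᵥ α j + l * β j) / Nat.lcm (t j) (t (j + 1)) =
      h37Y t x l (j + 1) - h37Y t x l j := fun j x l => by rw [hβ, mul_div_cancel_left₀ _ (hd j).ne']
  choose S hS using hw
  let x₀ : Fin (n + 1) → ℝ := fun i => c (i + 1)
  have hY : ∀ j ≤ n + 2, h37Y t x₀ (c (n + 2)) j = c j / t j := by
    intro j hj
    rcases j with _ | j
    · rw [h37Y_zero, hc0]; simp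
    by_cases e : j = n + 1
    · rw [e, h37Y_last, h1]; simp
    · exact h37Y_mid (t := t) x₀ _ ⟨j, by omega⟩
  have hx₀ : ∀ j : Fin (n + 2), x₀ ⬝ᵥ α j + c (n + 2) * β j = W := by
    intro j
    have e1 : (c (j + 1) : ℝ) * t j - c j * t (j + 1) =
        W * Nat.gcd (t j) (t (j + 1)) := by exact_mod_cast hc j j.2
    have e2 : (Nat.gcd (t j) (t (j + 1)) : ℝ) * Nat.lcm (t j) (t (j + 1)) = t j * t (j + 1) := by
      exact_mod_cast Nat.gcd_mul_lcm _ _
    have e3 := htR j (by omega)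
    have e4 := htR (j + 1) (by omega)
    rw [hβ, hY _ (by omega), hY _ (by omega), div_sub_div _ _ e4.ne' e3.ne', mul_comm (t _ : ℝ) (c _),
      e1, mul_div_assoc', div_eq_iff (by positivity)]
    linear_combination (W : ℝ) * e2
  have hup' : (c (n + 2) : ℝ) = (ν + b : ℕ) + ∑ i, (m i : ℝ) * w i := by exact_mod_cast hup
  have h := h9_fib2 (fun j : Fin (n + 2) => h37p t j) α β
    (fun j => Nat.lcm (t j) (t (j + 1))) (fun j => int_nat _) hα hd
    (fun i j => by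
      rw [← one_mul (β j : ℝ), hβ, h37Y_step ht]
      split_ifs <;> simp)
    (fun x l => by simp only [hq, h37Y_sum]) (fun x l => ?_)
    w S m m' (b := b) (ν := ν) hW (fun i => (hS i).symm) hσ x₀ (fun i => ⟨c (i + 1), rfl⟩)
    (fun j => by rw [← hup', hx₀])
  · have hkR : (0 : ℝ) < k := by exact_mod_cast hk
    have e : {x : Fin (n + 1) → ℝ | ∀ j, 0 ≤ x ⬝ᵥ α j + k * β j} =
        lectureHall fun i : Fin (n + 1) => k * t (i + 1) := by
      ext x
      have e1 : x ∈ lectureHall (fun i : Fin (n + 1) => k * t (i + 1)) ↔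
          (k : ℝ)⁻¹ • x ∈ lectureHall fun i : Fin (n + 1) => t (i + 1) := by
        simp only [lectureHall, Set.mem_ofPred_eq, Pi.smul_apply, smul_eq_mul, Nat.cast_mul,
          ← div_div, inv_mul_eq_div]
      rw [e1, h37_mem]
      refine forall_congr' fun j => ?_
      rw [← hq, smul_dotProduct, smul_eq_mul, le_div_iff₀ (hd j), zero_mul,
        ← mul_nonneg_iff_of_pos_left hkR (b := _ + 1 * _), mul_add, mul_inv_cancel_left₀ hkR.ne',
        one_mul]
    rw [← hkb, e] at h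
    exact (h.reindex (Fintype.equivOfCardEq (by simp; omega))).isReflexiveFace
  · funext i
    have h0 : (t (i + 1) : ℝ) ≠ 0 := by exact_mod_cast (ht _ (by omega)).ne'
    simp only [hq, Finset.sum_apply, Pi.smul_apply, smul_eq_mul, h37p]
    rw [Fin.sum_univ_eq_sum_range (fun j => (h37Y t x l (j + 1) - h37Y t x l j) *
      ((if j ≤ i then t (i + 1) else 0 : ℕ) : ℝ)),
      ← sum_range_add_sum_Ico _ (show (i : ℕ) + 1 ≤ n + 2 by omega),
      sum_eq_zero (s := Ico _ _) fun j hj => by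
        rw [if_neg (by have := (mem_Ico.1 hj).1; omega)]; simp,
      sum_congr rfl fun j hj => by rw [if_pos (by have := mem_range.1 hj; omega)],
      ← sum_mul, sum_range_sub, h37Y_zero, h37Y_mid, sub_zero, add_zero, div_mul_cancel₀ _ h0]

end Pool.Agent.Lib.MP_892d22_co
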