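import Pool.Agent.Lib.MP_892d22_co.H9Fib
import Pool.Agent.Lib.MP_892d22_co.H9Arith
import Pool.Agent.Lib.MP_892d22_co.H9Egy

namespace Pool.Agent.Lib.MP_892d22_co

open Finset

/-- The upper bound from a state `E` with `L ∣ E`, `J` greedy steps and one last step. -/
theorem h9_window {n : ℕ} (t : ℕ → ℕ) (h1 : t (n + 2) = 1) {L : ℕ} (hL : 0 < L)
    (htL : ∀ j ≤ n + 2, t j ∣ L) (J : ℕ) : ∃ X : ℕ, 0 < X ∧ ∀ i E W k : ℕ, Egy i E → L ∣ E →
      X ≤ E → W = gr E J * (∏ a ∈ range J, (gr E a + 1) + 1) → W ≤ L * k → k * X ≤ W * W →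
      IsReflexiveFace (lectureHall fun j : Fin (n + 1) => k * t (j + 1))
        (n + 1 + (i + J + 1 + 1)) := by
  obtain ⟨X, hX0, hX⟩ := h9_arith J L hL
  refine ⟨X, hX0, fun i E W k hE hLE hXE hW hk1 hk2 => ?_⟩
  have ht : ∀ j ≤ n + 2, 0 < t j := fun j hj => Nat.pos_of_dvd_of_pos (htL j hj) hL
  have hE0 := hE.pos
  obtain ⟨-, u, hu1, hu2⟩ := hE
  obtain ⟨v, hv1, hv2, hv3⟩ := h9_tail E J
  have hEP := gr_prod E J
  have hdv : ∀ a < J, gr E a + 1 ∣ ∏ a ∈ range J, (gr E a + 1) := fun a ha =>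
    dvd_prod_of_mem (fun a => gr E a + 1) (mem_range.2 ha)
  obtain ⟨P, hP⟩ : ∃ P, P = ∏ a ∈ range J, (gr E a + 1) := ⟨_, rfl⟩
  rw [← hP] at hW hv1 hEP hdv
  rw [hEP] at hW hv2
  have hP0 : 0 < P := by omega
  have hW0 : 0 < W := by rw [hW]; positivity
  have hLW : L ∣ W := hW ▸ (hLE.mul_right _).mul_right _
  have hh : ∀ j < n + 2, Nat.lcm (t j) (t (j + 1)) ∣ L := fun j hj =>
    Nat.lcm_dvd (htL _ (by omega)) (htL _ (by omega))
  obtain ⟨q, hq⟩ : ∃ q : ℕ → ℕ, ∀ j < n + 2, W = Nat.lcm (t j) (t (j + 1)) * q j :=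
    ⟨fun j => W / Nat.lcm (t j) (t (j + 1)),
      fun j hj => (Nat.mul_div_cancel' ((hh j hj).trans hLW)).symm⟩
  obtain ⟨b, σ, μ, m', n', m, nn, hb, hk, hσ, hμ⟩ := hX P W (∑ j ∈ range (n + 2), q j) k
    (fun a => gr E a + 1) (fun a => v a * (P + 1)) hP
    (fun a ha => by
      have e1 : gr E a + 1 ∣ v a + 1 := by
        have e2 := hdv a ha
        rw [← hv1, ← add_sum_erase _ _ (mem_range.2 ha), add_right_comm] at e2
        refine (Nat.dvd_add_left (dvd_sum fun a' ha' => ?_)).1 e2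
        rw [mem_erase, mem_range] at ha'
        exact hv3 a ha a' ha'.2 ha'.1.symm
      rw [mul_add_one, add_assoc]
      exact dvd_add ((hdv a ha).mul_left _) e1)
    (fun a ha a' ha' hne => (hv3 a ha a' ha' hne).mul_right _)
    (fun a ha => by rw [mul_right_comm, hv2 a ha, hW])
    (fun a _ => by
      have : E ≤ gr E a := by
        rw [gr_prod]; exact Nat.le_mul_of_pos_right _ (prod_pos fun _ _ => Nat.succ_pos _)
      omega)
    (by rw [hW]; exact Nat.mul_le_mul_right _ (hXE.trans (Nat.le_mul_of_pos_right _ hP0)))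
    (by
      rw [hq 0 (by omega)]
      exact Nat.mul_le_mul (Nat.le_of_dvd hL (hh 0 (by omega)))
        (single_le_sum (f := q) (fun _ _ => Nat.zero_le _) (mem_range.2 (by omega))))
    hk1 hk2
  have h := h9_upper (δ := Fin i ⊕ Fin J ⊕ Unit) (k := k) (W := W) (b := b) (σ := σ) (μ := μ) t
    ht h1 (Nat.pos_of_mul_pos_left (hW0.trans_le hk1))
    (Sum.elim (fun a => u a * (P * (P + 1))) (Sum.elim (fun a => v a * (P + 1)) fun _ => P))
    (Sum.elim 0 (Sum.elim (fun a => m a) fun _ => m'))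
    (Sum.elim 0 (Sum.elim (fun a => nn a) fun _ => n')) ?_ ?_
    (fun j => t j * ∑ a ∈ range j, q a) (by simp) (fun j hj => ?_) ?_ ?_ hb hk
  · simpa [add_assoc] using h
  · simp only [Fintype.sum_sum_type, Sum.elim_inl, Sum.elim_inr, ← sum_mul, univ_unique,
      sum_singleton]
    rw [Fin.sum_univ_eq_sum_range v, hW, ← hu1]
    generalize ∑ a ∈ range J, v a = S at hv1
    rw [← hv1]
    ring
  · rintro (a | a | a)
    · simp only [Sum.elim_inl]
      rw [hW, mul_assoc]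
      exact Nat.mul_dvd_mul_right (hu2 a) _
    · simp only [Sum.elim_inl, Sum.elim_inr]
      rw [hW, ← hv2 a a.2]
      exact Nat.mul_dvd_mul_right (dvd_mul_right _ _) _
    · simp only [Sum.elim_inr]
      rw [hW]
      exact (dvd_mul_left _ _).mul_right _
  · have e1 : (W : ℤ) = Nat.lcm (t j) (t (j + 1)) * q j := by exact_mod_cast hq j hj
    have e2 : (Nat.gcd (t j) (t (j + 1)) : ℤ) * Nat.lcm (t j) (t (j + 1)) = t j * t (j + 1) := by
      exact_mod_cast Nat.gcd_mul_lcm _ _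
    simp only [sum_range_succ, Nat.cast_add]
    rw [e1]
    linear_combination -(q j : ℤ) * e2
  · simp only [Fintype.sum_sum_type, Sum.elim_inl, Sum.elim_inr, univ_unique, sum_singleton,
      Pi.zero_apply, h1]
    rw [← Fin.sum_univ_eq_sum_range (fun a => m a * (v a * (P + 1)))] at hμ
    have := congrArg (Nat.cast (R := ℤ)) hμ
    push_cast at this ⊢
    simp [← this]
  · simp only [Fintype.sum_sum_type, Sum.elim_inl, Sum.elim_inr, univ_unique, sum_singleton,
      Pi.zero_apply]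
    rw [← Fin.sum_univ_eq_sum_range (fun a => nn a * (v a * (P + 1)))] at hσ
    simpa using hσ

lemma h9_ext {n : ℕ} (t : Fin (n + 1) → ℕ) (ht : ∀ j, 0 < t j) : ∃ (L : ℕ) (t' : ℕ → ℕ), 0 < L ∧
    (∀ j, t j ∣ L) ∧ (∀ j : Fin (n + 1), t' (j + 1) = t j) ∧ t' (n + 2) = 1 ∧ ∀ j, t' j ∣ L := by
  have htL : ∀ j, t j ∣ ∏ j, t j := fun j => dvd_prod_of_mem t (mem_univ j)
  refine ⟨∏ j, t j, fun k => if h : 1 ≤ k ∧ k ≤ n + 1 then t ⟨k - 1, by omega⟩ else 1,
    prod_pos fun j _ => ht j, htL, fun j => ?_, ?_, fun k => ?_⟩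
  · have : 1 ≤ (j : ℕ) + 1 ∧ (j : ℕ) + 1 ≤ n + 1 := by omega
    simp [this]
  · simp
  · dsimp only
    split_ifs
    exacts [htL _, one_dvd _]

/-- Around `sylD R` one more dimension always suffices. -/
theorem h9_two {n : ℕ} (t : Fin (n + 1) → ℕ) (ht : ∀ j, 0 < t j) :
    ∃ R₀ : ℕ, ∀ R ≥ R₀, ∀ k : ℕ, (sylD R : ℝ) ^ (4 / 5 : ℝ) ≤ k →
      (k : ℝ) ≤ (sylD R : ℝ) ^ (6 / 5 : ℝ) →
      IsReflexiveFace (lectureHall fun j => k * t j) (n + 1 + (R + 1)) := by
  obtain ⟨L, t', hL0, -, t1, t2, t3⟩ := h9_ext t ht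
  obtain ⟨X, hX0, hX⟩ := h9_window (n := n) t' t2 hL0 (fun j _ => t3 j) 1
  obtain ⟨i₀, M, hM, hLM⟩ := exists_good L hL0 (9 / 10) (by norm_num) (by norm_num)
  obtain ⟨s₀, hs₀⟩ := log_sylD_big (2 * Real.log X + 16 * Real.log 2)
  refine ⟨i₀ + (X + s₀) + 1 + 1, fun R hR k hlow hup => ?_⟩
  obtain ⟨s, rfl⟩ : ∃ s, R = i₀ + s + 1 + 1 := ⟨R - (i₀ + 1 + 1), by omega⟩
  have hE := hM.gr (by norm_num) s
  have hXE : X ≤ gr M s := by have := gr_ge hM.1.pos s; omega
  have hLE : L ∣ gr M s := by rw [gr_prod]; exact hLM.mul_right _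
  have hl := hs₀ (i₀ + s) (by omega)
  generalize gr M s = E at hE hXE hLE
  generalize i₀ + s = i at *
  have hD2 : (0 : ℝ) < sylD (i + 1 + 1) := by exact_mod_cast sylD_pos _
  have hD : (1 : ℝ) ≤ sylD i := by exact_mod_cast sylD_pos _
  have hkR : (0 : ℝ) < k := (Real.rpow_pos_of_pos hD2 _).trans_le hlow
  have hE0 : (0 : ℝ) < E := by exact_mod_cast hE.1.pos
  have hX0' : (1 : ℝ) ≤ X := by exact_mod_cast hX0
  have hED : (E : ℝ) ≤ sylD i := by exact_mod_cast hE.1.1
  have e1 := Real.log_le_log hkR hup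
  have e2 := Real.log_le_log (Real.rpow_pos_of_pos hD2 _) hlow
  rw [Real.log_rpow hD2] at e1 e2
  have e3 := (Real.log_le_log hD2 (le_add_of_nonneg_right zero_le_one)).trans (log_sylD (i + 1))
  have e4 := log_sylD i
  have e5 : 4 * Real.log (sylD i) ≤ Real.log (sylD (i + 1 + 1)) := by
    have : (sylD i : ℝ) ^ 4 ≤ sylD (i + 1 + 1) := by
      simp only [sylD]; push_cast; nlinarith [pow_pos (zero_lt_one.trans_le hD) 3]
    simpa using Real.log_le_log (by positivity) this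
  have e6 : Real.log (sylD i + 1) ≤ Real.log 2 + Real.log (sylD i) := by
    rw [← Real.log_mul (by positivity) (by positivity)]
    exact Real.log_le_log (by positivity) (by linarith)
  have e7 := hE.2
  have e8 := Real.log_nonneg hX0'
  have e9 := Real.log_nonneg (one_le_two (α := ℝ))
  have hW : ((E * (E + 1) * (E + 1 + 1) : ℕ) : ℝ) = E * (E + 1) * (E + 2) := by push_cast; ring
  have h := hX i E (E * (E + 1) * (E + 1 + 1)) k hE.1 hLE hXE (by simp [gr]) ?_ ?_
  · simp only [t1] at h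
    exact h
  · refine le_trans ?_ (Nat.le_mul_of_pos_left _ hL0)
    have f1 : (E : ℝ) * (E + 1) * (E + 2) ≤ (sylD i + 1) ^ 3 :=
      le_trans (by nlinarith) (pow_le_pow_left₀ (by positivity) (add_le_add_left hED 1) 3)
    have f2 : Real.log ((sylD i + 1) ^ 3) ≤ Real.log k := by
      rw [Real.log_pow]; push_cast; linarith
    rw [Real.log_le_log_iff (by positivity) hkR] at f2
    exact_mod_cast hW.trans_le (f1.trans f2)
  · have f1 : (E : ℝ) ^ 3 ≤ E * (E + 1) * (E + 2) := by nlinarith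
    have f2 : Real.log (k * X) ≤ Real.log (E ^ 3 * E ^ 3) := by
      rw [Real.log_mul hkR.ne' (by positivity), Real.log_mul (by positivity) (by positivity),
        Real.log_pow]
      push_cast; linarith
    rw [Real.log_le_log_iff (by positivity) (by positivity)] at f2
    have f3 := f2.trans (mul_le_mul f1 f1 (by positivity) (by positivity))
    rw [← hW] at f3
    exact_mod_cast f3

theorem h9_main {n : ℕ} (t : Fin (n + 1) → ℕ) (ht : ∀ j, 0 < t j) {ε : ℝ} (hε : 0 < ε) :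
    ∃ R₀ : ℕ, ∀ R ≥ R₀, ∀ (k : ℕ) (i : Fin (n + 1)),
      sylD R * (∑ j, 1 / (t j : ℝ) + 1 / t i) < k → (k : ℝ) ≤ (sylD (R + 1) : ℝ) ^ (1 - ε) →
      IsLeast {d | IsReflexiveFace (lectureHall fun j => k * t j) d} (n + 1 + (R + 1)) := by
  wlog hε1 : ε ≤ 1 generalizing ε
  · obtain ⟨R₀, h⟩ := this one_pos le_rfl
    refine ⟨R₀, fun R hR k i h1 h2 => h R hR k i h1 (h2.trans ?_)⟩
    exact Real.rpow_le_rpow_of_exponent_le (by exact_mod_cast sylD_pos _) (by linarith)
  obtain ⟨L, t', hL0, htL, t1, t2, t3⟩ := h9_ext t ht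
  obtain ⟨J, hJ⟩ := pow_unbounded_of_one_lt (3 / ε) (one_lt_two (α := ℝ))
  rw [div_lt_iff₀ hε] at hJ
  obtain ⟨X, hX0, hX⟩ := h9_window (n := n) t' t2 hL0 (fun j _ => t3 j) J
  obtain ⟨i₀, M, hM, hLM⟩ := exists_good L hL0 (1 - ε / 2) (by linarith) (by linarith)
  refine ⟨i₀ + X + J + 1, fun R hR k i hlow hup => ?_⟩
  obtain ⟨s, rfl⟩ : ∃ s, R = i₀ + s + J + 1 := ⟨R - (i₀ + J + 1), by omega⟩
  have hD : (0 : ℝ) < sylD (i₀ + s + J + 1) := by exact_mod_cast sylD_pos _
  have hkR : (0 : ℝ) < k := lt_of_le_of_lt (by positivity) hlow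
  have hk : 0 < k := by exact_mod_cast hkR
  refine ⟨?_, fun m hm => ?_⟩
  · have hE := hM.gr (by linarith) s
    have hXE : X ≤ gr M s := by have := gr_ge hM.1.pos s; omega
    have hLE : L ∣ gr M s := by rw [gr_prod]; exact hLM.mul_right _
    generalize gr M s = E at hE hXE hLE
    have hEP := gr_prod E J
    have hW := (hE.1.gr J).move (δ := ∏ a ∈ range J, (gr E a + 1)) (hEP ▸ dvd_mul_left _ _)
    have hG := hE.gr (by linarith) (J + 1)
    have h := hX _ E _ k hE.1 hLE hXE rfl ?_ ?_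
    · simp only [t1] at h
      exact h
    · refine hW.1.trans ?_
      have e1 : (t i : ℝ) ≤ L := by exact_mod_cast Nat.le_of_dvd hL0 (htL i)
      have e2 : (0 : ℝ) < t i := by exact_mod_cast ht i
      have e3 : (sylD (i₀ + s + J + 1) : ℝ) * (1 / t i) ≤ k :=
        le_trans (mul_le_mul_of_nonneg_left (le_add_of_nonneg_left (by positivity)) hD.le) hlow.le
      rw [mul_one_div, div_le_iff₀ e2] at e3
      have e4 : (sylD (i₀ + s + J + 1) : ℝ) ≤ L * k := by nlinarith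
      exact_mod_cast e4
    · have hE0 : (0 : ℝ) < E := by exact_mod_cast hE.1.pos
      have hX0' : (0 : ℝ) < X := by exact_mod_cast hX0
      have e1 : gr E (J + 1) ≤ gr E J * (∏ a ∈ range J, (gr E a + 1) + 1) * E := by
        rw [gr, mul_assoc]
        refine Nat.mul_le_mul_left _ ?_
        rw [add_mul, mul_comm _ E, ← hEP]
        have := hE.1.pos
        omega
      have hW0 := hW.pos
      generalize gr E J * (∏ a ∈ range J, (gr E a + 1) + 1) = W at e1 hW0
      have hW0' : (0 : ℝ) < W := by exact_mod_cast hW0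
      have hG0 : (0 : ℝ) < gr E (J + 1) := by exact_mod_cast hG.1.pos
      have e2 : Real.log (gr E (J + 1)) ≤ Real.log W + Real.log E := by
        rw [← Real.log_mul hW0'.ne' hE0.ne']
        exact Real.log_le_log hG0 (by exact_mod_cast e1)
      have e3 : 2 ^ (J + 1) * Real.log E ≤ Real.log (sylD (i₀ + s + J + 1) + 1) := by
        have e4 : E ^ 2 ^ (J + 1) ≤ sylD (i₀ + s + J + 1) + 1 :=
          ((gr_pow E _).trans hG.1.1).trans (Nat.le_succ _)
        have e5 := Real.log_le_log (pow_pos hE0 _) (show (E : ℝ) ^ 2 ^ (J + 1) ≤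
          sylD (i₀ + s + J + 1) + 1 by exact_mod_cast e4)
        rwa [Real.log_pow, Nat.cast_pow, Nat.cast_ofNat] at e5
      have e4 := hG.2
      have hD' : (0 : ℝ) < sylD (i₀ + s + J + 1 + 1) := by exact_mod_cast sylD_pos _
      have e5 := Real.log_le_log hkR hup
      rw [Real.log_rpow hD'] at e5
      have e6 := (Real.log_le_log hD' (le_add_of_nonneg_right zero_le_one)).trans
        (log_sylD (i₀ + s + J + 1))
      have e7 := mul_le_mul_of_nonneg_left e6 (sub_nonneg.2 hε1)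
      have e8 : Real.log X ≤ Real.log E := Real.log_le_log hX0' (by exact_mod_cast hXE)
      have e9 : 0 ≤ Real.log E := Real.log_nonneg (by exact_mod_cast hE.1.pos)
      rw [← add_assoc] at e4
      generalize Real.log (sylD (i₀ + s + J + 1) + 1) = l at e3 e4 e7
      have e10 : 3 * Real.log E ≤ ε * l := by
        have := mul_le_mul_of_nonneg_left e3 hε.le
        rw [pow_succ] at this
        nlinarith
      have e11 : Real.log (k * X) ≤ Real.log (W * W) := by
        rw [Real.log_mul hkR.ne' hX0'.ne', Real.log_mul hW0'.ne' hW0'.ne']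
        linarith
      rw [Real.log_le_log_iff (by positivity) (by positivity)] at e11
      exact_mod_cast e11
  · obtain ⟨h2, h3⟩ := h72_lower _ (fun j => Nat.mul_pos hk (ht j)) hm i
    by_contra hlt
    have h4 : (sylD (m - (n + 1)) : ℝ) ≤ sylD (i₀ + s + J + 1) := by
      exact_mod_cast sylD_mono (by omega)
    simp only [Nat.cast_mul, ← div_div, div_right_comm 1 (k : ℝ), ← sum_div, ← add_div,
      ← mul_div_assoc, le_div_iff₀ hkR] at h3
    have h5 : 0 ≤ ∑ j, 1 / (t j : ℝ) + 1 / t i := by positivity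
    nlinarith

end Pool.Agent.Lib.MP_892d22_co
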