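import Pool.Agent.Lib.MP_892d22_co.Simp

namespace Pool.Agent.Lib.MP_892d22_co

open Matrix

lemma exists_sylv (e : ℕ) : ∃ (a : ℕ) (L : List ℕ), 2 ^ 2 ^ e ≤ a ∧ L.length = e + 1 ∧
    (∀ x ∈ L, x ∣ a) ∧ L.sum + 1 = a := by
  induction e with
  | zero => exact ⟨2, [1], by norm_num, rfl, by simp, rfl⟩
  | succ e ih =>
    obtain ⟨a, L, h1, h2, h3, h4⟩ := ih
    refine ⟨a * (a + 1), a :: L.map (· * (a + 1)), ?_, by simp [h2], ?_, ?_⟩
    · rw [pow_succ, pow_mul, sq]
      exact Nat.mul_le_mul h1 (h1.trans (Nat.le_succ a))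
    · intro x hx
      rcases List.mem_cons.1 hx with rfl | hx
      · exact Dvd.intro _ rfl
      · obtain ⟨y, hy, rfl⟩ := List.mem_map.1 hx
        exact Nat.mul_dvd_mul_right (h3 y hy) _
    · rw [List.sum_cons, List.sum_map_mul_right, List.map_id', ← h4]
      ring

lemma exists_fact_divisors (m : ℕ) : ∀ r ≤ m.factorial, ∃ L : List ℕ, L.length ≤ m + 1 ∧
    (∀ x ∈ L, x ∣ m.factorial) ∧ L.sum = r := by
  induction m with
  | zero =>
    intro r hr
    interval_cases r
    · exact ⟨[], by simp, by simp, rfl⟩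
    · exact ⟨[1], by simp, by simp, rfl⟩
  | succ m ih =>
    intro r hr
    have h1 : r / (m + 1) ≤ m.factorial :=
      Nat.div_le_of_le_mul (by rwa [Nat.factorial_succ] at hr)
    obtain ⟨L, h2, h3, h4⟩ := ih _ h1
    have h5 : ∀ x ∈ L.map ((m + 1) * ·), x ∣ (m + 1).factorial := by
      intro x hx
      obtain ⟨y, hy, rfl⟩ := List.mem_map.1 hx
      rw [Nat.factorial_succ]
      exact Nat.mul_dvd_mul_left _ (h3 y hy)
    have h6 : (L.map ((m + 1) * ·)).sum = (m + 1) * (r / (m + 1)) := by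
      rw [List.sum_map_mul_left, List.map_id', h4]
    by_cases h0 : r % (m + 1) = 0
    · refine ⟨L.map ((m + 1) * ·), by simpa using h2.trans (Nat.le_succ _), h5, ?_⟩
      have := Nat.div_add_mod r (m + 1)
      omega
    · refine ⟨r % (m + 1) :: L.map ((m + 1) * ·), by simpa using h2, ?_, ?_⟩
      · intro x hx
        rcases List.mem_cons.1 hx with rfl | hx
        · exact Nat.dvd_factorial (Nat.pos_of_ne_zero h0) (Nat.mod_lt _ (Nat.succ_pos m)).le
        · exact h5 x hx
      · rw [List.sum_cons, h6]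
        have := Nat.div_add_mod r (m + 1)
        omega

lemma Cert.dilate_fin {κ : Type} {P : Set (κ → ℝ)} {m : ℕ} (h : Cert P (Fin m)) {k e : ℕ}
    (hk0 : 0 < k) (hk : k ≤ 2 ^ (2 ^ e + 1)) :
    Cert ((fun x => (k : ℝ) • x) '' P) (Fin (m + e + 2)) := by
  obtain ⟨a, L, h1, h2, h3, h4⟩ := exists_sylv e
  have h5 := h.dilate (δ := Option (Fin L.length)) (fun o => o.elim 1 fun i => 2 * L.get i)
    (fun o => o.elim (2 * a) fun i => a / L.get i) (W := 2 * a) ?_ ?_ none rfl hk0
    (by rw [pow_succ] at hk; omega)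
  · refine h5.reindex (Fintype.equivOfCardEq ?_)
    simp [h2]
    omega
  · rw [Fintype.sum_option]
    simp only [Option.elim_none, Option.elim_some, ← Finset.mul_sum, List.get_eq_getElem,
      Fin.sum_univ_getElem]
    omega
  · rintro (_ | i)
    · simp
    · simp only [Option.elim_some]
      rw [mul_assoc, Nat.mul_div_cancel' (h3 _ (List.get_mem L i))]

lemma cert_lectureHall {n : ℕ} (t : Fin (n + 1) → ℕ) (ht : ∀ i, 0 < t i) {W : ℕ}
    (htW : ∀ i, t i ∣ W) (L : List ℕ) (hL : ∀ x ∈ L, x ∣ W) (hW : W = L.sum + n + 3) :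
    Cert (lectureHall t) (Fin (n + L.length + 2)) := by
  have hW0 : (0 : ℝ) < W := by exact_mod_cast (show 0 < W by omega)
  have htR : ∀ i, (0 : ℝ) < t i := fun i => by exact_mod_cast ht i
  have hc : ∀ i, ((W / t i : ℕ) : ℝ) = W / t i := fun i => Nat.cast_div (htW i) (htR i).ne'
  let a : Fin (n + 1) → Fin (n + 1) → ℝ := fun i => Fin.cases
    (Pi.single 0 ((W / t 0 : ℕ) : ℝ)) (fun i => Pi.single i.succ ((W / t i.succ : ℕ) : ℝ) +
      -Pi.single i.castSucc ((W / t i.castSucc : ℕ) : ℝ)) i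
  let p : Fin (n + 1) → Fin (n + 1) → ℝ := fun i j => ((if i ≤ j then t j else 0 : ℕ) : ℝ)
  have a0 : ∀ x : Fin (n + 1) → ℝ, x ⬝ᵥ a 0 = W * (x 0 / t 0) := by
    intro x
    simp only [a, Fin.cases_zero, dotProduct_single, hc]
    ring
  have as : ∀ (x : Fin (n + 1) → ℝ) (i : Fin n), x ⬝ᵥ a i.succ =
      W * (x i.succ / t i.succ) - W * (x i.castSucc / t i.castSucc) := by
    intro x i
    simp only [a, Fin.cases_succ, dotProduct_add, dotProduct_neg, dotProduct_single, hc]
    ring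
  have hp : ∀ i j, p i j / t j = if i ≤ j then 1 else 0 := by
    intro i j
    simp only [p]
    split_ifs
    · exact div_self (htR j).ne'
    · simp
  have h1 := cert_simplex (T := Fin L.length) p a (fun i => int_nat _) ?_ L.get
    (fun i => W / L.get i) (W := W) ?_ ?_ ?_
  · have h2 : {x : Fin (n + 1) → ℝ | (∀ i, 0 ≤ x ⬝ᵥ a i) ∧ ∑ i, x ⬝ᵥ a i ≤ W} = lectureHall t := by
      ext x
      have h3 : ∑ i, x ⬝ᵥ a i = W * (x (Fin.last n) / t (Fin.last n)) := by
        have h4 := Fin.sum_univ_succ fun i => W * (x i / t i)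
        have h5 := Fin.sum_univ_castSucc fun i => W * (x i / t i)
        rw [Fin.sum_univ_succ, a0]
        simp only [as, Finset.sum_sub_distrib]
        linarith
      simp only [lectureHall, Set.mem_ofPred_eq, h3, Fin.forall_fin_succ, a0, as, sub_nonneg,
        mul_le_mul_iff_right₀ hW0, mul_nonneg_iff_of_pos_left hW0, mul_le_iff_le_one_right hW0,
        and_assoc]
    rw [h2] at h1
    refine h1.reindex (Fintype.equivOfCardEq ?_)
    simp
    omega
  · intro i
    refine Fin.cases ?_ (fun i => ?_) i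
    · exact int_single _ _
    · exact int_add (int_single _ _) (int_neg (int_single _ _))
  · simp only [List.get_eq_getElem, Fin.sum_univ_getElem, Fintype.card_fin]
    omega
  · intro i
    exact Nat.mul_div_cancel' (hL _ (List.get_mem L i))
  · intro i j
    refine Fin.cases ?_ (fun j => ?_) j
    · rw [a0, hp]
      by_cases h : i = 0
      · simp [h]
      · rw [if_neg h, if_neg (fun h' => h (Fin.le_zero_iff.1 h')), mul_zero]
    · rw [as, hp, hp]
      simp only [Fin.le_def, Fin.ext_iff, Fin.val_succ, Fin.val_castSucc]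
      split_ifs <;> first | omega | simp

lemma lectureHall_mul {n : ℕ} (t : Fin (n + 1) → ℕ) (ht : ∀ i, 0 < t i) {g : ℕ} (hg : 0 < g) :
    lectureHall (fun i => g * t i) = (fun x => (g : ℝ) • x) '' lectureHall t := by
  have hgR : (0 : ℝ) < g := by exact_mod_cast hg
  have key : ∀ x : Fin (n + 1) → ℝ,
      (g : ℝ) • x ∈ lectureHall (fun i => g * t i) ↔ x ∈ lectureHall t := by
    intro x
    simp only [lectureHall, Set.mem_ofPred_eq, Pi.smul_apply, smul_eq_mul, Nat.cast_mul,
      mul_div_mul_left _ _ hgR.ne']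
  ext x
  constructor
  · intro hx
    refine ⟨(g : ℝ)⁻¹ • x, (key _).1 ?_, ?_⟩ <;> simp only [smul_inv_smul₀ hgR.ne', hx]
  · rintro ⟨y, hy, rfl⟩
    exact (key y).2 hy

theorem dilation {n m k e : ℕ} {P : Set (Fin n → ℝ)} (hP : P.Nonempty)
    (h : IsReflexiveFace P m) (hk0 : 0 < k) (hk : k ≤ 2 ^ (2 ^ e + 1)) :
    IsReflexiveFace ((fun x => (k : ℝ) • x) '' P) (m + e + 2) :=
  ((h.cert hP).dilate_fin hk0 hk).isReflexiveFace

theorem general_bound {n : ℕ} (t : Fin (n + 1) → ℕ) (ht : ∀ i, 0 < t i) {g N m e : ℕ}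
    (hN0 : 0 < N) (htN : ∀ i, t i ∣ N) (hN : N ≤ m.factorial) (hn : n + 3 ≤ m.factorial * N)
    (hg0 : 0 < g) (hg : g ≤ 2 ^ (2 ^ e + 1)) :
    ∃ D ≤ (n + 1) + 2 * m + e + 5, IsReflexiveFace (lectureHall fun i => g * t i) D := by
  set r := m.factorial * N - (n + 3) with hr
  obtain ⟨L₁, h1, h2, h3⟩ := exists_fact_divisors m (r / N)
    (Nat.div_le_of_le_mul (by rw [mul_comm]; omega))
  obtain ⟨L₂, h4, h5, h6⟩ := exists_fact_divisors m (r % N) ((Nat.mod_lt _ hN0).le.trans hN)
  have h7 := cert_lectureHall t ht (W := m.factorial * N) (fun i => (htN i).mul_left _)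
    (L₁.map (· * N) ++ L₂) ?_ ?_
  · refine ⟨_, ?_, lectureHall_mul t ht hg0 ▸ (h7.dilate_fin hg0 hg).isReflexiveFace⟩
    simp only [List.length_append, List.length_map]
    omega
  · intro x hx
    rcases List.mem_append.1 hx with hx | hx
    · obtain ⟨y, hy, rfl⟩ := List.mem_map.1 hx
      exact Nat.mul_dvd_mul_right (h2 y hy) _
    · exact (h5 x hx).mul_right _
  · rw [List.sum_append, List.sum_map_mul_right, List.map_id', h3, h6]
    have := Nat.div_add_mod' r N
    omega

end Pool.Agent.Lib.MP_892d22_co
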